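import Pool.Agent.MP_ca1109_lc.Hyb.B5a

/-!
# Small bias and real polynomials
-/

namespace Pool.Agent.MP_ca1109_lc.Hyb

open Pool.Agent.MP_ca1109_lc.Mpg Pool.Agent.MP_ca1109_lc.Agp Finset

/- PROOF NOTES [HYB-E4].  `r = ∑ S, wc r S * ch S` (`walsh_expand`), `wc r S = 0` for `D < S.card` (`wc_zero`), `wc r ∅ = avg r`, `|wc r S| ≤ avg |r|` (`|ch S x| = 1`), `ch S x = (-1) ^ S.card * sgn S x` (as a complex number: `sg true = 1`, the
character `Agp.sgn` has `-1` at `true`): `|nr M (ch S (X p))| ≤ β` for `S ≠ ∅` (`nr_ofReal`); the number of `S` with `S.card ≤ D` is at most `(n + 1) ^ D` (`∑_{j ≤ D} choose n j ≤ (n + 1) ^ D`, e.g. the surjection from functions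
`Fin D → Option (Fin n)` onto these sets). -/

theorem e4_sg (b : Bool) : |sg b| = 1 := by
  unfold sg
  cases b <;> simp

theorem e4_ch {n : ℕ} (S : Finset (Fin n)) (x : Fin n → Bool) : |ch S x| = 1 := by
  unfold ch
  rw [Finset.abs_prod]
  exact Finset.prod_eq_one (fun i _ => e4_sg _)

theorem e4_sgn {n : ℕ} (S : Finset (Fin n)) (x : Fin n → Bool) :
    ((ch S x : ℝ) : ℂ) = (-1) ^ S.card * Agp.sgn S x := by
  unfold ch Agp.sgn
  rw [← Finset.prod_const, ← Finset.prod_mul_distrib, Complex.ofReal_prod]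
  refine Finset.prod_congr rfl (fun i _ => ?_)
  unfold sg
  cases x i <;> simp

theorem e4_wc {n : ℕ} (r : (Fin n → Bool) → ℝ) (S : Finset (Fin n)) :
    |wc r S| ≤ avg (fun x => |r x|) := by
  unfold wc avg
  rw [abs_div, abs_of_nonneg (a := ((Fintype.card (Fin n → Bool) : ℕ) : ℝ)) (Nat.cast_nonneg _)]
  apply div_le_div_of_nonneg_right _ (Nat.cast_nonneg _)
  refine (Finset.abs_sum_le_sum_abs _ _).trans (le_of_eq ?_)
  refine Finset.sum_congr rfl (fun x _ => ?_)
  rw [abs_mul, e4_ch, mul_one]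

theorem e4_empty {n : ℕ} (r : (Fin n → Bool) → ℝ) : wc r ∅ = avg r := by
  unfold wc
  congr 1
  funext x
  simp [ch]

theorem e4_card (n D : ℕ) :
    (univ.filter fun S : Finset (Fin n) => S.card ≤ D).card ≤ (n + 1) ^ D := by
  classical
  have h1 : (univ.filter fun S : Finset (Fin n) => S.card ≤ D) ⊆
      (univ : Finset (Fin D → Option (Fin n))).image
        (fun f => univ.filter fun i => ∃ j, f j = some i) := by
    intro S hS
    rw [Finset.mem_filter] at hS
    rw [Finset.mem_image]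
    refine ⟨fun j => if h : (j : ℕ) < S.card then some (S.equivFin.symm ⟨j, h⟩ : Fin n) else none,
      Finset.mem_univ _, ?_⟩
    ext i
    simp only [Finset.mem_filter, Finset.mem_univ, true_and]
    constructor
    · rintro ⟨j, hj⟩
      by_cases h : (j : ℕ) < S.card
      · rw [dif_pos h, Option.some.injEq] at hj
        rw [← hj]
        exact (S.equivFin.symm ⟨j, h⟩).2
      · rw [dif_neg h] at hj
        exact absurd hj (by simp)
    · intro hi
      refine ⟨⟨(S.equivFin ⟨i, hi⟩ : Fin S.card), lt_of_lt_of_le (Fin.is_lt _) hS.2⟩, ?_⟩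
      simp
  refine (Finset.card_le_card h1).trans (Finset.card_image_le.trans (le_of_eq ?_))
  rw [Finset.card_univ, Fintype.card_fun, Fintype.card_option, Fintype.card_fin, Fintype.card_fin]

theorem e4_bias {n M : ℕ} (X : ℕ → Fin n → Bool) {β : ℝ} (S : Finset (Fin n))
    (h : ‖na M (fun p => Agp.sgn S (X p))‖ ≤ β) : |nr M (fun p => ch S (X p))| ≤ β := by
  have h1 : ((nr M (fun p => ch S (X p)) : ℝ) : ℂ) =
      (-1) ^ S.card * na M (fun p => Agp.sgn S (X p)) := by
    rw [nr_ofReal, ← na_mul_left]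
    congr 1
    funext p
    exact e4_sgn S (X p)
  have h2 : |nr M (fun p => ch S (X p))| = ‖((nr M (fun p => ch S (X p)) : ℝ) : ℂ)‖ := by
    rw [Complex.norm_real, Real.norm_eq_abs]
  rw [h2, h1, norm_mul, norm_pow, norm_neg, norm_one, one_pow, one_mul]
  exact h

theorem close_of_bias {n M D : ℕ} (X : ℕ → Fin n → Bool) {β : ℝ}
    (h : ∀ S : Finset (Fin n), S ≠ ∅ → ‖na M (fun p => Agp.sgn S (X p))‖ ≤ β) (hM : 0 < M)
    (hβ : 0 ≤ β) {r : (Fin n → Bool) → ℝ} (hr : r ∈ lowDeg (Fin n) Bool ℝ D) :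
    |nr M (fun p => r (X p)) - avg r| ≤ β * ((n : ℝ) + 1) ^ D * avg (fun x => |r x|) := by
  classical
  have h1 : nr M (fun p => r (X p)) = ∑ S, wc r S * nr M (fun p => ch S (X p)) := by
    rw [nr_congr (G := fun p => ∑ S, wc r S * ch S (X p)) (fun p _ => walsh_expand r (X p)), nr_sum]
    exact Finset.sum_congr rfl (fun S _ => nr_mul_left _ _ _)
  have h2 : nr M (fun p => ch ∅ (X p)) = 1 := by
    rw [← nr_const hM 1]
    apply nr_congr
    intro p _
    simp [ch]
  have h3 : nr M (fun p => r (X p)) - avg r =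
      ∑ S ∈ univ.erase ∅, wc r S * nr M (fun p => ch S (X p)) := by
    rw [h1, ← Finset.add_sum_erase _ _ (Finset.mem_univ (∅ : Finset (Fin n))), h2, e4_empty, mul_one]
    ring
  have h4 : ∀ S ∈ (univ : Finset (Finset (Fin n))).erase ∅,
      |wc r S * nr M (fun p => ch S (X p))| ≤
        if S.card ≤ D then β * avg (fun x => |r x|) else 0 := by
    intro S hS
    have hne := (Finset.mem_erase.1 hS).1
    split_ifs with hc
    · rw [abs_mul, mul_comm β]
      exact mul_le_mul (e4_wc r S) (e4_bias X S (h S hne)) (abs_nonneg _)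
        (avg_nonneg fun x => abs_nonneg _)
    · rw [wc_zero hr (by omega), zero_mul, abs_zero]
  have hav : 0 ≤ avg (fun x => |r x|) := avg_nonneg fun x => abs_nonneg _
  rw [h3]
  refine (Finset.abs_sum_le_sum_abs _ _).trans ((Finset.sum_le_sum h4).trans ?_)
  have h5 : ∑ S ∈ (univ : Finset (Finset (Fin n))).erase ∅,
      (if S.card ≤ D then β * avg (fun x => |r x|) else 0) ≤
      ∑ S : Finset (Fin n), (if S.card ≤ D then β * avg (fun x => |r x|) else 0) := by
    apply Finset.sum_le_sum_of_subset_of_nonneg (Finset.erase_subset _ _)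
    intro S _ _
    split_ifs
    · exact mul_nonneg hβ hav
    · exact le_rfl
  refine h5.trans ?_
  rw [← Finset.sum_filter, Finset.sum_const, nsmul_eq_mul]
  have h6 : ((univ.filter fun S : Finset (Fin n) => S.card ≤ D).card : ℝ) ≤ ((n : ℝ) + 1) ^ D := by
    exact_mod_cast e4_card n D
  calc ((univ.filter fun S : Finset (Fin n) => S.card ≤ D).card : ℝ) * (β * avg (fun x => |r x|))
      ≤ ((n : ℝ) + 1) ^ D * (β * avg (fun x => |r x|)) :=
        mul_le_mul_of_nonneg_right h6 (mul_nonneg hβ hav)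
    _ = _ := by ring

end Pool.Agent.MP_ca1109_lc.Hyb
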