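import Pool.Agent.MP_ca1109_lc.Hyb.Defs

/-!
# Random blocks
-/

namespace Pool.Agent.MP_ca1109_lc.Hyb

open Pool.Agent.MP_ca1109_lc.Mpg Pool.Agent.MP_ca1109_lc.Agp Finset

/- PROOF NOTES [HYB-E4b].  `hash_blocks`: for `i ≠ j`: `nr (16 ^ κ) (1[bk i = bk j]) = 1 / 2 ^ t` (`κ = clog 2 n + t`): `bk t n q i = hs κ q i / 2 ^ clog 2 n`; `hs_pair` (`Agp`) with `φ = 1[u / 2 ^ clog = b]`, `ψ` the same, summed over the `2 ^ t` values `b`
(`i < n ≤ 2 ^ clog 2 n ≤ 2 ^ κ`), `nr (2 ^ κ) φ = 1 / 2 ^ t`.  The terms `i = j` give `∑ a i²`; `∑_{i ≠ j} a i a j ≤ (∑ a)²`. -/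

theorem e4b_phi {K t b : ℕ} (hb : b < 2 ^ t) :
    nr (2 ^ (K + t)) (fun p => if p / 2 ^ K = b then (1 : ℝ) else 0) = 1 / 2 ^ t := by
  have h1 : 2 ^ (K + t) = 2 ^ t * 2 ^ K := by rw [pow_add, mul_comm]
  rw [h1, nr_mul (2 ^ t) (by positivity : 0 < 2 ^ K) (fun a _ => if a = b then (1 : ℝ) else 0)]
  have h2 : (fun a : ℕ => nr (2 ^ K) (fun _ => if a = b then (1 : ℝ) else 0)) =
      fun a => if a = b then (1 : ℝ) else 0 := by
    funext a
    exact nr_const (by positivity) _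
  rw [h2]
  unfold nr
  rw [Finset.sum_ite_eq' (range (2 ^ t)) b (fun _ => (1 : ℝ)), if_pos (Finset.mem_range.2 hb)]
  push_cast
  rfl

theorem e4b_pair {n t : ℕ} {i j : Fin n} (hij : i ≠ j) :
    nr (16 ^ (Nat.clog 2 n + t)) (fun q => if bk t n q i = bk t n q j then (1 : ℝ) else 0) =
      1 / 2 ^ t := by
  set K := Nat.clog 2 n with hK
  have hn : n ≤ 2 ^ K := Nat.le_pow_clog (by norm_num) n
  have hKt : 2 ^ K ≤ 2 ^ (K + t) := Nat.pow_le_pow_right (by norm_num) (Nat.le_add_right K t)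
  have hi : (i : ℕ) < 2 ^ (K + t) := lt_of_lt_of_le i.2 (hn.trans hKt)
  have hj : (j : ℕ) < 2 ^ (K + t) := lt_of_lt_of_le j.2 (hn.trans hKt)
  have hne : (i : ℕ) ≠ j := fun h => hij (Fin.ext h)
  have h1 : ∀ q < 16 ^ (K + t), (if bk t n q i = bk t n q j then (1 : ℝ) else 0) =
      ∑ b ∈ range (2 ^ t), (if hs (K + t) q i / 2 ^ K = b then (1 : ℝ) else 0) *
        (if hs (K + t) q j / 2 ^ K = b then (1 : ℝ) else 0) := by
    intro q _
    have hlt : hs (K + t) q i / 2 ^ K < 2 ^ t := (bk t n q i).2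
    have h2 : bk t n q i = bk t n q j ↔ hs (K + t) q j / 2 ^ K = hs (K + t) q i / 2 ^ K := by
      rw [Fin.ext_iff, eq_comm]
      exact Iff.rfl
    rw [Finset.sum_eq_single (hs (K + t) q i / 2 ^ K)]
    · rw [if_pos rfl, one_mul]
      by_cases h3 : bk t n q i = bk t n q j
      · rw [if_pos h3, if_pos (h2.1 h3)]
      · rw [if_neg h3, if_neg (fun h => h3 (h2.2 h))]
    · intro b _ hb
      rw [if_neg (Ne.symm hb), zero_mul]
    · intro h
      exact absurd (Finset.mem_range.2 hlt) h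
  rw [nr_congr h1, nr_sum]
  have h2 : ∀ b ∈ range (2 ^ t), nr (16 ^ (K + t)) (fun q =>
      (if hs (K + t) q i / 2 ^ K = b then (1 : ℝ) else 0) *
        (if hs (K + t) q j / 2 ^ K = b then (1 : ℝ) else 0)) = 1 / 2 ^ t * (1 / 2 ^ t) := by
    intro b hb
    rw [hs_pair hi hj hne (fun p => if p / 2 ^ K = b then (1 : ℝ) else 0)
      (fun p => if p / 2 ^ K = b then (1 : ℝ) else 0), e4b_phi (Finset.mem_range.1 hb)]
  rw [Finset.sum_congr rfl h2, Finset.sum_const, Finset.card_range, nsmul_eq_mul]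
  have h3 : (2 : ℝ) ^ t ≠ 0 := by positivity
  push_cast
  field_simp

theorem hash_blocks {n t : ℕ} (a : Fin n → ℝ) (ha : ∀ i, 0 ≤ a i) :
    nr (16 ^ (Nat.clog 2 n + t)) (fun q =>
      ∑ i, ∑ j, if bk t n q i = bk t n q j then a i * a j else 0) ≤
      ∑ i, a i ^ 2 + 1 / 2 ^ t * (∑ i, a i) ^ 2 := by
  classical
  have hpos : 0 < 16 ^ (Nat.clog 2 n + t) := by positivity
  rw [nr_sum]
  have h1 : ∀ i ∈ (Finset.univ : Finset (Fin n)),
      nr (16 ^ (Nat.clog 2 n + t)) (fun q =>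
        ∑ j, if bk t n q i = bk t n q j then a i * a j else 0) ≤
      ∑ j, ((if i = j then a i * a j else 0) + 1 / 2 ^ t * (a i * a j)) := by
    intro i _
    rw [nr_sum]
    refine Finset.sum_le_sum fun j _ => ?_
    have haij : 0 ≤ a i * a j := mul_nonneg (ha i) (ha j)
    by_cases hij : i = j
    · subst hij
      have h2 : (fun q => if bk t n q i = bk t n q i then a i * a i else 0) =
          fun _ => a i * a i := by
        funext q
        rw [if_pos rfl]
      rw [h2, nr_const hpos, if_pos rfl]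
      have : 0 ≤ 1 / 2 ^ t * (a i * a i) := by positivity
      linarith
    · rw [if_neg hij, zero_add]
      have h2 : (fun q => if bk t n q i = bk t n q j then a i * a j else 0) =
          fun q => (a i * a j) * (if bk t n q i = bk t n q j then (1 : ℝ) else 0) := by
        funext q
        rw [mul_ite, mul_one, mul_zero]
      rw [h2, nr_mul_left, e4b_pair hij, mul_comm]
  refine (Finset.sum_le_sum h1).trans (le_of_eq ?_)
  have h2 : ∀ i ∈ (Finset.univ : Finset (Fin n)),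
      ∑ j, ((if i = j then a i * a j else 0) + 1 / 2 ^ t * (a i * a j)) =
      a i ^ 2 + 1 / 2 ^ t * (a i * ∑ j, a j) := by
    intro i _
    rw [Finset.sum_add_distrib, Finset.sum_ite_eq Finset.univ i (fun j => a i * a j),
      if_pos (Finset.mem_univ i), ← Finset.mul_sum, ← Finset.mul_sum, sq]
  rw [Finset.sum_congr rfl h2, Finset.sum_add_distrib, ← Finset.mul_sum, ← Finset.sum_mul, sq (∑ i, a i)]

end Pool.Agent.MP_ca1109_lc.Hyb
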