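import Pool.Agent.MP_ca1109_lc.Hyb.A0

/-!
# Strings composed of blocks
-/

namespace Pool.Agent.MP_ca1109_lc.Hyb

open Pool.Agent.MP_ca1109_lc.Mpg Finset

variable {n k d : ℕ}

/- PROOF NOTES [HYB-C1].  `mx rr y i = y (rr i) i`.
`lowDeg_mx`: `lowDeg_induction`: for a junta `g` on `T` the function `y ↦ g (mx rr y)` depends on the letters in `T.image rr` (at most `T.card`).
`ex_mx_uni`: for the uniform product measure on `Fin k → (Fin n → Bool)` the string `mx rr y` is uniform: `ex_uni` (both sides are averages); e.g. xor trick: for every `z` the map `y ↦ (b ↦ xor (y b) z)` is a bijection and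
`mx rr (y xor z) = mx rr y xor z`, so `av_y F (mx rr y) = av_z av_y F (mx rr y xor z) = av_y av_z F (..) = av F` (`av_shift` of `Agp/F2`, `av_comm` of `Agp/K1`).
`rex_mx_uni`: from `ex_mx_uni` for `(F : ℂ)` (`ex_ofReal`).
`mx_update`: unfold, `Function.update_apply`. -/

theorem lowDeg_mx {R : Type*} [AddCommGroup R] (rr : Fin n → Fin k) {P : (Fin n → Bool) → R}
    (hP : P ∈ lowDeg (Fin n) Bool R d) :
    (fun y : Fin k → Fin n → Bool => P (mx rr y)) ∈ lowDeg (Fin k) (Fin n → Bool) R d := by
  classical
  refine lowDeg_induction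
    (p := fun g => (fun y : Fin k → Fin n → Bool => g (mx rr y)) ∈
      lowDeg (Fin k) (Fin n → Bool) R d) hP ?_ ?_ ?_ ?_
  · intro g T hT hg
    refine junta_mem (T.image rr) (Finset.card_image_le.trans hT) ?_
    intro y y' hyy
    apply hg
    intro i hi
    have h1 : y (rr i) = y' (rr i) := by
      apply hyy
      rw [Finset.mem_coe]
      exact Finset.mem_image_of_mem rr (Finset.mem_coe.1 hi)
    unfold mx
    rw [h1]
  · exact AddSubgroup.zero_mem _
  · intro f g hf hg
    exact AddSubgroup.add_mem _ hf hg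
  · intro f hf
    exact AddSubgroup.neg_mem _ hf

theorem c1_av_equiv {A B : Type*} [Fintype A] [Fintype B] (e : A ≃ B) (f : B → ℂ) :
    av (fun a => f (e a)) = av f := by
  unfold av
  rw [Equiv.sum_comp e f, Fintype.card_congr e]

theorem c1_av_const {A : Type*} [Fintype A] [Nonempty A] (c : ℂ) : av (fun _ : A => c) = c := by
  unfold av
  have h : (Fintype.card A : ℂ) ≠ 0 := by exact_mod_cast Fintype.card_ne_zero
  rw [Finset.sum_const, Finset.card_univ, nsmul_eq_mul, mul_div_cancel_left₀ _ h]

theorem ex_mx_uni (rr : Fin n → Fin k) (F : (Fin n → Bool) → ℂ) :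
    ex (uni (Fin k) (Fin n → Bool)) (fun y => F (mx rr y)) = av F := by
  rw [ex_uni]
  have h1 : ∀ z : Fin n → Bool, av (fun y : Fin k → Fin n → Bool => F (mx rr y)) =
      av (fun y : Fin k → Fin n → Bool => F (fun i => xor (mx rr y i) (z i))) := by
    intro z
    let e : (Fin k → Fin n → Bool) ≃ (Fin k → Fin n → Bool) :=
      { toFun := fun y b i => xor (y b i) (z i)
        invFun := fun y b i => xor (y b i) (z i)
        left_inv := fun y => by funext b i; simp
        right_inv := fun y => by funext b i; simp }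
    exact (c1_av_equiv e (fun y => F (mx rr y))).symm
  have h2 : av (fun y : Fin k → Fin n → Bool => F (mx rr y)) =
      av (fun _ : Fin n → Bool => av (fun y : Fin k → Fin n → Bool => F (mx rr y))) :=
    (c1_av_const _).symm
  rw [h2]
  have h3 : (fun _ : Fin n → Bool => av (fun y : Fin k → Fin n → Bool => F (mx rr y))) =
      fun z : Fin n → Bool =>
        av (fun y : Fin k → Fin n → Bool => F (fun i => xor (mx rr y i) (z i))) := by
    funext z
    exact h1 z
  rw [h3, Agp.av_comm]
  have h4 : (fun y : Fin k → Fin n → Bool =>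
      av (fun z : Fin n → Bool => F (fun i => xor (mx rr y i) (z i)))) = fun _ => av F := by
    funext y
    have h5 := Agp.av_shift F (mx rr y)
    rw [← h5]
    congr 1
    funext z
    congr 1
    funext i
    exact Bool.xor_comm _ _
  rw [h4, c1_av_const]

theorem rex_mx_uni (rr : Fin n → Fin k) (F : (Fin n → Bool) → ℝ) :
    rex (uni (Fin k) (Fin n → Bool)) (fun y => F (mx rr y)) = avg F := by
  have h1 := ex_mx_uni rr (fun x => (F x : ℂ))
  rw [ex_ofReal] at h1
  have h2 : av (fun x => (F x : ℂ)) = ((avg F : ℝ) : ℂ) := by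
    unfold av avg
    push_cast
    rfl
  rw [h2] at h1
  exact_mod_cast h1

theorem mx_update (rr : Fin n → Fin k) (y : Fin k → Fin n → Bool) (b : Fin k) (z : Fin n → Bool) :
    mx rr (Function.update y b z) = fun i => if i ∈ blk rr b then z i else mx rr y i := by
  funext i
  unfold mx blk
  rw [Function.update_apply]
  by_cases h : rr i = b
  · rw [if_pos h, if_pos (Finset.mem_filter.2 ⟨Finset.mem_univ i, h⟩)]
  · have h' : i ∉ Finset.univ.filter (fun i => rr i = b) := by simp [h]
    rw [if_neg h, if_neg h']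

end Pool.Agent.MP_ca1109_lc.Hyb
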