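import Pool.Agent.MP_ca1109_lc.Hyb.A0
import Pool.Agent.MP_ca1109_lc.Hyb.C1

/-!
# Blocks of a generator which fools families of twisted polynomials
-/

namespace Pool.Agent.MP_ca1109_lc.Hyb

open Pool.Agent.MP_ca1109_lc.Mpg Pool.Agent.MP_ca1109_lc.Agp Finset

/- PROOF NOTES [HYB-E5].  `law M X z = (number of p < M with X p = z) / M` is the law of the string `X p`.
`law_sum`: `∑ z, law M X z * φ z = nr M (φ ∘ X)` (and the complex version with `na`).
`fam_fix`: `u' χ x = u χ (fix x)` (`tw_fix` or `lowDeg_comp`), `c'` from `pol_fix`.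
`fam_blocks`: replace the law of the letters by the uniform law one after the other (`ex_block` of `A0` for the letter `b`, `ex_congr_letter`; for fixed other letters `z ↦ fam u c (z on blk b, mx y off)` is a `fam u' c'` of the same kind
(`fam_fix` for the complement of `blk rr b`), `h` bounds the difference `|∑ law .. - av ..|` by `δ'` (`law_sum_complex`); `ex_mx_uni` in the end; the number of letters is `2 ^ t`). -/

/-- The law of the strings `X p`, `p < M`. -/
noncomputable def law {n : ℕ} (M : ℕ) (X : ℕ → Fin n → Bool) (z : Fin n → Bool) : ℝ :=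
  nr M (fun p => if X p = z then 1 else 0)

theorem e5_sum {n M : ℕ} (X : ℕ → Fin n → Bool) (φ : (Fin n → Bool) → ℝ) :
    ∑ z, law M X z * φ z = nr M (fun p => φ (X p)) := by
  unfold law nr
  simp only [div_mul_eq_mul_div, Finset.sum_mul]
  rw [← Finset.sum_div, Finset.sum_comm]
  congr 1
  refine Finset.sum_congr rfl fun p _ => ?_
  rw [Finset.sum_eq_single (X p)]
  · simp
  · intro b _ hb
    rw [if_neg (Ne.symm hb)]
    simp
  · intro h
    exact absurd (Finset.mem_univ _) h

theorem law_pm {n M : ℕ} (hM : 0 < M) (X : ℕ → Fin n → Bool) :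
    (∀ z, 0 ≤ law M X z) ∧ ∑ z, law M X z = 1 := by
  refine ⟨fun z => nr_nonneg fun p _ => by split_ifs <;> norm_num, ?_⟩
  have h := e5_sum X (fun _ => (1 : ℝ)) (M := M)
  simp only [mul_one] at h
  rw [h]
  exact nr_const hM 1

theorem law_sum {n M : ℕ} (X : ℕ → Fin n → Bool) (φ : (Fin n → Bool) → ℝ) :
    ∑ z, law M X z * φ z = nr M (fun p => φ (X p)) := by
  exact e5_sum X φ

theorem law_sum_complex {n M : ℕ} (X : ℕ → Fin n → Bool) (φ : (Fin n → Bool) → ℂ) :
    ∑ z, (law M X z : ℂ) * φ z = na M (fun p => φ (X p)) := by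
  unfold law nr na
  push_cast
  simp only [div_mul_eq_mul_div, Finset.sum_mul]
  rw [← Finset.sum_div, Finset.sum_comm]
  congr 1
  refine Finset.sum_congr rfl fun p _ => ?_
  rw [Finset.sum_eq_single (X p)]
  · simp
  · intro b _ hb
    rw [if_neg (Ne.symm hb)]
    simp
  · intro h
    exact absurd (Finset.mem_univ _) h

theorem fam_fix {n m d j : ℕ} [NeZero m] {Γ : Type} [AddCommGroup Γ] [Fintype Γ]
    {u : AddChar Γ ℂ → (Fin n → Bool) → ℂ} {c : Finset (Fin n) → Γ}
    (hu : ∀ χ, u χ ∈ phCls m Bool d n) (hc : Deg j c) (A : Finset (Fin n)) (τ : Fin n → Bool) :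
    ∃ (u' : AddChar Γ ℂ → (Fin n → Bool) → ℂ) (c' : Finset (Fin n) → Γ),
      (∀ χ, u' χ ∈ phCls m Bool d n) ∧ Deg j c' ∧
      ∀ x, fam u c (fun i => if i ∈ A then τ i else x i) = fam u' c' x := by
  obtain ⟨c', hc', -, hp⟩ := pol_fix hc A τ
  refine ⟨fun χ x => u χ (fun i => if i ∈ A then τ i else x i), c', fun χ => tw_fix (hu χ) A τ,
    hc', fun x => ?_⟩
  unfold fam
  rw [hp x]

/-- The law `μ` for the letters below `s`, the uniform law for the others. -/
noncomputable def e5_v {n k : ℕ} (s : ℕ) (μ : (Fin n → Bool) → ℝ) :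
    Fin k → (Fin n → Bool) → ℝ :=
  fun b => if (b : ℕ) < s then μ else fun _ => 1 / (Fintype.card (Fin n → Bool) : ℝ)

theorem e5_v_pm {n k : ℕ} (s : ℕ) {μ : (Fin n → Bool) → ℝ}
    (hμ : (∀ z, 0 ≤ μ z) ∧ ∑ z, μ z = 1) : IsPM (e5_v (k := k) s μ) := by
  refine ⟨fun b z => ?_, fun b => ?_⟩
  · unfold e5_v
    split_ifs
    · exact hμ.1 z
    · positivity
  · unfold e5_v
    split_ifs
    · exact hμ.2
    · have hc : (Fintype.card (Fin n → Bool) : ℝ) ≠ 0 :=
        Nat.cast_ne_zero.2 Fintype.card_ne_zero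
      rw [Finset.sum_const, nsmul_eq_mul, Finset.card_univ]
      field_simp

theorem e5_step {n m d j k M : ℕ} [NeZero m] (hM : 0 < M) (X : ℕ → Fin n → Bool) {δ' : ℝ}
    (h : FJok m d j δ' M X) (rr : Fin n → Fin k) {Γ : Type} [AddCommGroup Γ] [Fintype Γ]
    (u : AddChar Γ ℂ → (Fin n → Bool) → ℂ) (c : Finset (Fin n) → Γ)
    (hu : ∀ χ, u χ ∈ phCls m Bool d n) (hc : Deg j c) (s : ℕ) (hs : s < k) :
    ‖ex (e5_v (k := k) (s + 1) (law M X)) (fun y => fam u c (mx rr y)) -
        ex (e5_v (k := k) s (law M X)) (fun y => fam u c (mx rr y))‖ ≤ δ' := by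
  have hv : ∀ s : ℕ, IsPM (e5_v (k := k) s (law M X)) := fun s => e5_v_pm s (law_pm hM X)
  let b : Fin k := ⟨s, hs⟩
  have hb1 : e5_v (k := k) (s + 1) (law M X) b = law M X := by
    unfold e5_v
    rw [if_pos (Nat.lt_succ_self s)]
  have hb0 : e5_v (k := k) s (law M X) b = fun _ => 1 / (Fintype.card (Fin n → Bool) : ℝ) := by
    unfold e5_v
    rw [if_neg (lt_irrefl s)]
  have hoff : ∀ b', b' ≠ b → e5_v (k := k) s (law M X) b' = e5_v (k := k) (s + 1) (law M X) b' := by
    intro b' hb'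
    have hne : (b' : ℕ) ≠ s := fun e => hb' (Fin.ext e)
    unfold e5_v
    by_cases h1 : (b' : ℕ) < s
    · rw [if_pos h1, if_pos (by omega)]
    · rw [if_neg h1, if_neg (by omega)]
  rw [ex_block (hv (s + 1)) b, ex_block (hv s) b]
  simp only [hb1, hb0]
  rw [ex_congr_letter (hv s) (hv (s + 1)) hoff (φ := fun x => ∑ a : Fin n → Bool,
    ((1 / (Fintype.card (Fin n → Bool) : ℝ) : ℝ) : ℂ) * fam u c (mx rr (Function.update x b a)))
    (fun y a => by simp only [Function.update_idem]), ← ex_sub]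
  have hle : ∀ x : Fin k → Fin n → Bool,
      ‖(∑ a, (law M X a : ℂ) * fam u c (mx rr (Function.update x b a))) -
        ∑ a : Fin n → Bool, ((1 / (Fintype.card (Fin n → Bool) : ℝ) : ℝ) : ℂ) *
          fam u c (mx rr (Function.update x b a))‖ ≤ δ' := by
    intro x
    obtain ⟨u', c', hu', hc', hf⟩ := fam_fix hu hc (blk rr b)ᶜ (mx rr x)
    have h1 : ∀ a, fam u c (mx rr (Function.update x b a)) = fam u' c' a := by
      intro a
      rw [mx_update, ← hf a]
      congr 1
      funext i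
      by_cases hi : i ∈ blk rr b
      · rw [if_pos hi, if_neg (by simpa using hi)]
      · rw [if_neg hi, if_pos (by simpa using hi)]
    simp only [h1]
    rw [law_sum_complex X (fam u' c')]
    have h2 : (∑ a : Fin n → Bool, ((1 / (Fintype.card (Fin n → Bool) : ℝ) : ℝ) : ℂ) *
        fam u' c' a) = av (fam u' c') := by
      unfold av
      rw [← Finset.mul_sum, mul_comm]
      push_cast
      rw [mul_one_div]
    rw [h2]
    exact h Γ c' hc' u' hu'
  calc _ ≤ rex (e5_v (k := k) (s + 1) (law M X)) (fun _ => δ') := norm_ex_le (hv (s + 1)) hle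
    _ = δ' := rex_const (hv (s + 1)) δ'

theorem fam_blocks {n m d j k M : ℕ} [NeZero m] (hM : 0 < M) (X : ℕ → Fin n → Bool) {δ' : ℝ}
    (h : FJok m d j δ' M X) (rr : Fin n → Fin k) {Γ : Type} [AddCommGroup Γ] [Fintype Γ]
    (u : AddChar Γ ℂ → (Fin n → Bool) → ℂ) (c : Finset (Fin n) → Γ)
    (hu : ∀ χ, u χ ∈ phCls m Bool d n) (hc : Deg j c) :
    ‖ex (fun _ => law M X) (fun y => fam u c (mx rr y)) - av (fam u c)‖ ≤ k * δ' := by
  have hlaw : IsPM (fun _ : Fin k => law M X) :=
    ⟨fun _ z => (law_pm hM X).1 z, fun _ => (law_pm hM X).2⟩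
  have hv : ∀ s : ℕ, IsPM (e5_v (k := k) s (law M X)) := fun s => e5_v_pm s (law_pm hM X)
  have hstep : ∀ s : ℕ, s < k →
      ‖ex (e5_v (k := k) (s + 1) (law M X)) (fun y => fam u c (mx rr y)) -
        ex (e5_v (k := k) s (law M X)) (fun y => fam u c (mx rr y))‖ ≤ δ' :=
    fun s hs => e5_step hM X h rr u c hu hc s hs
  have hall : ∀ s : ℕ, s ≤ k →
      ‖ex (e5_v (k := k) s (law M X)) (fun y => fam u c (mx rr y)) -
        ex (e5_v (k := k) 0 (law M X)) (fun y => fam u c (mx rr y))‖ ≤ s * δ' := by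
    intro s
    induction s with
    | zero => intro _; simp
    | succ s ih =>
      intro hs
      have h1 := ih (by omega)
      have h2 := hstep s (by omega)
      calc _ ≤ ‖ex (e5_v (k := k) (s + 1) (law M X)) (fun y => fam u c (mx rr y)) -
            ex (e5_v (k := k) s (law M X)) (fun y => fam u c (mx rr y))‖ +
            ‖ex (e5_v (k := k) s (law M X)) (fun y => fam u c (mx rr y)) -
            ex (e5_v (k := k) 0 (law M X)) (fun y => fam u c (mx rr y))‖ := norm_sub_le_norm_sub_add_norm_sub _ _ _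
        _ ≤ δ' + s * δ' := add_le_add h2 h1
        _ = ((s + 1 : ℕ) : ℝ) * δ' := by push_cast; ring
  have hk := hall k le_rfl
  have e1 : e5_v (k := k) k (law M X) = fun _ => law M X := by
    funext b
    unfold e5_v
    rw [if_pos b.2]
  have e0 : e5_v (k := k) 0 (law M X) = uni (Fin k) (Fin n → Bool) := by
    funext b
    unfold e5_v
    rw [if_neg (Nat.not_lt_zero _)]
    rfl
  rw [e1, e0, ex_mx_uni] at hk
  exact hk

end Pool.Agent.MP_ca1109_lc.Hyb
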