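import Pool.Agent.MP_ca1109_lc.Hyb.D1
import Pool.Agent.MP_ca1109_lc.Hyb.E5

/-!
# Blocks and restrictions
-/

namespace Pool.Agent.MP_ca1109_lc.Hyb

open Pool.Agent.MP_ca1109_lc.Mpg Pool.Agent.MP_ca1109_lc.Agp Finset

/- PROOF NOTES [HYB-E5b].  `at' A τ x = 2 ^ {-A.card} ∑ T ⊆ A, (∏ i ∈ T, ±1) * sgn T x` (`1[x i = τ i] = (1 ± (-1)^{x i}) / 2`, `Finset.prod_add`), `sgn T * fam u c = fam (sgn T u) c` with `sgn T * u χ ∈ phCls (2 * m) Bool d n` (`sgn_mem`, `tw_mono` from `1 ≤ d`,
`tw_mul`; `phCls m ⊆ phCls (2 m)`).  `fam_blocks` with the modulus `2 m` (`k = 2 ^ t`, `push_cast`).  So the error is at most `2 ^ {-a} ∑_{T ⊆ A} 2 ^ t δ' = 2 ^ t δ'` (`Finset.card_powerset`). -/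

private theorem e5b_at {n : ℕ} (A : Finset (Fin n)) (τ x : Fin n → Bool) :
    at' A τ x = (∑ T ∈ A.powerset, Agp.sgn T τ * Agp.sgn T x) / 2 ^ A.card := by
  have h1 : at' A τ x = ∏ i ∈ A, (if x i = τ i then (1 : ℂ) else 0) := by
    unfold at'
    by_cases h : ∀ i ∈ A, x i = τ i
    · rw [if_pos h]
      symm
      apply Finset.prod_eq_one
      intro i hi
      rw [if_pos (h i hi)]
    · rw [if_neg h]
      push Not at h
      obtain ⟨i, hi, hi'⟩ := h
      symm
      apply Finset.prod_eq_zero hi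
      rw [if_neg hi']
  have h2 : ∀ i, (if x i = τ i then (1 : ℂ) else 0) =
      ((if τ i = true then (-1 : ℂ) else 1) * (if x i = true then -1 else 1) + 1) / 2 := by
    intro i
    cases hx : x i <;> cases ht : τ i <;> norm_num
  rw [h1, Finset.prod_congr rfl (fun i _ => h2 i), Finset.prod_div_distrib, Finset.prod_const,
    Finset.prod_add]
  congr 1
  apply Finset.sum_congr rfl
  intro T _
  rw [Finset.prod_const_one, mul_one, Finset.prod_mul_distrib]
  rfl

theorem fool_blocks {n m d t M : ℕ} [NeZero m] [NeZero (2 * m)] (hd : 1 ≤ d) (hM : 0 < M)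
    (X : ℕ → Fin n → Bool) {δ' : ℝ} (h : FJok (2 * m) d d δ' M X) (rr : Fin n → Fin (2 ^ t))
    (A : Finset (Fin n)) (τ : Fin n → Bool) {Γ : Type} [AddCommGroup Γ] [Fintype Γ]
    (u : AddChar Γ ℂ → (Fin n → Bool) → ℂ) (c : Finset (Fin n) → Γ)
    (hu : ∀ χ, u χ ∈ phCls m Bool d n) (hc : Deg d c) :
    ‖ex (fun _ => law M X) (fun y => at' A τ (mx rr y) * fam u c (mx rr y)) -
      av (fun x => at' A τ x * fam u c x)‖ ≤ 2 ^ t * δ' := by
  have hδ : ∀ T ∈ A.powerset, ‖ex (fun _ => law M X) (fun y =>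
      fam (fun χ x => Agp.sgn T x * u χ x) c (mx rr y)) -
      av (fam (fun χ x => Agp.sgn T x * u χ x) c)‖ ≤ 2 ^ t * δ' := by
    intro T _
    have h1 := fam_blocks hM X h rr (fun χ x => Agp.sgn T x * u χ x) c
      (fun χ => tw_mul (tw_mono hd (sgn_mem T)) (hu χ)) hc
    push_cast at h1
    exact h1
  have hfam : ∀ T x, fam (fun χ x => Agp.sgn T x * u χ x) c x = Agp.sgn T x * fam u c x := by
    intro T x
    unfold fam
    rw [mul_div_assoc', Finset.mul_sum]
    congr 1
    apply Finset.sum_congr rfl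
    intro χ _
    ring
  have hat : ∀ x, at' A τ x * fam u c x = ∑ T ∈ A.powerset, (Agp.sgn T τ / 2 ^ A.card) *
      fam (fun χ x => Agp.sgn T x * u χ x) c x := by
    intro x
    rw [e5b_at, Finset.sum_div, Finset.sum_mul]
    apply Finset.sum_congr rfl
    intro T _
    rw [hfam]
    ring
  have h1 : ex (fun _ => law M X) (fun y => at' A τ (mx rr y) * fam u c (mx rr y)) =
      ∑ T ∈ A.powerset, (Agp.sgn T τ / 2 ^ A.card) * ex (fun _ => law M X) (fun y =>
        fam (fun χ x => Agp.sgn T x * u χ x) c (mx rr y)) := by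
    have h2 : (fun y : Fin (2 ^ t) → Fin n → Bool => at' A τ (mx rr y) * fam u c (mx rr y)) =
        fun y => ∑ T ∈ A.powerset, (Agp.sgn T τ / 2 ^ A.card) *
          fam (fun χ x => Agp.sgn T x * u χ x) c (mx rr y) := by
      funext y
      exact hat _
    rw [h2, ex_sum]
    apply Finset.sum_congr rfl
    intro T _
    rw [ex_mul_left]
  have h3 : av (fun x => at' A τ x * fam u c x) =
      ∑ T ∈ A.powerset, (Agp.sgn T τ / 2 ^ A.card) *
        av (fam (fun χ x => Agp.sgn T x * u χ x) c) := by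
    have h2 : (fun x : Fin n → Bool => at' A τ x * fam u c x) =
        fun x => ∑ T ∈ A.powerset, (Agp.sgn T τ / 2 ^ A.card) *
          fam (fun χ x => Agp.sgn T x * u χ x) c x := by
      funext x
      exact hat x
    rw [h2]
    unfold av
    rw [Finset.sum_comm, Finset.sum_div]
    apply Finset.sum_congr rfl
    intro T _
    rw [← Finset.mul_sum, mul_div_assoc]
  rw [h1, h3, ← Finset.sum_sub_distrib]
  calc ‖∑ T ∈ A.powerset, ((Agp.sgn T τ / 2 ^ A.card) * ex (fun _ => law M X) (fun y =>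
        fam (fun χ x => Agp.sgn T x * u χ x) c (mx rr y)) - (Agp.sgn T τ / 2 ^ A.card) *
        av (fam (fun χ x => Agp.sgn T x * u χ x) c))‖
      ≤ ∑ T ∈ A.powerset, (1 / 2 ^ A.card) * (2 ^ t * δ') := by
        refine (norm_sum_le _ _).trans (Finset.sum_le_sum fun T hT => ?_)
        rw [← mul_sub, norm_mul, norm_div, sgn_norm, norm_pow, Complex.norm_two]
        exact mul_le_mul_of_nonneg_left (hδ T hT) (by positivity)
    _ = 2 ^ t * δ' := by
        rw [Finset.sum_const, Finset.card_powerset, nsmul_eq_mul]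
        push_cast
        field_simp

end Pool.Agent.MP_ca1109_lc.Hyb
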