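import Pool.Agent.MP_ca1109_lc.Hyb.Defs

/-!
# Sums modulo two of generators
-/

namespace Pool.Agent.MP_ca1109_lc.Hyb

open Pool.Agent.MP_ca1109_lc.Mpg Pool.Agent.MP_ca1109_lc.Agp Finset

/- PROOF NOTES [HYB-E6].  `xor_average` (`Agp/F2`).  `xor_fj`: for fixed `q` the function `x ↦ fam u c (xor x (out G₂ n q))` is again a `fam u' c'` of the same kind (`tw_xor`, `pol_xor`; use `Bool.xor_comm`), and its average is `av (fam u c)` (`av_shift`);
exchange the averages (`na_comm`), `norm_na_le_of`.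
`xor_bias`: `sgn S (xor a b) = sgn S a * sgn S b`, so by `xor_average` the average is the product of the two averages, the first has norm `≤ 1`. -/

theorem xor_fj {m d j : ℕ} [NeZero m] {E₁ E₂ : ℕ → ℕ} {G₁ G₂ : ℕ → ℕ → ℕ → Bool} {n : ℕ} {ε : ℝ}
    (h : FJok m d j ε (2 ^ E₁ n) (out G₁ n)) :
    FJok m d j ε (2 ^ (E₁ n + E₂ n)) (out (xorG E₂ G₁ G₂) n) := by
  intro Γ _ _ c hc u hu
  have hM₂ : 0 < 2 ^ E₂ n := by positivity
  rw [xor_average E₁ E₂ G₁ G₂ n (fam u c)]
  have h1 : ∀ q, ‖na (2 ^ E₁ n) (fun p => fam u c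
      (fun i => xor (out G₁ n p i) (out G₂ n q i))) - av (fam u c)‖ ≤ ε := by
    intro q
    obtain ⟨c', hc', h2, h3⟩ := pol_xor hc (out G₂ n q)
    set u' : AddChar Γ ℂ → (Fin n → Bool) → ℂ :=
      fun χ e => u χ (fun i => xor (out G₂ n q i) (e i)) with hu'
    have h4 : ∀ x : Fin n → Bool, fam u c (fun i => xor (x i) (out G₂ n q i)) =
        fam u' c' x := by
      intro x
      have h5 : (fun i => xor (x i) (out G₂ n q i)) = fun i => xor (out G₂ n q i) (x i) := by
        funext i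
        exact Bool.xor_comm _ _
      rw [h5]
      unfold fam
      simp only [h3, hu']
    have h6 : av (fam u c) = av (fam u' c') := by
      rw [← av_shift (fam u c) (out G₂ n q)]
      congr 1
      funext x
      exact h4 x
    rw [na_congr fun p _ => h4 (out G₁ n p), h6]
    exact h Γ c' hc' u' (fun χ => tw_xor (hu χ) _)
  rw [na_comm, ← na_const hM₂ (av (fam u c)), ← na_sub]
  exact norm_na_le_of hM₂ fun q _ => h1 q

theorem xor_bias {E₁ E₂ : ℕ → ℕ} {G₁ G₂ : ℕ → ℕ → ℕ → Bool} {n : ℕ} (S : Finset (Fin n)) {β : ℝ}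
    (h : ‖na (2 ^ E₂ n) (fun p => Agp.sgn S (out G₂ n p))‖ ≤ β) :
    ‖na (2 ^ (E₁ n + E₂ n)) (fun p => Agp.sgn S (out (xorG E₂ G₁ G₂) n p))‖ ≤ β := by
  rw [xor_average E₁ E₂ G₁ G₂ n (Agp.sgn S)]
  apply norm_na_le_of (by positivity)
  intro p _
  have h1 : ∀ q, Agp.sgn S (fun i => xor (out G₁ n p i) (out G₂ n q i)) =
      Agp.sgn S (out G₁ n p) * Agp.sgn S (out G₂ n q) := by
    intro q
    unfold Agp.sgn
    rw [← Finset.prod_mul_distrib]
    refine Finset.prod_congr rfl (fun i _ => ?_)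
    beta_reduce
    generalize out G₁ n p i = a
    generalize out G₂ n q i = b
    cases a <;> cases b <;> simp
  rw [na_congr fun q _ => h1 q, na_mul_left, norm_mul, sgn_norm, one_mul]
  exact h

end Pool.Agent.MP_ca1109_lc.Hyb
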