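import Pool.Agent.MP_ca1109_lc.Hyb.E5

/-!
# The law of the bucket generator
-/

namespace Pool.Agent.MP_ca1109_lc.Hyb

open Pool.Agent.MP_ca1109_lc.Mpg Pool.Agent.MP_ca1109_lc.Agp Finset

/- PROOF NOTES [HYB-E6b].  `bucket_average` (`Agp/K3`; it is stated for complex `f`, apply it to `(f : ℂ)`, `nr_ofReal`): `av` over `y : Fin (2 ^ t) → Fin (2 ^ E n)` of `f (xx G (bk t n q) y)` is
 `rex (fun _ => law ..) (fun y => f (mx (bk t n q) y))`: push forward under `a ↦ out G n a` letter by letter (`ex_push` of `Mpg/A2` with `W = uni`, `g i a = out G n a`; `ex_uni`; `xx G rr y = mx rr (fun b => out G n (y b))` by `rfl`;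
 `law M X z = ∑ a : Fin M, if X a = z then 1 / M else 0`: `Finset.sum_range`/`Fin.sum_univ_eq_sum_range`). -/

theorem e6b_law {n N : ℕ} (X : ℕ → Fin n → Bool) (z : Fin n → Bool) :
    (∑ a : Fin N, if X a = z then (1 : ℝ) / (Fintype.card (Fin N) : ℝ) else 0) = law N X z := by
  unfold law nr
  rw [Fin.sum_univ_eq_sum_range
    (fun a => if X a = z then (1 : ℝ) / (Fintype.card (Fin N) : ℝ) else 0) N, Finset.sum_div]
  refine Finset.sum_congr rfl fun a _ => ?_
  rw [Fintype.card_fin]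
  split_ifs
  · rfl
  · rw [zero_div]

theorem bucket_law (t : ℕ) (E : ℕ → ℕ) (G : ℕ → ℕ → ℕ → Bool) (n : ℕ) (f : (Fin n → Bool) → ℝ) :
    nr (2 ^ (4 * (Nat.clog 2 n + t) + 2 ^ t * E n)) (fun p => f (out (bucketG t E G) n p)) =
      nr (16 ^ (Nat.clog 2 n + t)) (fun q =>
        rex (fun _ : Fin (2 ^ t) => law (2 ^ E n) (out G n)) (fun y => f (mx (bk t n q) y))) := by
  have h := bucket_average t E G n (fun x => (f x : ℂ))
  have h2 : ∀ q, av (fun y : Fin (2 ^ t) → Fin (2 ^ E n) => (f (xx G (bk t n q) y) : ℂ)) =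
      ((rex (fun _ : Fin (2 ^ t) => law (2 ^ E n) (out G n)) (fun y => f (mx (bk t n q) y)) : ℝ) :
        ℂ) := by
    intro q
    have h3 := ex_push (uni (Fin (2 ^ t)) (Fin (2 ^ E n)))
      (fun (_ : Fin (2 ^ t)) (a : Fin (2 ^ E n)) => out G n (a : ℕ))
      (fun y => (f (mx (bk t n q) y) : ℂ))
    rw [ex_uni] at h3
    rw [← ex_ofReal]
    refine Eq.trans ?_ (h3.trans ?_)
    · rfl
    · congr 1
      funext i z
      exact e6b_law (out G n) z
  have h4 : na (16 ^ (Nat.clog 2 n + t)) (fun q =>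
      av (fun y : Fin (2 ^ t) → Fin (2 ^ E n) => (f (xx G (bk t n q) y) : ℂ))) =
      na (16 ^ (Nat.clog 2 n + t)) (fun q =>
      ((rex (fun _ : Fin (2 ^ t) => law (2 ^ E n) (out G n)) (fun y => f (mx (bk t n q) y)) : ℝ) :
        ℂ)) := na_congr fun q _ => h2 q
  rw [h4, ← nr_ofReal, ← nr_ofReal] at h
  exact_mod_cast h

end Pool.Agent.MP_ca1109_lc.Hyb
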