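import Pool.Agent.MP_ca1109_lc.Hyb.E3
import Pool.Agent.MP_ca1109_lc.Hyb.E4
import Pool.Agent.MP_ca1109_lc.Hyb.E4b
import Pool.Agent.MP_ca1109_lc.Hyb.E5b
import Pool.Agent.MP_ca1109_lc.Hyb.E6
import Pool.Agent.MP_ca1109_lc.Hyb.E6b

/-!
# Explicit sources
-/

namespace Pool.Agent.MP_ca1109_lc.Hyb

open Pool.Agent.H66 Pool.Agent.MP_ca1109_lc.Mpg Pool.Agent.MP_ca1109_lc.Agp Finset

/- PROOF NOTES [HYB-E6c].  `t` with `1 / 2 ^ t ≤ δ`; `δ' = δ / (2 ^ t * 2 ^ D)`; `fj_all d d le_rfl (2 * m) δ'` gives `E₁, G₁` (`FJok (2 m) d d δ'`), `small_bias_poly D` with `γ = δ / 2 ^ t` gives `E₂, G₂`.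
`G = xorG E₂ G₁ G₂` (`NG.xor`), `E = E₁ + E₂`; the generator is `bucketG t E G` (`NG.bucket`).
For `n`: `S = ⟨16 ^ (clog 2 n + t), t, bk t n, law (2 ^ E n) (out G n)⟩`.
 `h_pos`, `nonneg`, `sum_one` (`law_pm`); `hash`: `hash_blocks` (`1 / 2 ^ t ≤ δ`, `sq_nonneg`); `fool`: `xor_fj` and `fool_blocks` (`2 ^ t δ' = δ / 2 ^ D ≤ δ / 2 ^ A.card` for `A.card ≤ D`); `close`: `law_sum`, `close_of_bias` with
 `β = γ / (n + 1) ^ D` (`xor_bias`): `β (n + 1) ^ D = γ`.  The averages: `bucket_law`. -/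

theorem exists_src (m : ℕ) [NeZero m] (d D : ℕ) (hd : 1 ≤ d) {δ : ℝ} (hδ : 0 < δ) :
    ∃ E G, NG E G ∧ ∀ n : ℕ, ∃ S : Src n, S.OK m d D δ ∧ ∀ f : (Fin n → Bool) → ℝ,
      nr (2 ^ E n) (fun p => f (out G n p)) =
        nr S.h (fun q => rex (fun _ => S.μ) (fun y => f (mx (S.rr q) y))) := by
  have hne : NeZero (2 * m) := ⟨Nat.mul_ne_zero two_ne_zero (NeZero.ne m)⟩
  obtain ⟨t, ht⟩ := exists_pow_lt_of_lt_one hδ (show (1 / 2 : ℝ) < 1 by norm_num)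
  have ht' : 1 / 2 ^ t ≤ δ := by
    rw [one_div_pow] at ht
    exact ht.le
  obtain ⟨E₁, G₁, hG₁, H₁⟩ := fj_all d d le_rfl (2 * m) (δ / (2 ^ t * 2 ^ D)) (by positivity)
  obtain ⟨E₂, G₂, hG₂, H₂⟩ := small_bias_poly D (γ := δ / 2 ^ t) (by positivity)
  refine ⟨_, _, NG.bucket t (NG.xor hG₁ hG₂), fun n => ?_⟩
  have hM : 0 < 2 ^ (E₁ n + E₂ n) := by positivity
  refine ⟨⟨16 ^ (Nat.clog 2 n + t), t, bk t n,
    law (2 ^ (E₁ n + E₂ n)) (out (xorG E₂ G₁ G₂) n)⟩, ?_, fun f => ?_⟩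
  · refine ⟨?_, (law_pm hM _).1, (law_pm hM _).2, ?_, ?_, ?_⟩
    · show 0 < 16 ^ (Nat.clog 2 n + t)
      positivity
    · intro a ha
      refine (hash_blocks a ha).trans ?_
      have h1 := mul_le_mul_of_nonneg_right ht' (sq_nonneg (∑ i, a i))
      linarith
    · intro q A τ hA Γ _ _ u c hu hc
      refine (fool_blocks hd hM _ (xor_fj (H₁ n)) (bk t n q) A τ u c hu hc).trans ?_
      have h1 : (2 : ℝ) ^ t * (δ / (2 ^ t * 2 ^ D)) = δ / 2 ^ D := by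
        field_simp
      rw [h1]
      exact div_le_div_of_nonneg_left hδ.le (by positivity)
        (pow_le_pow_right₀ (by norm_num) hA)
    · intro r hr
      rw [law_sum]
      have hβ : 0 ≤ (δ / 2 ^ t) / ((n : ℝ) + 1) ^ D := by positivity
      refine (close_of_bias _ (fun S hS => xor_bias S (H₂ n S hS)) hM hβ hr).trans (le_of_eq ?_)
      rw [div_mul_cancel₀ _ (by positivity)]
  · exact bucket_law t _ _ n f

end Pool.Agent.MP_ca1109_lc.Hyb
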