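import Pool.Agent.MP_ca1109_lc.Hyb.D5
import Pool.Agent.MP_ca1109_lc.Hyb.E6c

/-!
# Generators for mixed tests
-/

namespace Pool.Agent.MP_ca1109_lc.Hyb

open Pool.Agent.H66 Pool.Agent.MP_ca1109_lc.Mpg Pool.Agent.MP_ca1109_lc.Agp Finset

/- PROOF NOTES [HYB-F2].
`MixedTest.mono`: `lowDeg_mono`; more polynomials and equations by padding (`p i = 0`, `Γ i = ZMod 1`, ignored by `F`): `if h : (i : ℕ) < k then .. else ..` (dependent `if` for the types `Γ i`), or via a general lemma:
for an injection `e : Fin k ↪ Fin k'` with left inverse.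
`mixed_withThr`: `T x = F (signs of p) (U i x)`, `U i x = true ↔ F_i (fun j => P i j x = 0)`, `j < k'`: the `k * k'` equations are indexed by `Fin (k * k') ≃ Fin k × Fin k'` (`finProdFinEquiv`); polynomials and equations padded to
`k * k' + k` (e.g. `Fin (k * k' + k) ≃ Fin (k * k') ⊕ Fin k`, `finSumFinEquiv`: equations on the left summand, `ZMod 1` on the right; polynomials on the right summand, `0` on the left).
`logGen_mixed`: `main_fool (d + 1) k` and `exists_src m (d + 1) D`, `logGen_of` (`Agp/G3`), `MixedTest d ⊆ MixedTest (d + 1)`. -/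

theorem F2_gen {A B : Type} [Fintype A] [Fintype B] {d K n : ℕ} (hA : Fintype.card A ≤ K)
    (hB : Fintype.card B ≤ K) (p : A → (Fin n → Bool) → ℝ) (Γ : B → Type)
    (inst : ∀ b, AddCommGroup (Γ b)) (P : ∀ b, (Fin n → Bool) → Γ b)
    (F : (A → Prop) → (B → Prop) → Prop) (hp : ∀ a, p a ∈ lowDeg (Fin n) Bool ℝ d)
    (hP : ∀ b, P b ∈ lowDeg (Fin n) Bool (Γ b) d) {T : (Fin n → Bool) → Bool}
    (hT : ∀ x, T x = true ↔ F (fun a => 0 < p a x) (fun b => P b x = 0)) :
    MixedTest d K n T := by
  obtain ⟨e₁⟩ : Nonempty (A ↪ Fin K) :=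
    Function.Embedding.nonempty_of_card_le (by simpa using hA)
  obtain ⟨e₂⟩ : Nonempty (B ↪ Fin K) :=
    Function.Embedding.nonempty_of_card_le (by simpa using hB)
  let r₁ : Fin K → Option A := Function.partialInv e₁
  let r₂ : Fin K → Option B := Function.partialInv e₂
  have hr₁ : ∀ a, r₁ (e₁ a) = some a := fun a => Function.partialInv_left e₁.injective a
  have hr₂ : ∀ b, r₂ (e₂ b) = some b := fun b => Function.partialInv_left e₂.injective b
  let Γ' : Option B → Type := fun o => match o with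
    | some b => Γ b
    | none => PUnit
  let inst' : ∀ o, AddCommGroup (Γ' o) := fun o => match o with
    | some b => inst b
    | none => inferInstanceAs (AddCommGroup PUnit)
  let P' : ∀ o, (Fin n → Bool) → Γ' o := fun o => match o with
    | some b => P b
    | none => fun _ => PUnit.unit
  let p' : Option A → (Fin n → Bool) → ℝ := fun o => match o with
    | some a => p a
    | none => fun _ => 0
  have hp' : ∀ o, p' o ∈ lowDeg (Fin n) Bool ℝ d := by
    intro o
    cases o with
    | some a => exact hp a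
    | none => exact lowDeg_const 0
  have hP' : ∀ o, P' o ∈ lowDeg (Fin n) Bool (Γ' o) d := by
    intro o
    cases o with
    | some b => exact hP b
    | none => exact lowDeg_const (R := PUnit) PUnit.unit
  have hpe : ∀ (o : Option A) (a : A) (x : Fin n → Bool), o = some a →
      ((0 < p' o x) ↔ (0 < p a x)) := by
    intro o a x ho
    subst ho
    exact Iff.rfl
  have hPe : ∀ (o : Option B) (b : B) (x : Fin n → Bool), o = some b →
      ((P' o x = 0) ↔ (P b x = 0)) := by
    intro o b x ho
    subst ho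
    exact Iff.rfl
  refine ⟨fun i => p' (r₁ i), fun i => Γ' (r₂ i), fun i => inst' (r₂ i), fun i => P' (r₂ i),
    fun s t => F (fun a => s (e₁ a)) (fun b => t (e₂ b)), fun i => hp' _, fun i => hP' _, ?_⟩
  intro x
  rw [hT x]
  have h1 : (fun a => 0 < p' (r₁ (e₁ a)) x) = fun a => 0 < p a x := by
    funext a
    exact propext (hpe _ a x (hr₁ a))
  have h2 : (fun b => P' (r₂ (e₂ b)) x = 0) = fun b => P b x = 0 := by
    funext b
    exact propext (hPe _ b x (hr₂ b))
  show _ ↔ F (fun a => 0 < p' (r₁ (e₁ a)) x) (fun b => P' (r₂ (e₂ b)) x = 0)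
  rw [h1, h2]

theorem MixedTest.mono {d d' k k' n : ℕ} (hd : d ≤ d') (hk : k ≤ k') {T : (Fin n → Bool) → Bool}
    (h : MixedTest d k n T) : MixedTest d' k' n T := by
  obtain ⟨p, Γ, inst, P, F, hp, hP, hT⟩ := h
  exact F2_gen (by simpa using hk) (by simpa using hk) p Γ inst P F
    (fun i => lowDeg_mono hd (hp i)) (fun i => lowDeg_mono hd (hP i)) hT

theorem logGen_mixed (d k : ℕ) {ε : ℝ} (hε : 0 < ε) : LogGen (MixedTest d k) ε := by
  obtain ⟨m, _, D, δ, hδ, H⟩ := main_fool (d + 1) k hε
  obtain ⟨E, G, hNG, hS⟩ := exists_src m (d + 1) D (by omega) hδ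
  refine logGen_of hNG ?_
  intro n T hT
  obtain ⟨S, hOK, hav⟩ := hS n
  have h := H n S hOK T (hT.mono (Nat.le_succ d) le_rfl)
  rw [hav (fun x => ind (T x))]
  exact h

theorem mixed_withThr {d d' k k' n : ℕ} {T : (Fin n → Bool) → Bool}
    (h : WithThr (GroupTest d' k') d k n T) : MixedTest (max d d') (k * k' + k) n T := by
  classical
  obtain ⟨p, U, F, hp, hU, hT⟩ := h
  choose Γ inst P FF hP hF using hU
  refine F2_gen (A := Fin k) (B := Fin k × Fin k') ?_ ?_ p (fun b => Γ b.1 b.2)
    (fun b => inst b.1 b.2) (fun b => P b.1 b.2)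
    (fun s t => F s (fun i => decide (FF i (fun j => t (i, j)))))
    (fun i => lowDeg_mono (le_max_left _ _) (hp i))
    (fun b => lowDeg_mono (le_max_right _ _) (hP b.1 b.2)) ?_
  · rw [Fintype.card_fin]
    exact Nat.le_add_left _ _
  · rw [Fintype.card_prod, Fintype.card_fin, Fintype.card_fin]
    exact Nat.le_add_right _ _
  · intro x
    rw [hT x]
    have h1 : (fun i => U i x) = fun i => decide (FF i (fun j => P i j x = 0)) := by
      funext i
      rw [Bool.eq_iff_iff, hF i x, decide_eq_true_iff]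
    rw [h1]

end Pool.Agent.MP_ca1109_lc.Hyb
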