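import Pool.Agent.MP_ca1109_lc.Hyb.F1
import Pool.Agent.MP_ca1109_lc.Hyb.F2

/-!
# The final theorem
-/

namespace Pool.Agent.MP_ca1109_lc.Hyb

open Pool.Agent.H66 Pool.Agent.MP_ca1109_lc.Mpg Pool.Agent.MP_ca1109_lc.Agp Finset

theorem WithThr.imp {𝒯 𝒯' : ∀ n : ℕ, ((Fin n → Bool) → Bool) → Prop} {d k n : ℕ}
    (h𝒯 : ∀ T, 𝒯 n T → 𝒯' n T) {T : (Fin n → Bool) → Bool} (h : WithThr 𝒯 d k n T) :
    WithThr 𝒯' d k n T := by
  obtain ⟨p, U, F, hp, hU, hT⟩ := h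
  exact ⟨p, U, F, hp, fun i => h𝒯 _ (hU i), hT⟩

theorem logGen_withThr {𝒯 : ∀ n : ℕ, ((Fin n → Bool) → Bool) → Prop} {d' k' : ℕ}
    (h : ∀ n T, 𝒯 n T → GroupTest d' k' n T) (d k : ℕ) {ε : ℝ} (hε : 0 < ε) :
    LogGen (WithThr 𝒯 d k) ε :=
  (logGen_mixed (max d d') (k * k' + k) hε).mono fun n _ hT =>
    mixed_withThr (WithThr.imp (h n) hT)

theorem mixed_generators :
    (∀ d k : ℕ, ∀ ε > 0,
      LogGen (MixedTest d k) ε ∧ GenExists (fun n C => MixedTest d k n C.eval) ε) ∧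
    (∀ c d k : ℕ, ∀ ε > 0, LogGen (WithThr (RingTest c k) d k) ε) ∧
    (∀ (d k h : ℕ) (Q : Finset ℕ), (∀ q ∈ Q, IsPrimePow q) → ∀ ε > 0,
      LogGen (WithThr (CircSysTest k h Q) d k) ε) ∧
    (∀ (Γ : Type) [Group Γ] [Finite Γ], Group.IsNilpotent Γ → ∀ d k : ℕ, ∀ ε > 0,
      LogGen (WithThr (ProgSysTest Γ k) d k) ε) ∧
    ∀ (g : ℕ → ℕ) (δ : ℝ),
      Filter.Tendsto (fun n : ℕ => (g n : ℝ) / Real.logb 2 n) Filter.atTop Filter.atTop → δ < 1 →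
        (GenExists (fun n C => ThrTest (g n) 1 n C.eval) δ ∨
          GenExists (fun n C => ThrTest 1 (g n) n C.eval) δ) ∨
        (GenExists (fun n C => GroupTest (g n) 1 n C.eval) δ ∨
          GenExists (fun n C => GroupTest 1 (g n) n C.eval) δ) → HardLanguage := by
  refine ⟨fun d k ε hε => ⟨logGen_mixed d k hε, (logGen_mixed d k hε).toCircuits⟩,
    fun c d k ε hε => logGen_withThr (fun n T hT => hT.group) d k hε,
    fun d k h Q hQ ε hε => ?_, fun Γ _ _ hΓ d k ε hε => ?_, fun g δ hg hδ h => ?_⟩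
  · obtain ⟨m, d', k', -, H⟩ := circ_sys k h Q hQ
    exact logGen_withThr (fun n T hT => (H n T hT).group) d k hε
  · obtain ⟨m, d', k', -, H⟩ := prog_sys Γ hΓ k
    exact logGen_withThr (fun n T hT => (H n T hT).group) d k hε
  · rcases h with h | h | h
    · exact hard_of_thr hg hδ h
    · exact hard_of_group_degree hg hδ h
    · exact hard_of_group_number hg hδ h

end Pool.Agent.MP_ca1109_lc.Hyb
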