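import Pool.Agent.MP_ca1109_lc.Hyb.Defs
import Pool.Agent.MP_ca1109_lc.Agp.G2

/-!
# The walk generator is explicit
-/

namespace Pool.Agent.MP_ca1109_lc.Hyb

open Pool.Agent.H66 Pool.Agent.MP_ca1109_lc.Mpg Pool.Agent.MP_ca1109_lc.Agp Finset

/- PROOF NOTES [HYB-E2].  Models: `NG.scale` in `Agp/G2.lean` and `polyTime_pos` in `Agp/W2.lean` (iteration of a step with bounded state).
`poly_E`, `poly_M`, `bound` as in `NG.scale` (`pb_mul`, `pb_pow`, `pb_clog`, `polyTime_two_pow`; `2 ^ (3 v L n) = 8 ^ (v L n)`, `L n = C * clog 2 n + C'`).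
`poly_G`: the sum modulo two over `l < L n + 1` is computed by iterating a step on the state `(n, (i, (p₀, (e₀, (l, acc)))))` (or with the current position of the walk in the state instead of recomputing `pos`):
`acc ↦ (acc + [G n (pos .. l ..) i]) % 2`, `l ↦ l + 1`; the bounded-iteration closure of `PolyTime` used in `polyTime_pos`/`polyTime_gi` needs a polynomial bound on all components.  `polyTime_pos` and `polyTime_out` are
available for the inner value (`hlt`: `p % (M * M * 8 ^ ..) / 8 ^ .. < M * M`). -/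

private theorem e2_eight (v C C' n : ℕ) : 8 ^ (v * (C * Nat.clog 2 n + C')) =
    8 ^ (v * C') * nseed (3 * v * C) n := by
  unfold nseed
  rw [show (8 : ℕ) = 2 ^ 3 by norm_num, ← pow_mul, ← pow_mul, ← pow_mul, ← pow_add]
  congr 1
  ring

private theorem e2_size (n v C C' a : ℕ) : 2 ^ (2 * a + 3 * (v * (C * Nat.clog 2 n + C'))) =
    2 ^ a * 2 ^ a * (8 ^ (v * C') * nseed (3 * v * C) n) := by
  rw [← e2_eight, pow_add, two_mul, pow_add, pow_mul 2 3]
  norm_num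

private theorem e2_count (P : ℕ → Bool) (k : ℕ) :
    (∑ l ∈ range k, (if P l then 1 else 0)) = ((List.range k).filter P).length := by
  induction k with
  | zero => rfl
  | succ k ih =>
    rw [sum_range_succ, ih, List.range_succ, List.filter_append, List.length_append]
    by_cases h : P k = true
    · simp [h]
    · simp [h]

theorem NG.walk (v C C' : ℕ) {E : ℕ → ℕ} {G : ℕ → ℕ → ℕ → Bool} (h : NG E G) :
    NG (fun n => 2 * E n + 3 * (v * (C * Nat.clog 2 n + C')))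
      (walkG v (fun n => C * Nat.clog 2 n + C') E G) := by
  have hn : PolyTime fun q : (ℕ × (ℕ × ℕ)) × ℕ => q.1.1 := PolyTime.fst.comp PolyTime.fst
  have hp : PolyTime fun q : (ℕ × (ℕ × ℕ)) × ℕ => q.1.2.1 :=
    PolyTime.fst.comp (PolyTime.snd.comp PolyTime.fst)
  have hi : PolyTime fun q : (ℕ × (ℕ × ℕ)) × ℕ => q.1.2.2 :=
    PolyTime.snd.comp (PolyTime.snd.comp PolyTime.fst)
  have hl : PolyTime fun q : (ℕ × (ℕ × ℕ)) × ℕ => q.2 := PolyTime.snd
  have hM : PolyTime fun q : (ℕ × (ℕ × ℕ)) × ℕ => 2 ^ E q.1.1 := h.poly_M.comp hn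
  have hW : PolyTime fun q : (ℕ × (ℕ × ℕ)) × ℕ => 8 ^ (v * (C * Nat.clog 2 q.1.1 + C')) :=
    (PolyTime.mul (PolyTime.const (8 ^ (v * C'))) ((polyTime_nseed (3 * v * C)).comp hn)).of_eq
      fun q => (e2_eight v C C' q.1.1).symm
  have hB : PolyTime fun q : (ℕ × (ℕ × ℕ)) × ℕ =>
      2 ^ E q.1.1 * 2 ^ E q.1.1 * 8 ^ (v * (C * Nat.clog 2 q.1.1 + C')) :=
    PolyTime.mul (PolyTime.mul hM hM) hW
  have hL : PolyTime fun n : ℕ => C * Nat.clog 2 n + C' :=
    PolyTime.add (PolyTime.mul (PolyTime.const C) polyTime_clog) (PolyTime.const C')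
  refine ⟨PolyTime.add (PolyTime.mul (PolyTime.const 2) h.poly_E)
      (PolyTime.mul (PolyTime.const 3) (PolyTime.mul (PolyTime.const v) hL)), ?_, ?_, ?_⟩
  · exact (PolyTime.mul (PolyTime.mul h.poly_M h.poly_M) (PolyTime.mul
      (PolyTime.const (8 ^ (v * C'))) (polyTime_nseed (3 * v * C)))).of_eq fun n => by
        rw [e2_size]
  · obtain ⟨c, hc⟩ := pb_mul (pb_mul h.bound h.bound)
      (pb_mul (pb_const (8 ^ (v * C'))) (pb_pow pb_clog (3 * v * C)))
    refine ⟨c, fun n => ?_⟩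
    show 2 ^ (2 * E n + 3 * (v * (C * Nat.clog 2 n + C'))) ≤ _
    rw [e2_size]
    exact hc n
  · have hlt : ∀ q : (ℕ × (ℕ × ℕ)) × ℕ,
        q.1.2.1 % (2 ^ E q.1.1 * 2 ^ E q.1.1 * 8 ^ (v * (C * Nat.clog 2 q.1.1 + C'))) /
        8 ^ (v * (C * Nat.clog 2 q.1.1 + C')) < 2 ^ E q.1.1 * 2 ^ E q.1.1 := by
      intro q
      refine Nat.div_lt_of_lt_mul ?_
      rw [mul_comm (8 ^ (v * (C * Nat.clog 2 q.1.1 + C')))]
      exact Nat.mod_lt _ (by positivity)
    have h1 : PolyTime fun q : (ℕ × (ℕ × ℕ)) × ℕ =>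
        G q.1.1 (pos (2 ^ E q.1.1) v q.2
          (q.1.2.1 % (2 ^ E q.1.1 * 2 ^ E q.1.1 * 8 ^ (v * (C * Nat.clog 2 q.1.1 + C'))) /
            8 ^ (v * (C * Nat.clog 2 q.1.1 + C')))
          (q.1.2.1 % (2 ^ E q.1.1 * 2 ^ E q.1.1 * 8 ^ (v * (C * Nat.clog 2 q.1.1 + C'))) %
            8 ^ (v * (C * Nat.clog 2 q.1.1 + C'))) % 2 ^ E q.1.1) q.1.2.2 :=
      polyTime_out h hn (d3_mod (polyTime_pos v hM hl (d3_div (d3_mod hp hB) hW)
        (d3_mod (d3_mod hp hB) hW) hlt) hM) hi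
    have h2 : PolyTime fun q : ℕ × (ℕ × ℕ) => List.range (C * Nat.clog 2 q.1 + C' + 1) :=
      PolyTime.range ((PolyTime.add hL (PolyTime.const 1)).comp PolyTime.fst)
    have h3 := PolyTime.filter (l := fun q : ℕ × (ℕ × ℕ) => List.range (C * Nat.clog 2 q.1 + C' + 1))
      (f := fun (q : ℕ × (ℕ × ℕ)) (l : ℕ) =>
        G q.1 (pos (2 ^ E q.1) v l
          (q.2.1 % (2 ^ E q.1 * 2 ^ E q.1 * 8 ^ (v * (C * Nat.clog 2 q.1 + C'))) /
            8 ^ (v * (C * Nat.clog 2 q.1 + C')))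
          (q.2.1 % (2 ^ E q.1 * 2 ^ E q.1 * 8 ^ (v * (C * Nat.clog 2 q.1 + C'))) %
            8 ^ (v * (C * Nat.clog 2 q.1 + C'))) % 2 ^ E q.1) q.2.2) h2 h1
    refine (PolyTime.eqb (d3_mod (PolyTime.length h3) (PolyTime.const 2))
      (PolyTime.const 1)).of_eq fun q => ?_
    unfold walkG
    rw [← e2_count]

end Pool.Agent.MP_ca1109_lc.Hyb
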