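import Pool.Agent.MP_ca1109_lc.Hyb.E1
import Pool.Agent.MP_ca1109_lc.Hyb.E2

/-!
# Explicit generators with polynomially small bias
-/

namespace Pool.Agent.MP_ca1109_lc.Hyb

open Pool.Agent.H66 Pool.Agent.MP_ca1109_lc.Mpg Pool.Agent.MP_ca1109_lc.Agp Finset

/- PROOF NOTES [HYB-E3].
`walk_average`: `na (2 ^ (2 E + 3 v L)) (fun p => f (out (walkG ..) n p)) = na (M * M) (fun p => na (8 ^ (v L)) (fun e => f (fun i => parity of the G n (pos M v l p e % M) i)))`, `M = 2 ^ E n` (`na_mul`, as in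
`scale_average` of `Agp/B3.lean`).
`sgn S` of the parity string is `∏ l ∈ range (L + 1), sgn S (out G n (pos M v l p e % M))` (for every bit `(-1)^(sum mod 2) = ∏ (-1)^(..)`; exchange the products).
Base generator: `small_bias finTwoEquiv` (`Mpg/D4`; `Z = Bool`? or `phCls 2 Bool 1`: `gen_phase 2 1 finTwoEquiv` and `exists_ng` of `Agp/G3`) gives `E₀, G₀` with `NG` and `‖na (2 ^ E₀ n) (sgn S (out G₀ n p))‖ ≤ 1/8` for all `S ≠ ∅`:
`sgn S ∈ phCls 2 Bool 1 n` (`sgn_mem`) and `av (sgn S) = 0` for `S ≠ ∅`.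
`F p = sgn S (out G₀ n (p % M))`: `na (M * M) F = na M (sgn S ∘ out)` (`na_mod`), so `≤ 1/8`; `v` with `2 (73/80)^v ≤ 1/8`; `walk_pow`: `≤ (1/4) ^ L'` for `L n = 2 L' n`, `L' n = (K + 1) * clog 2 n + C'` with
`(1/4)^(C') ≤ γ / 4^{..}`: `4 ^ (L') ≥ 4 ^ C' (2 ^ clog n) ^ (2 (K+1)) ≥ 4 ^ C' n ^ (2 K)`; compare with `(n + 1) ^ K ≤ 2 ^ K n ^ K` for `n ≥ 1`, and `n = 0` is trivial (no `S ≠ ∅`). -/

/-- The walk generator, written out. -/
theorem e3_average (v : ℕ) (L : ℕ → ℕ) (E : ℕ → ℕ) (G : ℕ → ℕ → ℕ → Bool) (n : ℕ)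
    (f : (Fin n → Bool) → ℂ) :
    na (2 ^ (2 * E n + 3 * (v * L n))) (fun p => f (out (walkG v L E G) n p)) =
      na (2 ^ E n * 2 ^ E n) (fun p => na (8 ^ (v * L n)) (fun e => f (fun i : Fin n =>
        decide ((∑ l ∈ range (L n + 1),
          (if G n (pos (2 ^ E n) v l p e % 2 ^ E n) i then 1 else 0)) % 2 = 1)))) := by
  have h1 : 2 ^ (2 * E n + 3 * (v * L n)) = (2 ^ E n * 2 ^ E n) * 8 ^ (v * L n) := by
    rw [pow_add, two_mul, pow_add, pow_mul 2 3]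
    norm_num
  rw [h1]
  have h2 := na_mul (2 ^ E n * 2 ^ E n) (B := 8 ^ (v * L n)) (by positivity)
    (fun p e => f (fun i : Fin n =>
        decide ((∑ l ∈ range (L n + 1),
          (if G n (pos (2 ^ E n) v l p e % 2 ^ E n) i then 1 else 0)) % 2 = 1)))
  rw [← h2]
  refine na_congr fun p hp => ?_
  have h3 : p % (2 ^ E n * 2 ^ E n * 8 ^ (v * L n)) = p := Nat.mod_eq_of_lt hp
  have h4 : out (walkG v L E G) n p = fun i : Fin n =>
        decide ((∑ l ∈ range (L n + 1),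
          (if G n (pos (2 ^ E n) v l (p / 8 ^ (v * L n)) (p % 8 ^ (v * L n)) % 2 ^ E n) i
            then 1 else 0)) % 2 = 1) := by
    funext i
    change walkG v L E G n p i = _
    unfold walkG
    rw [h3]
  rw [h4]

/-- The sign of a sum modulo two. -/
theorem e3_parity (s : Finset ℕ) (b : ℕ → Bool) :
    (if decide ((∑ l ∈ s, (if b l then 1 else 0)) % 2 = 1) = true then (-1 : ℂ) else 1) =
      ∏ l ∈ s, (if b l = true then (-1 : ℂ) else 1) := by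
  classical
  induction s using Finset.induction_on with
  | empty => simp
  | insert a s ha ih =>
    rw [Finset.prod_insert ha, ← ih, Finset.sum_insert ha]
    obtain ⟨N, hN⟩ : ∃ N, N = ∑ l ∈ s, (if b l then 1 else 0) := ⟨_, rfl⟩
    rw [← hN]
    rcases Nat.mod_two_eq_zero_or_one N with h | h <;> cases b a
    · simp [h]
    · have h2 : (1 + N) % 2 = 1 := by omega
      simp [h, h2]
    · simp [h]
    · have h2 : (1 + N) % 2 = 0 := by omega
      simp [h, h2]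

theorem e3_sgn {n : ℕ} (S : Finset (Fin n)) (s : Finset ℕ) (X : ℕ → Fin n → Bool) :
    Agp.sgn S (fun i => decide ((∑ l ∈ s, (if X l i then 1 else 0)) % 2 = 1)) =
      ∏ l ∈ s, Agp.sgn S (X l) := by
  unfold Agp.sgn
  rw [Finset.prod_comm]
  exact Finset.prod_congr rfl fun i _ => e3_parity s (fun l => X l i)

theorem e3_norm {n : ℕ} (S : Finset (Fin n)) (x : Fin n → Bool) : ‖Agp.sgn S x‖ = 1 := by
  unfold Agp.sgn
  rw [norm_prod]
  refine Finset.prod_eq_one fun i _ => ?_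
  split_ifs <;> simp

theorem e3_flip {n : ℕ} (S : Finset (Fin n)) (i : Fin n) (hi : i ∈ S) (x : Fin n → Bool) :
    Agp.sgn S (Function.update x i (!x i)) = - Agp.sgn S x := by
  classical
  unfold Agp.sgn
  rw [← Finset.mul_prod_erase S _ hi, ← Finset.mul_prod_erase S _ hi, Function.update_self,
    ← neg_mul]
  congr 1
  · cases x i <;> simp
  · refine Finset.prod_congr rfl fun j hj => ?_
    rw [Function.update_of_ne (Finset.ne_of_mem_erase hj)]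

theorem e3_av {n : ℕ} (S : Finset (Fin n)) (hS : S ≠ ∅) : av (Agp.sgn S) = 0 := by
  classical
  obtain ⟨i, hi⟩ := Finset.nonempty_iff_ne_empty.mpr hS
  have hinv : Function.Involutive (fun x : Fin n → Bool => Function.update x i (!x i)) := by
    intro x
    funext j
    by_cases hj : j = i
    · subst hj
      simp
    · simp [Function.update_of_ne hj]
  have h1 : ∑ x, Agp.sgn S x = ∑ x, Agp.sgn S (Function.update x i (!x i)) :=
    (Equiv.sum_comp hinv.toPerm (Agp.sgn S)).symm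
  have h2 : ∑ x, Agp.sgn S x = 0 := by
    have h3 : ∑ x, Agp.sgn S x = - ∑ x, Agp.sgn S x := by
      conv_lhs => rw [h1]
      rw [← Finset.sum_neg_distrib]
      exact Finset.sum_congr rfl fun x _ => e3_flip S i hi x
    exact self_eq_neg.mp h3
  unfold av
  rw [h2, zero_div]

theorem e3_num (K C n : ℕ) (hn : 1 ≤ n) {γ : ℝ} (hC : (1 / 4 : ℝ) ^ C ≤ γ / 2 ^ K) :
    (1 / 4 : ℝ) ^ (K * Nat.clog 2 n + C) ≤ γ / ((n : ℝ) + 1) ^ K := by
  have hn' : (1 : ℝ) ≤ n := by exact_mod_cast hn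
  have hn2 : (n : ℝ) ≤ 2 ^ Nat.clog 2 n := by exact_mod_cast Nat.le_pow_clog one_lt_two n
  have h1 : (n : ℝ) + 1 ≤ 2 * 4 ^ Nat.clog 2 n := by
    have h2 : (4 : ℝ) ^ Nat.clog 2 n = 2 ^ Nat.clog 2 n * 2 ^ Nat.clog 2 n := by
      rw [← mul_pow]
      norm_num
    rw [h2]
    nlinarith
  have hpos : (0 : ℝ) < (n : ℝ) + 1 := by linarith
  have h3 : ((n : ℝ) + 1) ^ K ≤ 2 ^ K * (4 ^ Nat.clog 2 n) ^ K := by
    rw [← mul_pow]
    exact pow_le_pow_left₀ hpos.le h1 K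
  have e1 : (1 / 4 : ℝ) ^ (K * Nat.clog 2 n + C) =
      (1 / 4 : ℝ) ^ C / (4 ^ Nat.clog 2 n) ^ K := by
    rw [pow_add, mul_comm K, pow_mul, one_div, inv_pow, inv_pow, div_eq_mul_inv]
    ring
  have h4 : (0 : ℝ) < (4 ^ Nat.clog 2 n) ^ K := by positivity
  rw [e1, div_le_div_iff₀ h4 (by positivity)]
  have h5 : (1 / 4 : ℝ) ^ C * 2 ^ K ≤ γ := by
    rwa [le_div_iff₀ (by positivity)] at hC
  calc (1 / 4 : ℝ) ^ C * ((n : ℝ) + 1) ^ K ≤ (1 / 4 : ℝ) ^ C * (2 ^ K * (4 ^ Nat.clog 2 n) ^ K) :=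
        mul_le_mul_of_nonneg_left h3 (by positivity)
    _ = ((1 / 4 : ℝ) ^ C * 2 ^ K) * (4 ^ Nat.clog 2 n) ^ K := by ring
    _ ≤ γ * (4 ^ Nat.clog 2 n) ^ K := mul_le_mul_of_nonneg_right h5 h4.le

theorem small_bias_poly (K : ℕ) {γ : ℝ} (hγ : 0 < γ) :
    ∃ E G, NG E G ∧ ∀ (n : ℕ) (S : Finset (Fin n)), S ≠ ∅ →
      ‖na (2 ^ E n) (fun p => Agp.sgn S (out G n p))‖ ≤ γ / ((n : ℝ) + 1) ^ K := by
  obtain ⟨E₀, G₀, hG, H⟩ := exists_ng (gen_phase 2 1 finTwoEquiv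
    (show (0 : ℝ) < 1 / 8 by norm_num))
  obtain ⟨v, hv⟩ := exists_pow_lt_of_lt_one (show (0 : ℝ) < 1 / 16 by norm_num)
    (show (73 / 80 : ℝ) < 1 by norm_num)
  obtain ⟨C, hC⟩ := exists_pow_lt_of_lt_one (show (0 : ℝ) < γ / 2 ^ K by positivity)
    (show (1 / 4 : ℝ) < 1 by norm_num)
  refine ⟨_, _, NG.walk v (2 * K) (2 * C) hG, fun n S hS => ?_⟩
  have hn : 1 ≤ n := by
    obtain ⟨i, -⟩ := Finset.nonempty_iff_ne_empty.mpr hS
    have := i.2
    omega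
  refine le_trans ?_ (e3_num K C n hn hC.le)
  have h1 := e3_average v (fun n => 2 * K * Nat.clog 2 n + 2 * C) E₀ G₀ n (Agp.sgn S)
  rw [h1]
  have hL : 2 * K * Nat.clog 2 n + 2 * C = 2 * (K * Nat.clog 2 n + C) := by ring
  simp only [hL]
  have hM : 0 < 2 ^ E₀ n := by positivity
  have h2 := walk_pow hM v (K * Nat.clog 2 n + C)
    (F := fun p => Agp.sgn S (out G₀ n (p % 2 ^ E₀ n))) (fun p => (e3_norm S _).le) (δ := 1 / 8) (by
      rw [na_mod (A := 2 ^ E₀ n) hM hM (fun p => Agp.sgn S (out G₀ n p))]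
      have h3 := H n (Agp.sgn S) (sgn_mem S)
      rw [e3_av S hS, sub_zero] at h3
      exact h3)
  have h3 : ∀ p e : ℕ, Agp.sgn S (fun i : Fin n => decide ((∑ l ∈ range
      (2 * (K * Nat.clog 2 n + C) + 1),
        (if G₀ n (pos (2 ^ E₀ n) v l p e % 2 ^ E₀ n) i then 1 else 0)) % 2 = 1)) =
      ∏ l ∈ range (2 * (K * Nat.clog 2 n + C) + 1),
        Agp.sgn S (out G₀ n (pos (2 ^ E₀ n) v l p e % 2 ^ E₀ n)) := fun p e =>
    e3_sgn S _ (fun l => out G₀ n (pos (2 ^ E₀ n) v l p e % 2 ^ E₀ n))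
  simp only [h3]
  refine h2.trans (pow_le_pow_left₀ (by positivity) (by linarith) _)

end Pool.Agent.MP_ca1109_lc.Hyb
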