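import Pool.Agent.MP_ca1109_lc.Hyb.Defs

/-!
# Expectations and single letters
-/

namespace Pool.Agent.MP_ca1109_lc.Hyb

open Pool.Agent.MP_ca1109_lc.Mpg Finset

variable {k : ℕ} {Ω : Type} [Fintype Ω]

/-- Expectations of functions of one letter. -/
theorem ex_letter {M : Fin k → Ω → ℝ} (hM : IsPM M) (b : Fin k) (ψ : Ω → ℂ) :
    ex M (fun y => ψ (y b)) = ∑ a, (M b a : ℂ) * ψ a := by
  classical
  have h := Finset.prod_univ_sum (fun _ : Fin k => (Finset.univ : Finset Ω))
    (fun i a => (M i a : ℂ) * (if i = b then ψ a else 1))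
  rw [Fintype.piFinset_univ] at h
  unfold ex
  have h1 : ∀ y : Fin k → Ω, (Mpg.wt M y : ℂ) * ψ (y b) =
      ∏ i, ((M i (y i) : ℂ) * (if i = b then ψ (y i) else 1)) := by
    intro y
    rw [Finset.prod_mul_distrib]
    congr 1
    · unfold Mpg.wt; push_cast; rfl
    · rw [Finset.prod_ite_eq' Finset.univ b (fun i => ψ (y i))]; simp
  rw [Finset.sum_congr rfl (fun y _ => h1 y), ← h]
  rw [← Finset.mul_prod_erase Finset.univ _ (Finset.mem_univ b)]
  rw [Finset.prod_eq_one, mul_one]
  · simp
  · intro i hi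
    have hib : i ≠ b := (Finset.mem_erase.1 hi).1
    simp only [if_neg hib, mul_one]
    rw [← Complex.ofReal_sum, hM.sum_one i]; simp

omit [Fintype Ω] in
theorem sel_letter (b : Fin k) (x y : Fin k → Ω) :
    sel (fun i => decide (i ≠ b)) x y = Function.update x b (y b) := by
  funext i
  unfold sel
  by_cases h : i = b
  · subst h; simp
  · simp [h]

theorem hV_letter {M : Fin k → Ω → ℝ} (hM : IsPM M) (G : (Fin k → Ω) → ℂ) (b : Fin k)
    (x : Fin k → Ω) : hV M G (fun i => decide (i ≠ b)) x =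
      ∑ a, (M b a : ℂ) * G (Function.update x b a) := by
  unfold hV
  have h : (fun y => G (sel (fun i => decide (i ≠ b)) x y)) =
      fun y => (fun a => G (Function.update x b a)) (y b) := by
    funext y; rw [sel_letter]
  rw [h]
  exact ex_letter hM b (fun a => G (Function.update x b a))

theorem ex_block {M : Fin k → Ω → ℝ} (hM : IsPM M) (b : Fin k) (φ : (Fin k → Ω) → ℂ) :
    ex M φ = ex M (fun x => ∑ a, (M b a : ℂ) * φ (Function.update x b a)) := by
  rw [← ex_hV hM φ (fun i => decide (i ≠ b))]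
  congr 1
  funext x
  exact hV_letter hM φ b x

theorem rex_block {M : Fin k → Ω → ℝ} (hM : IsPM M) (b : Fin k) (φ : (Fin k → Ω) → ℝ) :
    rex M φ = rex M (fun x => ∑ a, M b a * φ (Function.update x b a)) := by
  have h := ex_block hM b (fun x => (φ x : ℂ))
  rw [ex_ofReal] at h
  have h2 : (fun x => ∑ a, (M b a : ℂ) * (φ (Function.update x b a) : ℂ)) =
      fun x => ((∑ a, M b a * φ (Function.update x b a) : ℝ) : ℂ) := by
    funext x; push_cast; rfl
  rw [h2, ex_ofReal] at h
  exact_mod_cast h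

/-- The real version of `ex_hV`. -/
theorem rex_sel {M : Fin k → Ω → ℝ} (hM : IsPM M) (φ : (Fin k → Ω) → ℝ) (W : Fin k → Bool) :
    rex M (fun x => rex M (fun y => φ (sel W x y))) = rex M φ := by
  have h := ex_hV hM (fun x => (φ x : ℂ)) W
  unfold hV at h
  have h2 : (fun x => ex M (fun y => ((φ (sel W x y) : ℝ) : ℂ))) =
      fun x => ((rex M (fun y => φ (sel W x y)) : ℝ) : ℂ) := by
    funext x; exact ex_ofReal M _
  rw [h2, ex_ofReal, ex_ofReal] at h
  exact_mod_cast h

/-- An expectation which does not depend on the letter `b` is the same for all laws of this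
letter. -/
theorem ex_congr_letter {v v' : Fin k → Ω → ℝ} (hv : IsPM v) (hv' : IsPM v') {b : Fin k}
    (h : ∀ b', b' ≠ b → v b' = v' b') {φ : (Fin k → Ω) → ℂ}
    (hφ : ∀ y a, φ (Function.update y b a) = φ y) : ex v φ = ex v' φ := by
  have h1 := ex_hV_gen hv' hv φ (fun i => decide (i ≠ b))
  have h2 : hV v' φ (fun i => decide (i ≠ b)) = φ := by
    funext x
    unfold hV
    have h3 : (fun y => φ (sel (fun i => decide (i ≠ b)) x y)) = fun _ => φ x := by
      funext y; rw [sel_letter, hφ]
    rw [h3, ex_const hv']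
  rw [h2] at h1
  rw [h1]
  congr 1
  funext i a
  by_cases hi : i = b
  · simp [hi]
  · simp [hi, h i hi]

/-- An expectation which does not depend on the letter `b` is the same for all laws of this
letter. -/
theorem rex_congr_letter {v v' : Fin k → Ω → ℝ} (hv : IsPM v) (hv' : IsPM v') {b : Fin k}
    (h : ∀ b', b' ≠ b → v b' = v' b') {φ : (Fin k → Ω) → ℝ}
    (hφ : ∀ y a, φ (Function.update y b a) = φ y) : rex v φ = rex v' φ := by
  have h1 := ex_congr_letter hv hv' h (φ := fun x => (φ x : ℂ))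
    (fun y a => by rw [hφ])
  rw [ex_ofReal, ex_ofReal] at h1
  exact_mod_cast h1

end Pool.Agent.MP_ca1109_lc.Hyb
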