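import Pool.Agent.MP_ca1109_lc.Hyb.Defs

/-!
# Stability of phases under changes of the density
-/

namespace Pool.Agent.MP_ca1109_lc.Hyb

open Pool.Agent.MP_ca1109_lc.Mpg Finset

variable {k : ℕ} {Ω : Type} [Fintype Ω] {m : ℕ} [NeZero m] {d : ℕ}

theorem isPM_density {M g : Fin k → Ω → ℝ} (hM : IsPM M) (h0 : ∀ b, ∑ a, M b a * g b a = 0)
    (h1 : ∀ b a, |g b a| ≤ 1) : IsPM (fun b a => M b a * (1 + g b a)) := by
  refine ⟨fun b a => mul_nonneg (hM.nonneg b a) ?_, fun b => ?_⟩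
  · linarith [(abs_le.1 (h1 b a)).1]
  · have e : ∀ a, M b a * (1 + g b a) = M b a + M b a * g b a := fun a => by ring
    simp only [e]
    rw [Finset.sum_add_distrib, hM.sum_one b, h0 b, add_zero]

private theorem a1_var {W : Fin k → Ω → ℝ} (hW : IsPM W) {B : Fin k → Bool → ℝ} (hB : IsPM B)
    (h : (Fin k → Bool) → (Fin k → Ω) → ℂ) {μ : ℂ} (hμ : μ = ex B (fun V => ex W (h V))) :
    rex B (fun V => rex W (fun x => ‖h V x - μ‖ ^ 2)) =
      rex B (fun V => rex W (fun x => ‖h V x‖ ^ 2)) - ‖μ‖ ^ 2 := by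
  have e1 : (fun V => rex W (fun x => ‖h V x - μ‖ ^ 2)) =
      fun V => (rex W (fun x => ‖h V x‖ ^ 2) - ‖ex W (h V)‖ ^ 2) + ‖ex W (h V) - μ‖ ^ 2 := by
    funext V
    exact rex_var hW (h V) μ
  rw [e1, rex_add, rex_sub, rex_var hB (fun V => ex W (h V)) μ, ← hμ, sub_self, norm_zero]
  ring

private theorem a1_norm {W : Fin k → Ω → ℝ} (hW : IsPM W) {g : (Fin k → Ω) → ℂ}
    (hg : ∀ x, ‖g x‖ ≤ 1) : ‖ex W g‖ ≤ 1 := by
  have h1 := norm_ex_le hW (g := fun _ => (1:ℝ)) hg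
  rwa [rex_const hW] at h1

private theorem a1_pow {W : Fin k → Ω → ℝ} (hW : IsPM W) {B : Fin k → Bool → ℝ} (hB : IsPM B)
    (h : (Fin k → Bool) → (Fin k → Ω) → ℂ) (hh : ∀ V x, ‖h V x‖ ≤ 1) {μ : ℂ} (hμ : ‖μ‖ ≤ 1)
    (k : ℕ) :
    ‖μ ^ k - ex B (fun V => ex W (fun x => h V x ^ k))‖ ≤
      k * √(rex B (fun V => rex W (fun x => ‖h V x - μ‖ ^ 2))) := by
  have e1 : μ ^ k - ex B (fun V => ex W (fun x => h V x ^ k)) =
      ex B (fun V => ex W (fun x => μ ^ k - h V x ^ k)) := by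
    have e2 : (fun V => ex W (fun x => μ ^ k - h V x ^ k)) =
        fun V => μ ^ k - ex W (fun x => h V x ^ k) := by
      funext V
      rw [ex_sub, ex_const hW]
    rw [e2, ex_sub, ex_const hB]
  rw [e1]
  have h1 : ∀ V, ‖ex W (fun x => μ ^ k - h V x ^ k)‖ ≤ rex W (fun x => (k:ℝ) * ‖h V x - μ‖) := by
    intro V
    refine norm_ex_le hW fun x => ?_
    have h2 := pow_sub_pow_norm_le k hμ (hh V x)
    rwa [norm_sub_rev μ] at h2
  refine (norm_ex_le hB h1).trans ?_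
  have e3 : (fun V => rex W (fun x => (k:ℝ) * ‖h V x - μ‖)) =
      fun V => (k:ℝ) * rex W (fun x => ‖h V x - μ‖) := by
    funext V
    rw [rex_mul_left]
  rw [e3, rex_mul_left]
  refine mul_le_mul_of_nonneg_left ?_ (Nat.cast_nonneg _)
  refine (le_abs_self _).trans (Real.abs_le_sqrt ?_)
  refine (rex_sq_le hB _).trans ?_
  exact rex_mono hB fun V => rex_sq_le hW _


omit [Fintype Ω] in
private theorem a1_mix (M g : Fin k → Ω → ℝ) {ρ : ℝ} (hρ : 0 < ρ) :
    mix ρ M (fun b a => M b a * (1 + g b a / ρ)) = fun b a => M b a * (1 + g b a) := by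
  funext b a
  unfold mix
  field_simp
  ring

omit [Fintype Ω] in
private theorem a1_mix_one (M N : Fin k → Ω → ℝ) : mix 1 M N = N := by
  funext b a
  unfold mix
  ring

private theorem a1_upper {P : (Fin k → Ω) → ZMod m} (hP : P ∈ lowDeg (Fin k) Ω (ZMod m) (d + 1))
    {M g : Fin k → Ω → ℝ} (hM : IsPM M) (h0 : ∀ b, ∑ a, M b a * g b a = 0) {η' ρ ω : ℝ}
    (hη' : η' ≤ 1) (hρ : 0 < ρ) (hρ1 : ρ ≤ 1) (hg : ∀ b a, |g b a / ρ| ≤ η')
    (h : StabAt m d ω η') :
    ‖ex (fun b a => M b a * (1 + g b a)) (fun x => ph m (P x))‖ ^ 2 ≤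
      ‖ex M (fun x => ph m (P x))‖ ^ 2 + ρ + ω := by
  have h0' : ∀ b, ∑ a, M b a * (g b a / ρ) = 0 := by
    intro b
    have e : ∀ a, M b a * (g b a / ρ) = M b a * g b a / ρ := fun a => by ring
    simp only [e]
    rw [← Finset.sum_div, h0 b, zero_div]
  have hN' : IsPM (fun b a => M b a * (1 + g b a / ρ)) :=
    isPM_density hM h0' fun b a => (hg b a).trans hη'
  have h1 := upper hP hM hN' hρ.le hρ1 zero_le_one le_rfl (ω := ω) (by
    intro Q hQ
    rw [a1_mix_one]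
    exact h k Ω Q hQ M (fun b a => g b a / ρ) hM h0' hg)
  rwa [mul_one, a1_mix M g hρ] at h1

theorem core_density {P : (Fin k → Ω) → ZMod m} (hP : P ∈ lowDeg (Fin k) Ω (ZMod m) (d + 1))
    {M g : Fin k → Ω → ℝ} (hM : IsPM M) (h0 : ∀ b, ∑ a, M b a * g b a = 0) {η η' ρ ω : ℝ}
    (hg : ∀ b a, |g b a| ≤ η) (hη : η ≤ 1 / 2) (hη'0 : 0 < η') (hη' : η' ≤ 1) (hρ : 0 < ρ)
    (hρ1 : ρ ≤ 1) (hηρ : 2 * η ≤ ρ * η') (hω : 0 ≤ ω) (h : StabAt m d ω η') :
    ‖ex (fun b a => M b a * (1 + g b a)) (fun x => ph m (P x)) ^ m -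
        ex M (fun x => ph m (P x)) ^ m‖ ≤
      m * √(2 * ρ + 2 * ω) + ω + m * √ρ := by
  classical
  set N : Fin k → Ω → ℝ := fun b a => M b a * (1 + g b a) with hNdef
  have hf1 : ∀ x : Fin k → Ω, ‖ph m (P x)‖ ≤ 1 := fun x => (norm_ph m _).le
  have hN : IsPM N := isPM_density hM h0 fun b a => (hg b a).trans (by linarith)
  have hgρ : ∀ b a, |g b a / ρ| ≤ η' := by
    intro b a
    rw [abs_div, abs_of_pos hρ, div_le_iff₀ hρ]
    have := hg b a
    nlinarith [abs_nonneg (g b a)]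
  have h0' : ∀ b, ∑ a, M b a * (g b a / ρ) = 0 := by
    intro b
    have e : ∀ a, M b a * (g b a / ρ) = M b a * g b a / ρ := fun a => by ring
    simp only [e]
    rw [← Finset.sum_div, h0 b, zero_div]
  set N' : Fin k → Ω → ℝ := fun b a => M b a * (1 + g b a / ρ) with hN'def
  have hN' : IsPM N' := isPM_density hM h0' fun b a => (hgρ b a).trans hη'
  have hmixN : mix ρ M N' = N := a1_mix M g hρ
  have hB : IsPM (ber (Fin k) ρ) := isPM_ber hρ.le hρ1
  have hH : ∀ Q ∈ lowDeg (Fin k) Ω (ZMod m) d,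
      ‖ex N' (fun x => ph m (Q x)) - ex M (fun x => ph m (Q x))‖ ≤ ω := fun Q hQ =>
    h k Ω Q hQ M (fun b a => g b a / ρ) hM h0' hgρ
  -- (ii)
  have hb : ‖ex M (fun x => ph m (P x))‖ ^ 2 ≤ ‖ex N (fun x => ph m (P x))‖ ^ 2 + ρ + ω := by
    have hpos : ∀ b a, 1 / 2 ≤ 1 + g b a := fun b a => by
      have := (abs_le.1 (hg b a)).1
      linarith
    have e1 : (fun b a => N b a * (1 + (-(g b a) / (1 + g b a)))) = M := by
      funext b a
      have hp : (1 + g b a) ≠ 0 := by linarith [hpos b a]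
      simp only [hNdef]
      field_simp
      ring
    have e0 : ∀ b, ∑ a, N b a * (-(g b a) / (1 + g b a)) = 0 := by
      intro b
      have e : ∀ a, N b a * (-(g b a) / (1 + g b a)) = -(M b a * g b a) := by
        intro a
        have hp : (1 + g b a) ≠ 0 := by linarith [hpos b a]
        simp only [hNdef]
        field_simp
      simp only [e]
      rw [Finset.sum_neg_distrib, h0 b, neg_zero]
    have hg' : ∀ b a, |(-(g b a) / (1 + g b a)) / ρ| ≤ η' := by
      intro b a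
      have hp : 0 < 1 + g b a := by linarith [hpos b a]
      rw [abs_div, abs_div, abs_neg, abs_of_pos hρ, abs_of_pos hp, div_div,
        div_le_iff₀ (mul_pos hp hρ)]
      have h2 := hg b a
      have h3 : η' * ρ ≤ η' * ((1 + g b a) * ρ) * 2 := by
        have : ρ ≤ (1 + g b a) * ρ * 2 := by nlinarith [hpos b a]
        nlinarith
      nlinarith
    have h1 := a1_upper hP hN e0 hη' hρ hρ1 hg' h
    rwa [e1] at h1
  -- the two averages
  have hμN : ex N (fun x => ph m (P x)) =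
      ex (ber (Fin k) ρ) (fun V => ex N' (hV M (fun x => ph m (P x)) V)) := by
    rw [← hmixN, ex_mix hM hN']
  have hμM : ex M (fun x => ph m (P x)) =
      ex (ber (Fin k) ρ) (fun V => ex M (hV M (fun x => ph m (P x)) V)) := by
    have e : (fun V => ex M (hV M (fun x => ph m (P x)) V)) =
        fun _ => ex M (fun x => ph m (P x)) := by
      funext V
      exact ex_hV hM _ V
    rw [e, ex_const hB]
  have hh : ∀ V x, ‖hV M (fun x => ph m (P x)) V x‖ ≤ 1 := fun V x => norm_hV_le hM hf1 V x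
  -- (iii)
  have hcN := a1_var hN' hB (fun V => hV M (fun x => ph m (P x)) V) hμN
  have hcN' : rex (ber (Fin k) ρ) (fun V => rex N'
      (fun x => ‖hV M (fun x => ph m (P x)) V x - ex N (fun x => ph m (P x))‖ ^ 2)) ≤
      2 * ρ + 2 * ω := by
    rw [hcN]
    have h1 := upper_h hP hM (ν := N') (κ := 1) hρ.le hρ1 (ω := ω) (by
      intro Q hQ
      rw [a1_mix_one]
      exact hH Q hQ)
    rw [a1_mix_one] at h1
    linarith
  have hcM := a1_var hM hB (fun V => hV M (fun x => ph m (P x)) V) hμM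
  have hcM' : rex (ber (Fin k) ρ) (fun V => rex M
      (fun x => ‖hV M (fun x => ph m (P x)) V x - ex M (fun x => ph m (P x))‖ ^ 2)) ≤ ρ := by
    rw [hcM]
    have h3 := es_bound hM hρ.le hρ1 (fun x => ph m (P x))
    have h4 : rex M (fun x => ‖ph m (P x)‖ ^ 2) = 1 := by
      have e : (fun x : Fin k → Ω => ‖ph m (P x)‖ ^ 2) = fun _ => (1:ℝ) := by
        funext x
        rw [norm_ph, one_pow]
      rw [e, rex_const hM]
    rw [h4, mul_one] at h3
    have h6 : 0 ≤ ρ * ‖ex M (fun x => ph m (P x))‖ ^ 2 := mul_nonneg hρ.le (sq_nonneg _)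
    linarith
  -- (iv)
  have hd := a1_pow hN' hB (fun V => hV M (fun x => ph m (P x)) V) hh (a1_norm hN hf1) m
  have hf := a1_pow hM hB (fun V => hV M (fun x => ph m (P x)) V) hh (a1_norm hM hf1) m
  have hd' : ‖ex N (fun x => ph m (P x)) ^ m -
      ex (ber (Fin k) ρ) (fun V => ex N'
        (fun x => hV M (fun x => ph m (P x)) V x ^ m))‖ ≤ m * √(2 * ρ + 2 * ω) :=
    hd.trans (mul_le_mul_of_nonneg_left (Real.sqrt_le_sqrt hcN') (Nat.cast_nonneg _))
  have hf' : ‖ex M (fun x => ph m (P x)) ^ m -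
      ex (ber (Fin k) ρ) (fun V => ex M
        (fun x => hV M (fun x => ph m (P x)) V x ^ m))‖ ≤ m * √ρ :=
    hf.trans (mul_le_mul_of_nonneg_left (Real.sqrt_le_sqrt hcM') (Nat.cast_nonneg _))
  have he : ‖ex (ber (Fin k) ρ) (fun V => ex N'
        (fun x => hV M (fun x => ph m (P x)) V x ^ m)) -
      ex (ber (Fin k) ρ) (fun V => ex M
        (fun x => hV M (fun x => ph m (P x)) V x ^ m))‖ ≤ ω := by
    rw [← ex_sub]
    have h1 := norm_ex_le hB (g := fun _ => ω) (f := fun V => ex N'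
        (fun x => hV M (fun x => ph m (P x)) V x ^ m) - ex M
        (fun x => hV M (fun x => ph m (P x)) V x ^ m)) fun V => cmp_pow hP hM hH V
    rwa [rex_const hB] at h1
  rw [norm_sub_rev] at hf'
  have t1 := norm_sub_le_norm_sub_add_norm_sub
    (ex N (fun x => ph m (P x)) ^ m)
    (ex (ber (Fin k) ρ) (fun V => ex N'
        (fun x => hV M (fun x => ph m (P x)) V x ^ m)))
    (ex M (fun x => ph m (P x)) ^ m)
  have t2 := norm_sub_le_norm_sub_add_norm_sub
    (ex (ber (Fin k) ρ) (fun V => ex N'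
        (fun x => hV M (fun x => ph m (P x)) V x ^ m)))
    (ex (ber (Fin k) ρ) (fun V => ex M
        (fun x => hV M (fun x => ph m (P x)) V x ^ m)))
    (ex M (fun x => ph m (P x)) ^ m)
  linarith

end Pool.Agent.MP_ca1109_lc.Hyb
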