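import Pool.Agent.MP_ca1109_lc.Hyb.A1

/-!
# Stability of phases under changes of the density: the induction
-/

namespace Pool.Agent.MP_ca1109_lc.Hyb

open Pool.Agent.MP_ca1109_lc.Mpg Finset

private theorem a1b_zero (m : ℕ) [NeZero m] {ε : ℝ} (hε : 0 < ε) : StabAt m 0 ε (1 / 2) := by
  intro k Ω _ P hP M g hM h0 hg
  have hN : IsPM (fun b a => M b a * (1 + g b a)) :=
    isPM_density hM h0 fun b a => (hg b a).trans (by norm_num)
  rcases isEmpty_or_nonempty (Fin k → Ω) with h | h
  · unfold ex
    rw [Finset.univ_eq_empty, Finset.sum_empty, Finset.sum_empty, sub_zero, norm_zero]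
    exact hε.le
  · obtain ⟨x0⟩ := h
    have h1 : (fun x => ph m (P x)) = fun _ : Fin k → Ω => ph m (P x0) := by
      funext x
      rw [lowDeg_zero hP x x0]
    rw [h1, ex_const hN, ex_const hM, sub_self, norm_zero]
    exact hε.le

theorem stab_density (m : ℕ) [NeZero m] (d : ℕ) :
    ∀ ε > 0, ∃ η : ℝ, 0 < η ∧ η ≤ 1 / 2 ∧ StabAt m d ε η := by
  induction d with
  | zero => exact fun ε hε => ⟨1 / 2, by norm_num, le_rfl, a1b_zero m hε⟩
  | succ d ih =>
    intro ε hε
    obtain ⟨δ, hδ, hroot⟩ := root_cont m (NeZero.pos m) ε hε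
    have hm0 : (0 : ℝ) ≤ m := Nat.cast_nonneg m
    have hm1 : (0 : ℝ) < 3 * m + 1 := by positivity
    obtain ⟨τ, hτ⟩ : ∃ τ : ℝ, τ = min (1 / 2) ((δ / (3 * m + 1)) ^ 2) := ⟨_, rfl⟩
    have hτ0 : 0 < τ := by rw [hτ]; exact lt_min (by norm_num) (by positivity)
    have hτ1 : τ ≤ 1 / 2 := by rw [hτ]; exact min_le_left _ _
    have hτ2 : √τ ≤ δ / (3 * m + 1) := by
      rw [Real.sqrt_le_left (by positivity), hτ]
      exact min_le_right _ _
    have hτ3 : τ ≤ √τ := by
      have h1 : 0 ≤ √τ := Real.sqrt_nonneg _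
      have h2 : √τ * √τ = τ := Real.mul_self_sqrt hτ0.le
      have h3 : √τ ≤ 1 := by
        have h4 := Real.sqrt_le_sqrt (show τ ≤ 1 by linarith)
        rwa [Real.sqrt_one] at h4
      nlinarith
    obtain ⟨η', hη'0, hη'1, H⟩ := ih τ hτ0
    have hη1 : τ * η' / 2 ≤ 1 / 2 := by nlinarith
    refine ⟨τ * η' / 2, by positivity, hη1, ?_⟩
    intro k Ω _ P hP M g hM h0 hg
    have hN : IsPM (fun b a => M b a * (1 + g b a)) :=
      isPM_density hM h0 fun b a => (hg b a).trans (by linarith)
    have emix : ∀ t : ℝ, mix t M (fun b a => M b a * (1 + g b a)) =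
        fun b a => M b a * (1 + t * g b a) := by
      intro t
      funext b a
      unfold mix
      ring
    have key := hroot (fun t => ex (mix t M (fun b a => M b a * (1 + g b a)))
      (fun x => ph m (P x))) (continuous_ex_mix M _ (fun x => ph m (P x))) ?_
    · have e1 : mix 1 M (fun b a => M b a * (1 + g b a)) = fun b a => M b a * (1 + g b a) := by
        rw [emix 1]
        funext b a
        ring
      simp only [e1, mix_zero] at key
      exact key
    · intro t ht
      simp only [mix_zero]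
      rw [emix t]
      have h0t : ∀ b, ∑ a, M b a * (t * g b a) = 0 := by
        intro b
        have e : ∀ a, M b a * (t * g b a) = t * (M b a * g b a) := fun a => by ring
        simp only [e]
        rw [← Finset.mul_sum, h0 b, mul_zero]
      have hgt : ∀ b a, |t * g b a| ≤ τ * η' / 2 := by
        intro b a
        rw [abs_mul, abs_of_nonneg ht.1]
        have h2 := hg b a
        have h3 : t * |g b a| ≤ 1 * |g b a| := mul_le_mul_of_nonneg_right ht.2 (abs_nonneg _)
        linarith
      have h1 := core_density hP hM h0t hgt hη1 hη'0 (by linarith) hτ0 (by linarith)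
        (by linarith) hτ0.le H
      refine h1.trans ?_
      have h2 : √(2 * τ + 2 * τ) ≤ 2 * √τ := by
        rw [Real.sqrt_le_left (by positivity), mul_pow, Real.sq_sqrt hτ0.le]
        linarith
      have h4 : (m : ℝ) * √(2 * τ + 2 * τ) ≤ m * (2 * √τ) := mul_le_mul_of_nonneg_left h2 hm0
      have h6 : (3 * m + 1) * √τ ≤ δ := by
        rw [le_div_iff₀ hm1] at hτ2
        linarith
      nlinarith

end Pool.Agent.MP_ca1109_lc.Hyb
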