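import Pool.Agent.MP_ca1109_lc.Hyb.A0

/-!
# Product expectations
-/

namespace Pool.Agent.MP_ca1109_lc.Hyb

open Pool.Agent.MP_ca1109_lc.Mpg Finset

variable {k : ℕ} {Ω : Type} [Fintype Ω]

/- PROOF NOTES [HYB-A2].
`rex_prod`: `rex M (∏ ..) = ∑ y, ∏ b, (M b (y b) * h b (y b)) = ∏ b, ∑ a, ..` (`Finset.prod_mul_distrib`, `Finset.prod_univ_sum`,
`Fintype.piFinset_univ`).
`ex_density`: `wt (M (1 + g)) y = wt M y * ∏ b, (1 + g b (y b))` (`Finset.prod_mul_distrib`).
`tilt_moment`: expand the square: `Π ^ 2 - 2 Π (1 + t s) + (1 + t s) ^ 2`, `Π = ∏ (1 + t g_b)`, `s = ∑ g_b`.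
 `E Π ^ 2 = ∏ (1 + t ^ 2 v_b)` (`rex_prod`, `∑ M (1 + t g) ^ 2 = 1 + t ^ 2 v_b`), `E Π = 1`, `E [Π g_b (y b)] = t v_b` (`rex_prod` with the factor
 `(1 + t g_b) g_b` at `b`), `E g_b g_b' = v_b` if `b = b'`, else `0`.  So `E [Π (1 + t s)] = 1 + t ^ 2 V` and `E (1 + t s) ^ 2 = 1 + t ^ 2 V`.
 Total: `∏ (1 + t ^ 2 v_b) - 1 - t ^ 2 V`; `1 + x ≤ exp x` (`Real.add_one_le_exp`), product `≤ exp (t ^ 2 V)`
 (`Real.exp_sum`), and `exp u - 1 - u ≤ u ^ 2` for `0 ≤ u ≤ 1` (`Real.abs_exp_sub_one_sub_id_le`). -/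

theorem rex_prod (M : Fin k → Ω → ℝ) (h : Fin k → Ω → ℝ) :
    rex M (fun y => ∏ b, h b (y b)) = ∏ b, ∑ a, M b a * h b a := by
  classical
  have h1 := Finset.prod_univ_sum (fun _ : Fin k => (Finset.univ : Finset Ω))
    (fun b a => M b a * h b a)
  rw [Fintype.piFinset_univ] at h1
  rw [h1]
  unfold rex Mpg.wt
  refine Finset.sum_congr rfl fun y _ => ?_
  rw [← Finset.prod_mul_distrib]

theorem ex_density (M g : Fin k → Ω → ℝ) (f : (Fin k → Ω) → ℂ) :
    ex (fun b a => M b a * (1 + g b a)) f =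
      ex M (fun y => ((∏ b, (1 + g b (y b)) : ℝ) : ℂ) * f y) := by
  unfold ex
  refine Finset.sum_congr rfl fun y _ => ?_
  have h1 : Mpg.wt (fun b a => M b a * (1 + g b a)) y =
      Mpg.wt M y * ∏ b, (1 + g b (y b)) := by
    unfold Mpg.wt
    rw [← Finset.prod_mul_distrib]
  rw [h1]
  push_cast
  ring

theorem a2_letter {M : Fin k → Ω → ℝ} (hM : IsPM M) (b : Fin k) (ψ : Ω → ℝ) :
    rex M (fun y => ψ (y b)) = ∑ a, M b a * ψ a := by
  rw [rex_block hM b]
  simp only [Function.update_self]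
  exact rex_const hM _

theorem a2_sum {J : Type*} (M : Fin k → Ω → ℝ) (s : Finset J) (F : J → (Fin k → Ω) → ℝ) :
    rex M (fun x => ∑ j ∈ s, F j x) = ∑ j ∈ s, rex M (F j) := by
  unfold rex
  rw [Finset.sum_comm]
  refine Finset.sum_congr rfl fun x _ => ?_
  rw [Finset.mul_sum]

theorem a2_one {M g : Fin k → Ω → ℝ} (hM : IsPM M) (h0 : ∀ b, ∑ a, M b a * g b a = 0) (t : ℝ)
    (b : Fin k) : ∑ a, M b a * (1 + t * g b a) = 1 := by
  have h1 : ∀ a, M b a * (1 + t * g b a) = M b a + t * (M b a * g b a) := fun a => by ring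
  rw [Finset.sum_congr rfl fun a _ => h1 a, Finset.sum_add_distrib, ← Finset.mul_sum, h0,
    hM.sum_one b]
  ring

theorem a2_sq {M g : Fin k → Ω → ℝ} (hM : IsPM M) (h0 : ∀ b, ∑ a, M b a * g b a = 0) (t : ℝ)
    (b : Fin k) : ∑ a, M b a * (1 + t * g b a) ^ 2 = 1 + t ^ 2 * ∑ a, M b a * g b a ^ 2 := by
  have h1 : ∀ a, M b a * (1 + t * g b a) ^ 2 =
      M b a + 2 * t * (M b a * g b a) + t ^ 2 * (M b a * g b a ^ 2) := fun a => by ring
  rw [Finset.sum_congr rfl fun a _ => h1 a, Finset.sum_add_distrib, Finset.sum_add_distrib,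
    ← Finset.mul_sum, ← Finset.mul_sum, h0, hM.sum_one b]
  ring

theorem a2_tilt {M g : Fin k → Ω → ℝ} (hM : IsPM M) (h0 : ∀ b, ∑ a, M b a * g b a = 0) (t : ℝ)
    (b : Fin k) : rex M (fun y => (∏ c, (1 + t * g c (y c))) * g b (y b)) =
      t * ∑ a, M b a * g b a ^ 2 := by
  classical
  have h1 : (fun y : Fin k → Ω => (∏ c, (1 + t * g c (y c))) * g b (y b)) =
      fun y => ∏ c, ((1 + t * g c (y c)) * (if c = b then g c (y c) else 1)) := by
    funext y
    rw [Finset.prod_mul_distrib, Finset.prod_ite_eq' Finset.univ b (fun c => g c (y c))]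
    simp
  rw [h1, rex_prod M (fun c a => (1 + t * g c a) * (if c = b then g c a else 1)),
    Finset.prod_eq_single b]
  · have h2 : ∀ a, M b a * ((1 + t * g b a) * (if b = b then g b a else 1)) =
        M b a * g b a + t * (M b a * g b a ^ 2) := fun a => by rw [if_pos rfl]; ring
    rw [Finset.sum_congr rfl fun a _ => h2 a, Finset.sum_add_distrib, ← Finset.mul_sum, h0]
    ring
  · intro c _ hc
    have h2 : ∀ a, M c a * ((1 + t * g c a) * (if c = b then g c a else 1)) =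
        M c a * (1 + t * g c a) := fun a => by rw [if_neg hc, mul_one]
    rw [Finset.sum_congr rfl fun a _ => h2 a]
    exact a2_one hM h0 t c
  · intro h
    exact absurd (mem_univ _) h

theorem a2_cross {M g : Fin k → Ω → ℝ} (h0 : ∀ b, ∑ a, M b a * g b a = 0)
    {b b' : Fin k} (hb : b ≠ b') : rex M (fun y => g b (y b) * g b' (y b')) = 0 := by
  classical
  have h1 : (fun y : Fin k → Ω => g b (y b) * g b' (y b')) =
      fun y => ∏ c, ((if c = b then g c (y c) else 1) * (if c = b' then g c (y c) else 1)) := by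
    funext y
    rw [Finset.prod_mul_distrib, Finset.prod_ite_eq' Finset.univ b (fun c => g c (y c)),
      Finset.prod_ite_eq' Finset.univ b' (fun c => g c (y c))]
    simp
  rw [h1, rex_prod M (fun c a => (if c = b then g c a else 1) * (if c = b' then g c a else 1))]
  refine Finset.prod_eq_zero (mem_univ b) ?_
  have h2 : ∀ a, M b a * ((if b = b then g b a else 1) * (if b = b' then g b a else 1)) =
      M b a * g b a := fun a => by rw [if_pos rfl, if_neg hb, mul_one]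
  rw [Finset.sum_congr rfl fun a _ => h2 a]
  exact h0 b

theorem tilt_moment {M g : Fin k → Ω → ℝ} (hM : IsPM M) (h0 : ∀ b, ∑ a, M b a * g b a = 0) {t : ℝ}
    (ht : t ^ 2 * ∑ b, ∑ a, M b a * g b a ^ 2 ≤ 1) :
    rex M (fun y => ((∏ b, (1 + t * g b (y b))) - 1 - t * ∑ b, g b (y b)) ^ 2) ≤
      (t ^ 2 * ∑ b, ∑ a, M b a * g b a ^ 2) ^ 2 := by
  classical
  obtain ⟨V, hV⟩ : ∃ V, V = ∑ b, ∑ a, M b a * g b a ^ 2 := ⟨_, rfl⟩
  rw [← hV] at ht ⊢
  have hv0 : ∀ b, 0 ≤ ∑ a, M b a * g b a ^ 2 := fun b =>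
    Finset.sum_nonneg fun a _ => mul_nonneg (hM.nonneg b a) (sq_nonneg _)
  have hV0 : 0 ≤ V := by rw [hV]; exact Finset.sum_nonneg fun b _ => hv0 b
  have e1 : rex M (fun y => (∏ b, (1 + t * g b (y b))) ^ 2) =
      ∏ b, (1 + t ^ 2 * ∑ a, M b a * g b a ^ 2) := by
    have h1 : (fun y : Fin k → Ω => (∏ b, (1 + t * g b (y b))) ^ 2) =
        fun y => ∏ b, (1 + t * g b (y b)) ^ 2 := by
      funext y; rw [Finset.prod_pow]
    rw [h1, rex_prod M (fun b a => (1 + t * g b a) ^ 2)]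
    exact Finset.prod_congr rfl fun b _ => a2_sq hM h0 t b
  have e2 : rex M (fun y => ∏ b, (1 + t * g b (y b))) = 1 := by
    rw [rex_prod M (fun b a => 1 + t * g b a)]
    exact Finset.prod_eq_one fun b _ => a2_one hM h0 t b
  have e3 : rex M (fun y => (∏ b, (1 + t * g b (y b))) * ∑ b, g b (y b)) = t * V := by
    have h1 : (fun y : Fin k → Ω => (∏ b, (1 + t * g b (y b))) * ∑ b, g b (y b)) =
        fun y => ∑ b, (∏ c, (1 + t * g c (y c))) * g b (y b) := by
      funext y; rw [Finset.mul_sum]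
    rw [h1, a2_sum M univ (fun b y => (∏ c, (1 + t * g c (y c))) * g b (y b)), hV,
      Finset.mul_sum]
    exact Finset.sum_congr rfl fun b _ => a2_tilt hM h0 t b
  have e4 : rex M (fun y => ∑ b, g b (y b)) = 0 := by
    rw [a2_sum M univ (fun b y => g b (y b))]
    refine Finset.sum_eq_zero fun b _ => ?_
    rw [a2_letter hM b (fun a => g b a), h0]
  have e5 : rex M (fun y => (∑ b, g b (y b)) ^ 2) = V := by
    have h1 : (fun y : Fin k → Ω => (∑ b, g b (y b)) ^ 2) =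
        fun y => ∑ b, ∑ b', g b (y b) * g b' (y b') := by
      funext y; rw [sq, Finset.sum_mul_sum]
    rw [h1, a2_sum M univ (fun b y => ∑ b', g b (y b) * g b' (y b')), hV]
    refine Finset.sum_congr rfl fun b _ => ?_
    rw [a2_sum M univ (fun b' y => g b (y b) * g b' (y b')), Finset.sum_eq_single b]
    · rw [← a2_letter hM b (fun a => g b a ^ 2)]
      congr 1
      funext y
      ring
    · intro b' _ hb'
      exact a2_cross h0 (fun h => hb' h.symm)
    · intro h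
      exact absurd (mem_univ _) h
  have e6 : rex M (fun y => ((∏ b, (1 + t * g b (y b))) - 1 - t * ∑ b, g b (y b)) ^ 2) =
      ∏ b, (1 + t ^ 2 * ∑ a, M b a * g b a ^ 2) - 1 - t ^ 2 * V := by
    have h1 : (fun y : Fin k → Ω =>
        ((∏ b, (1 + t * g b (y b))) - 1 - t * ∑ b, g b (y b)) ^ 2) =
        fun y => (((((∏ b, (1 + t * g b (y b))) ^ 2 + 1) + t ^ 2 * (∑ b, g b (y b)) ^ 2) +
          (-2) * ∏ b, (1 + t * g b (y b))) +
          (-2 * t) * ((∏ b, (1 + t * g b (y b))) * ∑ b, g b (y b))) +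
          (2 * t) * ∑ b, g b (y b) := by
      funext y; ring
    rw [h1, rex_add, rex_add, rex_add, rex_add, rex_add, rex_mul_left, rex_mul_left,
      rex_mul_left, rex_mul_left, e1, e2, e3, e4, e5, rex_const hM]
    ring
  rw [e6]
  have e7 : ∏ b, (1 + t ^ 2 * ∑ a, M b a * g b a ^ 2) ≤ Real.exp (t ^ 2 * V) := by
    rw [hV, Finset.mul_sum, Real.exp_sum]
    refine Finset.prod_le_prod (fun b _ => ?_) (fun b _ => ?_)
    · have := mul_nonneg (sq_nonneg t) (hv0 b)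
      linarith
    · have := Real.add_one_le_exp (t ^ 2 * ∑ a, M b a * g b a ^ 2)
      linarith
  have h2 : 0 ≤ t ^ 2 * V := mul_nonneg (sq_nonneg t) hV0
  have e8 := Real.abs_exp_sub_one_sub_id_le (x := t ^ 2 * V) (by rw [abs_of_nonneg h2]; exact ht)
  have e9 := le_abs_self (Real.exp (t ^ 2 * V) - 1 - t ^ 2 * V)
  linarith

end Pool.Agent.MP_ca1109_lc.Hyb
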