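import Pool.Agent.MP_ca1109_lc.Hyb.A2
import Pool.Agent.MP_ca1109_lc.Hyb.A0

/-!
# Phases are uncorrelated with sums of small functions of the letters
-/

namespace Pool.Agent.MP_ca1109_lc.Hyb

open Pool.Agent.MP_ca1109_lc.Mpg Finset

variable {k : ℕ} {Ω : Type} [Fintype Ω] {m : ℕ} [NeZero m] {d : ℕ}

/- PROOF NOTES [HYB-A2b].  `rex_sum_sq`: expand, `E g_b g_b' = 0` for `b ≠ b'` (`rex_prod` with the function `h b = g b`, `h b' = g b'` and `1` otherwise; or `rex_block` of `A0` at the letter `b`).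
`tilt`.  `V = ∑ b, ∑ a, M b a * g b a ^ 2`.  If `1 < t ^ 2 * V`: the left side is `≤ rex |∑ g_b| ≤ √V` (`norm_ex_le`, `rex_sq_le`, `rex_sum_sq`, `norm_ph`)
and `√V ≤ t V` since `1 ≤ t √V`; `0 ≤ ε' / t`.  Otherwise `StabAt` for the density `t * g` (`|t g| ≤ t κ ≤ η`) and
`ex_density` give `‖ex M (Π f) - ex M f‖ ≤ ε'`, `Π = ∏ (1 + t g_b)`; `ex M (Π f) - ex M f = t ex M (s f) + ex M ((Π - 1 - t s) f)`, `s = ∑ g_b`, and
`‖ex M ((Π - 1 - t s) f)‖ ≤ √(rex (..)^2) ≤ t ^ 2 V` (`norm_ex_sq_le` or `norm_ex_le` and `rex_sq_le`, `tilt_moment`).  Divide by `t`. -/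

omit [NeZero m] in
theorem a2b_sum {J : Type*} (M : Fin k → Ω → ℝ) (s : Finset J) (F : J → (Fin k → Ω) → ℝ) :
    rex M (fun y => ∑ j ∈ s, F j y) = ∑ j ∈ s, rex M (F j) := by
  unfold rex
  simp only [Finset.mul_sum]
  exact Finset.sum_comm

theorem a2b_pair {M g : Fin k → Ω → ℝ} (hM : IsPM M) (h0 : ∀ b, ∑ a, M b a * g b a = 0)
    (b b' : Fin k) : rex M (fun y => g b (y b) * g b' (y b')) =
      if b = b' then ∑ a, M b a * g b a ^ 2 else 0 := by
  classical
  rw [rex_block hM b]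
  by_cases hb : b = b'
  · subst hb
    rw [if_pos rfl]
    have h1 : (fun x : Fin k → Ω => ∑ a, M b a * (g b (Function.update x b a b) *
        g b (Function.update x b a b))) = fun _ => ∑ a, M b a * g b a ^ 2 := by
      funext x
      refine Finset.sum_congr rfl fun a _ => ?_
      rw [Function.update_self, pow_two]
    rw [h1, rex_const hM]
  · rw [if_neg hb]
    have h1 : (fun x : Fin k → Ω => ∑ a, M b a * (g b (Function.update x b a b) *
        g b' (Function.update x b a b'))) = fun _ => 0 := by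
      funext x
      have h2 : ∀ a, M b a * (g b (Function.update x b a b) *
          g b' (Function.update x b a b')) = (M b a * g b a) * g b' (x b') := by
        intro a
        rw [Function.update_self, Function.update_of_ne (Ne.symm hb), mul_assoc]
      rw [Finset.sum_congr rfl fun a _ => h2 a, ← Finset.sum_mul, h0, zero_mul]
    rw [h1, rex_const hM]

theorem rex_sum_sq {M g : Fin k → Ω → ℝ} (hM : IsPM M) (h0 : ∀ b, ∑ a, M b a * g b a = 0) :
    rex M (fun y => (∑ b, g b (y b)) ^ 2) = ∑ b, ∑ a, M b a * g b a ^ 2 := by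
  classical
  have h1 : (fun y : Fin k → Ω => (∑ b, g b (y b)) ^ 2) =
      fun y => ∑ b, ∑ b', g b (y b) * g b' (y b') := by
    funext y
    rw [pow_two, Finset.sum_mul_sum]
  rw [h1, a2b_sum M Finset.univ (fun b (y : Fin k → Ω) => ∑ b', g b (y b) * g b' (y b'))]
  refine Finset.sum_congr rfl fun b _ => ?_
  rw [a2b_sum M Finset.univ (fun b' (y : Fin k → Ω) => g b (y b) * g b' (y b'))]
  simp only [a2b_pair hM h0]
  rw [Finset.sum_ite_eq Finset.univ b, if_pos (Finset.mem_univ b)]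

/-- The correlation of a phase with a real function. -/
theorem a2b_norm {M : Fin k → Ω → ℝ} (hM : IsPM M) (P : (Fin k → Ω) → ZMod m)
    (s : (Fin k → Ω) → ℝ) {W : ℝ} (hW : 0 ≤ W) (h : rex M (fun y => s y ^ 2) ≤ W ^ 2) :
    ‖ex M (fun y => (s y : ℂ) * ph m (P y))‖ ≤ W := by
  have h1 : ‖ex M (fun y => (s y : ℂ) * ph m (P y))‖ ≤ rex M (fun y => |s y|) := by
    refine norm_ex_le hM fun y => ?_
    rw [norm_mul, norm_ph, mul_one, Complex.norm_real, Real.norm_eq_abs]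
  have h2 := rex_sq_le hM (fun y => |s y|)
  simp only [sq_abs] at h2
  have h3 : 0 ≤ rex M (fun y => |s y|) := rex_nonneg hM fun y => abs_nonneg _
  have h4 : rex M (fun y => |s y|) ≤ W :=
    (pow_le_pow_iff_left₀ h3 hW two_ne_zero).mp (h2.trans h)
  exact h1.trans h4

theorem tilt {P : (Fin k → Ω) → ZMod m} (hP : P ∈ lowDeg (Fin k) Ω (ZMod m) d)
    {M g : Fin k → Ω → ℝ} (hM : IsPM M) (h0 : ∀ b, ∑ a, M b a * g b a = 0) {ε' η κ t : ℝ}
    (hε : 0 ≤ ε') (h : StabAt m d ε' η) (ht : 0 < t) (htκ : t * κ ≤ η) (hg : ∀ b a, |g b a| ≤ κ) :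
    ‖ex M (fun y => ((∑ b, g b (y b) : ℝ) : ℂ) * ph m (P y))‖ ≤
      ε' / t + t * ∑ b, ∑ a, M b a * g b a ^ 2 := by
  classical
  obtain ⟨V, hV⟩ : ∃ V, V = ∑ b, ∑ a, M b a * g b a ^ 2 := ⟨_, rfl⟩
  have hV0 : 0 ≤ V := by
    rw [hV]
    exact Finset.sum_nonneg fun b _ => Finset.sum_nonneg fun a _ =>
      mul_nonneg (hM.nonneg b a) (sq_nonneg _)
  rw [← hV]
  have hss := rex_sum_sq hM h0
  rw [← hV] at hss
  rcases le_or_gt (t ^ 2 * V) 1 with hc | hc
  · have hst := h k Ω P hP M (fun b a => t * g b a) hM (fun b => by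
      have e : ∀ a, M b a * (t * g b a) = t * (M b a * g b a) := fun a => by ring
      rw [Finset.sum_congr rfl fun a _ => e a, ← Finset.mul_sum, h0, mul_zero]) (fun b a => by
      rw [abs_mul, abs_of_pos ht]
      exact (mul_le_mul_of_nonneg_left (hg b a) ht.le).trans htκ)
    rw [ex_density M (fun b a => t * g b a), ← ex_sub] at hst
    have hR := a2b_norm (m := m) hM P
      (fun y => (∏ b, (1 + t * g b (y b))) - 1 - t * ∑ b, g b (y b)) (W := t ^ 2 * V)
      (by positivity) (by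
        have h5 := tilt_moment hM h0 (t := t) (by rw [← hV]; exact hc)
        rw [← hV] at h5
        exact h5)
    have e1 : (fun y : Fin k → Ω => ((∏ b, (1 + t * g b (y b)) : ℝ) : ℂ) * ph m (P y) -
        ph m (P y)) = fun y => ((t : ℝ) : ℂ) * (((∑ b, g b (y b) : ℝ) : ℂ) * ph m (P y)) +
        (((∏ b, (1 + t * g b (y b))) - 1 - t * ∑ b, g b (y b) : ℝ) : ℂ) * ph m (P y) := by
      funext y
      rw [Complex.ofReal_sub, Complex.ofReal_sub, Complex.ofReal_mul, Complex.ofReal_one]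
      ring
    rw [e1, ex_add, ex_mul_left] at hst
    obtain ⟨A, hA⟩ : ∃ A, A = ex M (fun y => ((∑ b, g b (y b) : ℝ) : ℂ) * ph m (P y)) := ⟨_, rfl⟩
    obtain ⟨B, hB⟩ : ∃ B, B = ex M (fun y => (((∏ b, (1 + t * g b (y b))) - 1 -
      t * ∑ b, g b (y b) : ℝ) : ℂ) * ph m (P y)) := ⟨_, rfl⟩
    rw [← hA, ← hB] at hst
    rw [← hB] at hR
    rw [← hA]
    have h6 : ‖((t : ℝ) : ℂ) * A‖ ≤ ε' + t ^ 2 * V := by
      have h7 : ((t : ℝ) : ℂ) * A = (((t : ℝ) : ℂ) * A + B) - B := by ring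
      rw [h7]
      exact (norm_sub_le _ _).trans (add_le_add hst hR)
    rw [norm_mul, Complex.norm_real, Real.norm_of_nonneg ht.le] at h6
    have h8 : ε' / t + t * V = (ε' + t ^ 2 * V) / t := by
      field_simp
    rw [h8, le_div_iff₀ ht, mul_comm]
    exact h6
  · have h5 := a2b_norm (m := m) hM P (fun y => ∑ b, g b (y b)) (W := t * V) (by positivity) (by
      rw [hss]
      nlinarith)
    have h6 : 0 ≤ ε' / t := by positivity
    linarith

end Pool.Agent.MP_ca1109_lc.Hyb
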