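import Pool.Agent.MP_ca1109_lc.Hyb.A2b

/-!
# Phases are uncorrelated with sums of complex functions of the letters
-/

namespace Pool.Agent.MP_ca1109_lc.Hyb

open Pool.Agent.MP_ca1109_lc.Mpg Finset

variable {k : ℕ} {Ω : Type} [Fintype Ω] {m : ℕ} [NeZero m] {d : ℕ}

/- PROOF NOTES [HYB-A2c].  `g₁ b a = if ‖g b a‖ ≤ κ then g b a else 0`, `μ_b = ∑ a, M b a * g₁ b a`, `g₂ = g₁ - μ_b`; `‖g₂ b a‖ ≤ 2 κ`,
`∑ a, M b a * ‖g₂ b a‖ ^ 2 ≤ ∑ a, M b a * ‖g b a‖ ^ 2` (variance).  `tilt` for `re g₂` and `im g₂` (each bounded by `2 κ`, `t * (2 κ) ≤ η`, and the sum of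
their two variances is the one of `g₂`).  `g - g₂ = (g - g₁) - mean (g - g₁)` (since `mean g = 0`), so
`rex ‖∑ (g - g₂)‖ ^ 2 = ∑ rex ‖g - g₂‖ ^ 2 ≤ ∑ ∑ M ‖g - g₁‖ ^ 2 ≤ ∑ ∑ M ‖g‖ ^ 4 / κ ^ 2` (`‖g - g₁‖ ^ 2 = ‖g‖ ^ 2 1[κ < ‖g‖] ≤ ‖g‖ ^ 4 / κ ^ 2`),
real and imaginary parts (`rex_sum_sq`) for the orthogonality.  `‖ph‖ = 1`. -/

theorem a2c_var {p : Ω → ℝ} (h1 : ∑ a, p a = 1) (f : Ω → ℂ) :
    ∑ a, p a * ‖f a - ∑ a', (p a' : ℂ) * f a'‖ ^ 2 ≤ ∑ a, p a * ‖f a‖ ^ 2 := by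
  set μ : ℂ := ∑ a', (p a' : ℂ) * f a' with hμ
  have e1 : ∀ a, p a * ‖f a - μ‖ ^ 2 = p a * ‖f a‖ ^ 2 + p a * Complex.normSq μ -
      2 * (p a * (f a * (starRingEnd ℂ) μ).re) := by
    intro a
    rw [Complex.sq_norm, Complex.sq_norm, Complex.normSq_sub]
    ring
  have e2 : ∑ a, p a * (f a * (starRingEnd ℂ) μ).re = Complex.normSq μ := by
    have h2 : ∀ a, p a * (f a * (starRingEnd ℂ) μ).re =
        ((p a : ℂ) * f a * (starRingEnd ℂ) μ).re := by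
      intro a
      rw [mul_assoc, Complex.re_ofReal_mul]
    simp only [h2]
    rw [← Complex.re_sum, ← Finset.sum_mul, ← hμ, Complex.mul_conj, Complex.ofReal_re]
  simp only [e1]
  rw [Finset.sum_sub_distrib, Finset.sum_add_distrib, ← Finset.sum_mul, ← Finset.mul_sum, h1, e2]
  have := Complex.normSq_nonneg μ
  linarith

theorem a2c_re {p : Ω → ℝ} {f : Ω → ℂ} (h : ∑ a, (p a : ℂ) * f a = 0) :
    ∑ a, p a * (f a).re = 0 := by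
  have := congrArg Complex.re h
  rw [Complex.re_sum, Complex.zero_re] at this
  simpa only [Complex.re_ofReal_mul] using this

theorem a2c_im {p : Ω → ℝ} {f : Ω → ℂ} (h : ∑ a, (p a : ℂ) * f a = 0) :
    ∑ a, p a * (f a).im = 0 := by
  have := congrArg Complex.im h
  rw [Complex.im_sum, Complex.zero_im] at this
  simpa only [Complex.im_ofReal_mul] using this

theorem a2c_norm (z : ℂ) : ‖z‖ ^ 2 = z.re ^ 2 + z.im ^ 2 := by
  rw [Complex.sq_norm, Complex.normSq_apply]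
  ring

theorem a2c_split (M : Fin k → Ω → ℝ) (g : Fin k → Ω → ℂ) :
    ∑ b, ∑ a, M b a * ‖g b a‖ ^ 2 =
      ∑ b, ∑ a, M b a * (g b a).re ^ 2 + ∑ b, ∑ a, M b a * (g b a).im ^ 2 := by
  rw [← Finset.sum_add_distrib]
  refine Finset.sum_congr rfl fun b _ => ?_
  rw [← Finset.sum_add_distrib]
  refine Finset.sum_congr rfl fun a _ => ?_
  rw [a2c_norm]
  ring

theorem a2c_L2 {M : Fin k → Ω → ℝ} (hM : IsPM M) {g : Fin k → Ω → ℂ}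
    (h0 : ∀ b, ∑ a, (M b a : ℂ) * g b a = 0) :
    rex M (fun y => ‖∑ b, g b (y b)‖ ^ 2) = ∑ b, ∑ a, M b a * ‖g b a‖ ^ 2 := by
  have h1 := rex_sum_sq hM (g := fun b a => (g b a).re) (fun b => a2c_re (h0 b))
  have h2 := rex_sum_sq hM (g := fun b a => (g b a).im) (fun b => a2c_im (h0 b))
  rw [a2c_split, ← h1, ← h2, ← rex_add]
  congr 1
  funext y
  rw [a2c_norm, Complex.re_sum, Complex.im_sum]

theorem a2c_tilt {P : (Fin k → Ω) → ZMod m} (hP : P ∈ lowDeg (Fin k) Ω (ZMod m) d)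
    {M : Fin k → Ω → ℝ} (hM : IsPM M) {g : Fin k → Ω → ℂ} (h0 : ∀ b, ∑ a, (M b a : ℂ) * g b a = 0)
    {ε' η κ t : ℝ} (hε : 0 ≤ ε') (h : StabAt m d ε' η) (ht : 0 < t)
    (htκ : t * κ ≤ η) (hg : ∀ b a, ‖g b a‖ ≤ κ) :
    ‖ex M (fun y => (∑ b, g b (y b)) * ph m (P y))‖ ≤
      2 * (ε' / t) + t * ∑ b, ∑ a, M b a * ‖g b a‖ ^ 2 := by
  have h1 := tilt hP hM (g := fun b a => (g b a).re) (fun b => a2c_re (h0 b)) hε h ht htκ
    (fun b a => (Complex.abs_re_le_norm _).trans (hg b a))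
  have h2 := tilt hP hM (g := fun b a => (g b a).im) (fun b => a2c_im (h0 b)) hε h ht htκ
    (fun b a => (Complex.abs_im_le_norm _).trans (hg b a))
  have e1 : (fun y : Fin k → Ω => (∑ b, g b (y b)) * ph m (P y)) =
      fun y => ((∑ b, (g b (y b)).re : ℝ) : ℂ) * ph m (P y) +
        Complex.I * (((∑ b, (g b (y b)).im : ℝ) : ℂ) * ph m (P y)) := by
    funext y
    have e2 : (∑ b, g b (y b)) = ((∑ b, (g b (y b)).re : ℝ) : ℂ) +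
        ((∑ b, (g b (y b)).im : ℝ) : ℂ) * Complex.I := by
      rw [← Complex.re_sum, ← Complex.im_sum, Complex.re_add_im]
    rw [e2]
    ring
  rw [e1, ex_add, ex_mul_left]
  refine (norm_add_le _ _).trans ?_
  rw [norm_mul, Complex.norm_I, one_mul, a2c_split]
  linarith

theorem a2c_ex_le {M : Fin k → Ω → ℝ} (hM : IsPM M) {g : Fin k → Ω → ℂ}
    (h0 : ∀ b, ∑ a, (M b a : ℂ) * g b a = 0) (P : (Fin k → Ω) → ZMod m) :
    ‖ex M (fun y => (∑ b, g b (y b)) * ph m (P y))‖ ≤ √(∑ b, ∑ a, M b a * ‖g b a‖ ^ 2) := by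
  have h1 := norm_ex_sq_le hM (fun y => (∑ b, g b (y b)) * ph m (P y))
  have e1 : (fun y : Fin k → Ω => ‖(∑ b, g b (y b)) * ph m (P y)‖ ^ 2) =
      fun y => ‖∑ b, g b (y b)‖ ^ 2 := by
    funext y
    rw [norm_mul, norm_ph, mul_one]
  rw [e1, a2c_L2 hM h0] at h1
  exact Real.le_sqrt_of_sq_le h1

theorem a2c_mean {p : Ω → ℝ} (hp : ∀ a, 0 ≤ p a) (h1 : ∑ a, p a = 1) {f : Ω → ℂ} {κ : ℝ}
    (hf : ∀ a, ‖f a‖ ≤ κ) : ‖∑ a, (p a : ℂ) * f a‖ ≤ κ := by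
  refine (norm_sum_le _ _).trans ?_
  calc ∑ a, ‖(p a : ℂ) * f a‖ ≤ ∑ a, p a * κ := by
        refine Finset.sum_le_sum fun a _ => ?_
        rw [norm_mul, Complex.norm_real, Real.norm_of_nonneg (hp a)]
        exact mul_le_mul_of_nonneg_left (hf a) (hp a)
    _ = κ := by rw [← Finset.sum_mul, h1, one_mul]

theorem a2c_center {p : Ω → ℝ} (h1 : ∑ a, p a = 1) (f : Ω → ℂ) :
    ∑ a, (p a : ℂ) * (f a - ∑ a', (p a' : ℂ) * f a') = 0 := by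
  simp only [mul_sub]
  rw [Finset.sum_sub_distrib, ← Finset.sum_mul, ← Complex.ofReal_sum, h1, Complex.ofReal_one,
    one_mul, sub_self]

theorem tilt' {P : (Fin k → Ω) → ZMod m} (hP : P ∈ lowDeg (Fin k) Ω (ZMod m) d)
    {M : Fin k → Ω → ℝ} (hM : IsPM M) {g : Fin k → Ω → ℂ} (h0 : ∀ b, ∑ a, (M b a : ℂ) * g b a = 0)
    {ε' η κ t : ℝ} (hε : 0 ≤ ε') (h : StabAt m d ε' η) (ht : 0 < t) (hκ : 0 < κ)
    (htκ : 2 * t * κ ≤ η) :
    ‖ex M (fun y => (∑ b, g b (y b)) * ph m (P y))‖ ≤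
      2 * (ε' / t + t * ∑ b, ∑ a, M b a * ‖g b a‖ ^ 2) +
        √(∑ b, ∑ a, M b a * ‖g b a‖ ^ 4) / κ := by
  classical
  set g₁ : Fin k → Ω → ℂ := fun b a => if ‖g b a‖ ≤ κ then g b a else 0 with hg₁
  set g₂ : Fin k → Ω → ℂ := fun b a => g₁ b a - ∑ a', (M b a' : ℂ) * g₁ b a' with hg₂
  set g₃ : Fin k → Ω → ℂ := fun b a => (g b a - g₁ b a) -
    ∑ a', (M b a' : ℂ) * (g b a' - g₁ b a') with hg₃
  have hn1 : ∀ b a, ‖g₁ b a‖ ≤ κ := by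
    intro b a
    rw [hg₁]
    by_cases hc : ‖g b a‖ ≤ κ
    · simp only [hc, if_true]
    · simp only [hc, if_false, norm_zero]
      exact hκ.le
  have hn1' : ∀ b a, ‖g₁ b a‖ ≤ ‖g b a‖ := by
    intro b a
    rw [hg₁]
    by_cases hc : ‖g b a‖ ≤ κ
    · simp only [hc, if_true]; exact le_rfl
    · simp only [hc, if_false, norm_zero]; exact norm_nonneg _
  have hn3 : ∀ b a, ‖g b a - g₁ b a‖ ^ 2 ≤ ‖g b a‖ ^ 4 / κ ^ 2 := by
    intro b a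
    rw [hg₁]
    by_cases hc : ‖g b a‖ ≤ κ
    · simp only [hc, if_true, sub_self, norm_zero]
      rw [zero_pow two_ne_zero]
      positivity
    · simp only [hc, if_false, sub_zero]
      rw [le_div_iff₀ (by positivity)]
      have hc' : κ ≤ ‖g b a‖ := (not_le.1 hc).le
      have h2 : κ ^ 2 ≤ ‖g b a‖ ^ 2 := pow_le_pow_left₀ hκ.le hc' 2
      have h3 : 0 ≤ ‖g b a‖ ^ 2 := by positivity
      calc ‖g b a‖ ^ 2 * κ ^ 2 ≤ ‖g b a‖ ^ 2 * ‖g b a‖ ^ 2 := mul_le_mul_of_nonneg_left h2 h3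
        _ = ‖g b a‖ ^ 4 := by ring
  have hsum : ∀ b a, g b a = g₂ b a + g₃ b a := by
    intro b a
    rw [hg₂, hg₃]
    simp only [mul_sub]
    rw [Finset.sum_sub_distrib, h0 b]
    ring
  have hc2 : ∀ b, ∑ a, (M b a : ℂ) * g₂ b a = 0 := fun b => a2c_center (hM.sum_one b) _
  have hc3 : ∀ b, ∑ a, (M b a : ℂ) * g₃ b a = 0 := fun b => a2c_center (hM.sum_one b) _
  have hn2 : ∀ b a, ‖g₂ b a‖ ≤ 2 * κ := by
    intro b a
    have h1 := a2c_mean (hM.nonneg b) (hM.sum_one b) (hn1 b)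
    calc ‖g₂ b a‖ ≤ ‖g₁ b a‖ + ‖∑ a', (M b a' : ℂ) * g₁ b a'‖ := norm_sub_le _ _
      _ ≤ 2 * κ := by linarith [hn1 b a]
  have hV2 : ∑ b, ∑ a, M b a * ‖g₂ b a‖ ^ 2 ≤ ∑ b, ∑ a, M b a * ‖g b a‖ ^ 2 := by
    refine Finset.sum_le_sum fun b _ => ?_
    refine (a2c_var (hM.sum_one b) (g₁ b)).trans (Finset.sum_le_sum fun a _ => ?_)
    exact mul_le_mul_of_nonneg_left (pow_le_pow_left₀ (norm_nonneg _) (hn1' b a) 2)
      (hM.nonneg b a)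
  have hV3 : ∑ b, ∑ a, M b a * ‖g₃ b a‖ ^ 2 ≤ (∑ b, ∑ a, M b a * ‖g b a‖ ^ 4) / κ ^ 2 := by
    rw [Finset.sum_div]
    refine Finset.sum_le_sum fun b _ => ?_
    rw [Finset.sum_div]
    refine (a2c_var (hM.sum_one b) (fun a => g b a - g₁ b a)).trans
      (Finset.sum_le_sum fun a _ => ?_)
    rw [mul_div_assoc]
    exact mul_le_mul_of_nonneg_left (hn3 b a) (hM.nonneg b a)
  have hA := a2c_tilt hP hM hc2 hε h ht (κ := 2 * κ) (by linarith) hn2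
  have hB := a2c_ex_le hM hc3 P
  have hB' : √(∑ b, ∑ a, M b a * ‖g₃ b a‖ ^ 2) ≤ √(∑ b, ∑ a, M b a * ‖g b a‖ ^ 4) / κ := by
    refine (Real.sqrt_le_sqrt hV3).trans ?_
    rw [Real.sqrt_div' _ (by positivity), Real.sqrt_sq hκ.le]
  have e1 : (fun y : Fin k → Ω => (∑ b, g b (y b)) * ph m (P y)) =
      fun y => (∑ b, g₂ b (y b)) * ph m (P y) + (∑ b, g₃ b (y b)) * ph m (P y) := by
    funext y
    rw [← add_mul, ← Finset.sum_add_distrib]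
    congr 1
    exact Finset.sum_congr rfl fun b _ => hsum b (y b)
  rw [e1, ex_add]
  refine (norm_add_le _ _).trans ?_
  have hV0 : 0 ≤ ∑ b, ∑ a, M b a * ‖g b a‖ ^ 2 :=
    Finset.sum_nonneg fun b _ => Finset.sum_nonneg fun a _ =>
      mul_nonneg (hM.nonneg b a) (by positivity)
  have h5 : t * ∑ b, ∑ a, M b a * ‖g₂ b a‖ ^ 2 ≤ t * ∑ b, ∑ a, M b a * ‖g b a‖ ^ 2 :=
    mul_le_mul_of_nonneg_left hV2 ht.le
  have h6 : 0 ≤ t * ∑ b, ∑ a, M b a * ‖g b a‖ ^ 2 := mul_nonneg ht.le hV0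
  linarith

end Pool.Agent.MP_ca1109_lc.Hyb
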