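import Pool.Agent.MP_ca1109_lc.Hyb.Defs

/-!
# Averages over sets of letters
-/

namespace Pool.Agent.MP_ca1109_lc.Hyb

open Pool.Agent.MP_ca1109_lc.Mpg Finset

variable {k : ℕ} {Ω : Type} [Fintype Ω]

/- PROOF NOTES [HYB-A3].  `hV M G W x = ex M (fun y => G (sel W x y))`: the letters outside `W` are averaged.
`hV_inter`: `sel W (sel W' x y) z = sel (W ∧ W') x (sel W y z)` (pointwise), so the left side is
`ex M (fun y => ex M (fun z => f (sel W y z)))` with `f w = G (sel (W ∧ W') x w)`, which is `ex M (hV M f W) = ex M f` (`ex_hV`).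
`hV_dep`: `sel W x y = sel W x' y` if `x = x'` on `W`.
`ex_hV_mul`: `ex M F = ex M (hV M F W)` (`ex_hV`) with `F x = hV M G W x * conj (H x)`; `hV M F W x = ex_y (hV M G W (sel W x y) * conj (H (sel W x y)))` and
`hV M G W (sel W x y) = hV M G W x` (`hV_dep`), so it is `hV M G W x * conj (hV M H W x)` (`ex_mul_left`, `ex_conj`).
`ex_hV_inner`: by `ex_hV_mul` and `hV_inter` it is `ex (hV G W * conj (hV G (W' ∧ W)))`, then the conjugate of `ex_hV_mul` with the roles exchanged
(`hV M (hV M G W) (W' ∧ W) = hV M G (W ∧ W')`) gives `ex (hV G (W ∧ W') * conj (hV G (W ∧ W'))) = En`.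
`En_diff`: expand `‖a - b‖ ^ 2 = ‖a‖ ^ 2 + ‖b‖ ^ 2 - 2 re (a conj b)`; `W' ∧ W = W`.
`hV_univ`, `hV_empty`, `En_univ`, `En_empty`: `sel (fun _ => true) x y = x`. -/

theorem hV_inter {M : Fin k → Ω → ℝ} (hM : IsPM M) (G : (Fin k → Ω) → ℂ) (W W' : Fin k → Bool) :
    hV M (hV M G W) W' = hV M G (fun i => W i && W' i) := by
  funext x
  have h := ex_hV hM (fun w => G (sel (fun i => W i && W' i) x w)) W
  have h1 : (fun y => hV M G W (sel W' x y)) =
      hV M (fun w => G (sel (fun i => W i && W' i) x w)) W := by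
    funext y
    unfold hV
    congr 1
    funext z
    congr 1
    funext i
    unfold sel
    cases hW : W i <;> cases hW' : W' i <;> simp [hW, hW']
  change ex M (fun y => hV M G W (sel W' x y)) = ex M (fun w => G (sel (fun i => W i && W' i) x w))
  rw [h1, h]

theorem hV_dep (M : Fin k → Ω → ℝ) (G : (Fin k → Ω) → ℂ) (W : Fin k → Bool) {x x' : Fin k → Ω}
    (h : ∀ i, W i = true → x i = x' i) : hV M G W x = hV M G W x' := by
  unfold hV
  congr 1
  funext y
  congr 1
  funext i
  unfold sel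
  cases hW : W i
  · simp
  · simp [h i hW]

theorem ex_hV_mul {M : Fin k → Ω → ℝ} (hM : IsPM M) (G H : (Fin k → Ω) → ℂ) (W : Fin k → Bool) :
    ex M (fun x => hV M G W x * (starRingEnd ℂ) (H x)) =
      ex M (fun x => hV M G W x * (starRingEnd ℂ) (hV M H W x)) := by
  rw [← ex_hV hM (fun x => hV M G W x * (starRingEnd ℂ) (H x)) W]
  congr 1
  funext x
  have h1 : ∀ y, hV M G W (sel W x y) = hV M G W x := fun y =>
    hV_dep M G W fun i hi => by unfold sel; simp [hi]
  change ex M (fun y => hV M G W (sel W x y) * (starRingEnd ℂ) (H (sel W x y))) =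
    hV M G W x * (starRingEnd ℂ) (ex M fun y => H (sel W x y))
  simp only [h1]
  rw [ex_mul_left, ex_conj]

theorem ex_hV_inner {M : Fin k → Ω → ℝ} (hM : IsPM M) (G : (Fin k → Ω) → ℂ) (W W' : Fin k → Bool) :
    ex M (fun x => hV M G W x * (starRingEnd ℂ) (hV M G W' x)) =
      ((En M G (fun i => W i && W' i) : ℝ) : ℂ) := by
  set V : Fin k → Bool := fun i => W i && W' i with hV'
  have e1 : (fun i => W' i && W i) = V := by
    funext i
    rw [hV']
    exact Bool.and_comm _ _
  have e2 : (fun i => W i && V i) = V := by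
    funext i
    change (W i && (W i && W' i)) = (W i && W' i)
    rw [← Bool.and_assoc, Bool.and_self]
  have h1 : ex M (fun x => hV M G W x * (starRingEnd ℂ) (hV M G W' x)) =
      ex M (fun x => hV M G W x * (starRingEnd ℂ) (hV M G V x)) := by
    rw [ex_hV_mul hM G (hV M G W') W, hV_inter hM, e1]
  have h2 : ex M (fun x => hV M G V x * (starRingEnd ℂ) (hV M G W x)) =
      ((En M G V : ℝ) : ℂ) := by
    rw [ex_hV_mul hM G (hV M G W) V, hV_inter hM, e2]
    unfold En
    rw [← ex_ofReal]
    congr 1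
    funext x
    rw [Complex.mul_conj']
    push_cast
    rfl
  have h3 : (fun x => hV M G W x * (starRingEnd ℂ) (hV M G V x)) =
      fun x => (starRingEnd ℂ) (hV M G V x * (starRingEnd ℂ) (hV M G W x)) := by
    funext x
    rw [map_mul, Complex.conj_conj, mul_comm]
  rw [h1, h3, ex_conj, h2, Complex.conj_ofReal]

theorem En_diff {M : Fin k → Ω → ℝ} (hM : IsPM M) (G : (Fin k → Ω) → ℂ) {W W' : Fin k → Bool}
    (h : ∀ i, W i = true → W' i = true) :
    rex M (fun x => ‖hV M G W' x - hV M G W x‖ ^ 2) = En M G W' - En M G W := by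
  have e1 : (fun i => W i && W' i) = W := by
    funext i
    cases hW : W i
    · simp
    · simp [h i hW]
  have e2 : (fun i => W' i && W i) = W := by
    funext i
    rw [Bool.and_comm]
    exact congrFun e1 i
  have e3 : ∀ V : Fin k → Bool, (fun i => V i && V i) = V := fun V => by
    funext i
    exact Bool.and_self _
  have key : ((rex M (fun x => ‖hV M G W' x - hV M G W x‖ ^ 2) : ℝ) : ℂ) =
      ((En M G W' - En M G W : ℝ) : ℂ) := by
    rw [← ex_ofReal]
    have h1 : (fun x => ((‖hV M G W' x - hV M G W x‖ ^ 2 : ℝ) : ℂ)) =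
        fun x => (hV M G W' x * (starRingEnd ℂ) (hV M G W' x) -
          hV M G W' x * (starRingEnd ℂ) (hV M G W x)) -
          (hV M G W x * (starRingEnd ℂ) (hV M G W' x) -
          hV M G W x * (starRingEnd ℂ) (hV M G W x)) := by
      funext x
      push_cast
      rw [← Complex.mul_conj', map_sub]
      ring
    rw [h1, ex_sub, ex_sub, ex_sub, ex_hV_inner hM, ex_hV_inner hM, ex_hV_inner hM,
      ex_hV_inner hM, e1, e2, e3, e3]
    push_cast
    ring
  exact_mod_cast key

theorem hV_univ {M : Fin k → Ω → ℝ} (hM : IsPM M) (G : (Fin k → Ω) → ℂ) :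
    hV M G (fun _ => true) = G := by
  funext x
  unfold hV
  have h1 : (fun y => G (sel (fun _ => true) x y)) = fun _ => G x := by
    funext y
    congr 1
  rw [h1, ex_const hM]

theorem hV_empty (M : Fin k → Ω → ℝ) (G : (Fin k → Ω) → ℂ) (x : Fin k → Ω) :
    hV M G (fun _ => false) x = ex M G := by
  unfold hV
  congr 1

theorem En_univ {M : Fin k → Ω → ℝ} (hM : IsPM M) (G : (Fin k → Ω) → ℂ) :
    En M G (fun _ => true) = rex M (fun x => ‖G x‖ ^ 2) := by
  unfold En
  rw [hV_univ hM]

theorem En_empty {M : Fin k → Ω → ℝ} (hM : IsPM M) (G : (Fin k → Ω) → ℂ) :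
    En M G (fun _ => false) = ‖ex M G‖ ^ 2 := by
  unfold En
  simp only [hV_empty]
  exact rex_const hM _

end Pool.Agent.MP_ca1109_lc.Hyb
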