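import Pool.Agent.MP_ca1109_lc.Hyb.A0
import Pool.Agent.MP_ca1109_lc.Hyb.A3

/-!
# Energies increase in the set of letters and their increments do too
-/

namespace Pool.Agent.MP_ca1109_lc.Hyb

open Pool.Agent.MP_ca1109_lc.Mpg Finset

variable {k : ℕ} {Ω : Type} [Fintype Ω]

/- PROOF NOTES [HYB-A3b].  `hV_sub`: `ex_sub`.  `contract_sq`, `contract_four`: `‖ex ..‖ ^ 2 ≤ rex ‖..‖ ^ 2` (`norm_ex_sq_le`) pointwise in `x`, then `rex_sel` of `A0`; for the fourth power use `rex_sq_le` once more.
`Db_eq`: `hV_letter` of `A0`.  `Db_energy`: `En_diff` with `W = univ ∖ b`, `W' = univ`.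
`step_eq` (`W b = false`): `hV M G (W ∪ b) - hV M G W = hV M (Db M b G) (W ∪ b)`, since `(univ ∖ b) ∧ (W ∪ b) = W` (`hV_inter`, `hV_sub`, `Db_eq`).
`step_sq`, `step_four`: `contract_sq/four` for `Db M b G`.
`En_super`: with `F = hV M G (W' ∪ b) - hV M G W'`: `hV M F (W ∪ b) = hV M G (W ∪ b) - hV M G W` (`hV_inter`, `W ≤ W'`, `W' b = false`), contraction,
and `En_diff` on both sides. -/

theorem hV_sub (M : Fin k → Ω → ℝ) (G H : (Fin k → Ω) → ℂ) (W : Fin k → Bool) (x : Fin k → Ω) :
    hV M (fun y => G y - H y) W x = hV M G W x - hV M H W x := by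
  unfold hV
  exact ex_sub M _ _

theorem contract_sq {M : Fin k → Ω → ℝ} (hM : IsPM M) (G : (Fin k → Ω) → ℂ) (W : Fin k → Bool) :
    rex M (fun x => ‖hV M G W x‖ ^ 2) ≤ rex M (fun x => ‖G x‖ ^ 2) := by
  rw [← rex_sel hM (fun x => ‖G x‖ ^ 2) W]
  exact rex_mono hM fun x => norm_ex_sq_le hM _

theorem contract_four {M : Fin k → Ω → ℝ} (hM : IsPM M) (G : (Fin k → Ω) → ℂ) (W : Fin k → Bool) :
    rex M (fun x => ‖hV M G W x‖ ^ 4) ≤ rex M (fun x => ‖G x‖ ^ 4) := by
  rw [← rex_sel hM (fun x => ‖G x‖ ^ 4) W]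
  refine rex_mono hM fun x => ?_
  have h1 : ‖hV M G W x‖ ^ 2 ≤ rex M (fun y => ‖G (sel W x y)‖ ^ 2) := norm_ex_sq_le hM _
  have h2 : (‖hV M G W x‖ ^ 2) ^ 2 ≤ (rex M (fun y => ‖G (sel W x y)‖ ^ 2)) ^ 2 :=
    pow_le_pow_left₀ (by positivity) h1 2
  have h3 := rex_sq_le hM (fun y => ‖G (sel W x y)‖ ^ 2)
  have e1 : ‖hV M G W x‖ ^ 4 = (‖hV M G W x‖ ^ 2) ^ 2 := by ring
  have e2 : (fun y => ‖G (sel W x y)‖ ^ 4) = fun y => (‖G (sel W x y)‖ ^ 2) ^ 2 := by
    funext y; ring
  rw [e1, e2]
  exact h2.trans h3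

theorem Db_eq {M : Fin k → Ω → ℝ} (hM : IsPM M) (G : (Fin k → Ω) → ℂ) (b : Fin k) (x : Fin k → Ω) :
    Db M b G x = G x - hV M G (fun i => decide (i ≠ b)) x := by
  unfold Db
  rw [hV_letter hM]

theorem Db_energy {M : Fin k → Ω → ℝ} (hM : IsPM M) (G : (Fin k → Ω) → ℂ) (b : Fin k) :
    rex M (fun x => ‖Db M b G x‖ ^ 2) =
      En M G (fun _ => true) - En M G (fun i => decide (i ≠ b)) := by
  rw [← En_diff hM G (W := fun i => decide (i ≠ b)) (W' := fun _ => true) (fun i _ => rfl)]
  congr 1
  funext x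
  rw [Db_eq hM, hV_univ hM]

theorem step_eq {M : Fin k → Ω → ℝ} (hM : IsPM M) (G : (Fin k → Ω) → ℂ) {W : Fin k → Bool}
    {b : Fin k} (hb : W b = false) (x : Fin k → Ω) :
    hV M G (Function.update W b true) x - hV M G W x =
      hV M (Db M b G) (Function.update W b true) x := by
  have h1 : Db M b G = fun y => G y - hV M G (fun i => decide (i ≠ b)) y := by
    funext y
    exact Db_eq hM G b y
  rw [h1, hV_sub, hV_inter hM]
  have h2 : (fun i => decide (i ≠ b) && Function.update W b true i) = W := by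
    funext i
    by_cases hi : i = b
    · subst hi
      simp [hb]
    · simp [hi]
  rw [h2]

theorem step_sq {M : Fin k → Ω → ℝ} (hM : IsPM M) (G : (Fin k → Ω) → ℂ) {W : Fin k → Bool}
    {b : Fin k} (hb : W b = false) :
    rex M (fun x => ‖hV M G (Function.update W b true) x - hV M G W x‖ ^ 2) ≤
      rex M (fun x => ‖Db M b G x‖ ^ 2) := by
  simp only [step_eq hM G hb]
  exact contract_sq hM _ _

theorem step_four {M : Fin k → Ω → ℝ} (hM : IsPM M) (G : (Fin k → Ω) → ℂ) {W : Fin k → Bool}
    {b : Fin k} (hb : W b = false) :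
    rex M (fun x => ‖hV M G (Function.update W b true) x - hV M G W x‖ ^ 4) ≤
      rex M (fun x => ‖Db M b G x‖ ^ 4) := by
  simp only [step_eq hM G hb]
  exact contract_four hM _ _

theorem En_super {M : Fin k → Ω → ℝ} (hM : IsPM M) (G : (Fin k → Ω) → ℂ) {W W' : Fin k → Bool}
    (h : ∀ i, W i = true → W' i = true) {b : Fin k} (hb : W' b = false) :
    En M G (Function.update W b true) - En M G W ≤
      En M G (Function.update W' b true) - En M G W' := by
  have hbW : W b = false := by
    cases hW : W b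
    · rfl
    · rw [h b hW] at hb
      exact absurd hb (by simp)
  have h1 : ∀ i, W i = true → Function.update W b true i = true := by
    intro i hi
    by_cases hib : i = b
    · subst hib; simp
    · simp [hib, hi]
  have h2 : ∀ i, W' i = true → Function.update W' b true i = true := by
    intro i hi
    by_cases hib : i = b
    · subst hib; simp
    · simp [hib, hi]
  rw [← En_diff hM G h1, ← En_diff hM G h2]
  have e1 : (fun i => Function.update W' b true i && Function.update W b true i) =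
      Function.update W b true := by
    funext i
    by_cases hib : i = b
    · subst hib; simp
    · simp only [Function.update_of_ne hib]
      cases hW : W i
      · simp
      · simp [h i hW]
  have e2 : (fun i => W' i && Function.update W b true i) = W := by
    funext i
    by_cases hib : i = b
    · subst hib; simp [hb, hbW]
    · simp only [Function.update_of_ne hib]
      cases hW : W i
      · simp
      · simp [h i hW]
  have e : (fun x => ‖hV M G (Function.update W b true) x - hV M G W x‖ ^ 2) =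
      fun x => ‖hV M (fun y => hV M G (Function.update W' b true) y - hV M G W' y)
        (Function.update W b true) x‖ ^ 2 := by
    funext x
    rw [hV_sub, hV_inter hM, hV_inter hM, e1, e2]
  rw [e]
  exact contract_sq hM _ _

end Pool.Agent.MP_ca1109_lc.Hyb
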