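import Pool.Agent.MP_ca1109_lc.Hyb.A3

/-!
# Orthogonality of the martingale differences of a colouring
-/

namespace Pool.Agent.MP_ca1109_lc.Hyb

open Pool.Agent.MP_ca1109_lc.Mpg Finset

variable {k : ℕ} {Ω : Type} [Fintype Ω]

/- PROOF NOTES [HYB-A4].  Every function involved is an `hV M G W`: `G = hV G univ`, the constant `ex M G` is `hV G ∅` (`hV_univ`, `hV_empty`), and
`⟨hV G W, hV G W'⟩ = En (W ∧ W')` (`ex_hV_inner`), a real number.  Put `W_b = low c (c b)` (`W_b b = false`), `Δ_b = hV G (W_b ∪ b) - hV G W_b`,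
`e_b = En (W_b ∪ b) - En W_b`.
 `⟨hV univ - hV ∅, Δ_b⟩ = e_b`  (`W ∧ univ = W`, `W ∧ ∅ = ∅`).
 `⟨Δ_b, Δ_b⟩ = e_b`.
 `⟨Δ_b, Δ_b'⟩ = 0` for `b ≠ b'`: if `c b = c b'`, then `W_b = W_b' =: W`, `b, b' ∉ W` and all four intersections are `W`.
 If `c b < c b'` (as numbers), then `W_b ∪ b ⊆ W_b'`, `b' ∉ W_b ∪ b`, so the four intersections are `W_b ∪ b, W_b ∪ b, W_b, W_b` with signs `+ - - +`:
 `(W_b ∪ b) ∧ (W_b' ∪ b') = W_b ∪ b`, `(W_b ∪ b) ∧ W_b' = W_b ∪ b`, `W_b ∧ (W_b' ∪ b') = W_b`, `W_b ∧ W_b' = W_b`.  The case `c b' < c b` by conjugation.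
Expand `rex ‖R‖ ^ 2 = re ⟨R, R⟩`, `R = (hV univ - hV ∅) - ∑ Δ_b`. -/

theorem a4_inner {M : Fin k → Ω → ℝ} (hM : IsPM M) (G : (Fin k → Ω) → ℂ)
    (A B C D : Fin k → Bool) :
    ex M (fun x => (hV M G A x - hV M G B x) * (starRingEnd ℂ) (hV M G C x - hV M G D x)) =
      ((En M G (fun i => A i && C i) - En M G (fun i => A i && D i) -
        (En M G (fun i => B i && C i) - En M G (fun i => B i && D i)) : ℝ) : ℂ) := by
  have h1 : (fun x => (hV M G A x - hV M G B x) * (starRingEnd ℂ) (hV M G C x - hV M G D x)) =
      fun x => (hV M G A x * (starRingEnd ℂ) (hV M G C x) -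
        hV M G A x * (starRingEnd ℂ) (hV M G D x)) -
        (hV M G B x * (starRingEnd ℂ) (hV M G C x) -
        hV M G B x * (starRingEnd ℂ) (hV M G D x)) := by
    funext x
    rw [map_sub]
    ring
  rw [h1, ex_sub, ex_sub, ex_sub, ex_hV_inner hM, ex_hV_inner hM, ex_hV_inner hM, ex_hV_inner hM]
  push_cast
  ring

theorem a4_low_self {J : ℕ} (c : Fin k → Fin J) (b : Fin k) : low c (c b) b = false := by
  unfold low
  simp

theorem a4_le {W : Fin k → Bool} {b : Fin k} (i : Fin k) (hi : W i = true) :
    Function.update W b true i = true := by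
  by_cases hib : i = b
  · subst hib; simp
  · simp [hib, hi]

theorem a4_and_of_le {W W' : Fin k → Bool} (h : ∀ i, W i = true → W' i = true) :
    (fun i => W i && W' i) = W := by
  funext i
  cases hW : W i
  · simp
  · simp [h i hW]

theorem a4_and_of_ge {W W' : Fin k → Bool} (h : ∀ i, W' i = true → W i = true) :
    (fun i => W i && W' i) = W' := by
  funext i
  cases hW : W' i
  · simp
  · simp [h i hW]

theorem a4_low_le {J : ℕ} (c : Fin k → Fin J) {b b' : Fin k} (h : (c b : ℕ) < c b') (i : Fin k)
    (hi : Function.update (low c (c b)) b true i = true) : low c (c b') i = true := by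
  by_cases hib : i = b
  · subst hib
    unfold low
    simpa using h
  · rw [Function.update_of_ne hib] at hi
    unfold low at hi ⊢
    rw [decide_eq_true_eq] at hi ⊢
    omega

theorem a4_dl_real {M : Fin k → Ω → ℝ} (hM : IsPM M) (G : (Fin k → Ω) → ℂ) {J : ℕ}
    (c : Fin k → Fin J) (b : Fin k) :
    ex M (fun x => dl M G c b x * (starRingEnd ℂ) (dl M G c b x)) =
      ((En M G (Function.update (low c (c b)) b true) - En M G (low c (c b)) : ℝ) : ℂ) := by
  rw [← En_diff hM G (fun i hi => a4_le i hi), ← ex_ofReal]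
  congr 1
  funext x
  rw [Complex.mul_conj']
  push_cast
  rfl

theorem dl_orth {M : Fin k → Ω → ℝ} (hM : IsPM M) (G : (Fin k → Ω) → ℂ) {J : ℕ} (c : Fin k → Fin J)
    {b b' : Fin k} (h : b ≠ b') :
    ex M (fun x => dl M G c b x * (starRingEnd ℂ) (dl M G c b' x)) = 0 := by
  unfold dl
  rw [a4_inner hM]
  rcases lt_trichotomy (c b : ℕ) (c b') with hlt | heq | hgt
  · have h1 := a4_and_of_le (W := Function.update (low c (c b)) b true) (W' := low c (c b'))
      (a4_low_le c hlt)
    have h2 := a4_and_of_le (W := Function.update (low c (c b)) b true)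
      (W' := Function.update (low c (c b')) b' true)
      (fun i hi => a4_le i (a4_low_le c hlt i hi))
    have h3 := a4_and_of_le (W := low c (c b)) (W' := low c (c b'))
      (fun i hi => a4_low_le c hlt i (a4_le i hi))
    have h4 := a4_and_of_le (W := low c (c b)) (W' := Function.update (low c (c b')) b' true)
      (fun i hi => a4_le i (a4_low_le c hlt i (a4_le i hi)))
    rw [h1, h2, h3, h4]
    simp
  · have hcc : c b' = c b := (Fin.ext heq).symm
    rw [hcc]
    have hb : low c (c b) b = false := a4_low_self c b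
    have hb' : low c (c b) b' = false := by rw [← hcc]; exact a4_low_self c b'
    have h1 : (fun i => Function.update (low c (c b)) b true i &&
        Function.update (low c (c b)) b' true i) = low c (c b) := by
      funext i
      by_cases hi : i = b
      · subst hi
        rw [Function.update_self, Function.update_of_ne h, Bool.true_and]
      · by_cases hi' : i = b'
        · subst hi'
          rw [Function.update_self, Function.update_of_ne hi, Bool.and_true]
        · rw [Function.update_of_ne hi, Function.update_of_ne hi', Bool.and_self]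
    have h2 : (fun i => Function.update (low c (c b)) b true i && low c (c b) i) =
        low c (c b) := a4_and_of_ge (fun i hi => a4_le i hi)
    have h3 : (fun i => low c (c b) i && Function.update (low c (c b)) b' true i) =
        low c (c b) := a4_and_of_le (fun i hi => a4_le i hi)
    have h4 : (fun i => low c (c b) i && low c (c b) i) = low c (c b) :=
      a4_and_of_le (fun i hi => hi)
    rw [h1, h2, h3, h4]
    simp
  · have h1 := a4_and_of_ge (W := Function.update (low c (c b)) b true) (W' := low c (c b'))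
      (fun i hi => a4_le i (a4_low_le c hgt i (a4_le i hi)))
    have h2 := a4_and_of_ge (W := Function.update (low c (c b)) b true)
      (W' := Function.update (low c (c b')) b' true)
      (fun i hi => a4_le i (a4_low_le c hgt i hi))
    have h3 := a4_and_of_ge (W := low c (c b)) (W' := low c (c b'))
      (fun i hi => a4_low_le c hgt i (a4_le i hi))
    have h4 := a4_and_of_ge (W := low c (c b)) (W' := Function.update (low c (c b')) b' true)
      (fun i hi => a4_low_le c hgt i hi)
    rw [h1, h2, h3, h4]
    simp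

theorem dl_self {M : Fin k → Ω → ℝ} (hM : IsPM M) (G : (Fin k → Ω) → ℂ) {J : ℕ} (c : Fin k → Fin J)
    (b : Fin k) : rex M (fun x => ‖dl M G c b x‖ ^ 2) =
      En M G (Function.update (low c (c b)) b true) - En M G (low c (c b)) := by
  unfold dl
  exact En_diff hM G (fun i hi => a4_le i hi)

theorem colour_rest {M : Fin k → Ω → ℝ} (hM : IsPM M) (G : (Fin k → Ω) → ℂ) {J : ℕ}
    (c : Fin k → Fin J) :
    rex M (fun x => ‖G x - ex M G - ∑ b, dl M G c b x‖ ^ 2) =
      En M G (fun _ => true) - En M G (fun _ => false) -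
        ∑ b, (En M G (Function.update (low c (c b)) b true) - En M G (low c (c b))) := by
  have hU : ∀ x, G x - ex M G = hV M G (fun _ => true) x - hV M G (fun _ => false) x := by
    intro x
    rw [hV_univ hM, hV_empty]
  have hUU : ex M (fun x => (G x - ex M G) * (starRingEnd ℂ) (G x - ex M G)) =
      ((En M G (fun _ => true) - En M G (fun _ => false) : ℝ) : ℂ) := by
    simp only [hU]
    rw [a4_inner hM]
    simp
  have hUd : ∀ b, ex M (fun x => (G x - ex M G) * (starRingEnd ℂ) (dl M G c b x)) =
      ((En M G (Function.update (low c (c b)) b true) - En M G (low c (c b)) : ℝ) : ℂ) := by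
    intro b
    simp only [hU]
    unfold dl
    rw [a4_inner hM]
    simp
  have hdU : ∀ b, ex M (fun x => dl M G c b x * (starRingEnd ℂ) (G x - ex M G)) =
      ((En M G (Function.update (low c (c b)) b true) - En M G (low c (c b)) : ℝ) : ℂ) := by
    intro b
    simp only [hU]
    unfold dl
    rw [a4_inner hM]
    simp
  have key : ((rex M (fun x => ‖G x - ex M G - ∑ b, dl M G c b x‖ ^ 2) : ℝ) : ℂ) =
      ((En M G (fun _ => true) - En M G (fun _ => false) -
        ∑ b, (En M G (Function.update (low c (c b)) b true) - En M G (low c (c b))) : ℝ) : ℂ) := by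
    rw [← ex_ofReal]
    have h1 : (fun x => ((‖G x - ex M G - ∑ b, dl M G c b x‖ ^ 2 : ℝ) : ℂ)) =
        fun x => ((G x - ex M G) * (starRingEnd ℂ) (G x - ex M G) -
          ∑ b, (G x - ex M G) * (starRingEnd ℂ) (dl M G c b x)) -
          (∑ b, dl M G c b x * (starRingEnd ℂ) (G x - ex M G) -
          ∑ b, ∑ b', dl M G c b x * (starRingEnd ℂ) (dl M G c b' x)) := by
      funext x
      push_cast
      rw [← Complex.mul_conj', map_sub, map_sum, sub_mul, mul_sub, mul_sub, Finset.mul_sum,
        Finset.sum_mul, Finset.sum_mul]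
      simp only [Finset.mul_sum]
    rw [h1, ex_sub, ex_sub, ex_sub, ex_sum, ex_sum, ex_sum, hUU]
    have h2 : ∀ b, ex M (fun x => ∑ b', dl M G c b x * (starRingEnd ℂ) (dl M G c b' x)) =
        ((En M G (Function.update (low c (c b)) b true) - En M G (low c (c b)) : ℝ) : ℂ) := by
      intro b
      rw [ex_sum, Finset.sum_eq_single b]
      · exact a4_dl_real hM G c b
      · intro b' _ hb'
        exact dl_orth hM G c hb'.symm
      · intro h
        exact absurd (Finset.mem_univ _) h
    simp only [hUd, hdU, h2]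
    push_cast
    ring
  exact_mod_cast key

end Pool.Agent.MP_ca1109_lc.Hyb
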