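import Pool.Agent.MP_ca1109_lc.Hyb.Defs

/-!
# Random colourings
-/

namespace Pool.Agent.MP_ca1109_lc.Hyb

open Pool.Agent.MP_ca1109_lc.Mpg Finset

variable {k : ℕ}

/- PROOF NOTES [HYB-A4b].  Pure combinatorics of a function `Φ` of sets (`W : Fin k → Bool`).  `ee Φ W b = Φ (W ∪ b) - Φ (W ∖ b)`.
`avg_update`: for every `b` the map `(c, j) ↦ update c b j` from `(Fin k → Fin J) × Fin J` has fibres of size `J`: the average of `F` over `c` is the average of
`F (update c b j)` over `c` and `j` (`Fintype.sum_equiv`/`Equiv.piSplitAt`/`Finset.sum_comm`).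
`chain`: `Φ (W ∪ B) - Φ W ≤ ∑ b ∈ B, ee Φ (W ∪ B) b` for `B` disjoint from `W`: induction on `B` (`Finset.induction_on`), supermodularity `hs`.
`classes`: for every colouring `c`: `Φ univ - Φ ∅ ≤ ∑ b, ee Φ {c ≤ c b} b`: induction on `j`:
 `Φ {c < j} - Φ ∅ ≤ ∑ b with c b < j, ee Φ {c < c b + 1} b`, step by `chain` with `W = {c < j}`, `B = {b | c b = j}` (`{c < j + 1} = W ∪ B`).
`colour_avg`: for fixed `b` and `c`, put `φ j = ee Φ {i | i ≠ b, c i < j} b` (independent of `c b`, since `ee` adds resp. removes `b`).  For `c' = update c b j`: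
 `Φ (low c' (c' b) ∪ b) - Φ (low c' (c' b)) = φ j` and `ee Φ {c' < c' b + 1} b = φ (j + 1)`.  So by `avg_update` the average of the difference is
 `avg_c (φ J - φ 0) / J ≤ (Φ univ - Φ (univ ∖ b)) / J` (`0 ≤ φ 0` by `hm`, `φ J = Φ univ - Φ (univ ∖ b)`; telescoping `Finset.sum_range_sub`).
 Sum over `b` and use `classes`. -/

/-- The increment of a function of sets at `b`. -/
def ee (Φ : (Fin k → Bool) → ℝ) (W : Fin k → Bool) (b : Fin k) : ℝ :=
  Φ (Function.update W b true) - Φ (Function.update W b false)

theorem a4b_sum {J : ℕ} (b : Fin k) (F : (Fin k → Fin J) → ℝ) :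
    ∑ c : Fin k → Fin J, ∑ j : Fin J, F (Function.update c b j) = J * ∑ c, F c := by
  rw [← Fintype.sum_prod_type' (fun (c : Fin k → Fin J) (j : Fin J) => F (Function.update c b j))]
  have h1 : ∀ x : (Fin k → Fin J) × Fin J,
      (Function.update (Function.update x.1 b x.2) b (x.1 b), (Function.update x.1 b x.2) b) = x := by
    intro x
    rw [Function.update_idem, Function.update_eq_self, Function.update_self]
  let e : (Fin k → Fin J) × Fin J ≃ (Fin k → Fin J) × Fin J :=
    ⟨fun x => (Function.update x.1 b x.2, x.1 b), fun x => (Function.update x.1 b x.2, x.1 b), h1, h1⟩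
  have h2 := Equiv.sum_comp e (fun x => F x.1)
  have h3 : ∑ x : (Fin k → Fin J) × Fin J, F x.1 = J * ∑ c, F c := by
    rw [Fintype.sum_prod_type' (fun (c : Fin k → Fin J) (_ : Fin J) => F c), Finset.mul_sum]
    refine Finset.sum_congr rfl fun c _ => ?_
    rw [Finset.sum_const, Finset.card_univ, Fintype.card_fin, nsmul_eq_mul]
  rw [← h3, ← h2]
  rfl

theorem avg_update {J : ℕ} (hJ : 0 < J) (b : Fin k) (F : (Fin k → Fin J) → ℝ) :
    avg F = avg (fun c : Fin k → Fin J => (∑ j : Fin J, F (Function.update c b j)) / J) := by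
  have hJ' : (J : ℝ) ≠ 0 := by positivity
  unfold avg
  rw [← Finset.sum_div, a4b_sum]
  congr 1
  field_simp

theorem a4b_chain {Φ : (Fin k → Bool) → ℝ}
    (hs : ∀ W W' : Fin k → Bool, (∀ i, W i = true → W' i = true) → ∀ b, W' b = false →
      Φ (Function.update W b true) - Φ W ≤ Φ (Function.update W' b true) - Φ W')
    (W U : Fin k → Bool) (B : Finset (Fin k)) (hW : ∀ i ∈ B, W i = false)
    (hWU : ∀ i, W i = true → U i = true) (hBU : ∀ i ∈ B, U i = true) :
    Φ (fun i => W i || decide (i ∈ B)) - Φ W ≤ ∑ b ∈ B, ee Φ U b := by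
  induction B using Finset.induction_on with
  | empty =>
    have h1 : (fun i => W i || decide (i ∈ (∅ : Finset (Fin k)))) = W := by
      funext i
      simp
    rw [h1, Finset.sum_empty, sub_self]
  | insert b B hb ih =>
    have ih' := ih (fun i hi => hW i (Finset.mem_insert_of_mem hi))
      (fun i hi => hBU i (Finset.mem_insert_of_mem hi))
    rw [Finset.sum_insert hb]
    have h1 : (fun i => W i || decide (i ∈ insert b B)) =
        Function.update (fun i => W i || decide (i ∈ B)) b true := by
      funext i
      by_cases hi : i = b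
      · subst hi
        simp
      · rw [Function.update_of_ne hi]
        simp [hi]
    have h2 := hs (fun i => W i || decide (i ∈ B)) (Function.update U b false) (by
      intro i hi
      by_cases hib : i = b
      · subst hib
        exfalso
        rw [hW i (Finset.mem_insert_self i B)] at hi
        simp [hb] at hi
      · rw [Function.update_of_ne hib]
        rcases (Bool.or_eq_true_iff).1 hi with h | h
        · exact hWU i h
        · exact hBU i (Finset.mem_insert_of_mem (of_decide_eq_true h))) b (Function.update_self ..)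
    rw [Function.update_idem] at h2
    rw [h1]
    unfold ee at ih' ⊢
    linarith

theorem a4b_low_step {J : ℕ} (c : Fin k → Fin J) (j : ℕ) :
    low c (j + 1) = fun i => low c j i || decide (i ∈ univ.filter fun b => (c b : ℕ) = j) := by
  funext i
  unfold low
  rw [← Bool.decide_or]
  congr 1
  simp only [Finset.mem_filter, Finset.mem_univ, true_and, eq_iff_iff]
  omega

theorem a4b_classes {Φ : (Fin k → Bool) → ℝ}
    (hs : ∀ W W' : Fin k → Bool, (∀ i, W i = true → W' i = true) → ∀ b, W' b = false →
      Φ (Function.update W b true) - Φ W ≤ Φ (Function.update W' b true) - Φ W')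
    {J : ℕ} (c : Fin k → Fin J) (j : ℕ) :
    Φ (low c j) - Φ (low c 0) ≤
      ∑ b ∈ univ.filter (fun b => (c b : ℕ) < j), ee Φ (low c ((c b : ℕ) + 1)) b := by
  induction j with
  | zero =>
    rw [sub_self, Finset.filter_false_of_mem (fun b _ => Nat.not_lt_zero _), Finset.sum_empty]
  | succ j ih =>
    have h1 := a4b_chain hs (low c j) (low c (j + 1)) (univ.filter fun b => (c b : ℕ) = j)
      (by
        intro i hi
        have := (Finset.mem_filter.1 hi).2
        unfold low
        exact decide_eq_false (by omega))
      (by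
        intro i hi
        have := of_decide_eq_true hi
        exact decide_eq_true (by omega))
      (by
        intro i hi
        have := (Finset.mem_filter.1 hi).2
        exact decide_eq_true (by omega))
    rw [← a4b_low_step] at h1
    have h2 : univ.filter (fun b => (c b : ℕ) < j + 1) =
        univ.filter (fun b => (c b : ℕ) < j) ∪ univ.filter (fun b => (c b : ℕ) = j) := by
      ext i
      simp only [Finset.mem_filter, Finset.mem_univ, true_and, Finset.mem_union]
      omega
    have h3 : Disjoint (univ.filter (fun b => (c b : ℕ) < j)) (univ.filter (fun b => (c b : ℕ) = j)) := by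
      rw [Finset.disjoint_left]
      intro i hi hi'
      have h4 := (Finset.mem_filter.1 hi).2
      have h5 := (Finset.mem_filter.1 hi').2
      omega
    rw [h2, Finset.sum_union h3]
    have h4 : ∑ b ∈ univ.filter (fun b => (c b : ℕ) = j), ee Φ (low c ((c b : ℕ) + 1)) b =
        ∑ b ∈ univ.filter (fun b => (c b : ℕ) = j), ee Φ (low c (j + 1)) b := by
      refine Finset.sum_congr rfl fun b hb => ?_
      rw [(Finset.mem_filter.1 hb).2]
    rw [h4]
    linarith

theorem a4b_low_zero {J : ℕ} (c : Fin k → Fin J) : low c 0 = fun _ => false := by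
  funext i
  exact decide_eq_false (Nat.not_lt_zero _)

theorem a4b_low_top {J : ℕ} (c : Fin k → Fin J) : low c J = fun _ => true := by
  funext i
  exact decide_eq_true (c i).2

theorem classes {Φ : (Fin k → Bool) → ℝ}
    (hs : ∀ W W' : Fin k → Bool, (∀ i, W i = true → W' i = true) → ∀ b, W' b = false →
      Φ (Function.update W b true) - Φ W ≤ Φ (Function.update W' b true) - Φ W')
    {J : ℕ} (c : Fin k → Fin J) :
    Φ (fun _ => true) - Φ (fun _ => false) ≤ ∑ b, ee Φ (low c ((c b : ℕ) + 1)) b := by
  have h1 := a4b_classes hs c J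
  rw [a4b_low_zero, a4b_low_top, Finset.filter_true_of_mem (fun b _ => (c b).2)] at h1
  exact h1

theorem a4b_ee_congr (Φ : (Fin k → Bool) → ℝ) {W W' : Fin k → Bool} {b : Fin k}
    (h : ∀ i, i ≠ b → W i = W' i) : ee Φ W b = ee Φ W' b := by
  have h1 : ∀ v : Bool, Function.update W b v = Function.update W' b v := by
    intro v
    funext i
    by_cases hi : i = b
    · subst hi
      rw [Function.update_self, Function.update_self]
    · rw [Function.update_of_ne hi, Function.update_of_ne hi, h i hi]
  unfold ee
  rw [h1, h1]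

theorem a4b_low_update {J : ℕ} (c : Fin k → Fin J) (b : Fin k) (j : Fin J) (m : ℕ) {i : Fin k}
    (hi : i ≠ b) : low (Function.update c b j) m i = low c m i := by
  unfold low
  rw [Function.update_of_ne hi]

theorem colour_avg {Φ : (Fin k → Bool) → ℝ}
    (hm : ∀ (W : Fin k → Bool) (b : Fin k), W b = false → Φ W ≤ Φ (Function.update W b true))
    (hs : ∀ W W' : Fin k → Bool, (∀ i, W i = true → W' i = true) → ∀ b, W' b = false →
      Φ (Function.update W b true) - Φ W ≤ Φ (Function.update W' b true) - Φ W')
    {J : ℕ} (hJ : 0 < J) :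
    avg (fun c : Fin k → Fin J => Φ (fun _ => true) - Φ (fun _ => false) -
        ∑ b, (Φ (Function.update (low c (c b)) b true) - Φ (low c (c b)))) ≤
      (∑ b : Fin k, (Φ (fun _ => true) - Φ (fun i => decide (i ≠ b)))) / J := by
  have hne : Nonempty (Fin k → Fin J) := ⟨fun _ => ⟨0, hJ⟩⟩
  have hJ' : (0 : ℝ) < J := by exact_mod_cast hJ
  have h1 : ∀ c : Fin k → Fin J, Φ (fun _ => true) - Φ (fun _ => false) -
        ∑ b, (Φ (Function.update (low c (c b)) b true) - Φ (low c (c b))) ≤
      ∑ b, (ee Φ (low c ((c b : ℕ) + 1)) b - ee Φ (low c (c b)) b) := by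
    intro c
    have h2 := classes hs c
    have h3 : ∀ b, Φ (Function.update (low c (c b)) b true) - Φ (low c (c b)) =
        ee Φ (low c (c b)) b := by
      intro b
      unfold ee
      congr 2
      have h4 : low c (c b) b = false := decide_eq_false (lt_irrefl _)
      rw [← h4, Function.update_eq_self]
    rw [Finset.sum_congr rfl fun b _ => h3 b, Finset.sum_sub_distrib]
    linarith
  refine (avg_mono h1).trans ?_
  rw [avg_sum (univ : Finset (Fin k)) (fun b (c : Fin k → Fin J) =>
    ee Φ (low c ((c b : ℕ) + 1)) b - ee Φ (low c (c b)) b), Finset.sum_div]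
  refine Finset.sum_le_sum fun b _ => ?_
  rw [avg_update hJ b]
  have h2 : ∀ c : Fin k → Fin J, (∑ j : Fin J, (ee Φ (low (Function.update c b j)
      (((Function.update c b j) b : ℕ) + 1)) b - ee Φ (low (Function.update c b j)
      ((Function.update c b j) b)) b)) / J ≤ (Φ (fun _ => true) - Φ (fun i => decide (i ≠ b))) / J := by
    intro c
    refine div_le_div_of_nonneg_right ?_ hJ'.le
    have h3 : ∀ j : Fin J, ee Φ (low (Function.update c b j)
        (((Function.update c b j) b : ℕ) + 1)) b - ee Φ (low (Function.update c b j)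
        ((Function.update c b j) b)) b = ee Φ (low c ((j : ℕ) + 1)) b - ee Φ (low c j) b := by
      intro j
      rw [Function.update_self]
      rw [a4b_ee_congr Φ (fun i hi => a4b_low_update c b j ((j : ℕ) + 1) hi),
        a4b_ee_congr Φ (fun i hi => a4b_low_update c b j (j : ℕ) hi)]
    rw [Finset.sum_congr rfl fun j _ => h3 j,
      Fin.sum_univ_eq_sum_range (fun j => ee Φ (low c (j + 1)) b - ee Φ (low c j) b) J,
      Finset.sum_range_sub (fun j => ee Φ (low c j) b), a4b_low_zero, a4b_low_top]
    have h4 : ee Φ (fun _ => true) b = Φ (fun _ => true) - Φ (fun i => decide (i ≠ b)) := by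
      unfold ee
      congr 2
      · exact Function.update_eq_self b (fun _ : Fin k => true)
      · funext i
        by_cases hi : i = b
        · subst hi
          simp
        · rw [Function.update_of_ne hi]
          simp [hi]
    have h5 : 0 ≤ ee Φ (fun _ => false) b := by
      unfold ee
      have h6 : Function.update (fun _ : Fin k => false) b false = fun _ => false :=
        Function.update_eq_self b (fun _ : Fin k => false)
      have h7 := hm (fun _ => false) b rfl
      rw [h6]
      linarith
    rw [h4]
    linarith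
  refine (avg_mono h2).trans (le_of_eq ?_)
  rw [avg_const]

end Pool.Agent.MP_ca1109_lc.Hyb
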