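import Pool.Agent.MP_ca1109_lc.Hyb.A0
import Pool.Agent.MP_ca1109_lc.Hyb.A2c
import Pool.Agent.MP_ca1109_lc.Hyb.A3b
import Pool.Agent.MP_ca1109_lc.Hyb.A4
import Pool.Agent.MP_ca1109_lc.Hyb.A4b

/-!
# The differences of one colour
-/

namespace Pool.Agent.MP_ca1109_lc.Hyb

open Pool.Agent.MP_ca1109_lc.Mpg Finset

variable {k : ℕ} {Ω : Type} [Fintype Ω] {m : ℕ} [NeZero m] {d : ℕ}

/- PROOF NOTES [HYB-A5].  `exists_colour`: `colour_rest`, `colour_avg` with `Φ = En M G` (`hm` from `En_diff`: the left side is a square mean, `0 ≤`; `hs` = `En_super`), `Db_energy`; an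
average `≤ C` has a term `≤ C`.
`colour_bound`.  `δ_b x = hV M G (W ∪ b) x - hV M G W x`, `F x = (∑ b ∈ B, δ_b x) * ph m (P x)`.  `ex M F = ex M (hV M F W) = ex_z (ex_y F (sel W z y))` (`ex_hV`).  For fixed `z`:
 `δ_b (sel W z y) = g_b (y b)` with `g_b a = hV M G (W ∪ b) (update z b a) - hV M G W z` for `b ∈ B` (`hV_dep`: `sel W z y` and `update z b (y b)` agree on
 `W ∪ b`), `g_b = 0` for `b ∉ B`; `∑ a, M b a * g_b a = 0` because `∑ a, M b a * hV M G (W ∪ b) (update z b a) = hV M (hV M G (W ∪ b)) (univ ∖ b) z = hV M G W z`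
 (`hV_letter`, `hV_inter`, `W b = false`).  `y ↦ P (sel W z y)` is in `lowDeg` (`lowDeg_comp` with `β i a = if W i then z i else a`).  `tilt'`, and
 `√s ≤ (s / β + β) / 2`.  Average over `z` (`norm_ex_le`) and `rex_block` of `A0`: `rex M (fun z => ∑ a, M b a * ‖g_b a‖ ^ 2) = rex M ‖δ_b‖ ^ 2` (`δ_b (update z b a) = g_b^z a`, as `hV M G W (update z b a) = hV M G W z`),
 the same for the fourth powers. -/

theorem a5_rex_sum {J : Type*} (M : Fin k → Ω → ℝ) (s : Finset J) (F : J → (Fin k → Ω) → ℝ) :
    rex M (fun x => ∑ j ∈ s, F j x) = ∑ j ∈ s, rex M (F j) := by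
  unfold rex
  rw [Finset.sum_comm]
  exact Finset.sum_congr rfl fun x _ => Finset.mul_sum _ _ _

theorem exists_colour {M : Fin k → Ω → ℝ} (hM : IsPM M) (G : (Fin k → Ω) → ℂ) {J : ℕ} (hJ : 0 < J) :
    ∃ c : Fin k → Fin J, rex M (fun x => ‖G x - ex M G - ∑ b, dl M G c b x‖ ^ 2) ≤
      (∑ b, rex M (fun x => ‖Db M b G x‖ ^ 2)) / J := by
  have hm : ∀ (W : Fin k → Bool) (b : Fin k), W b = false →
      En M G W ≤ En M G (Function.update W b true) := by
    intro W b _
    have h1 : ∀ i, W i = true → Function.update W b true i = true := by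
      intro i hi
      by_cases hib : i = b
      · subst hib; rw [Function.update_self]
      · rw [Function.update_of_ne hib]; exact hi
    have h2 := En_diff hM G h1
    have h3 : 0 ≤ rex M (fun x => ‖hV M G (Function.update W b true) x - hV M G W x‖ ^ 2) :=
      rex_nonneg hM fun x => by positivity
    linarith
  have h := colour_avg (Φ := fun W => En M G W) hm
    (fun W W' hWW b hb => En_super hM G hWW hb) hJ
  have : Nonempty (Fin J) := ⟨⟨0, hJ⟩⟩
  have h4 : (∑ b : Fin k, (En M G (fun _ => true) - En M G (fun i => decide (i ≠ b)))) =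
      ∑ b, rex M (fun x => ‖Db M b G x‖ ^ 2) :=
    Finset.sum_congr rfl fun b _ => (Db_energy hM G b).symm
  rw [h4] at h
  by_contra hcon
  push Not at hcon
  have h5 : (∑ b, rex M (fun x => ‖Db M b G x‖ ^ 2)) / (J : ℝ) <
      avg (fun c : Fin k → Fin J => En M G (fun _ => true) - En M G (fun _ => false) -
        ∑ b, (En M G (Function.update (low c (c b)) b true) - En M G (low c (c b)))) := by
    unfold avg
    have hc : (0 : ℝ) < (Fintype.card (Fin k → Fin J) : ℝ) := by
      exact_mod_cast Fintype.card_pos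
    rw [lt_div_iff₀ hc]
    have h6 : ∑ _c : Fin k → Fin J, (∑ b, rex M (fun x => ‖Db M b G x‖ ^ 2)) / (J : ℝ) =
        (∑ b, rex M (fun x => ‖Db M b G x‖ ^ 2)) / (J : ℝ) *
          (Fintype.card (Fin k → Fin J) : ℝ) := by
      rw [Finset.sum_const, Finset.card_univ, nsmul_eq_mul, mul_comm]
    rw [← h6]
    refine Finset.sum_lt_sum_of_nonempty Finset.univ_nonempty fun c _ => ?_
    rw [← colour_rest hM G c]
    exact hcon c
  exact absurd h (not_le.2 h5)

theorem a5_sqrt_le {s β : ℝ} (hs : 0 ≤ s) (hβ : 0 < β) : √s ≤ (s / β + β) / 2 := by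
  have h1 : s / β + β - 2 * √s = (√s - β) ^ 2 / β := by
    have h2 : √s ^ 2 = s := Real.sq_sqrt hs
    field_simp
    rw [sub_sq, h2]
    ring
  have h3 : 0 ≤ (√s - β) ^ 2 / β := by positivity
  linarith

/-- the difference at `b` as a function of the letter `b` -/
theorem a5_sel (M : Fin k → Ω → ℝ) (G : (Fin k → Ω) → ℂ) {W : Fin k → Bool} {b : Fin k}
    (hb : W b = false) (z y : Fin k → Ω) :
    hV M G (Function.update W b true) (sel W z y) =
      hV M G (Function.update W b true) (Function.update z b (y b)) := by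
  apply hV_dep
  intro i hi
  by_cases hib : i = b
  · subst hib
    rw [Function.update_self]
    unfold sel
    rw [hb]
    rfl
  · rw [Function.update_of_ne hib] at hi ⊢
    unfold sel
    rw [hi]
    rfl

theorem a5_sel' (M : Fin k → Ω → ℝ) (G : (Fin k → Ω) → ℂ) (W : Fin k → Bool)
    (z y : Fin k → Ω) : hV M G W (sel W z y) = hV M G W z := by
  apply hV_dep
  intro i hi
  unfold sel
  rw [hi]
  rfl

theorem a5_upd (M : Fin k → Ω → ℝ) (G : (Fin k → Ω) → ℂ) {W : Fin k → Bool} {b : Fin k}
    (hb : W b = false) (z : Fin k → Ω) (a : Ω) :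
    hV M G W (Function.update z b a) = hV M G W z := by
  apply hV_dep
  intro i hi
  by_cases hib : i = b
  · subst hib
    rw [hb] at hi
    exact absurd hi (by decide)
  · rw [Function.update_of_ne hib]

theorem a5_mean {M : Fin k → Ω → ℝ} (hM : IsPM M) (G : (Fin k → Ω) → ℂ) {W : Fin k → Bool}
    {b : Fin k} (hb : W b = false) (z : Fin k → Ω) :
    ∑ a, (M b a : ℂ) * (hV M G (Function.update W b true) (Function.update z b a) -
      hV M G W z) = 0 := by
  have h1 : ∑ a, (M b a : ℂ) * hV M G (Function.update W b true) (Function.update z b a) =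
      hV M G W z := by
    rw [← hV_letter hM (hV M G (Function.update W b true)) b z, hV_inter hM]
    congr 1
    funext i
    by_cases hib : i = b
    · subst hib; simp [hb]
    · simp [hib]
  have h2 : ∑ a, (M b a : ℂ) * hV M G W z = hV M G W z := by
    rw [← Finset.sum_mul, ← Complex.ofReal_sum, hM.sum_one b, Complex.ofReal_one, one_mul]
  simp only [mul_sub]
  rw [Finset.sum_sub_distrib, h1, h2, sub_self]

theorem a5_pow {M : Fin k → Ω → ℝ} (hM : IsPM M) (G : (Fin k → Ω) → ℂ) {W : Fin k → Bool}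
    {b : Fin k} (hb : W b = false) (q : ℕ) :
    rex M (fun z => ∑ a, M b a * ‖hV M G (Function.update W b true) (Function.update z b a) -
      hV M G W z‖ ^ q) =
      rex M (fun x => ‖hV M G (Function.update W b true) x - hV M G W x‖ ^ q) := by
  rw [rex_block hM b (fun x => ‖hV M G (Function.update W b true) x - hV M G W x‖ ^ q)]
  congr 1
  funext z
  refine Finset.sum_congr rfl fun a _ => ?_
  rw [a5_upd M G hb z a]

theorem colour_bound {P : (Fin k → Ω) → ZMod m} (hP : P ∈ lowDeg (Fin k) Ω (ZMod m) d)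
    {M : Fin k → Ω → ℝ} (hM : IsPM M) (G : (Fin k → Ω) → ℂ) (W : Fin k → Bool)
    (B : Finset (Fin k)) (hB : ∀ b ∈ B, W b = false) {ε' η κ t β : ℝ} (hε : 0 ≤ ε')
    (h : StabAt m d ε' η) (ht : 0 < t) (hκ : 0 < κ) (htκ : 2 * t * κ ≤ η) (hβ : 0 < β) :
    ‖ex M (fun x => (∑ b ∈ B, (hV M G (Function.update W b true) x - hV M G W x)) *
        ph m (P x))‖ ≤
      2 * (ε' / t + t * ∑ b ∈ B, rex M (fun x =>
        ‖hV M G (Function.update W b true) x - hV M G W x‖ ^ 2)) +
      ((∑ b ∈ B, rex M (fun x => ‖hV M G (Function.update W b true) x - hV M G W x‖ ^ 4)) / β +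
        β) / (2 * κ) := by
  have hpt : ∀ z : Fin k → Ω,
      ‖hV M (fun x => (∑ b ∈ B, (hV M G (Function.update W b true) x - hV M G W x)) *
        ph m (P x)) W z‖ ≤
      2 * (ε' / t + t * ∑ b ∈ B, ∑ a, M b a *
        ‖hV M G (Function.update W b true) (Function.update z b a) - hV M G W z‖ ^ 2) +
      ((∑ b ∈ B, ∑ a, M b a *
        ‖hV M G (Function.update W b true) (Function.update z b a) - hV M G W z‖ ^ 4) / β +
        β) / (2 * κ) := by
    intro z
    let g : Fin k → Ω → ℂ := fun b a => if b ∈ B then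
      hV M G (Function.update W b true) (Function.update z b a) - hV M G W z else 0
    have hg0 : ∀ b, ∑ a, (M b a : ℂ) * g b a = 0 := by
      intro b
      by_cases hb : b ∈ B
      · simp only [g, if_pos hb]
        exact a5_mean hM G (hB b hb) z
      · simp only [g, if_neg hb, mul_zero, Finset.sum_const_zero]
    have hPz : (fun y => P (sel W z y)) ∈ lowDeg (Fin k) Ω (ZMod m) d :=
      lowDeg_comp (fun i a => if W i then z i else a) hP
    have h1 := tilt' hPz hM hg0 hε h ht hκ htκ
    have h2 : hV M (fun x => (∑ b ∈ B, (hV M G (Function.update W b true) x - hV M G W x)) *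
        ph m (P x)) W z = ex M (fun y => (∑ b, g b (y b)) * ph m (P (sel W z y))) := by
      change ex M (fun y => (∑ b ∈ B, (hV M G (Function.update W b true) (sel W z y) -
        hV M G W (sel W z y))) * ph m (P (sel W z y))) = _
      congr 1
      funext y
      have h3 : ∑ b, g b (y b) = ∑ b ∈ B,
          (hV M G (Function.update W b true) (Function.update z b (y b)) - hV M G W z) := by
        simp only [g]
        rw [Finset.sum_ite_mem, Finset.univ_inter]
      rw [h3]
      congr 1
      refine Finset.sum_congr rfl fun b hb => ?_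
      rw [a5_sel M G (hB b hb) z y, a5_sel' M G W z y]
    rw [h2]
    have hsum : ∀ q : ℕ, 0 < q → ∑ b, ∑ a, M b a * ‖g b a‖ ^ q = ∑ b ∈ B, ∑ a, M b a *
        ‖hV M G (Function.update W b true) (Function.update z b a) - hV M G W z‖ ^ q := by
      intro q hq
      rw [← Finset.sum_subset (Finset.subset_univ B)]
      · refine Finset.sum_congr rfl fun b hb => Finset.sum_congr rfl fun a _ => ?_
        simp only [g, if_pos hb]
      · intro b _ hb
        refine Finset.sum_eq_zero fun a _ => ?_
        simp only [g, if_neg hb, norm_zero, zero_pow hq.ne', mul_zero]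
    rw [hsum 2 (by norm_num), hsum 4 (by norm_num)] at h1
    refine h1.trans (add_le_add le_rfl ?_)
    set S4 := ∑ b ∈ B, ∑ a, M b a *
        ‖hV M G (Function.update W b true) (Function.update z b a) - hV M G W z‖ ^ 4 with hS4
    have hS4n : 0 ≤ S4 := by
      rw [hS4]
      exact Finset.sum_nonneg fun b _ => Finset.sum_nonneg fun a _ =>
        mul_nonneg (hM.nonneg b a) (by positivity)
    rw [div_le_div_iff₀ hκ (by positivity)]
    have h5 := a5_sqrt_le hS4n hβ
    nlinarith
  rw [← ex_hV hM (fun x => (∑ b ∈ B, (hV M G (Function.update W b true) x - hV M G W x)) *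
        ph m (P x)) W]
  refine (norm_ex_le hM hpt).trans (le_of_eq ?_)
  have e2 : rex M (fun z => ∑ b ∈ B, ∑ a, M b a *
      ‖hV M G (Function.update W b true) (Function.update z b a) - hV M G W z‖ ^ 2) =
      ∑ b ∈ B, rex M (fun x => ‖hV M G (Function.update W b true) x - hV M G W x‖ ^ 2) := by
    rw [a5_rex_sum]
    exact Finset.sum_congr rfl fun b hb => a5_pow hM G (hB b hb) 2
  have e4 : rex M (fun z => ∑ b ∈ B, ∑ a, M b a *
      ‖hV M G (Function.update W b true) (Function.update z b a) - hV M G W z‖ ^ 4) =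
      ∑ b ∈ B, rex M (fun x => ‖hV M G (Function.update W b true) x - hV M G W x‖ ^ 4) := by
    rw [a5_rex_sum]
    exact Finset.sum_congr rfl fun b hb => a5_pow hM G (hB b hb) 4
  rw [← e2, ← e4, rex_add, rex_mul_left, rex_add, rex_const hM, rex_mul_left]
  congr 1
  have e5 : (fun z => ((∑ b ∈ B, ∑ a, M b a *
      ‖hV M G (Function.update W b true) (Function.update z b a) - hV M G W z‖ ^ 4) / β +
        β) / (2 * κ)) = fun z => (1 / (β * (2 * κ))) * (∑ b ∈ B, ∑ a, M b a *
      ‖hV M G (Function.update W b true) (Function.update z b a) - hV M G W z‖ ^ 4) +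
        β / (2 * κ) := by
    funext z
    field_simp
  rw [e5, rex_add, rex_mul_left, rex_const hM]
  field_simp

end Pool.Agent.MP_ca1109_lc.Hyb
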