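import Pool.Agent.MP_ca1109_lc.Hyb.A1b
import Pool.Agent.MP_ca1109_lc.Hyb.A5

/-!
# Phases are uncorrelated with functions with small differences
-/

namespace Pool.Agent.MP_ca1109_lc.Hyb

open Pool.Agent.MP_ca1109_lc.Mpg Finset

/- PROOF NOTES [HYB-A6].  `D₁ = max D 1`.  Choose `J > 0` with `√(D₁ / J) ≤ ε / 5`, `t = ε / (10 D₁)` (so `2 t D₁ ≤ ε / 5`), `ε' = ε t / (10 J)` (so
`2 J ε' / t ≤ ε / 5`), `η` from `stab_density m d ε'`, `κ = η / (2 t)`, `β = 2 κ ε / (5 J)` (so `J β / (2 κ) ≤ ε / 5`), `τ = 2 κ β ε / 5` (so `τ / (2 κ β) ≤ ε / 5`).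
Given `M, G, P`: `exists_colour`; `f = ph m ∘ P`.
 `ex (G f) - ex G * ex f = ex ((G - ex G) f) = ex (R f) + ∑ j : Fin J, ex ((∑ b with c b = j, dl b) f)`, `R = G - ex G - ∑ dl`.
 `‖ex (R f)‖ ≤ √(rex ‖R‖ ^ 2) ≤ √(D₁ / J)` (`norm_ex_sq_le`, `‖f‖ = 1`).
 `colour_bound` for `W = low c j`, `B = univ.filter (c b = j)` (there `dl M G c b = hV (W ∪ b) - hV W`), `step_sq`, `step_four`: sum over `j`:
 `∑ j, [2 ε' / t + 2 t ∑_{c b = j} rex ‖Db b‖ ^ 2 + (∑_{c b = j} rex ‖Db b‖ ^ 4 / β + β) / (2 κ)] ≤ 2 J ε' / t + 2 t D₁ + (τ / β + J β) / (2 κ)`. -/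

/-- the bound for one colour -/
theorem a6_colour {m : ℕ} [NeZero m] {d k : ℕ} {Ω : Type} [Fintype Ω] {P : (Fin k → Ω) → ZMod m}
    (hP : P ∈ lowDeg (Fin k) Ω (ZMod m) d)
    {M : Fin k → Ω → ℝ} (hM : IsPM M) (G : (Fin k → Ω) → ℂ) {J : ℕ} (c : Fin k → Fin J)
    (j : Fin J) {ε' η κ t β : ℝ} (hε : 0 ≤ ε')
    (h : StabAt m d ε' η) (ht : 0 < t) (hκ : 0 < κ) (htκ : 2 * t * κ ≤ η) (hβ : 0 < β) :
    ‖ex M (fun x => (∑ b with c b = j, dl M G c b x) * ph m (P x))‖ ≤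
      2 * (ε' / t + t * ∑ b with c b = j, rex M (fun x => ‖Db M b G x‖ ^ 2)) +
      ((∑ b with c b = j, rex M (fun x => ‖Db M b G x‖ ^ 4)) / β + β) / (2 * κ) := by
  have hB : ∀ b ∈ univ.filter (fun b => c b = j), low c (j : ℕ) b = false := by
    intro b hb
    rw [Finset.mem_filter] at hb
    unfold low
    rw [hb.2]
    simp
  have h1 := colour_bound hP hM G (low c (j : ℕ)) (univ.filter (fun b => c b = j)) hB hε h ht hκ
    htκ hβ
  have h2 : (fun x => (∑ b with c b = j, dl M G c b x) * ph m (P x)) =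
      fun x => (∑ b with c b = j, (hV M G (Function.update (low c (j : ℕ)) b true) x -
        hV M G (low c (j : ℕ)) x)) * ph m (P x) := by
    funext x
    congr 1
    refine Finset.sum_congr rfl fun b hb => ?_
    rw [Finset.mem_filter] at hb
    unfold dl
    rw [hb.2]
  rw [h2]
  refine h1.trans ?_
  have h3 : ∑ b with c b = j, rex M (fun x =>
      ‖hV M G (Function.update (low c (j : ℕ)) b true) x - hV M G (low c (j : ℕ)) x‖ ^ 2) ≤
      ∑ b with c b = j, rex M (fun x => ‖Db M b G x‖ ^ 2) :=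
    Finset.sum_le_sum fun b hb => step_sq hM G (hB b hb)
  have h4 : ∑ b with c b = j, rex M (fun x =>
      ‖hV M G (Function.update (low c (j : ℕ)) b true) x - hV M G (low c (j : ℕ)) x‖ ^ 4) ≤
      ∑ b with c b = j, rex M (fun x => ‖Db M b G x‖ ^ 4) :=
    Finset.sum_le_sum fun b hb => step_four hM G (hB b hb)
  gcongr

theorem a6_split {m : ℕ} [NeZero m] {k : ℕ} {Ω : Type} [Fintype Ω] (P : (Fin k → Ω) → ZMod m)
    {M : Fin k → Ω → ℝ} (G : (Fin k → Ω) → ℂ) {J : ℕ} (c : Fin k → Fin J) :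
    ex M (fun x => G x * ph m (P x)) - ex M G * ex M (fun x => ph m (P x)) =
      ex M (fun x => (G x - ex M G - ∑ b, dl M G c b x) * ph m (P x)) +
        ∑ j : Fin J, ex M (fun x => (∑ b with c b = j, dl M G c b x) * ph m (P x)) := by
  rw [← ex_sum, ← ex_mul_left, ← ex_sub, ← ex_add]
  congr 1
  funext x
  rw [← Finset.sum_mul, ← add_mul, Finset.sum_fiberwise]
  ring

theorem a6_rest {m : ℕ} [NeZero m] {k : ℕ} {Ω : Type} [Fintype Ω] (P : (Fin k → Ω) → ZMod m)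
    {M : Fin k → Ω → ℝ} (hM : IsPM M) (R : (Fin k → Ω) → ℂ) {r : ℝ} (hr : 0 ≤ r)
    (h : rex M (fun x => ‖R x‖ ^ 2) ≤ r ^ 2) :
    ‖ex M (fun x => R x * ph m (P x))‖ ≤ r := by
  have h1 := norm_ex_sq_le hM (fun x => R x * ph m (P x))
  have h2 : (fun x => ‖R x * ph m (P x)‖ ^ 2) = fun x => ‖R x‖ ^ 2 := by
    funext x
    rw [norm_mul, norm_ph, mul_one]
  rw [h2] at h1
  exact abs_le_of_sq_le_sq' (h1.trans h) hr |>.2

theorem decouple (m : ℕ) [NeZero m] (d : ℕ) (D ε : ℝ) (hε : 0 < ε) :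
    ∃ τ > 0, ∀ (k : ℕ) (Ω : Type) [Fintype Ω] (M : Fin k → Ω → ℝ), IsPM M →
      ∀ G : (Fin k → Ω) → ℂ, ∑ b, rex M (fun x => ‖Db M b G x‖ ^ 2) ≤ D →
        ∑ b, rex M (fun x => ‖Db M b G x‖ ^ 4) ≤ τ →
          ∀ P ∈ lowDeg (Fin k) Ω (ZMod m) d,
            ‖ex M (fun x => G x * ph m (P x)) - ex M G * ex M (fun x => ph m (P x))‖ ≤ ε := by
  obtain ⟨D₁, hD₁⟩ : ∃ D₁ : ℝ, D₁ = max D 1 := ⟨_, rfl⟩
  have hD1 : 1 ≤ D₁ := by rw [hD₁]; exact le_max_right _ _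
  have hDD : D ≤ D₁ := by rw [hD₁]; exact le_max_left _ _
  obtain ⟨J, hJ⟩ := exists_nat_gt (25 * D₁ / ε ^ 2)
  have hJ0 : (0 : ℝ) < J := lt_of_le_of_lt (by positivity) hJ
  have hJn : 0 < J := by exact_mod_cast hJ0
  have hJ2 : D₁ / J ≤ (ε / 5) ^ 2 := by
    rw [div_lt_iff₀ (by positivity)] at hJ
    rw [div_le_iff₀ hJ0]
    nlinarith
  obtain ⟨t, ht⟩ : ∃ t : ℝ, t = ε / (10 * D₁) := ⟨_, rfl⟩
  have ht0 : 0 < t := by rw [ht]; positivity
  have htD : 2 * t * D₁ = ε / 5 := by rw [ht]; field_simp; norm_num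
  obtain ⟨ε', he⟩ : ∃ ε' : ℝ, ε' = ε * t / (10 * J) := ⟨_, rfl⟩
  have he0 : 0 < ε' := by rw [he]; positivity
  have heJ : J * (2 * (ε' / t)) = ε / 5 := by rw [he]; field_simp; norm_num
  obtain ⟨η, hη0, -, hη⟩ := stab_density m d ε' he0
  obtain ⟨κ, hκ⟩ : ∃ κ : ℝ, κ = η / (2 * t) := ⟨_, rfl⟩
  have hκ0 : 0 < κ := by rw [hκ]; positivity
  have htκ : 2 * t * κ ≤ η := by rw [hκ]; apply le_of_eq; field_simp
  obtain ⟨β, hβ⟩ : ∃ β : ℝ, β = 2 * κ * ε / (5 * J) := ⟨_, rfl⟩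
  have hβ0 : 0 < β := by rw [hβ]; positivity
  have hβJ : J * (β / (2 * κ)) = ε / 5 := by rw [hβ]; field_simp
  refine ⟨2 * κ * β * ε / 5, by positivity, ?_⟩
  intro k Ω _ M hM G h2 h4 P hP
  obtain ⟨c, hc⟩ := exists_colour hM G hJn
  rw [a6_split P G c]
  have hR : ‖ex M (fun x => (G x - ex M G - ∑ b, dl M G c b x) * ph m (P x))‖ ≤ ε / 5 := by
    refine a6_rest P hM (fun x => G x - ex M G - ∑ b, dl M G c b x) (by positivity) ?_
    refine hc.trans (le_trans ?_ hJ2)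
    exact div_le_div_of_nonneg_right (h2.trans hDD) hJ0.le
  have hS : ‖∑ j : Fin J, ex M (fun x => (∑ b with c b = j, dl M G c b x) * ph m (P x))‖ ≤
      4 * (ε / 5) := by
    refine (norm_sum_le _ _).trans ?_
    refine (Finset.sum_le_sum fun j _ => a6_colour hP hM G c j he0.le hη ht0 hκ0 htκ hβ0).trans ?_
    have e1 : ∑ j : Fin J, (2 * (ε' / t + t * ∑ b with c b = j, rex M (fun x => ‖Db M b G x‖ ^ 2)) +
        ((∑ b with c b = j, rex M (fun x => ‖Db M b G x‖ ^ 4)) / β + β) / (2 * κ)) =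
        J * (2 * (ε' / t)) + 2 * t * (∑ b, rex M (fun x => ‖Db M b G x‖ ^ 2)) +
        (∑ b, rex M (fun x => ‖Db M b G x‖ ^ 4)) / (2 * κ * β) + J * (β / (2 * κ)) := by
      rw [← Finset.sum_fiberwise univ c (fun b => rex M (fun x => ‖Db M b G x‖ ^ 2)),
        ← Finset.sum_fiberwise univ c (fun b => rex M (fun x => ‖Db M b G x‖ ^ 4))]
      rw [Finset.mul_sum, Finset.sum_div]
      have e2 : ∀ r : ℝ, (J : ℝ) * r = ∑ _j : Fin J, r := by
        intro r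
        rw [Finset.sum_const, Finset.card_univ, Fintype.card_fin, nsmul_eq_mul]
      rw [e2 (2 * (ε' / t)), e2 (β / (2 * κ)), ← Finset.sum_add_distrib, ← Finset.sum_add_distrib,
        ← Finset.sum_add_distrib]
      refine Finset.sum_congr rfl fun j _ => ?_
      field_simp
      ring
    rw [e1, heJ, hβJ]
    have e3 : 2 * t * (∑ b, rex M (fun x => ‖Db M b G x‖ ^ 2)) ≤ ε / 5 := by
      rw [← htD]
      exact mul_le_mul_of_nonneg_left (h2.trans hDD) (by positivity)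
    have e4 : (∑ b, rex M (fun x => ‖Db M b G x‖ ^ 4)) / (2 * κ * β) ≤ ε / 5 := by
      rw [div_le_iff₀ (by positivity)]
      refine h4.trans (le_of_eq ?_)
      ring
    linarith
  refine (norm_add_le _ _).trans ?_
  linarith

end Pool.Agent.MP_ca1109_lc.Hyb
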