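import Pool.Agent.MP_ca1109_lc.Hyb.Defs

/-!
# Probabilities
-/

namespace Pool.Agent.MP_ca1109_lc.Hyb

open Pool.Agent.MP_ca1109_lc.Mpg Finset

/- PROOF NOTES [HYB-B0].  `pr P` is the average of the indicator function (unfold `pr`, `avg`; `avg` is `MonoThreshold`'s `avg f = (∑ a, f a) / card`).  `pr_markov`: `1[a ≤ f] ≤ f / a` for `f ≥ 0`.  `pr_avg`: a function which is at most `b`, and at most `a` where `P` holds, `a ≤ b`.
`pz` (Paley-Zygmund): `μ = avg N`.  `μ / 2 ≤ avg (N 1[μ/2 ≤ N])` (the rest contributes at most `μ / 2`), square, Cauchy-Schwarz: `μ ^ 2 / 4 ≤ avg (N ^ 2) * pr ≤ K μ ^ 2 pr`.  If `μ = 0` all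
`N x = 0` and `pr = 1 ≥ 1 / (4 K)`. -/

theorem pr_nonneg {X : Type*} [Fintype X] (P : X → Prop) : 0 ≤ pr P := by
  unfold pr avg
  apply div_nonneg
  · apply Finset.sum_nonneg
    intro a _
    split_ifs <;> norm_num
  · exact Nat.cast_nonneg _

theorem pr_le_one {X : Type*} [Fintype X] (P : X → Prop) : pr P ≤ 1 := by
  classical
  unfold pr avg
  apply div_le_one_of_le₀
  · have h : ∑ a : X, (if P a then (1 : ℝ) else 0) ≤ ∑ a : X, (1 : ℝ) := by
      apply Finset.sum_le_sum
      intro a _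
      split_ifs <;> norm_num
    rw [Finset.sum_const, Finset.card_univ, nsmul_eq_mul, mul_one] at h
    exact h
  · exact Nat.cast_nonneg _

theorem b0_mono {X : Type*} [Fintype X] {f g : X → ℝ} (h : ∀ a, f a ≤ g a) : avg f ≤ avg g := by
  unfold avg
  exact div_le_div_of_nonneg_right (Finset.sum_le_sum (fun a _ => h a)) (Nat.cast_nonneg _)

theorem b0_add {X : Type*} [Fintype X] (f g : X → ℝ) : avg (fun a => f a + g a) = avg f + avg g := by
  unfold avg
  rw [Finset.sum_add_distrib, add_div]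

theorem b0_sub {X : Type*} [Fintype X] (f g : X → ℝ) : avg (fun a => f a - g a) = avg f - avg g := by
  unfold avg
  rw [Finset.sum_sub_distrib, sub_div]

theorem b0_const {X : Type*} [Fintype X] [Nonempty X] (c : ℝ) : avg (fun _ : X => c) = c := by
  unfold avg
  rw [Finset.sum_const, Finset.card_univ, nsmul_eq_mul]
  have h : (Fintype.card X : ℝ) ≠ 0 := Nat.cast_ne_zero.2 Fintype.card_ne_zero
  field_simp

theorem pr_mono {X : Type*} [Fintype X] {P Q : X → Prop} (h : ∀ x, P x → Q x) : pr P ≤ pr Q := by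
  unfold pr
  apply b0_mono
  intro a
  by_cases hP : P a
  · rw [if_pos hP, if_pos (h a hP)]
  · rw [if_neg hP]
    split_ifs <;> norm_num

theorem pr_or {X : Type*} [Fintype X] (P Q : X → Prop) : pr (fun x => P x ∨ Q x) ≤ pr P + pr Q := by
  unfold pr
  rw [← b0_add]
  apply b0_mono
  intro a
  by_cases hP : P a
  · by_cases hQ : Q a
    · rw [if_pos (Or.inl hP), if_pos hP, if_pos hQ]; norm_num
    · rw [if_pos (Or.inl hP), if_pos hP, if_neg hQ]; norm_num
  · by_cases hQ : Q a
    · rw [if_pos (Or.inr hQ), if_neg hP, if_pos hQ]; norm_num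
    · rw [if_neg (not_or.2 ⟨hP, hQ⟩), if_neg hP, if_neg hQ]; norm_num

theorem pr_exists {X J : Type*} [Fintype X] [Fintype J] (P : J → X → Prop) :
    pr (fun x => ∃ j, P j x) ≤ ∑ j, pr (P j) := by
  classical
  have h1 : ∑ j, pr (P j) = avg (fun a => ∑ j, (if P j a then (1 : ℝ) else 0)) := by
    unfold pr avg
    rw [← Finset.sum_div, Finset.sum_comm]
  rw [h1]
  unfold pr
  apply b0_mono
  intro a
  have hnn : ∀ j ∈ (Finset.univ : Finset J), 0 ≤ (if P j a then (1 : ℝ) else 0) := by
    intro j _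
    split_ifs <;> norm_num
  by_cases hP : ∃ j, P j a
  · rw [if_pos hP]
    obtain ⟨j, hj⟩ := hP
    have h2 := Finset.single_le_sum hnn (Finset.mem_univ j)
    rw [if_pos hj] at h2
    exact h2
  · rw [if_neg hP]
    exact Finset.sum_nonneg hnn

theorem pr_not {X : Type*} [Fintype X] [Nonempty X] (P : X → Prop) :
    pr (fun x => ¬ P x) = 1 - pr P := by
  unfold pr
  rw [← b0_const (X := X) 1, ← b0_sub, b0_const (X := X) 1]
  congr 1
  funext a
  by_cases hP : P a
  · rw [if_neg (not_not.2 hP), if_pos hP]; norm_num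
  · rw [if_pos hP, if_neg hP]; norm_num

theorem pr_markov {X : Type*} [Fintype X] {f : X → ℝ} (h : ∀ x, 0 ≤ f x) {a : ℝ} (ha : 0 < a) :
    pr (fun x => a ≤ f x) ≤ avg f / a := by
  have h1 : avg f / a = avg (fun x => f x / a) := by
    unfold avg
    rw [← Finset.sum_div]
    ring
  rw [h1]
  unfold pr
  apply b0_mono
  intro x
  split_ifs with hx
  · rw [le_div_iff₀ ha, one_mul]
    exact hx
  · exact div_nonneg (h x) ha.le

theorem b0_cs {X : Type*} [Fintype X] (f g : X → ℝ) :
    avg (fun x => f x * g x) ^ 2 ≤ avg (fun x => f x ^ 2) * avg (fun x => g x ^ 2) := by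
  unfold avg
  rw [div_pow, div_mul_div_comm, ← pow_two]
  exact div_le_div_of_nonneg_right (Finset.sum_mul_sq_le_sq_mul_sq _ _ _) (by positivity)

theorem pz {X : Type*} [Fintype X] [Nonempty X] {N : X → ℝ} (h0 : ∀ x, 0 ≤ N x) {K : ℝ} (hK : 1 ≤ K)
    (h : avg (fun x => N x ^ 2) ≤ K * avg N ^ 2) : 1 / (4 * K) ≤ pr (fun x => avg N / 2 ≤ N x) := by
  have hμ0 : 0 ≤ avg N := by
    unfold avg
    exact div_nonneg (Finset.sum_nonneg (fun a _ => h0 a)) (Nat.cast_nonneg _)
  rcases hμ0.eq_or_lt with hμ | hμ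
  · have h1 : pr (fun x => avg N / 2 ≤ N x) = 1 := by
      unfold pr
      rw [← hμ]
      have h2 : (fun a => if (0 : ℝ) / 2 ≤ N a then (1 : ℝ) else 0) = fun _ => 1 := by
        funext a
        rw [if_pos (by rw [zero_div]; exact h0 a)]
      rw [h2]
      exact b0_const 1
    rw [h1, div_le_one (by linarith)]
    linarith
  · set I : X → ℝ := fun x => if avg N / 2 ≤ N x then 1 else 0 with hI
    have hI2 : avg (fun x => I x ^ 2) = pr (fun x => avg N / 2 ≤ N x) := by
      unfold pr
      congr 1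
      funext x
      rw [hI]
      by_cases hx : avg N / 2 ≤ N x
      · simp only [if_pos hx, one_pow]
      · simp only [if_neg hx]
        norm_num
    have h1 : avg N ≤ avg (fun x => N x * I x) + avg N / 2 := by
      have h2 : avg N ≤ avg (fun x => N x * I x + avg N / 2) := by
        apply b0_mono
        intro x
        by_cases hx : avg N / 2 ≤ N x
        · have : I x = 1 := if_pos hx
          rw [this, mul_one]
          linarith
        · have : I x = 0 := if_neg hx
          rw [this, mul_zero, zero_add]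
          exact (not_le.1 hx).le
      rw [b0_add, b0_const] at h2
      exact h2
    have h3 : avg N / 2 ≤ avg (fun x => N x * I x) := by linarith
    have h4 := b0_cs N I
    have h5 : (avg N / 2) ^ 2 ≤ avg (fun x => N x * I x) ^ 2 := pow_le_pow_left₀ (by linarith) h3 2
    rw [hI2] at h4
    have hpr := pr_nonneg (fun x => avg N / 2 ≤ N x)
    have h6 : avg (fun x => N x ^ 2) * pr (fun x => avg N / 2 ≤ N x) ≤
        (K * avg N ^ 2) * pr (fun x => avg N / 2 ≤ N x) := mul_le_mul_of_nonneg_right h hpr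
    have h7 : (avg N) ^ 2 * (1 / 4) ≤ (avg N) ^ 2 * (K * pr (fun x => avg N / 2 ≤ N x)) := by nlinarith
    have h8 := le_of_mul_le_mul_left h7 (by positivity)
    rw [div_le_iff₀ (by linarith)]
    linarith

end Pool.Agent.MP_ca1109_lc.Hyb
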