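import Pool.Agent.MP_ca1109_lc.Hyb.Defs

/-!
# Real polynomials on the cube: fourth moments
-/

namespace Pool.Agent.MP_ca1109_lc.Hyb

open Pool.Agent.MP_ca1109_lc.Mpg Finset

/- PROOF NOTES [HYB-B1].  Everything by splitting off the bit `0`.
`avg_cons`: `Fintype.sum_equiv (Fin.consEquiv ..)` / `Fin.insertNthEquiv`, as in `Mpg/A3` `rex_succ`.
`cons_mem`: `lowDeg_induction`: for a junta `g` on `T`, `x' ↦ g (cons s x')` depends on the set of the `i : Fin n` with `i.succ ∈ T`.
`cons_diff`: for a junta `g` on `T` with at most `d + 1` elements: if `0 ∉ T` the difference is `0`, otherwise it depends on `{i | i.succ ∈ T}`, at most `d` elements.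
`hyper`: induction on `n` for all `d`.  `n = 0`: one point, `p⁴ ≤ 9 ^ d p⁴`.  Step: `d = 0`: `p` is constant (`lowDeg_zero`).  `d = e + 1`: `a = (p (cons true ·) + p (cons false ·)) / 2` (degree `e + 1`),
`b = (p (cons true ·) - p (cons false ·)) / 2` (degree `e`); real multiples of functions of low degree: `lowDeg_hom (AddMonoidHom.mulLeft c)`.  `p = a ± b`; with `A = avg a²`, `B = avg b²`: `avg p² = A + B`,
`avg p⁴ = avg a⁴ + 6 avg a² b² + avg b⁴`; to avoid roots: `(avg a² b²)² ≤ avg a⁴ avg b⁴ ≤ 9^d A² 9^(d-1) B² = (9^d A B / 3)²` (Cauchy-Schwarz, `Finset.sum_mul_sq_le_sq_mul_sq`).  So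
`avg p⁴ ≤ 9^d A² + 2 · 9^d A B + 9^d B²`. -/

theorem avg_cons {n : ℕ} (φ : (Fin (n + 1) → Bool) → ℝ) :
    avg φ = (avg (fun x : Fin n → Bool => φ (Fin.cons true x)) +
      avg (fun x : Fin n → Bool => φ (Fin.cons false x))) / 2 := by
  have e : avg (fun p : Bool × (Fin n → Bool) => φ (Fin.cons p.1 p.2)) = avg φ :=
    avg_equiv (Fin.consEquiv (fun _ => Bool)) φ
  rw [← e, avg_prod (fun (b : Bool) (x : Fin n → Bool) => φ (Fin.cons b x))]
  have h2 : ∀ F : Bool → ℝ, avg F = (F true + F false) / 2 := by
    intro F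
    rw [avg, Fintype.sum_bool, Fintype.card_bool]
    norm_num
  rw [h2]

theorem b1_card {n : ℕ} (T : Finset (Fin (n + 1))) :
    ((univ : Finset (Fin n)).filter (fun i => i.succ ∈ T)).card ≤ T.card := by
  refine Finset.card_le_card_of_injOn Fin.succ ?_ ((Fin.succ_injective n).injOn)
  intro i hi
  rw [Finset.mem_coe, Finset.mem_filter] at hi
  exact hi.2

theorem b1_card' {n d : ℕ} (T : Finset (Fin (n + 1))) (h0 : 0 ∈ T) (hT : T.card ≤ d + 1) :
    ((univ : Finset (Fin n)).filter (fun i => i.succ ∈ T)).card ≤ d := by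
  have h1 : ((univ : Finset (Fin n)).filter (fun i => i.succ ∈ T)).card ≤ (T.erase 0).card := by
    refine Finset.card_le_card_of_injOn Fin.succ ?_ ((Fin.succ_injective n).injOn)
    intro i hi
    rw [Finset.mem_coe, Finset.mem_filter] at hi
    rw [Finset.mem_coe, Finset.mem_erase]
    exact ⟨Fin.succ_ne_zero i, hi.2⟩
  rw [Finset.card_erase_of_mem h0] at h1
  omega

theorem cons_mem {R : Type*} [AddCommGroup R] {d n : ℕ} {P : (Fin (n + 1) → Bool) → R}
    (hP : P ∈ lowDeg (Fin (n + 1)) Bool R d) (s : Bool) :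
    (fun x : Fin n → Bool => P (Fin.cons s x)) ∈ lowDeg (Fin n) Bool R d := by
  refine lowDeg_induction
    (p := fun P => (fun x : Fin n → Bool => P (Fin.cons s x)) ∈ lowDeg (Fin n) Bool R d) hP ?_ ?_ ?_ ?_
  · intro g T hT hg
    refine junta_mem (univ.filter (fun i : Fin n => i.succ ∈ T)) ((b1_card T).trans hT) (fun x y h => ?_)
    refine hg (fun i hi => ?_)
    induction i using Fin.cases with
    | zero => simp
    | succ i =>
      rw [Fin.cons_succ, Fin.cons_succ]
      apply h
      rw [Finset.mem_coe, Finset.mem_filter]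
      exact ⟨mem_univ _, hi⟩
  · exact AddSubgroup.zero_mem _
  · intro f g hf hg
    exact AddSubgroup.add_mem _ hf hg
  · intro f hf
    exact AddSubgroup.neg_mem _ hf

theorem cons_diff {R : Type*} [AddCommGroup R] {d n : ℕ} {P : (Fin (n + 1) → Bool) → R}
    (hP : P ∈ lowDeg (Fin (n + 1)) Bool R (d + 1)) :
    (fun x : Fin n → Bool => P (Fin.cons true x) - P (Fin.cons false x)) ∈
      lowDeg (Fin n) Bool R d := by
  refine lowDeg_induction
    (p := fun P => (fun x : Fin n → Bool => P (Fin.cons true x) - P (Fin.cons false x)) ∈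
      lowDeg (Fin n) Bool R d) hP ?_ ?_ ?_ ?_
  · intro g T hT hg
    by_cases h0 : (0 : Fin (n + 1)) ∈ T
    · refine junta_mem (univ.filter (fun i : Fin n => i.succ ∈ T)) (b1_card' T h0 hT) (fun x y h => ?_)
      have key : ∀ s : Bool, g (Fin.cons s x) = g (Fin.cons s y) := by
        intro s
        refine hg (fun i hi => ?_)
        induction i using Fin.cases with
        | zero => simp
        | succ i =>
          rw [Fin.cons_succ, Fin.cons_succ]
          apply h
          rw [Finset.mem_coe, Finset.mem_filter]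
          exact ⟨mem_univ _, hi⟩
      simp only [key]
    · have h1 : (fun x : Fin n → Bool => g (Fin.cons true x) - g (Fin.cons false x)) = 0 := by
        funext x
        have : g (Fin.cons true x) = g (Fin.cons false x) := by
          refine hg (fun i hi => ?_)
          induction i using Fin.cases with
          | zero => exact absurd hi h0
          | succ i => rw [Fin.cons_succ, Fin.cons_succ]
        rw [this, sub_self]
        rfl
      rw [h1]
      exact AddSubgroup.zero_mem _
  · have h1 : (fun x : Fin n → Bool => (0 : (Fin (n + 1) → Bool) → R) (Fin.cons true x) -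
        (0 : (Fin (n + 1) → Bool) → R) (Fin.cons false x)) = 0 := by
      funext x
      simp
    rw [h1]
    exact AddSubgroup.zero_mem _
  · intro f g hf hg
    have h1 : (fun x : Fin n → Bool => (f + g) (Fin.cons true x) - (f + g) (Fin.cons false x)) =
        (fun x : Fin n → Bool => f (Fin.cons true x) - f (Fin.cons false x)) +
        (fun x : Fin n → Bool => g (Fin.cons true x) - g (Fin.cons false x)) := by
      funext x
      simp only [Pi.add_apply]
      abel
    rw [h1]
    exact AddSubgroup.add_mem _ hf hg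
  · intro f hf
    have h1 : (fun x : Fin n → Bool => (-f) (Fin.cons true x) - (-f) (Fin.cons false x)) =
        -(fun x : Fin n → Bool => f (Fin.cons true x) - f (Fin.cons false x)) := by
      funext x
      simp only [Pi.neg_apply]
      abel
    rw [h1]
    exact AddSubgroup.neg_mem _ hf

theorem b1_smul {n d : ℕ} {f : (Fin n → Bool) → ℝ} (hf : f ∈ lowDeg (Fin n) Bool ℝ d) (c : ℝ) :
    (fun x => c * f x) ∈ lowDeg (Fin n) Bool ℝ d :=
  lowDeg_hom (AddMonoidHom.mulLeft c) hf

theorem b1_cs {A : Type*} [Fintype A] (f g : A → ℝ) :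
    avg (fun a => f a * g a) ^ 2 ≤ avg (fun a => f a ^ 2) * avg (fun a => g a ^ 2) := by
  unfold avg
  rw [div_pow, div_mul_div_comm, ← sq]
  exact div_le_div_of_nonneg_right (Finset.sum_mul_sq_le_sq_mul_sq _ _ _) (by positivity)

theorem hyper {d n : ℕ} {p : (Fin n → Bool) → ℝ} (hp : p ∈ lowDeg (Fin n) Bool ℝ d) :
    avg (fun x => p x ^ 4) ≤ 9 ^ d * avg (fun x => p x ^ 2) ^ 2 := by
  induction n generalizing d with
  | zero =>
    have h1 : ∀ φ : (Fin 0 → Bool) → ℝ, avg φ = φ default := by
      intro φ
      rw [avg, Fintype.sum_unique, Fintype.card_unique, Nat.cast_one, div_one]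
      exact congrArg φ (Subsingleton.elim _ _)
    rw [h1, h1]
    have h2 : (1 : ℝ) ≤ 9 ^ d := one_le_pow₀ (by norm_num)
    have h3 : (0 : ℝ) ≤ p default ^ 4 := by positivity
    nlinarith
  | succ n ih =>
    cases d with
    | zero =>
      have h1 : ∀ x, p x = p (fun _ => false) := fun x => lowDeg_zero hp _ _
      simp only [h1]
      rw [avg_const, avg_const]
      apply le_of_eq
      ring
    | succ e =>
      set a : (Fin n → Bool) → ℝ := fun x => (1 / 2) * (p (Fin.cons true x) + p (Fin.cons false x)) with ha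
      set b : (Fin n → Bool) → ℝ := fun x => (1 / 2) * (p (Fin.cons true x) - p (Fin.cons false x)) with hb
      have ha' : a ∈ lowDeg (Fin n) Bool ℝ (e + 1) :=
        b1_smul (AddSubgroup.add_mem _ (cons_mem hp true) (cons_mem hp false)) (1 / 2)
      have hb' : b ∈ lowDeg (Fin n) Bool ℝ e := b1_smul (cons_diff hp) (1 / 2)
      have hpt : ∀ x : Fin n → Bool, p (Fin.cons true x) = a x + b x := fun x => by
        rw [ha, hb]; ring
      have hpf : ∀ x : Fin n → Bool, p (Fin.cons false x) = a x - b x := fun x => by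
        rw [ha, hb]; ring
      have h2 : avg (fun x => p x ^ 2) = avg (fun x => a x ^ 2) + avg (fun x => b x ^ 2) := by
        rw [avg_cons, ← avg_add, ← avg_add, div_eq_inv_mul, ← avg_mul_left]
        congr 1
        funext x
        rw [hpt, hpf]
        ring
      have h4 : avg (fun x => p x ^ 4) = avg (fun x => a x ^ 4) + 6 * avg (fun x => a x ^ 2 * b x ^ 2) +
          avg (fun x => b x ^ 4) := by
        rw [avg_cons, ← avg_add, ← avg_mul_left, ← avg_add, ← avg_add, div_eq_inv_mul, ← avg_mul_left]
        congr 1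
        funext x
        rw [hpt, hpf]
        ring
      have ia := ih ha'
      have ib := ih hb'
      have hcs := b1_cs (fun x => a x ^ 2) (fun x => b x ^ 2)
      have e1 : avg (fun x => (a x ^ 2) ^ 2) = avg (fun x => a x ^ 4) := by
        congr 1; funext x; ring
      have e2 : avg (fun x => (b x ^ 2) ^ 2) = avg (fun x => b x ^ 4) := by
        congr 1; funext x; ring
      rw [e1, e2] at hcs
      have hA : 0 ≤ avg (fun x => a x ^ 2) := avg_nonneg (fun x => by positivity)
      have hB : 0 ≤ avg (fun x => b x ^ 2) := avg_nonneg (fun x => by positivity)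
      have hb4 : 0 ≤ avg (fun x => b x ^ 4) := avg_nonneg (fun x => by positivity)
      rw [h2, h4]
      set A := avg (fun x => a x ^ 2)
      set B := avg (fun x => b x ^ 2)
      set M := avg (fun x => a x ^ 2 * b x ^ 2)
      have h9 : (0 : ℝ) < 9 ^ e := by positivity
      have hM : M ≤ 3 * 9 ^ e * (A * B) := by
        refine le_of_abs_le (abs_le_of_sq_le_sq ?_ (by positivity))
        calc M ^ 2 ≤ avg (fun x => a x ^ 4) * avg (fun x => b x ^ 4) := hcs
          _ ≤ (9 ^ (e + 1) * A ^ 2) * (9 ^ e * B ^ 2) :=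
            mul_le_mul ia ib hb4 (by positivity)
          _ = (3 * 9 ^ e * (A * B)) ^ 2 := by ring
      have h10 : (9 : ℝ) ^ (e + 1) = 9 * 9 ^ e := by ring
      rw [h10] at ia ⊢
      nlinarith [mul_nonneg h9.le (sq_nonneg B), mul_nonneg h9.le (mul_nonneg hA hB)]

end Pool.Agent.MP_ca1109_lc.Hyb
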