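import Pool.Agent.MP_ca1109_lc.Hyb.B1

/-!
# The total influence
-/

namespace Pool.Agent.MP_ca1109_lc.Hyb

open Pool.Agent.MP_ca1109_lc.Mpg Finset

/- PROOF NOTES [HYB-B1b].  `avg_const_smul`-type trivialities by `unfold avg`.  `sum_infl_le`: induction on `n` for all `d` and `p`; the case `d = 0`: `p` is constant and all influences vanish.  With `a, b` as in `hyper` (`B1`; degree `e + 1` and `e` for `d = e + 1`):
`infl 0 p = avg b²`, `infl j.succ p = infl j a + infl j b` (`der j.succ p (cons s x) = der j a x ± der j b x`, `avg_cons`); `∑ j : Fin (n+1)` by `Fin.sum_univ_succ`; so the sum is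
`avg b² + ∑ infl j a + ∑ infl j b ≤ B + (e + 1) A + e B = (e + 1) (A + B)`, `A = avg a²`, `B = avg b²`, `avg p² = A + B`. -/

theorem sum_infl_le {d n : ℕ} {p : (Fin n → Bool) → ℝ} (hp : p ∈ lowDeg (Fin n) Bool ℝ d) :
    ∑ j, infl j p ≤ d * avg (fun x => p x ^ 2) := by
  induction n generalizing d with
  | zero =>
    have h1 : ∑ j : Fin 0, infl j p = 0 := Finset.sum_of_isEmpty _ 
    rw [h1]
    exact mul_nonneg (Nat.cast_nonneg d) (avg_nonneg fun x => sq_nonneg _)
  | succ n ih =>
    cases d with
    | zero =>
      have h1 : ∀ j, infl j p = 0 := by
        intro j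
        have h2 : (fun x => der j p x ^ 2) = fun _ => (0 : ℝ) := by
          funext x
          have h3 := lowDeg_zero hp (Function.update x j true) (Function.update x j false)
          simp only [der, h3, sub_self, zero_div]
          norm_num
        unfold infl
        rw [h2, avg_const]
      simp only [h1, Finset.sum_const_zero]
      exact mul_nonneg (Nat.cast_nonneg 0) (avg_nonneg fun x => sq_nonneg _)
    | succ e =>
      have ha : (fun x : Fin n → Bool => (p (Fin.cons true x) + p (Fin.cons false x)) / 2) ∈
          lowDeg (Fin n) Bool ℝ (e + 1) := by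
        have h1 := (lowDeg (Fin n) Bool ℝ (e + 1)).add_mem (cons_mem hp true) (cons_mem hp false)
        have h2 := lowDeg_hom (AddMonoidHom.mulLeft (1 / 2 : ℝ)) h1
        have h3 : (fun x : Fin n → Bool => (p (Fin.cons true x) + p (Fin.cons false x)) / 2) =
            fun x : Fin n → Bool => (AddMonoidHom.mulLeft (1 / 2 : ℝ))
              (((fun x : Fin n → Bool => p (Fin.cons true x)) +
                (fun x : Fin n → Bool => p (Fin.cons false x))) x) := by
          funext x
          simp only [AddMonoidHom.coe_mulLeft, Pi.add_apply]
          ring
        rw [h3]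
        exact h2
      have hb : (fun x : Fin n → Bool => (p (Fin.cons true x) - p (Fin.cons false x)) / 2) ∈
          lowDeg (Fin n) Bool ℝ e := by
        have h2 := lowDeg_hom (AddMonoidHom.mulLeft (1 / 2 : ℝ)) (cons_diff hp)
        have h3 : (fun x : Fin n → Bool => (p (Fin.cons true x) - p (Fin.cons false x)) / 2) =
            fun x : Fin n → Bool => (AddMonoidHom.mulLeft (1 / 2 : ℝ))
              (p (Fin.cons true x) - p (Fin.cons false x)) := by
          funext x
          simp only [AddMonoidHom.coe_mulLeft]
          ring
        rw [h3]
        exact h2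
      set a : (Fin n → Bool) → ℝ := fun x => (p (Fin.cons true x) + p (Fin.cons false x)) / 2
        with hadef
      set b : (Fin n → Bool) → ℝ := fun x => (p (Fin.cons true x) - p (Fin.cons false x)) / 2
        with hbdef
      have hpt : ∀ y : Fin n → Bool, p (Fin.cons true y) = a y + b y := by
        intro y
        simp only [hadef, hbdef]
        ring
      have hpf : ∀ y : Fin n → Bool, p (Fin.cons false y) = a y - b y := by
        intro y
        simp only [hadef, hbdef]
        ring
      have h0 : infl 0 p = avg (fun x => b x ^ 2) := by
        unfold infl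
        rw [avg_cons]
        have h1 : ∀ (s : Bool) (x : Fin n → Bool),
            der 0 p (Fin.cons s x : Fin (n + 1) → Bool) = b x := by
          intro s x
          simp only [der, Fin.update_cons_zero, hbdef]
        simp only [h1]
        ring
      have hs : ∀ j : Fin n, infl j.succ p = infl j a + infl j b := by
        intro j
        have h1 : ∀ x : Fin n → Bool,
            der j.succ p (Fin.cons true x : Fin (n + 1) → Bool) = der j a x + der j b x := by
          intro x
          simp only [der, ← Fin.cons_update, hpt]
          ring
        have h2 : ∀ x : Fin n → Bool,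
            der j.succ p (Fin.cons false x : Fin (n + 1) → Bool) = der j a x - der j b x := by
          intro x
          simp only [der, ← Fin.cons_update, hpf]
          ring
        unfold infl
        rw [avg_cons, ← avg_add, ← avg_add]
        have h3 : (fun x : Fin n → Bool => der j a x ^ 2 + der j b x ^ 2) =
            fun x => (1 / 2 : ℝ) * (der j.succ p (Fin.cons true x : Fin (n + 1) → Bool) ^ 2 +
              der j.succ p (Fin.cons false x : Fin (n + 1) → Bool) ^ 2) := by
          funext x
          rw [h1, h2]
          ring
        rw [h3, avg_mul_left]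
        ring
      have hp2 : avg (fun x => p x ^ 2) = avg (fun x => a x ^ 2) + avg (fun x => b x ^ 2) := by
        rw [avg_cons, ← avg_add, ← avg_add]
        have h3 : (fun x : Fin n → Bool => a x ^ 2 + b x ^ 2) =
            fun x => (1 / 2 : ℝ) * (p (Fin.cons true x) ^ 2 + p (Fin.cons false x) ^ 2) := by
          funext x
          rw [hpt, hpf]
          ring
        rw [h3, avg_mul_left]
        ring
      have iha := ih ha
      have ihb := ih hb
      rw [Fin.sum_univ_succ, h0]
      simp only [hs]
      rw [Finset.sum_add_distrib, hp2]
      push_cast at iha ⊢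
      linarith

end Pool.Agent.MP_ca1109_lc.Hyb
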