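import Pool.Agent.MP_ca1109_lc.Hyb.Defs

/-!
# Restrictions, derivatives and partial averages
-/

namespace Pool.Agent.MP_ca1109_lc.Hyb

open Pool.Agent.MP_ca1109_lc.Mpg Finset

variable {n d : ℕ}

/- PROOF NOTES [HYB-B2].  `smul_mem`: `lowDeg_hom (AddMonoidHom.mulLeft c)`.  `fx_mem`: `lowDeg_comp` with `β i b = if i ∈ A then τ i else b`.
`update_mem`: `x ↦ f (update x j b)` is `fx {j} (fun _ => b) f`.  `der_mem`: difference of two of them, divided by `2`.
`avA_mem`: `avA A f = (∑ u, x ↦ f (if i ∈ A then u i else x i)) / 2 ^ n` (as a function of `x`), each summand is `fx A u f`.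
`der_fx`: `update` commutes with the restriction off `A`; for `j ∈ A` both values agree.
`avg_fx`: write both averages as sums; the map `(τ, x) ↦ ((τ on A, x off A), (x on A, τ off A))` is an involution
of the pairs, hence `∑_τ ∑_x φ (τ on A, x off A) = 2 ^ n ∑_y φ y` (`Equiv` on the product, `Fintype.sum_prod_type`). -/

theorem smul_mem {f : (Fin n → Bool) → ℝ} (hf : f ∈ lowDeg (Fin n) Bool ℝ d) (c : ℝ) :
    (fun x => c * f x) ∈ lowDeg (Fin n) Bool ℝ d := by
  exact lowDeg_hom (AddMonoidHom.mulLeft c) hf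

theorem fx_mem {R : Type*} [AddCommGroup R] {f : (Fin n → Bool) → R}
    (hf : f ∈ lowDeg (Fin n) Bool R d) (A : Finset (Fin n)) (τ : Fin n → Bool) :
    fx A τ f ∈ lowDeg (Fin n) Bool R d := by
  exact lowDeg_comp (fun i b => if i ∈ A then τ i else b) hf

theorem b2_update_mem {f : (Fin n → Bool) → ℝ} (hf : f ∈ lowDeg (Fin n) Bool ℝ d) (j : Fin n) (b : Bool) :
    (fun x => f (Function.update x j b)) ∈ lowDeg (Fin n) Bool ℝ d := by
  have h1 := lowDeg_comp (fun i c => if i = j then b else c) hf
  have h2 : (fun x : Fin n → Bool => f (Function.update x j b)) =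
      (fun x : Fin n → Bool => f (fun i => (fun (i : Fin n) (c : Bool) => if i = j then b else c) i (x i))) := by
    funext x
    congr 1
    funext i
    rw [Function.update_apply]
  rw [h2]
  exact h1

theorem der_mem {f : (Fin n → Bool) → ℝ} (hf : f ∈ lowDeg (Fin n) Bool ℝ d) (j : Fin n) :
    der j f ∈ lowDeg (Fin n) Bool ℝ d := by
  have h1 := smul_mem (AddSubgroup.sub_mem _ (b2_update_mem hf j true) (b2_update_mem hf j false)) (1 / 2)
  have h2 : der j f = fun x => (1 / 2) * ((fun x => f (Function.update x j true)) -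
      (fun x => f (Function.update x j false))) x := by
    funext x
    unfold der
    rw [Pi.sub_apply]
    ring
  rw [h2]
  exact h1

theorem avA_mem {f : (Fin n → Bool) → ℝ} (hf : f ∈ lowDeg (Fin n) Bool ℝ d) (A : Finset (Fin n)) :
    avA A f ∈ lowDeg (Fin n) Bool ℝ d := by
  have h1 := smul_mem (AddSubgroup.sum_mem (lowDeg (Fin n) Bool ℝ d)
    (fun (u : Fin n → Bool) (_ : u ∈ univ) => fx_mem hf A u)) (1 / (Fintype.card (Fin n → Bool) : ℝ))
  have h2 : avA A f = fun x => (1 / (Fintype.card (Fin n → Bool) : ℝ)) * (∑ u, fx A u f) x := by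
    funext x
    unfold avA avg
    rw [Finset.sum_apply, one_div, ← div_eq_inv_mul]
    rfl
  rw [h2]
  exact h1

theorem fx_indep {α : Type*} (A : Finset (Fin n)) (τ : Fin n → Bool) (f : (Fin n → Bool) → α) :
    Indep A (fx A τ f) := by
  intro x y h
  unfold fx
  congr 1
  funext i
  by_cases hi : i ∈ A
  · rw [if_pos hi, if_pos hi]
  · rw [if_neg hi, if_neg hi, h i hi]

theorem avA_indep {f : (Fin n → Bool) → ℝ} (A : Finset (Fin n)) : Indep A (avA A f) := by
  intro x y h
  unfold avA
  congr 1
  funext u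
  exact fx_indep A u f x y h

theorem avA_indep' {f : (Fin n → Bool) → ℝ} {A B : Finset (Fin n)} (h : Indep B f) :
    Indep B (avA A f) := by
  intro x y hxy
  unfold avA
  congr 1
  funext u
  refine h _ _ (fun i hi => ?_)
  by_cases hA : i ∈ A
  · rw [if_pos hA, if_pos hA]
  · rw [if_neg hA, if_neg hA, hxy i hi]

theorem der_fx {A : Finset (Fin n)} {j : Fin n} (hj : j ∉ A) (τ : Fin n → Bool)
    (f : (Fin n → Bool) → ℝ) : der j (fx A τ f) = fx A τ (der j f) := by
  funext x
  have key : ∀ b : Bool, fx A τ f (Function.update x j b) =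
      f (Function.update (fun i => if i ∈ A then τ i else x i) j b) := by
    intro b
    unfold fx
    congr 1
    funext i
    by_cases hi : i = j
    · subst hi
      rw [if_neg hj, Function.update_self, Function.update_self]
    · rw [Function.update_of_ne hi, Function.update_of_ne hi]
  unfold der
  rw [key, key]
  rfl

theorem der_fx' {A : Finset (Fin n)} {j : Fin n} (hj : j ∈ A) (τ : Fin n → Bool)
    (f : (Fin n → Bool) → ℝ) (x : Fin n → Bool) : der j (fx A τ f) x = 0 := by
  have key : ∀ b : Bool, fx A τ f (Function.update x j b) = fx A τ f x := by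
    intro b
    refine fx_indep A τ f _ _ (fun i hi => ?_)
    have hij : i ≠ j := fun h => hi (h ▸ hj)
    rw [Function.update_of_ne hij]
  unfold der
  rw [key, key, sub_self, zero_div]

theorem avg_fx (A : Finset (Fin n)) (f : (Fin n → Bool) → ℝ) :
    avg (fun τ => avg (fx A τ f)) = avg f := by
  set φ : (Fin n → Bool) × (Fin n → Bool) → (Fin n → Bool) × (Fin n → Bool) := fun p =>
    (fun i => if i ∈ A then p.1 i else p.2 i, fun i => if i ∈ A then p.2 i else p.1 i) with hφ
  have hinv : Function.Involutive φ := by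
    rintro ⟨u, v⟩
    rw [hφ]
    refine Prod.ext ?_ ?_
    · funext i
      simp only
      by_cases hi : i ∈ A
      · rw [if_pos hi, if_pos hi]
      · rw [if_neg hi, if_neg hi]
    · funext i
      simp only
      by_cases hi : i ∈ A
      · rw [if_pos hi, if_pos hi]
      · rw [if_neg hi, if_neg hi]
  have h1 := avg_equiv hinv.toPerm (fun p : (Fin n → Bool) × (Fin n → Bool) => f p.1)
  rw [avg_fst] at h1
  rw [← h1]
  exact (avg_prod (fun (τ : Fin n → Bool) (x : Fin n → Bool) => fx A τ f x)).symm

end Pool.Agent.MP_ca1109_lc.Hyb
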