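import Pool.Agent.MP_ca1109_lc.Hyb.B1
import Pool.Agent.MP_ca1109_lc.Hyb.B2

/-!
# Moments of restrictions
-/

namespace Pool.Agent.MP_ca1109_lc.Hyb

open Pool.Agent.MP_ca1109_lc.Mpg Finset

variable {n d : ℕ}

/- PROOF NOTES [HYB-B2a].  `infl_fx_avg`: `der_fx`, `avg_fx` for `(der j f) ^ 2`.
`sq_fx`: for fixed `τ`: `(avg (g ^ 2)) ^ 2 ≤ avg (g ^ 4)` with `g = fx A τ p` (`avg_pow_le` of `Agp/N1` with exponent `2`), then
`avg_fx` for `p ^ 4` and `hyper`.  `infl_fx_sq`: the same for `der j p` (`der_mem`, `der_fx`; for `j ∈ A` the left side is `0` by `der_fx'`). -/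

theorem infl_fx_avg {A : Finset (Fin n)} {j : Fin n} (hj : j ∉ A) (f : (Fin n → Bool) → ℝ) :
    avg (fun τ => infl j (fx A τ f)) = infl j f := by
  have h1 : (fun τ => infl j (fx A τ f)) = fun τ => avg (fx A τ (fun x => der j f x ^ 2)) := by
    funext τ
    unfold infl
    rw [der_fx hj]
    rfl
  rw [h1, avg_fx]
  rfl

theorem sq_fx {p : (Fin n → Bool) → ℝ} (hp : p ∈ lowDeg (Fin n) Bool ℝ d) (A : Finset (Fin n)) :
    avg (fun τ => avg (fun x => fx A τ p x ^ 2) ^ 2) ≤ 9 ^ d * avg (fun x => p x ^ 2) ^ 2 := by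
  have h1 : ∀ τ : Fin n → Bool, avg (fun x => fx A τ p x ^ 2) ^ 2 ≤ avg (fx A τ (fun x => p x ^ 4)) := by
    intro τ
    refine (Agp.avg_pow_le (fun x => sq_nonneg (fx A τ p x)) 2).trans (le_of_eq ?_)
    congr 1
    funext x
    change (fx A τ p x ^ 2) ^ 2 = (fx A τ p x) ^ 4
    ring
  refine (avg_mono h1).trans ?_
  rw [avg_fx]
  exact hyper hp

theorem infl_fx_sq {p : (Fin n → Bool) → ℝ} (hp : p ∈ lowDeg (Fin n) Bool ℝ d)
    (A : Finset (Fin n)) (j : Fin n) :
    avg (fun τ => infl j (fx A τ p) ^ 2) ≤ 9 ^ d * infl j p ^ 2 := by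
  by_cases hj : j ∈ A
  · have h1 : ∀ τ : Fin n → Bool, infl j (fx A τ p) = 0 := by
      intro τ
      unfold infl
      have h2 : (fun x => der j (fx A τ p) x ^ 2) = fun _ => (0 : ℝ) := by
        funext x
        rw [der_fx' hj]
        norm_num
      rw [h2, avg_const]
    have h3 : (fun τ => infl j (fx A τ p) ^ 2) = fun _ => (0 : ℝ) := by
      funext τ
      rw [h1]
      norm_num
    rw [h3, avg_const]
    positivity
  · have h1 : (fun τ => infl j (fx A τ p) ^ 2) =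
        fun τ => avg (fun x => fx A τ (der j p) x ^ 2) ^ 2 := by
      funext τ
      unfold infl
      rw [der_fx hj]
    rw [h1]
    exact sq_fx (der_mem hp j) A

end Pool.Agent.MP_ca1109_lc.Hyb
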