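import Pool.Agent.MP_ca1109_lc.Hyb.B2

/-!
# The distance from the partial averages
-/

namespace Pool.Agent.MP_ca1109_lc.Hyb

open Pool.Agent.MP_ca1109_lc.Mpg Finset

variable {n d : ℕ}

/- PROOF NOTES [HYB-B2b].  `avA_empty`: `avA ∅ f = f`.  `avA_single`: `avA {j} f x = (f (update x j true) + f (update x j false)) / 2` (average of a function of the bit `u j`), so
`f x - avA {j} f x = ± der j f x` (`x = update x j (x j)`).  `avA_union`: `avA (insert j A) f = avA {j} (avA A f)` for `j ∉ A` (regroup the double average as in `avg_fx`).
`avA_avg`: `avg (avA A f) = avg f` (`avg_fx` after exchanging the averages).  `avA_sq_le`: Cauchy-Schwarz inside the partial average (`avg_pow_le`-like for signed functions: `(avg g)² ≤ avg g²`), `avA_avg` for `f²`.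
`dev_orth`: for `h` with `Indep A h`: `avA A (f h) = h avA A f`, `avA_avg`.
`dev_le`: induction on `A`: `f - avA (insert j A) f = (f - avA A f) + (g - avA {j} g)` with `g = avA A f`.  The two summands are orthogonal (`dev_orth`; `g`, `avA {j} g` are `Indep A`).
`avg (g - avA {j} g) ^ 2 = infl j g ≤ infl j f`: `der j (avA A f) = avA A (der j f)` for `j ∉ A` and `avA_sq_le`. -/

theorem avA_avg (A : Finset (Fin n)) (f : (Fin n → Bool) → ℝ) : avg (avA A f) = avg f := by
  have h1 : avg (avA A f) = avg (fun τ => avg (fx A τ f)) := by
    unfold avA fx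
    rw [Agp.k2_avg_comm]
  rw [h1, avg_fx]

theorem b2b_cs {X : Type*} [Fintype X] [Nonempty X] (g : X → ℝ) :
    avg g ^ 2 ≤ avg (fun a => g a ^ 2) := by
  have h0 : 0 ≤ avg (fun a => (g a - avg g) ^ 2) := avg_nonneg fun a => sq_nonneg _
  have h1 : avg (fun a => (g a - avg g) ^ 2) = avg (fun a => g a ^ 2) - avg g ^ 2 := by
    have e : (fun a => (g a - avg g) ^ 2) =
        fun a => (g a ^ 2 - 2 * avg g * g a) + avg g ^ 2 := by
      funext a; ring
    rw [e, avg_add (fun a => g a ^ 2 - 2 * avg g * g a) (fun _ => avg g ^ 2),
      avg_sub (fun a => g a ^ 2) (fun a => 2 * avg g * g a), avg_mul_left, avg_const]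
    ring
  rw [h1] at h0
  linarith

theorem avA_sq_le (A : Finset (Fin n)) (f : (Fin n → Bool) → ℝ) :
    avg (fun x => avA A f x ^ 2) ≤ avg (fun x => f x ^ 2) := by
  have h1 : ∀ x, avA A f x ^ 2 ≤ avA A (fun y => f y ^ 2) x := fun x => b2b_cs _
  exact (avg_mono h1).trans (le_of_eq (avA_avg A _))

theorem b2b_mul (A : Finset (Fin n)) (f h : (Fin n → Bool) → ℝ) (hh : Indep A h)
    (x : Fin n → Bool) : avA A (fun y => f y * h y) x = avA A f x * h x := by
  have h1 : ∀ u : Fin n → Bool, h (fun i => if i ∈ A then u i else x i) = h x := by
    intro u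
    refine hh _ _ fun i hi => ?_
    rw [if_neg hi]
  have h2 : avA A (fun y => f y * h y) x =
      avg (fun u : Fin n → Bool => h x * f (fun i => if i ∈ A then u i else x i)) := by
    unfold avA
    congr 1
    funext u
    show f (fun i => if i ∈ A then u i else x i) * h (fun i => if i ∈ A then u i else x i) = _
    rw [h1 u, mul_comm]
  rw [h2, avg_mul_left, mul_comm]
  rfl

theorem dev_orth (A : Finset (Fin n)) (f h : (Fin n → Bool) → ℝ) (hh : Indep A h) :
    avg (fun x => (f x - avA A f x) * h x) = 0 := by
  have e : (fun x => (f x - avA A f x) * h x) = fun x => f x * h x - avA A f x * h x := by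
    funext x; ring
  rw [e, avg_sub (fun x => f x * h x) (fun x => avA A f x * h x)]
  have h1 : (fun x => avA A f x * h x) = avA A (fun y => f y * h y) := by
    funext x
    exact (b2b_mul A f h hh x).symm
  rw [h1, avA_avg, sub_self]

theorem b2b_empty (f : (Fin n → Bool) → ℝ) (x : Fin n → Bool) : avA ∅ f x = f x := by
  unfold avA
  simp only [Finset.notMem_empty, if_false]
  exact avg_const _

theorem b2b_bit (j : Fin n) (φ : Bool → ℝ) :
    avg (fun u : Fin n → Bool => φ (u j)) = (φ true + φ false) / 2 := by
  classical
  have h1 := avg_equiv (Equiv.funSplitAt j Bool)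
    (fun p : Bool × ({i // i ≠ j} → Bool) => φ p.1)
  have h2 : (fun u : Fin n → Bool => φ (u j)) =
      fun u => (fun p : Bool × ({i // i ≠ j} → Bool) => φ p.1) (Equiv.funSplitAt j Bool u) := by
    funext u
    rfl
  rw [h2, h1, avg_fst]
  unfold avg
  rw [Fintype.sum_bool, Fintype.card_bool]
  norm_num

theorem b2b_single (j : Fin n) (f : (Fin n → Bool) → ℝ) (x : Fin n → Bool) :
    avA {j} f x = (f (Function.update x j true) + f (Function.update x j false)) / 2 := by
  rw [← b2b_bit j (fun b => f (Function.update x j b))]
  unfold avA
  congr 1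
  funext u
  congr 1
  funext i
  by_cases h : i = j
  · subst h
    simp
  · simp [h]

theorem b2b_union (A : Finset (Fin n)) (j : Fin n) (f : (Fin n → Bool) → ℝ) :
    avA (insert j A) f = avA {j} (avA A f) := by
  funext x
  have h1 := avA_avg A (fun w : Fin n → Bool => f (fun i => if i ∈ insert j A then w i else x i))
  have h2 : avA {j} (avA A f) x =
      avg (avA A (fun w : Fin n → Bool => f (fun i => if i ∈ insert j A then w i else x i))) := by
    unfold avA
    congr 1
    funext u
    congr 1
    funext v
    congr 1
    funext i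
    show (if i ∈ A then v i else if i ∈ ({j} : Finset (Fin n)) then u i else x i) =
      if i ∈ insert j A then (if i ∈ A then v i else u i) else x i
    by_cases hA : i ∈ A
    · have : i ∈ insert j A := Finset.mem_insert_of_mem hA
      rw [if_pos hA, if_pos this, if_pos hA]
    · by_cases hj : i = j
      · subst hj
        rw [if_neg hA, if_pos (Finset.mem_singleton_self i), if_pos (Finset.mem_insert_self i A),
          if_neg hA]
      · have h3 : i ∉ insert j A := by
          rw [Finset.mem_insert, not_or]
          exact ⟨hj, hA⟩
        have h4 : i ∉ ({j} : Finset (Fin n)) := by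
          rw [Finset.mem_singleton]
          exact hj
        rw [if_neg hA, if_neg h4, if_neg h3]
  rw [h2, h1]
  rfl

theorem b2b_der {A : Finset (Fin n)} {j : Fin n} (hj : j ∉ A) (f : (Fin n → Bool) → ℝ) :
    der j (avA A f) = avA A (der j f) := by
  funext x
  have h1 : ∀ (b : Bool) (u : Fin n → Bool),
      (fun i => if i ∈ A then u i else Function.update x j b i) =
        Function.update (fun i => if i ∈ A then u i else x i) j b := by
    intro b u
    funext i
    by_cases h : i = j
    · subst h
      simp [hj]
    · simp [h]
  have h2 : avA A (der j f) x = avg (fun u : Fin n → Bool =>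
      2⁻¹ * (f (Function.update (fun i => if i ∈ A then u i else x i) j true) -
        f (Function.update (fun i => if i ∈ A then u i else x i) j false))) := by
    unfold avA der
    congr 1
    funext u
    ring
  rw [h2, avg_mul_left, avg_sub
    (fun u : Fin n → Bool => f (Function.update (fun i => if i ∈ A then u i else x i) j true))
    (fun u : Fin n → Bool => f (Function.update (fun i => if i ∈ A then u i else x i) j false))]
  have h3 : der j (avA A f) x =
      2⁻¹ * (avA A f (Function.update x j true) - avA A f (Function.update x j false)) := by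
    unfold der
    ring
  rw [h3]
  unfold avA
  simp only [h1]

theorem b2b_sq (j : Fin n) (g : (Fin n → Bool) → ℝ) (x : Fin n → Bool) :
    (g x - avA {j} g x) ^ 2 = der j g x ^ 2 := by
  rw [b2b_single]
  unfold der
  have h : g x = g (Function.update x j (x j)) := by rw [Function.update_eq_self]
  rcases hb : x j with _ | _
  · rw [hb] at h
    rw [h]
    have e1 : Function.update (Function.update x j false) j true = Function.update x j true :=
      Function.update_idem _ _ _
    have e2 : Function.update (Function.update x j false) j false = Function.update x j false :=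
      Function.update_idem _ _ _
    try rw [e1]
    try rw [e2]
    ring
  · rw [hb] at h
    rw [h]
    ring

theorem b2b_indep_mono {α : Type*} {A B : Finset (Fin n)} {f : (Fin n → Bool) → α}
    (h : A ⊆ B) (hf : Indep B f) : Indep A f :=
  fun x y hxy => hf x y fun i hi => hxy i fun hA => hi (h hA)

theorem dev_le (A : Finset (Fin n)) (f : (Fin n → Bool) → ℝ) :
    avg (fun x => (f x - avA A f x) ^ 2) ≤ ∑ j ∈ A, infl j f := by
  induction A using Finset.induction_on with
  | empty =>
    have h1 : (fun x => (f x - avA ∅ f x) ^ 2) = fun _ => (0 : ℝ) := by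
      funext x
      rw [b2b_empty, sub_self]
      norm_num
    rw [h1, avg_const, Finset.sum_empty]
  | insert j A hj ih =>
    rw [b2b_union A j f, Finset.sum_insert hj]
    have hI : Indep A (fun x => avA A f x - avA {j} (avA A f) x) := by
      intro x y hxy
      have h1 : avA A f x = avA A f y := avA_indep A x y hxy
      have h2 : avA {j} (avA A f) x = avA {j} (avA A f) y :=
        avA_indep' (A := {j}) (avA_indep (f := f) A) x y hxy
      show avA A f x - avA {j} (avA A f) x = avA A f y - avA {j} (avA A f) y
      rw [h1, h2]
    have h0 := dev_orth A f _ hI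
    have h3 : avg (fun x => (avA A f x - avA {j} (avA A f) x) ^ 2) ≤ infl j f := by
      have h4 : (fun x => (avA A f x - avA {j} (avA A f) x) ^ 2) =
          fun x => avA A (der j f) x ^ 2 := by
        funext x
        rw [b2b_sq, b2b_der hj]
      rw [h4]
      exact avA_sq_le A (der j f)
    have h5 : (fun x => (f x - avA {j} (avA A f) x) ^ 2) = fun x =>
        ((f x - avA A f x) ^ 2 + 2 * ((f x - avA A f x) * (avA A f x - avA {j} (avA A f) x))) +
          (avA A f x - avA {j} (avA A f) x) ^ 2 := by
      funext x
      ring
    rw [h5, avg_add (fun x => (f x - avA A f x) ^ 2 +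
        2 * ((f x - avA A f x) * (avA A f x - avA {j} (avA A f) x)))
      (fun x => (avA A f x - avA {j} (avA A f) x) ^ 2),
      avg_add (fun x => (f x - avA A f x) ^ 2)
      (fun x => 2 * ((f x - avA A f x) * (avA A f x - avA {j} (avA A f) x))),
      avg_mul_left, h0]
    linarith

end Pool.Agent.MP_ca1109_lc.Hyb
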