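import Pool.Agent.MP_ca1109_lc.Hyb.B0
import Pool.Agent.MP_ca1109_lc.Hyb.B1b
import Pool.Agent.MP_ca1109_lc.Hyb.B2a

/-!
# Random restrictions make polynomials good
-/

namespace Pool.Agent.MP_ca1109_lc.Hyb

open Pool.Agent.MP_ca1109_lc.Mpg Finset

/- PROOF NOTES [HYB-B3].  `c = 1 / (8 · 9 ^ d)`.  Put `s = avg p²`.  If `s = 0` then `p = 0` (everything is `0 ≤ 0`): `A = ∅`.  Otherwise let `τ' = c η ^ 2 / (4 · 9 ^ d (d + 1))`,
`A = univ.filter (fun j => τ' * s < infl j p)`; `A.card * τ' * s ≤ ∑ infl ≤ d s` (`sum_infl_le`) gives `A.card ≤ ⌈d / τ'⌉ =: K`.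
 `N τ = avg (fx A τ p ^ 2)`: `avg N = s` (`avg_fx` for `p ^ 2`), `avg N ^ 2 ≤ 9 ^ d s ^ 2` (`sq_fx`): `pz`: `pr (s / 2 ≤ N) ≥ 2 c`.
 `avg_τ ∑ j, infl j (fx A τ p) ^ 2 ≤ ∑ j ∉ A, 9 ^ d (infl j p) ^ 2 ≤ 9 ^ d τ' s ∑ infl ≤ 9 ^ d τ' d s ^ 2` (`infl_fx_sq`, `der_fx'` for `j ∈ A`); by `pr_markov` with `a = (η s / 2) ^ 2`
 the sum is `≥ a` with probability `≤ 4 · 9 ^ d τ' d / η ^ 2 ≤ c`.  Otherwise every `infl j (fx A τ p) ≤ η s / 2 ≤ η N τ` if also `s / 2 ≤ N τ`.  So `pr Good ≥ 2 c - c`. -/

theorem round (d : ℕ) {η : ℝ} (hη : 0 < η) :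
    ∃ K : ℕ, ∀ (n : ℕ) (p : (Fin n → Bool) → ℝ), p ∈ lowDeg (Fin n) Bool ℝ d →
      ∃ A : Finset (Fin n), A.card ≤ K ∧ 1 / (8 * 9 ^ d) ≤ pr (fun τ => Good η (fx A τ p)) := by
  classical
  have h9 : (1 : ℝ) ≤ 9 ^ d := one_le_pow₀ (by norm_num)
  have h90 : (0 : ℝ) < 9 ^ d := by positivity
  set c : ℝ := 1 / (8 * 9 ^ d) with hc
  have hc0 : 0 < c := by positivity
  set t : ℝ := c * η ^ 2 / (4 * 9 ^ d * (d + 1)) with ht
  have ht0 : 0 < t := by positivity
  refine ⟨⌈(d : ℝ) / t⌉₊, ?_⟩
  intro n p hp
  have hinfl0 : ∀ (f : (Fin n → Bool) → ℝ) (j : Fin n), 0 ≤ infl j f := fun f j =>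
    avg_nonneg fun x => sq_nonneg _
  have hs0 : 0 ≤ avg (fun x => p x ^ 2) := avg_nonneg fun x => sq_nonneg _
  rcases hs0.eq_or_lt with hs | hs
  · -- `p = 0`
    refine ⟨∅, by simp, ?_⟩
    have hp0 : ∀ x, p x = 0 := by
      intro x
      have h1 : ∑ x : Fin n → Bool, p x ^ 2 = 0 := by
        have h2 := hs.symm
        unfold avg at h2
        have hcard : (Fintype.card (Fin n → Bool) : ℝ) ≠ 0 := by
          exact_mod_cast Fintype.card_ne_zero
        rcases div_eq_zero_iff.1 h2 with h3 | h3
        · exact h3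
        · exact absurd h3 hcard
      have h3 := (Finset.sum_eq_zero_iff_of_nonneg (fun x _ => sq_nonneg (p x))).1 h1 x
        (Finset.mem_univ x)
      exact pow_eq_zero_iff (two_ne_zero) |>.1 h3
    have hgood : ∀ τ : Fin n → Bool, Good η (fx ∅ τ p) := by
      intro τ j
      have h4 : infl j (fx ∅ τ p) = 0 := by
        unfold infl
        have h5 : (fun x => der j (fx ∅ τ p) x ^ 2) = fun _ => (0 : ℝ) := by
          funext x
          unfold der fx
          simp [hp0]
        rw [h5, avg_const]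
      rw [h4]
      exact mul_nonneg hη.le (avg_nonneg fun x => sq_nonneg _)
    have h6 : (1 : ℝ) ≤ pr (fun τ : Fin n → Bool => Good η (fx ∅ τ p)) := by
      unfold pr
      have h7 : (fun τ : Fin n → Bool => if Good η (fx ∅ τ p) then (1 : ℝ) else 0) =
          fun _ => (1 : ℝ) := by
        funext τ
        rw [if_pos (hgood τ)]
      rw [h7, avg_const]
    refine le_trans ?_ h6
    rw [hc, div_le_one (by positivity)]
    linarith
  · set s := avg (fun x => p x ^ 2) with hsdef
    set A : Finset (Fin n) := Finset.univ.filter (fun j => t * s < infl j p) with hA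
    refine ⟨A, ?_, ?_⟩
    · -- the size of `A`
      have h1 : (A.card : ℝ) * (t * s) ≤ ∑ j ∈ A, infl j p := by
        rw [← nsmul_eq_mul]
        exact Finset.card_nsmul_le_sum A _ _ fun j hj => (Finset.mem_filter.1 hj).2.le
      have h2 : ∑ j ∈ A, infl j p ≤ ∑ j, infl j p :=
        Finset.sum_le_sum_of_subset_of_nonneg (Finset.subset_univ A) fun j _ _ => hinfl0 p j
      have h3 := sum_infl_le hp
      have h4 : (A.card : ℝ) * t * s ≤ d * s := by
        rw [mul_assoc]
        exact h1.trans (h2.trans h3)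
      have h5 : (A.card : ℝ) * t ≤ d := le_of_mul_le_mul_right h4 hs
      have h6 : (A.card : ℝ) ≤ (d : ℝ) / t := by rwa [le_div_iff₀ ht0]
      exact_mod_cast h6.trans (Nat.le_ceil _)
    · set N : (Fin n → Bool) → ℝ := fun τ => avg (fun x => fx A τ p x ^ 2) with hN
      have hN0 : ∀ τ, 0 ≤ N τ := fun τ => avg_nonneg fun x => sq_nonneg _
      have hNavg : avg N = s := avg_fx A (fun x => p x ^ 2)
      have hN2 : avg (fun τ => N τ ^ 2) ≤ 9 ^ d * avg N ^ 2 := by
        rw [hNavg]
        exact sq_fx hp A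
      have hpz := pz hN0 h9 hN2
      rw [hNavg] at hpz
      -- the bad event
      set a : ℝ := (η * s / 2) ^ 2 with ha
      have ha0 : 0 < a := by positivity
      have hmk := pr_markov (f := fun τ : Fin n → Bool => ∑ j, infl j (fx A τ p) ^ 2)
        (fun τ => Finset.sum_nonneg fun j _ => sq_nonneg _) ha0
      have hsum : avg (fun τ : Fin n → Bool => ∑ j, infl j (fx A τ p) ^ 2) ≤
          9 ^ d * (t * s) * (d * s) := by
        rw [avg_sum]
        have h1 : ∀ j ∈ (Finset.univ : Finset (Fin n)),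
            avg (fun τ : Fin n → Bool => infl j (fx A τ p) ^ 2) ≤ 9 ^ d * (t * s) * infl j p := by
          intro j _
          by_cases hj : j ∈ A
          · have h2 : (fun τ : Fin n → Bool => infl j (fx A τ p) ^ 2) = fun _ => (0 : ℝ) := by
              funext τ
              have h3 : infl j (fx A τ p) = 0 := by
                unfold infl
                have h4 : (fun x => der j (fx A τ p) x ^ 2) = fun _ => (0 : ℝ) := by
                  funext x
                  rw [der_fx' hj τ p x]
                  norm_num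
                rw [h4, avg_const]
              rw [h3]
              norm_num
            rw [h2, avg_const]
            exact mul_nonneg (mul_nonneg h90.le (mul_nonneg ht0.le hs.le)) (hinfl0 p j)
          · have h2 : infl j p ≤ t * s := by
              by_contra h3
              exact hj (Finset.mem_filter.2 ⟨Finset.mem_univ j, not_le.1 h3⟩)
            refine (infl_fx_sq hp A j).trans ?_
            rw [mul_assoc, sq]
            exact mul_le_mul_of_nonneg_left (mul_le_mul_of_nonneg_right h2 (hinfl0 p j)) h90.le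
        refine (Finset.sum_le_sum h1).trans ?_
        rw [← Finset.mul_sum]
        exact mul_le_mul_of_nonneg_left (sum_infl_le hp)
          (mul_nonneg h90.le (mul_nonneg ht0.le hs.le))
      have hbad : pr (fun τ : Fin n → Bool => a ≤ ∑ j, infl j (fx A τ p) ^ 2) ≤ c := by
        refine hmk.trans ?_
        rw [div_le_iff₀ ha0]
        refine hsum.trans ?_
        have h1 : 9 ^ d * (t * s) * (d * s) = c * a * (d / (d + 1)) := by
          rw [ht, ha]
          field_simp
          ring
        rw [h1]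
        have h2 : (d : ℝ) / (d + 1) ≤ 1 := by
          rw [div_le_one (by positivity)]
          linarith
        calc c * a * (d / (d + 1)) ≤ c * a * 1 :=
              mul_le_mul_of_nonneg_left h2 (mul_nonneg hc0.le ha0.le)
          _ = c * a := mul_one _
      have hsub : pr (fun τ => s / 2 ≤ N τ) ≤
          pr (fun τ => Good η (fx A τ p) ∨ a ≤ ∑ j, infl j (fx A τ p) ^ 2) := by
        apply pr_mono
        intro τ hτ
        by_cases hb : a ≤ ∑ j, infl j (fx A τ p) ^ 2
        · exact Or.inr hb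
        · left
          intro j
          have h1 : infl j (fx A τ p) ^ 2 < a := by
            refine lt_of_le_of_lt ?_ (not_le.1 hb)
            exact Finset.single_le_sum (f := fun j => infl j (fx A τ p) ^ 2)
              (fun j _ => sq_nonneg _) (Finset.mem_univ j)
          have h2 : infl j (fx A τ p) < η * s / 2 :=
            lt_of_pow_lt_pow_left₀ 2 (by positivity) h1
          have h3 : η * (s / 2) ≤ η * N τ := mul_le_mul_of_nonneg_left hτ hη.le
          change infl j (fx A τ p) ≤ η * N τ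
          linarith
      have h1 := hsub.trans (pr_or _ _)
      have h2 : 1 / (4 * 9 ^ d) = 2 * c := by
        rw [hc]
        field_simp
        norm_num
      rw [h2] at hpz
      linarith

end Pool.Agent.MP_ca1109_lc.Hyb
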