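import Pool.Agent.MP_ca1109_lc.Hyb.B0
import Pool.Agent.MP_ca1109_lc.Hyb.B1b
import Pool.Agent.MP_ca1109_lc.Hyb.B2a
import Pool.Agent.MP_ca1109_lc.Hyb.B2b

/-!
# Good polynomials stay good
-/

namespace Pool.Agent.MP_ca1109_lc.Hyb

open Pool.Agent.MP_ca1109_lc.Mpg Finset

/- PROOF NOTES [HYB-B3b].  `s = avg p²` (`s = 0` is trivial: then `p = 0` and every restriction is `Good`).  `g = avA A p`, `r = p - g`: `avg r² ≤ ∑ j ∈ A, infl j p ≤ K η' s` (`dev_le`).  `fx A τ p = g + fx A τ r` (`Indep A g`).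
 `avg g² = s - avg r² ≥ (1 - K η') s` (`dev_orth` with `h = g`).  With probability `≥ 1 - ε / 2` over `τ`: `avg (fx A τ r)² ≤ 2 K η' s / ε` (Markov, `avg_fx`); then
 (`(a + b)² ≥ a² / 2 - b²` pointwise) `avg (g + fx r)² ≥ avg g² / 2 - avg (fx r)² ≥ s / 4` if `K η' ≤ 1/4` and `2 K η' / ε ≤ 1/8`.
 `avg_τ ∑ infl j (fx A τ p)² ≤ 9 ^ d ∑ (infl j p)² ≤ 9 ^ d η' d s²` (`infl_fx_sq`, `sum_infl_le`); so with probability `≥ 1 - ε / 2` all `infl j (fx A τ p) ≤ √(2 · 9 ^ d η' (d + 1) / ε) s ≤ η s / 4`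
 (Markov for the sum of squares with `a = (η s / 4)²`: no roots needed). -/

theorem b3b_eta (d K : ℕ) {η ε : ℝ} (hη : 0 < η) (hε : 0 < ε) :
    ∃ η' > 0, (K : ℝ) * η' ≤ 1 / 4 ∧ (K : ℝ) * η' ≤ ε / 16 ∧
      9 ^ d * η' * d ≤ ε / 2 * (η / 4) ^ 2 := by
  have hK : (0 : ℝ) ≤ K := Nat.cast_nonneg K
  have hd : (0 : ℝ) ≤ d := Nat.cast_nonneg d
  have h9 : (0 : ℝ) < 9 ^ d := by positivity
  refine ⟨min (min (1 / (4 * ((K : ℝ) + 1))) (ε / (16 * ((K : ℝ) + 1))))
    (ε / 2 * (η / 4) ^ 2 / (9 ^ d * ((d : ℝ) + 1))), ?_, ?_, ?_, ?_⟩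
  · exact lt_min (lt_min (by positivity) (by positivity)) (by positivity)
  · calc (K : ℝ) * _ ≤ ((K : ℝ) + 1) * (1 / (4 * ((K : ℝ) + 1))) :=
          mul_le_mul (by linarith) ((min_le_left _ _).trans (min_le_left _ _))
            (lt_min (lt_min (by positivity) (by positivity)) (by positivity)).le (by positivity)
      _ = 1 / 4 := by field_simp
  · calc (K : ℝ) * _ ≤ ((K : ℝ) + 1) * (ε / (16 * ((K : ℝ) + 1))) :=
          mul_le_mul (by linarith) ((min_le_left _ _).trans (min_le_right _ _))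
            (lt_min (lt_min (by positivity) (by positivity)) (by positivity)).le (by positivity)
      _ = ε / 16 := by field_simp
  · calc (9 : ℝ) ^ d * _ * d ≤
          9 ^ d * (ε / 2 * (η / 4) ^ 2 / (9 ^ d * ((d : ℝ) + 1))) * ((d : ℝ) + 1) := by
          refine mul_le_mul (mul_le_mul_of_nonneg_left (min_le_right _ _) h9.le) (by linarith)
            hd (by positivity)
      _ = ε / 2 * (η / 4) ^ 2 := by field_simp

theorem b3b_half {n : ℕ} (g r : (Fin n → Bool) → ℝ) :
    avg (fun x => g x ^ 2) / 2 - avg (fun x => r x ^ 2) ≤ avg (fun x => (g x + r x) ^ 2) := by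
  have h1 : avg (fun x => (1 / 2 : ℝ) * g x ^ 2 - r x ^ 2) ≤ avg (fun x => (g x + r x) ^ 2) :=
    avg_mono fun x => by nlinarith [sq_nonneg (g x + 2 * r x)]
  rw [avg_sub (fun x => (1 / 2 : ℝ) * g x ^ 2) (fun x => r x ^ 2), avg_mul_left] at h1
  linarith

theorem b3b_pyth {n : ℕ} (A : Finset (Fin n)) (p : (Fin n → Bool) → ℝ) :
    avg (fun x => p x ^ 2) =
      avg (fun x => avA A p x ^ 2) + avg (fun x => (p x - avA A p x) ^ 2) := by
  have h1 := dev_orth A p (avA A p) (avA_indep A)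
  have h2 : (fun x => p x ^ 2) = fun x => (avA A p x ^ 2 + (p x - avA A p x) ^ 2) +
      2 * ((p x - avA A p x) * avA A p x) := by
    funext x; ring
  rw [h2, avg_add (fun x => avA A p x ^ 2 + (p x - avA A p x) ^ 2)
    (fun x => 2 * ((p x - avA A p x) * avA A p x)), avg_add (fun x => avA A p x ^ 2)
    (fun x => (p x - avA A p x) ^ 2), avg_mul_left, h1]
  ring

theorem robust (d K : ℕ) {η ε : ℝ} (hη : 0 < η) (hε : 0 < ε) :
    ∃ η' > 0, ∀ (n : ℕ) (p : (Fin n → Bool) → ℝ), p ∈ lowDeg (Fin n) Bool ℝ d → Good η' p →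
      ∀ A : Finset (Fin n), A.card ≤ K → pr (fun τ => ¬ Good η (fx A τ p)) ≤ ε := by
  classical
  obtain ⟨η', hη', h1, h2, h3⟩ := b3b_eta d K hη hε
  refine ⟨η', hη', fun n p hp hgood A hA => ?_⟩
  have hs0 : 0 ≤ avg (fun x => p x ^ 2) := avg_nonneg fun x => sq_nonneg _
  obtain ⟨s, hs⟩ : ∃ s, s = avg (fun x => p x ^ 2) := ⟨_, rfl⟩
  rw [← hs] at hs0
  rcases hs0.eq_or_lt with h0 | hpos
  · -- p = 0
    have hp0 : ∀ x, p x = 0 := by
      have h4 : avg (fun x => p x ^ 2) = 0 := by rw [← hs, ← h0]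
      unfold avg at h4
      have hc : (Fintype.card (Fin n → Bool) : ℝ) ≠ 0 := by
        exact_mod_cast Fintype.card_ne_zero
      rcases div_eq_zero_iff.1 h4 with h5 | h5
      · intro x
        have h6 := (Finset.sum_eq_zero_iff_of_nonneg (fun x _ => sq_nonneg (p x))).1 h5 x
          (mem_univ x)
        exact pow_eq_zero_iff (by norm_num) |>.1 h6
      · exact absurd h5 hc
    have h5 : pr (fun τ => ¬ Good η (fx A τ p)) ≤ pr (fun _ : Fin n → Bool => False) := by
      refine pr_mono fun τ hτ => hτ ?_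
      intro j
      have h6 : infl j (fx A τ p) = 0 := by
        unfold infl der fx
        simp only [hp0, sub_self, zero_div]
        unfold avg
        simp
      rw [h6]
      exact mul_nonneg hη.le (avg_nonneg fun x => sq_nonneg _)
    have h6 : pr (fun _ : Fin n → Bool => False) = 0 := by
      unfold pr avg
      simp
    rw [h6] at h5
    exact h5.trans hε.le
  · have hinf : ∀ j, infl j p ≤ η' * s := fun j => by rw [hs]; exact hgood j
    have hinf0 : ∀ (f : (Fin n → Bool) → ℝ) j, 0 ≤ infl j f := fun f j =>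
      avg_nonneg fun x => sq_nonneg _
    have hdev : avg (fun x => (p x - avA A p x) ^ 2) ≤ K * η' * s := by
      refine (dev_le A p).trans ((Finset.sum_le_sum fun j _ => hinf j).trans ?_)
      rw [Finset.sum_const, nsmul_eq_mul, mul_assoc]
      refine mul_le_mul_of_nonneg_right ?_ (mul_pos hη' hpos).le
      exact_mod_cast hA
    have hg : 3 / 4 * s ≤ avg (fun x => avA A p x ^ 2) := by
      have h4 := b3b_pyth A p
      rw [← hs] at h4
      have h5 : (K : ℝ) * η' * s ≤ 1 / 4 * s := mul_le_mul_of_nonneg_right h1 hpos.le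
      linarith
    have hfx : ∀ τ, fx A τ p = fun x => avA A p x + fx A τ (fun x => p x - avA A p x) x := by
      intro τ
      funext x
      have h4 : avA A p (fun i => if i ∈ A then τ i else x i) = avA A p x :=
        avA_indep A _ _ (fun i hi => by simp [hi])
      show p (fun i => if i ∈ A then τ i else x i) = avA A p x +
        (p (fun i => if i ∈ A then τ i else x i) -
          avA A p (fun i => if i ∈ A then τ i else x i))
      rw [h4]
      ring
    have hsub : ∀ τ, ¬ Good η (fx A τ p) →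
        s / 8 ≤ avg (fun x => fx A τ (fun x => p x - avA A p x) x ^ 2) ∨
          (η * s / 4) ^ 2 ≤ ∑ j, infl j (fx A τ p) ^ 2 := by
      intro τ hτ
      by_contra hcon
      rw [not_or, not_le, not_le] at hcon
      obtain ⟨c1, c2⟩ := hcon
      apply hτ
      intro j
      have h4 : infl j (fx A τ p) ^ 2 < (η * s / 4) ^ 2 :=
        lt_of_le_of_lt (Finset.single_le_sum (f := fun j => infl j (fx A τ p) ^ 2)
          (fun j _ => sq_nonneg _) (mem_univ j)) c2
      have h5 : infl j (fx A τ p) < η * s / 4 :=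
        lt_of_pow_lt_pow_left₀ 2 (by positivity) h4
      have h6 := b3b_half (avA A p) (fx A τ (fun x => p x - avA A p x))
      have h7 : s / 4 ≤ avg (fun x => fx A τ p x ^ 2) := by
        rw [hfx τ]
        linarith
      have h8 : η * (s / 4) ≤ η * avg (fun x => fx A τ p x ^ 2) :=
        mul_le_mul_of_nonneg_left h7 hη.le
      linarith
    have hm1 : pr (fun τ => s / 8 ≤ avg (fun x => fx A τ (fun x => p x - avA A p x) x ^ 2)) ≤
        ε / 2 := by
      refine (pr_markov (f := fun τ => avg (fun x => fx A τ (fun x => p x - avA A p x) x ^ 2))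
        (fun τ => avg_nonneg fun x => sq_nonneg _) (by positivity)).trans ?_
      have h4 : avg (fun τ => avg (fun x => fx A τ (fun x => p x - avA A p x) x ^ 2)) =
          avg (fun x => (p x - avA A p x) ^ 2) := avg_fx A (fun x => (p x - avA A p x) ^ 2)
      rw [h4, div_le_iff₀ (by positivity)]
      have h5 : (K : ℝ) * η' * s ≤ ε / 16 * s := mul_le_mul_of_nonneg_right h2 hpos.le
      linarith
    have hm2 : pr (fun τ => (η * s / 4) ^ 2 ≤ ∑ j, infl j (fx A τ p) ^ 2) ≤ ε / 2 := by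
      refine (pr_markov (f := fun τ => ∑ j, infl j (fx A τ p) ^ 2)
        (fun τ => Finset.sum_nonneg fun j _ => sq_nonneg _) (by positivity)).trans ?_
      have h4 : avg (fun τ => ∑ j, infl j (fx A τ p) ^ 2) ≤ 9 ^ d * η' * d * s ^ 2 := by
        rw [avg_sum univ (fun j τ => infl j (fx A τ p) ^ 2)]
        calc ∑ j, avg (fun τ => infl j (fx A τ p) ^ 2)
            ≤ ∑ j, 9 ^ d * ((η' * s) * infl j p) := by
              refine Finset.sum_le_sum fun j _ => (infl_fx_sq hp A j).trans ?_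
              refine mul_le_mul_of_nonneg_left ?_ (by positivity)
              rw [sq]
              exact mul_le_mul_of_nonneg_right (hinf j) (hinf0 p j)
          _ = 9 ^ d * ((η' * s) * ∑ j, infl j p) := by
              rw [← Finset.mul_sum, ← Finset.mul_sum]
          _ ≤ 9 ^ d * ((η' * s) * (d * s)) := by
              have h5 := sum_infl_le hp
              rw [← hs] at h5
              exact mul_le_mul_of_nonneg_left (mul_le_mul_of_nonneg_left h5 (by positivity))
                (by positivity)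
          _ = 9 ^ d * η' * d * s ^ 2 := by ring
      rw [div_le_iff₀ (by positivity)]
      refine h4.trans ?_
      have h5 : 9 ^ d * η' * d * s ^ 2 ≤ ε / 2 * (η / 4) ^ 2 * s ^ 2 :=
        mul_le_mul_of_nonneg_right h3 (sq_nonneg _)
      refine h5.trans (le_of_eq ?_)
      ring
    calc pr (fun τ => ¬ Good η (fx A τ p))
        ≤ pr (fun τ => s / 8 ≤ avg (fun x => fx A τ (fun x => p x - avA A p x) x ^ 2) ∨
          (η * s / 4) ^ 2 ≤ ∑ j, infl j (fx A τ p) ^ 2) := pr_mono hsub
      _ ≤ _ := pr_or _ _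
      _ ≤ ε / 2 + ε / 2 := add_le_add hm1 hm2
      _ = ε := by ring

end Pool.Agent.MP_ca1109_lc.Hyb
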