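import Pool.Agent.MP_ca1109_lc.Hyb.C4

/-!
# Characteristic functions of linear forms
-/

namespace Pool.Agent.MP_ca1109_lc.Hyb

open Pool.Agent.MP_ca1109_lc.Mpg Finset

/- PROOF NOTES [HYB-B4].  `char_lin`: `ei (s (c + ∑ a_i sg z_i)) = ei (s c) * ∏ i, ei (s a_i sg (z i))`, `av` of a product of functions of the single bits (`Finset.prod_univ_sum`, `Fintype.piFinset_univ`); each factor is
`(ei (s a) + ei (- s a)) / 2 = cos (s a)`.
`cos_le_exp`: `0 ≤ cos x ≤ 1 - x² / 2 + x⁴ / 24 ≤ 1 - x² / 4 ≤ exp (-x² / 4)` for `|x| ≤ 1` (`Real.cos_bound`, `Real.cos_le_one_sub_mul_cos_sq`, `Real.add_one_le_exp`, `Real.cos_nonneg_of_mem_Icc`).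
`char_bound`: norm of the product, `Finset.prod_le_prod`, `Real.exp_sum`. -/

theorem B4_ei_sum {n : ℕ} (f : Fin n → ℝ) : ei (∑ i, f i) = ∏ i, ei (f i) := by
  unfold ei
  rw [← Complex.exp_sum, Complex.ofReal_sum, Finset.sum_mul]

theorem B4_factor (t : ℝ) : (∑ b : Bool, ei (t * sg b)) / 2 = (Real.cos t : ℂ) := by
  rw [Fintype.sum_bool, Complex.ofReal_cos]
  unfold ei sg
  rw [Complex.cos]
  simp

theorem char_lin {n : ℕ} (a : Fin n → ℝ) (s c : ℝ) :
    av (fun z : Fin n → Bool => ei (s * (c + ∑ i, a i * sg (z i)))) =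
      ei (s * c) * ∏ i, (Real.cos (s * a i) : ℂ) := by
  classical
  have h1 : ∀ z : Fin n → Bool, ei (s * (c + ∑ i, a i * sg (z i))) =
      ei (s * c) * ∏ i, ei (s * a i * sg (z i)) := by
    intro z
    rw [← B4_ei_sum, ← ei_add]
    congr 1
    rw [mul_add, Finset.mul_sum]
    congr 1
    exact Finset.sum_congr rfl fun i _ => by ring
  have h2 : ∑ z : Fin n → Bool, ∏ i, ei (s * a i * sg (z i)) =
      ∏ i, ∑ b : Bool, ei (s * a i * sg b) := by
    rw [Finset.prod_univ_sum, Fintype.piFinset_univ]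
  unfold av
  rw [Finset.sum_congr rfl fun z _ => h1 z, ← Finset.mul_sum, h2, mul_div_assoc]
  congr 1
  have h3 : (Fintype.card (Fin n → Bool) : ℂ) = ∏ _i : Fin n, (2 : ℂ) := by
    rw [Fintype.card_fun, Fintype.card_bool, Fintype.card_fin, Finset.prod_const,
      Finset.card_univ, Fintype.card_fin, Nat.cast_pow, Nat.cast_ofNat]
  rw [h3, ← Finset.prod_div_distrib]
  exact Finset.prod_congr rfl fun i _ => B4_factor (s * a i)

theorem cos_le_exp {x : ℝ} (hx : |x| ≤ 1) : |Real.cos x| ≤ Real.exp (-(x ^ 2) / 4) := by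
  have h1 := (abs_le.mp (Real.cos_bound hx)).2
  have h2 : 0 < Real.cos x := Real.cos_pos_of_le_one hx
  rw [abs_of_pos h2]
  have h3 : |x| ^ 4 ≤ x ^ 2 := by
    have h4 : |x| ^ 2 ≤ 1 := pow_le_one₀ (abs_nonneg x) hx
    have h5 : |x| ^ 4 = |x| ^ 2 * |x| ^ 2 := by ring
    rw [h5, sq_abs] at *
    nlinarith [sq_nonneg x]
  have h4 := Real.add_one_le_exp (-(x ^ 2) / 4)
  nlinarith [sq_nonneg x]

theorem char_bound {n : ℕ} (a : Fin n → ℝ) (s c : ℝ) (h : ∀ i, |s * a i| ≤ 1) :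
    ‖av (fun z : Fin n → Bool => ei (s * (c + ∑ i, a i * sg (z i))))‖ ≤
      Real.exp (-(s ^ 2 * ∑ i, a i ^ 2) / 4) := by
  rw [char_lin, norm_mul, ei_norm, one_mul, norm_prod]
  have h1 : Real.exp (-(s ^ 2 * ∑ i, a i ^ 2) / 4) = ∏ i, Real.exp (-((s * a i) ^ 2) / 4) := by
    rw [← Real.exp_sum]
    congr 1
    rw [← Finset.sum_div, Finset.sum_neg_distrib, Finset.mul_sum]
    congr 2
    exact Finset.sum_congr rfl fun i _ => by ring
  rw [h1]
  apply Finset.prod_le_prod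
  · intro i _
    exact norm_nonneg _
  · intro i _
    rw [Complex.norm_real, Real.norm_eq_abs]
    exact cos_le_exp (h i)

end Pool.Agent.MP_ca1109_lc.Hyb
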