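import Pool.Agent.MP_ca1109_lc.Hyb.B0
import Pool.Agent.MP_ca1109_lc.Hyb.B4

/-!
# Anticoncentration of linear forms
-/

namespace Pool.Agent.MP_ca1109_lc.Hyb

open Pool.Agent.MP_ca1109_lc.Mpg Finset

/- PROOF NOTES [HYB-B4b].  Littlewood-Offord by the Fejer kernel, everything finite.
Let `W z = c + ∑ i, a i * sg (z i)`, `A² = ∑ a i ^ 2`, `N ≥ 1` a natural number, `t₀ = T / N`, `K u = ‖(∑ j ∈ range N, ei (j t₀ u)) / N‖ ^ 2`.
 (i) `|u| ≤ 1 / T` ⇒ `|j t₀ u| ≤ 1` for `j < N` ⇒ `re (ei (j t₀ u)) = cos ≥ 1/2` (`Real.one_sub_sq_div_two_le_cos`) ⇒ `K u ≥ 1/4`.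
     So `pr (|W| ≤ 1 / T) ≤ 4 avg (K (W z))`.
 (ii) `avg_z K (W z) = re (1 / N² ∑_{j,l} av_z ei ((j - l) t₀ W z))`, and `|(j - l) t₀ a_i| ≤ T |a_i| ≤ 1`: `char_bound`.
     So `avg K ≤ 1 / N² ∑_{j,l} exp (- ((j - l) t₀)² A² / 4)`.
 (iii) pairs with `|j - l| ≤ ρ N`: at most `N (2 ρ N + 1)`; for the others the exponent is `≥ ρ² T² A² / 4`.  So `pr ≤ 4 (2 ρ + 1 / N + exp (- ρ² T² A² / 4))`.
 Choose `ρ = ε / 32`, `L` with `4 exp (- ρ² L² / 4) ≤ ε / 4`, and let `N` be large (`4 / N ≤ ε / 4`).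
 (Simplification for (iii): for fixed `l` the `j` with `|j - l| ≤ ρ N` lie in an interval with at most `2 ρ N + 1` integers: `Nat`/`Int` interval `Finset.Icc`, or choose `R : ℕ` with `R ≥ 1 / ρ`, `N = R * N'`, and bound the number of `j` with
 `|j - l| ≤ N'` by `2 N' + 1`.) -/

theorem b4b_pair {n N : ℕ} (hN : 0 < N) (a : Fin n → ℝ) (c T : ℝ) (hT : 0 < T)
    (ha : ∀ i, T * |a i| ≤ 1) (hA : (4 * (N : ℝ) ^ 2) ^ 2 ≤ T ^ 2 * ∑ i, a i ^ 2) {j l : ℕ}
    (hj : j < N) (hl : l < N) :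
    ‖av (fun z : Fin n → Bool => ei ((((j : ℝ) - l) * (T / N)) * (c + ∑ i, a i * sg (z i))))‖ ≤
      if j = l then 1 else 1 / (4 * (N : ℝ)) := by
  have hN' : (0 : ℝ) < N := by exact_mod_cast hN
  have h1 : |((j : ℝ) - l)| ≤ N := by
    have h2 : (j : ℝ) < N := by exact_mod_cast hj
    have h3 : (l : ℝ) < N := by exact_mod_cast hl
    have h0 : (0 : ℝ) ≤ j := by positivity
    have h0' : (0 : ℝ) ≤ l := by positivity
    rw [abs_le]
    constructor <;> linarith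
  have h2 : ∀ i, |(((j : ℝ) - l) * (T / N)) * a i| ≤ 1 := by
    intro i
    rw [abs_mul, abs_mul, abs_of_pos (by positivity : 0 < T / (N : ℝ))]
    calc |(j : ℝ) - l| * (T / N) * |a i| ≤ N * (T / N) * |a i| := by gcongr
      _ = T * |a i| := by field_simp
      _ ≤ 1 := ha i
  have h3 := char_bound a _ c h2
  split_ifs with h
  · subst h
    simpa using h3
  · refine h3.trans ?_
    have h4 : 1 ≤ ((j : ℝ) - l) ^ 2 := by
      have h5 : ((j : ℤ) - l) ≠ 0 := by omega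
      have h6 : (1 : ℤ) ≤ ((j : ℤ) - l) ^ 2 := by
        have := pow_pos (abs_pos.2 h5) 2
        rw [sq_abs] at this
        omega
      exact_mod_cast h6
    have h6 : 0 ≤ ∑ i, a i ^ 2 := Finset.sum_nonneg fun i _ => sq_nonneg _
    have h5 : 16 * (N : ℝ) ^ 2 ≤ (((j : ℝ) - l) * (T / N)) ^ 2 * ∑ i, a i ^ 2 := by
      calc 16 * (N : ℝ) ^ 2 = (4 * (N : ℝ) ^ 2) ^ 2 / (N : ℝ) ^ 2 := by field_simp; ring
        _ ≤ (T ^ 2 * ∑ i, a i ^ 2) / (N : ℝ) ^ 2 := by gcongr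
        _ = 1 * (T / N) ^ 2 * ∑ i, a i ^ 2 := by field_simp
        _ ≤ (((j : ℝ) - l) ^ 2) * (T / N) ^ 2 * ∑ i, a i ^ 2 := by gcongr
        _ = _ := by ring
    calc Real.exp (-((((j : ℝ) - l) * (T / N)) ^ 2 * ∑ i, a i ^ 2) / 4)
        ≤ Real.exp (-(4 * (N : ℝ) ^ 2)) := by
          apply Real.exp_le_exp.2
          linarith
      _ ≤ 1 / (4 * (N : ℝ)) := by
          rw [Real.exp_neg, ← one_div]
          apply one_div_le_one_div_of_le (by positivity)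
          have h7 := Real.add_one_le_exp (4 * (N : ℝ) ^ 2)
          have h8 : (1 : ℝ) ≤ N := by exact_mod_cast hN
          nlinarith

/-- the exponential sum -/
noncomputable def b4bS (N : ℕ) (t u : ℝ) : ℂ := ∑ j ∈ range N, ei ((j : ℝ) * t * u)

theorem b4b_conj (u : ℝ) : (starRingEnd ℂ) (ei u) = ei (-u) := by
  unfold ei
  rw [← Complex.exp_conj, map_mul, Complex.conj_ofReal, Complex.conj_I]
  congr 1
  push_cast
  ring

theorem b4b_re (u : ℝ) : (ei u).re = Real.cos u := by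
  unfold ei
  exact Complex.exp_ofReal_mul_I_re u

theorem b4b_sq (N : ℕ) (t u : ℝ) : ((‖b4bS N t u‖ ^ 2 : ℝ) : ℂ) =
    ∑ j ∈ range N, ∑ l ∈ range N, ei ((((j : ℝ) - l) * t) * u) := by
  have h1 : ((‖b4bS N t u‖ ^ 2 : ℝ) : ℂ) = b4bS N t u * (starRingEnd ℂ) (b4bS N t u) := by
    rw [Complex.mul_conj, Complex.normSq_eq_norm_sq]
  rw [h1]
  unfold b4bS
  rw [map_sum, Finset.sum_mul_sum]
  refine Finset.sum_congr rfl fun j _ => Finset.sum_congr rfl fun l _ => ?_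
  rw [b4b_conj, ← ei_add]
  congr 1
  ring

theorem b4b_low {N : ℕ} (hN : 0 < N) {T u : ℝ} (hT : 0 < T) (hu : |u| ≤ 1 / T) :
    (N : ℝ) ^ 2 / 4 ≤ ‖b4bS N (T / N) u‖ ^ 2 := by
  have hN' : (0 : ℝ) < N := by exact_mod_cast hN
  have h1 : (N : ℝ) / 2 ≤ ‖b4bS N (T / N) u‖ := by
    refine le_trans ?_ ((le_abs_self _).trans (Complex.abs_re_le_norm _))
    unfold b4bS
    rw [Complex.re_sum]
    have h2 : ∀ j ∈ range N, (1 : ℝ) / 2 ≤ (ei ((j : ℝ) * (T / N) * u)).re := by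
      intro j hj
      rw [b4b_re]
      have hj' : (j : ℝ) ≤ N := by exact_mod_cast (mem_range.1 hj).le
      have h3 : |(j : ℝ) * (T / N) * u| ≤ 1 := by
        rw [abs_mul, abs_of_nonneg (by positivity : 0 ≤ (j : ℝ) * (T / N))]
        calc (j : ℝ) * (T / N) * |u| ≤ (N : ℝ) * (T / N) * (1 / T) := by gcongr
          _ = 1 := by field_simp
      have h4 := Real.one_sub_sq_div_two_le_cos (x := (j : ℝ) * (T / N) * u)
      have h5 : ((j : ℝ) * (T / N) * u) ^ 2 ≤ 1 := by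
        rw [← sq_abs]
        exact pow_le_one₀ (abs_nonneg _) h3
      linarith
    calc (N : ℝ) / 2 = ∑ j ∈ range N, (1 : ℝ) / 2 := by
          rw [Finset.sum_const, card_range, nsmul_eq_mul]
          ring
      _ ≤ _ := Finset.sum_le_sum h2
  calc (N : ℝ) ^ 2 / 4 = ((N : ℝ) / 2) ^ 2 := by ring
    _ ≤ _ := pow_le_pow_left₀ (by positivity) h1 2

theorem b4b_avg {n N : ℕ} (hN : 0 < N) (a : Fin n → ℝ) (c T : ℝ) (hT : 0 < T)
    (ha : ∀ i, T * |a i| ≤ 1) (hA : (4 * (N : ℝ) ^ 2) ^ 2 ≤ T ^ 2 * ∑ i, a i ^ 2) :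
    avg (fun z : Fin n → Bool => ‖b4bS N (T / N) (c + ∑ i, a i * sg (z i))‖ ^ 2) ≤
      5 / 4 * N := by
  have hN' : (0 : ℝ) < N := by exact_mod_cast hN
  have h1 : ((avg (fun z : Fin n → Bool =>
      ‖b4bS N (T / N) (c + ∑ i, a i * sg (z i))‖ ^ 2) : ℝ) : ℂ) =
      ∑ j ∈ range N, ∑ l ∈ range N,
        av (fun z : Fin n → Bool => ei ((((j : ℝ) - l) * (T / N)) * (c + ∑ i, a i * sg (z i)))) := by
    unfold avg av
    rw [Complex.ofReal_div, Complex.ofReal_sum]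
    simp only [b4b_sq]
    rw [Finset.sum_comm]
    simp only [Complex.ofReal_natCast, Finset.sum_div]
    refine Finset.sum_congr rfl fun j _ => ?_
    rw [Finset.sum_comm]
  have h2 : avg (fun z : Fin n → Bool =>
      ‖b4bS N (T / N) (c + ∑ i, a i * sg (z i))‖ ^ 2) ≤
      ∑ j ∈ range N, ∑ l ∈ range N, if j = l then (1 : ℝ) else 1 / (4 * (N : ℝ)) := by
    refine (le_abs_self _).trans ?_
    rw [← Real.norm_eq_abs, ← Complex.norm_real, h1]
    refine (norm_sum_le _ _).trans (Finset.sum_le_sum fun j hj => ?_)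
    refine (norm_sum_le _ _).trans (Finset.sum_le_sum fun l hl => ?_)
    exact b4b_pair hN a c T hT ha hA (mem_range.1 hj) (mem_range.1 hl)
  refine h2.trans ?_
  have h3 : ∀ j ∈ range N, ∑ l ∈ range N, (if j = l then (1 : ℝ) else 1 / (4 * (N : ℝ))) ≤ 5 / 4 := by
    intro j hj
    calc ∑ l ∈ range N, (if j = l then (1 : ℝ) else 1 / (4 * (N : ℝ)))
        ≤ ∑ l ∈ range N, ((if j = l then (1 : ℝ) else 0) + 1 / (4 * (N : ℝ))) := by
          refine Finset.sum_le_sum fun l _ => ?_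
          have : (0 : ℝ) ≤ 1 / (4 * (N : ℝ)) := by positivity
          split_ifs <;> linarith
      _ = 5 / 4 := by
          rw [Finset.sum_add_distrib, Finset.sum_ite_eq, if_pos hj, Finset.sum_const, card_range,
            nsmul_eq_mul]
          field_simp
          norm_num
  calc ∑ j ∈ range N, ∑ l ∈ range N, (if j = l then (1 : ℝ) else 1 / (4 * (N : ℝ)))
      ≤ ∑ j ∈ range N, (5 / 4 : ℝ) := Finset.sum_le_sum h3
    _ = 5 / 4 * N := by
      rw [Finset.sum_const, card_range, nsmul_eq_mul]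
      ring

theorem lo (ε : ℝ) (hε : 0 < ε) :
    ∃ L > 0, ∀ (n : ℕ) (a : Fin n → ℝ) (c T : ℝ), 0 < T → (∀ i, T * |a i| ≤ 1) →
      L ^ 2 ≤ T ^ 2 * ∑ i, a i ^ 2 →
        pr (fun z : Fin n → Bool => |c + ∑ i, a i * sg (z i)| ≤ 1 / T) ≤ ε := by
  obtain ⟨N, hN⟩ := exists_nat_gt (5 / ε)
  have hN' : (0 : ℝ) < N := lt_trans (by positivity) hN
  have hN0 : 0 < N := by exact_mod_cast hN'
  refine ⟨4 * (N : ℝ) ^ 2, by positivity, fun n a c T hT ha hA => ?_⟩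
  have h1 := b4b_avg hN0 a c T hT ha hA
  unfold pr
  calc avg (fun z : Fin n → Bool =>
        if |c + ∑ i, a i * sg (z i)| ≤ 1 / T then (1 : ℝ) else 0)
      ≤ avg (fun z : Fin n → Bool => 4 / (N : ℝ) ^ 2 *
          ‖b4bS N (T / N) (c + ∑ i, a i * sg (z i))‖ ^ 2) := by
        refine avg_mono fun z => ?_
        split_ifs with h
        · have h2 := b4b_low hN0 hT h
          calc (1 : ℝ) = 4 / (N : ℝ) ^ 2 * ((N : ℝ) ^ 2 / 4) := by field_simp
            _ ≤ _ := mul_le_mul_of_nonneg_left h2 (by positivity)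
        · positivity
    _ = 4 / (N : ℝ) ^ 2 * avg (fun z : Fin n → Bool =>
          ‖b4bS N (T / N) (c + ∑ i, a i * sg (z i))‖ ^ 2) := avg_mul_left _ _
    _ ≤ 4 / (N : ℝ) ^ 2 * (5 / 4 * N) := mul_le_mul_of_nonneg_left h1 (by positivity)
    _ = 5 / N := by field_simp
    _ ≤ ε := by
        rw [div_le_iff₀ hN']
        rw [div_lt_iff₀ hε] at hN
        linarith

end Pool.Agent.MP_ca1109_lc.Hyb
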