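import Pool.Agent.MP_ca1109_lc.Hyb.Defs

/-!
# Walsh expansions
-/

namespace Pool.Agent.MP_ca1109_lc.Hyb

open Pool.Agent.MP_ca1109_lc.Mpg Finset

variable {n d : ℕ}

/- PROOF NOTES [HYB-B5].  Compare `chi_orth`, `chi_complete` in `Pool/Agent/MP_ca1109_lc/Fourier.lean` (another sign convention; the computations are the same).
`ch_orth`: `ch S x * ch T x = ∏ i, (..)`, sum over `x` with `Finset.prod_univ_sum`: the factor at `i` is `2` if `i ∈ S ↔ i ∈ T` and `0` otherwise.
`walsh_expand`: `∑ S, ch S x * ch S y = ∏ i, (1 + sg (x i) sg (y i)) = if x = y then 2 ^ n else 0` (`Finset.prod_one_add`).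
`avg_sq_walsh`: expand the square and use `ch_orth`.  `avg_walsh`: `ch_orth` with `T = ∅` (`ch ∅ = 1`). -/

theorem ch_orth (S T : Finset (Fin n)) :
    avg (fun x => ch S x * ch T x) = if S = T then (1 : ℝ) else 0 := by
  have h1 : ∀ x : Fin n → Bool, ch S x * ch T x =
      ∏ i, ((if i ∈ S then sg (x i) else 1) * (if i ∈ T then sg (x i) else 1)) := by
    intro x
    rw [Finset.prod_mul_distrib, Finset.prod_ite_mem, Finset.prod_ite_mem]
    simp only [ch, Finset.univ_inter]
  have h2 : ∑ x : Fin n → Bool, ch S x * ch T x =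
      ∏ i : Fin n, ∑ b : Bool, ((if i ∈ S then sg b else 1) * (if i ∈ T then sg b else 1)) := by
    rw [Finset.prod_univ_sum, Fintype.piFinset_univ]
    exact Finset.sum_congr rfl fun x _ => h1 x
  have h3 : ∀ i : Fin n, ∑ b : Bool, ((if i ∈ S then sg b else 1) * (if i ∈ T then sg b else 1)) =
      if (i ∈ S ↔ i ∈ T) then (2 : ℝ) else 0 := by
    intro i
    rw [Fintype.sum_bool]
    by_cases hS : i ∈ S <;> by_cases hT : i ∈ T <;> simp [hS, hT, sg] <;> norm_num
  have hcard : (Fintype.card (Fin n → Bool) : ℝ) = 2 ^ n := by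
    simp
  unfold avg
  rw [h2, hcard]
  simp only [h3]
  by_cases hST : S = T
  · subst hST
    simp
  · rw [if_neg hST]
    have h4 : ∃ i, ¬ (i ∈ S ↔ i ∈ T) := by
      by_contra hcon
      push Not at hcon
      exact hST (Finset.ext hcon)
    obtain ⟨i, hi⟩ := h4
    rw [Finset.prod_eq_zero (Finset.mem_univ i) (if_neg hi), zero_div]

theorem walsh_expand (p : (Fin n → Bool) → ℝ) (x : Fin n → Bool) :
    p x = ∑ S, wc p S * ch S x := by
  have hcard : (Fintype.card (Fin n → Bool) : ℝ) = 2 ^ n := by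
    simp
  have h1 : ∀ y : Fin n → Bool, ∑ S, ch S y * ch S x = if y = x then (2 : ℝ) ^ n else 0 := by
    intro y
    have h2 : ∑ S, ch S y * ch S x = ∏ i : Fin n, (1 + sg (y i) * sg (x i)) := by
      rw [Finset.prod_one_add, Finset.powerset_univ]
      refine Finset.sum_congr rfl fun S _ => ?_
      simp only [ch, Finset.prod_mul_distrib]
    rw [h2]
    have h3 : ∀ i : Fin n, 1 + sg (y i) * sg (x i) = if y i = x i then (2 : ℝ) else 0 := by
      intro i
      cases y i <;> cases x i <;> simp [sg] <;> norm_num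
    simp only [h3]
    by_cases hxy : y = x
    · subst hxy
      simp
    · rw [if_neg hxy]
      have h4 : ∃ i, ¬ (y i = x i) := by
        by_contra hcon
        push Not at hcon
        exact hxy (funext hcon)
      obtain ⟨i, hi⟩ := h4
      exact Finset.prod_eq_zero (Finset.mem_univ i) (if_neg hi)
  have h2 : ∑ S, wc p S * ch S x =
      (∑ y : Fin n → Bool, p y * ∑ S, ch S y * ch S x) / 2 ^ n := by
    simp only [wc, avg, hcard]
    rw [Finset.sum_div]
    have h3 : ∀ S : Finset (Fin n), (∑ y : Fin n → Bool, p y * ch S y) / 2 ^ n * ch S x =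
        ∑ y : Fin n → Bool, p y * (ch S y * ch S x) / 2 ^ n := by
      intro S
      rw [Finset.sum_div, Finset.sum_mul]
      refine Finset.sum_congr rfl fun y _ => ?_
      ring
    simp only [h3]
    rw [Finset.sum_comm]
    refine Finset.sum_congr rfl fun y _ => ?_
    rw [Finset.mul_sum, Finset.sum_div]
  rw [h2]
  simp only [h1]
  have h4 : ∑ y : Fin n → Bool, p y * (if y = x then (2 : ℝ) ^ n else 0) = p x * 2 ^ n := by
    rw [Finset.sum_eq_single x]
    · rw [if_pos rfl]
    · intro y _ hy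
      rw [if_neg hy, mul_zero]
    · intro h
      exact absurd (Finset.mem_univ x) h
  rw [h4, mul_div_assoc, div_self (pow_ne_zero n (two_ne_zero)), mul_one]

theorem avg_sq_walsh (c : Finset (Fin n) → ℝ) :
    avg (fun x => (∑ S, c S * ch S x) ^ 2) = ∑ S, c S ^ 2 := by
  have h1 : (fun x : Fin n → Bool => (∑ S, c S * ch S x) ^ 2) =
      fun x => ∑ S, ∑ T, (c S * c T) * (ch S x * ch T x) := by
    funext x
    rw [sq, Finset.sum_mul_sum]
    refine Finset.sum_congr rfl fun S _ => Finset.sum_congr rfl fun T _ => ?_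
    ring
  rw [h1, avg_sum]
  refine Finset.sum_congr rfl fun S _ => ?_
  have h2 : avg (fun x : Fin n → Bool => ∑ T, (c S * c T) * (ch S x * ch T x)) =
      ∑ T, avg (fun x : Fin n → Bool => (c S * c T) * (ch S x * ch T x)) := avg_sum _ _
  refine h2.trans ?_
  have h3 : ∀ T, avg (fun x : Fin n → Bool => (c S * c T) * (ch S x * ch T x)) =
      if S = T then c S * c T else 0 := by
    intro T
    rw [avg_mul_left, ch_orth]
    by_cases hST : S = T
    · rw [if_pos hST, if_pos hST, mul_one]
    · rw [if_neg hST, if_neg hST, mul_zero]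
  simp only [h3]
  rw [Finset.sum_ite_eq, if_pos (Finset.mem_univ S), sq]

theorem avg_walsh (c : Finset (Fin n) → ℝ) : avg (fun x => ∑ S, c S * ch S x) = c ∅ := by
  have h0 : ∀ (S : Finset (Fin n)) (x : Fin n → Bool), ch S x = ch S x * ch ∅ x := by
    intro S x
    simp [ch]
  have h1 : avg (fun x : Fin n → Bool => ∑ S, c S * ch S x) =
      ∑ S, avg (fun x : Fin n → Bool => c S * ch S x) := avg_sum _ _
  rw [h1]
  have h2 : ∀ S, avg (fun x : Fin n → Bool => c S * ch S x) = if S = ∅ then c S else 0 := by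
    intro S
    rw [avg_mul_left]
    have h3 : (ch S : (Fin n → Bool) → ℝ) = fun x => ch S x * ch ∅ x := by
      funext x
      exact h0 S x
    rw [h3, ch_orth]
    by_cases hS : S = ∅
    · rw [if_pos hS, if_pos hS, mul_one]
    · rw [if_neg hS, if_neg hS, mul_zero]
  simp only [h2]
  rw [Finset.sum_ite_eq', if_pos (Finset.mem_univ _)]

end Pool.Agent.MP_ca1109_lc.Hyb
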