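import Pool.Agent.MP_ca1109_lc.Hyb.B5

/-!
# Influences and degrees in terms of Walsh coefficients
-/

namespace Pool.Agent.MP_ca1109_lc.Hyb

open Pool.Agent.MP_ca1109_lc.Mpg Finset

variable {n d : ℕ}

private theorem b5a_upd_not {S : Finset (Fin n)} {j : Fin n} (h : j ∉ S) (x : Fin n → Bool)
    (b : Bool) : ch S (Function.update x j b) = ch S x := by
  unfold ch
  refine Finset.prod_congr rfl fun i hi => ?_
  have : i ≠ j := fun h' => h (h' ▸ hi)
  rw [Function.update_of_ne this]

private theorem b5a_upd {S : Finset (Fin n)} {j : Fin n} (h : j ∈ S) (x : Fin n → Bool)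
    (b : Bool) : ch S (Function.update x j b) = sg b * ch (S.erase j) x := by
  unfold ch
  rw [← Finset.mul_prod_erase S _ h, Function.update_self]
  congr 1
  refine Finset.prod_congr rfl fun i hi => ?_
  rw [Function.update_of_ne (Finset.mem_erase.1 hi).1]

private theorem b5a_der (c : Finset (Fin n) → ℝ) (j : Fin n) (x : Fin n → Bool) :
    der j (fun x => ∑ S, c S * ch S x) x =
      ∑ T, (if j ∈ T then 0 else c (insert j T)) * ch T x := by
  unfold der
  rw [← Finset.sum_sub_distrib, Finset.sum_div]
  have h1 : ∀ S : Finset (Fin n), (c S * ch S (Function.update x j true) -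
      c S * ch S (Function.update x j false)) / 2 =
      if j ∈ S then c S * ch (S.erase j) x else 0 := by
    intro S
    by_cases h : j ∈ S
    · rw [if_pos h, b5a_upd h, b5a_upd h]
      simp only [sg]
      simp only [if_true]
      have : (if (false = true) then (1:ℝ) else -1) = -1 := by simp
      rw [this]
      ring
    · rw [if_neg h, b5a_upd_not h, b5a_upd_not h]
      ring
  rw [Finset.sum_congr rfl fun S _ => h1 S]
  rw [← Finset.sum_filter]
  have h2 : ∑ T : Finset (Fin n), (if j ∈ T then 0 else c (insert j T)) * ch T x =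
      ∑ T ∈ Finset.univ.filter (fun T : Finset (Fin n) => j ∉ T), c (insert j T) * ch T x := by
    rw [Finset.sum_filter]
    refine Finset.sum_congr rfl fun T _ => ?_
    by_cases h : j ∈ T
    · simp [h]
    · simp [h]
  rw [h2]
  refine Finset.sum_bij' (fun S _ => S.erase j) (fun T _ => insert j T) ?_ ?_ ?_ ?_ ?_
  · intro S hS
    simp
  · intro T hT
    simp
  · intro S hS
    exact Finset.insert_erase (Finset.mem_filter.1 hS).2
  · intro T hT
    exact Finset.erase_insert (Finset.mem_filter.1 hT).2
  · intro S hS
    rw [Finset.insert_erase (Finset.mem_filter.1 hS).2]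

theorem infl_walsh (c : Finset (Fin n) → ℝ) (j : Fin n) :
    infl j (fun x => ∑ S, c S * ch S x) = ∑ S, if j ∈ S then c S ^ 2 else 0 := by
  unfold infl
  have h1 : (fun x : Fin n → Bool => der j (fun x => ∑ S, c S * ch S x) x ^ 2) =
      fun x => (∑ T, (if j ∈ T then 0 else c (insert j T)) * ch T x) ^ 2 := by
    funext x
    rw [b5a_der]
  rw [h1, avg_sq_walsh]
  rw [← Finset.sum_filter]
  have h2 : ∑ T : Finset (Fin n), (if j ∈ T then 0 else c (insert j T)) ^ 2 =
      ∑ T ∈ Finset.univ.filter (fun T : Finset (Fin n) => j ∉ T), c (insert j T) ^ 2 := by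
    rw [Finset.sum_filter]
    refine Finset.sum_congr rfl fun T _ => ?_
    by_cases h : j ∈ T
    · simp [h]
    · simp [h]
  rw [h2]
  symm
  refine Finset.sum_bij' (fun S _ => S.erase j) (fun T _ => insert j T) ?_ ?_ ?_ ?_ ?_
  · intro S hS
    simp
  · intro T hT
    simp
  · intro S hS
    exact Finset.insert_erase (Finset.mem_filter.1 hS).2
  · intro T hT
    exact Finset.erase_insert (Finset.mem_filter.1 hT).2
  · intro S hS
    rw [Finset.insert_erase (Finset.mem_filter.1 hS).2]

private theorem b5a_flip (i : Fin n) (φ : (Fin n → Bool) → ℝ) :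
    avg (fun x => φ (Function.update x i (!x i))) = avg φ := by
  have hinv : Function.Involutive (fun x : Fin n → Bool => Function.update x i (!x i)) := by
    intro x
    funext l
    by_cases h : l = i
    · subst h; simp
    · simp [Function.update_of_ne h]
  exact avg_equiv hinv.toPerm φ

theorem wc_zero {p : (Fin n → Bool) → ℝ} (hp : p ∈ lowDeg (Fin n) Bool ℝ d) {S : Finset (Fin n)}
    (hS : d < S.card) : wc p S = 0 := by
  refine lowDeg_induction (p := fun p => wc p S = 0) hp ?_ ?_ ?_ ?_
  · intro g T hT hg
    obtain ⟨i, hiS, hiT⟩ : ∃ i ∈ S, i ∉ T := by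
      by_contra hcon
      push Not at hcon
      have := Finset.card_le_card (fun i hi => hcon i hi : S ⊆ T)
      omega
    have h1 : wc g S = - wc g S := by
      conv_lhs => unfold wc
      rw [← b5a_flip i]
      have h2 : (fun x : Fin n → Bool => g (Function.update x i (!x i)) *
          ch S (Function.update x i (!x i))) = fun x => (-1) * (g x * ch S x) := by
        funext x
        have e1 : g (Function.update x i (!x i)) = g x := by
          apply hg
          intro l hl
          have : l ≠ i := fun h => hiT (h ▸ hl)
          rw [Function.update_of_ne this]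
        have e2 : ch S x = sg (x i) * ch (S.erase i) x := by
          have := b5a_upd hiS x (x i)
          rwa [Function.update_eq_self] at this
        rw [e1, b5a_upd hiS, e2]
        have e3 : sg (!x i) = - sg (x i) := by
          cases x i <;> simp [sg]
        rw [e3]
        ring
      rw [h2, avg_mul_left]
      unfold wc
      ring
    linarith
  · unfold wc
    have : (fun x : Fin n → Bool => (0 : (Fin n → Bool) → ℝ) x * ch S x) = fun _ => (0:ℝ) := by
      funext x; simp
    rw [this]
    simp [avg]
  · intro f g hf hg
    unfold wc at hf hg ⊢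
    have : (fun x : Fin n → Bool => (f + g) x * ch S x) =
        fun x => f x * ch S x + g x * ch S x := by
      funext x; simp [add_mul]
    rw [this, avg_add, hf, hg, add_zero]
  · intro f hf
    unfold wc at hf ⊢
    have : (fun x : Fin n → Bool => (-f) x * ch S x) = fun x => (-1) * (f x * ch S x) := by
      funext x; simp
    rw [this, avg_mul_left, hf, mul_zero]

theorem walsh_mem {c : Finset (Fin n) → ℝ} (hc : ∀ S, d < S.card → c S = 0) :
    (fun x => ∑ S, c S * ch S x) ∈ lowDeg (Fin n) Bool ℝ d := by
  have h : (fun x : Fin n → Bool => ∑ S, c S * ch S x) = ∑ S, fun x => c S * ch S x := by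
    funext x
    rw [Finset.sum_apply]
  rw [h]
  refine AddSubgroup.sum_mem _ fun S _ => ?_
  by_cases hS : d < S.card
  · rw [hc S hS]
    simp only [zero_mul]
    exact lowDeg_const 0
  · refine junta_mem S (not_lt.1 hS) fun x y hxy => ?_
    have : ch S x = ch S y := by
      unfold ch
      exact Finset.prod_congr rfl fun i hi => by rw [hxy i hi]
    simp only [this]

end Pool.Agent.MP_ca1109_lc.Hyb
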