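import Pool.Agent.MP_ca1109_lc.Hyb.Defs

/-!
# A set of coordinates with many simple hits
-/

namespace Pool.Agent.MP_ca1109_lc.Hyb

open Pool.Agent.MP_ca1109_lc.Mpg Finset

/- PROOF NOTES [HYB-B5b].  `V` random, every coordinate independently with probability `θ`: `ber (Fin n) θ` (`isPM_ber`), expectations `rex (ber (Fin n) θ)`; `V` is the set of the `i` with `V i = true`.
 `one_hit`: for `S ≠ ∅`, `S.card ≤ D`: probability of `|S ∩ V| = 1` is at least the one of `S ∩ V = {i}` (some `i ∈ S`), which is `θ (1 - θ) ^ (S.card - 1) ≥ θ (1 - θ) ^ D ≥ θ (1 - D θ) ≥ θ / 2`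
 (product formula: `rex (∏ b, h b (V b)) = ∏ b, ∑ a, ..`: `Finset.prod_univ_sum`, see `rex_prod` in `Hyb/A2`; `one_add_mul_le_pow`).
 `two_hits`: `1[2 ≤ |S ∩ V|] ≤ ∑ i ∈ S, ∑ j ∈ S with i < j, 1[i, j ∈ V]`, expectation `≤ D (D - 1) / 2 θ ^ 2 ≤ D ^ 2 θ ^ 2 / 2`.
 With `L V = ∑ S with |S ∩ V| = 1, w S`, `R V = ∑ S with 2 ≤ |S ∩ V|, w S`: `rex (L - v / (2 D² θ) R) ≥ θ v / 2 - θ v / 4 = θ v / 4` (`∑ w S ≤ 1`), so some `V` has
 `L V - v / (2 D² θ) R V ≥ θ v / 4`; hence `L V ≥ θ v / 4` (`R ≥ 0`) and `R V ≤ 2 D² θ / v L V`. -/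

/-- the probability of `V`, every element with probability `θ` -/
noncomputable def b5b_mu {n : ℕ} (θ : ℝ) (V : Finset (Fin n)) : ℝ := ∏ b, if b ∈ V then θ else 1 - θ

theorem b5b_exp {n : ℕ} (θ : ℝ) (u v : Fin n → ℝ) :
    ∑ V : Finset (Fin n), b5b_mu θ V * (∏ b, if b ∈ V then u b else v b) = ∏ b, (θ * u b + (1 - θ) * v b) := by
  rw [Finset.prod_add (fun b => θ * u b) (fun b => (1 - θ) * v b) Finset.univ, Finset.powerset_univ]
  apply Finset.sum_congr rfl
  intro V _
  unfold b5b_mu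
  rw [← Finset.prod_mul_distrib]
  have h1 : (∏ b, ((if b ∈ V then θ else 1 - θ) * (if b ∈ V then u b else v b))) =
      ∏ b, V.piecewise (fun b => θ * u b) (fun b => (1 - θ) * v b) b := by
    apply Finset.prod_congr rfl
    intro b _
    unfold Finset.piecewise
    split_ifs <;> rfl
  rw [h1, Finset.prod_piecewise, Finset.univ_inter]

theorem b5b_one {n : ℕ} (θ : ℝ) : ∑ V : Finset (Fin n), b5b_mu θ V = 1 := by
  have h := b5b_exp (n := n) θ (fun _ => 1) (fun _ => 1)
  have h1 : ∀ V : Finset (Fin n), (∏ b : Fin n, if b ∈ V then (1 : ℝ) else 1) = 1 := by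
    intro V
    apply Finset.prod_eq_one
    intro b _
    split_ifs <;> rfl
  simp only [h1, mul_one] at h
  rw [h]
  apply Finset.prod_eq_one
  intro b _
  ring

theorem b5b_pos {n : ℕ} {θ : ℝ} (h0 : 0 < θ) (h1 : θ < 1) (V : Finset (Fin n)) : 0 < b5b_mu θ V := by
  unfold b5b_mu
  apply Finset.prod_pos
  intro b _
  split_ifs
  · exact h0
  · linarith

/-- one hit -/
theorem b5b_hit {n D : ℕ} {θ : ℝ} (h0 : 0 < θ) (hθD : 2 * D * θ ≤ 1) (S : Finset (Fin n)) (hS : S.Nonempty)
    (hSD : S.card ≤ D) (hD : 0 < D) :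
    θ / 2 ≤ ∑ V : Finset (Fin n), b5b_mu θ V * (if (S ∩ V).card = 1 then 1 else 0) := by
  have hD1 : (1 : ℝ) ≤ D := by exact_mod_cast hD
  have hθ1 : θ < 1 := by nlinarith
  obtain ⟨i, hi⟩ := hS
  have h2 := b5b_exp (n := n) θ (fun b => if b ∈ S.erase i then 0 else 1) (fun b => if b = i then 0 else 1)
  have h3 : ∀ V : Finset (Fin n), (∏ b : Fin n, if b ∈ V then (if b ∈ S.erase i then (0 : ℝ) else 1) else
      (if b = i then 0 else 1)) ≤ (if (S ∩ V).card = 1 then 1 else 0) := by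
    intro V
    have hle1 : (∏ b : Fin n, if b ∈ V then (if b ∈ S.erase i then (0 : ℝ) else 1) else
      (if b = i then 0 else 1)) ≤ 1 := by
      apply Finset.prod_le_one
      · intro b _
        split_ifs <;> norm_num
      · intro b _
        split_ifs <;> norm_num
    by_cases hc : (S ∩ V).card = 1
    · rw [if_pos hc]
      exact hle1
    · rw [if_neg hc]
      apply le_of_eq
      by_cases hiV : i ∈ V
      · have hne : ((S ∩ V).erase i).Nonempty := by
          rw [← Finset.card_pos, Finset.card_erase_of_mem (Finset.mem_inter.2 ⟨hi, hiV⟩)]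
          have : 0 < (S ∩ V).card := Finset.card_pos.2 ⟨i, Finset.mem_inter.2 ⟨hi, hiV⟩⟩
          omega
        obtain ⟨b, hb⟩ := hne
        rw [Finset.mem_erase, Finset.mem_inter] at hb
        apply Finset.prod_eq_zero (Finset.mem_univ b)
        rw [if_pos hb.2.2, if_pos (Finset.mem_erase.2 ⟨hb.1, hb.2.1⟩)]
      · apply Finset.prod_eq_zero (Finset.mem_univ i)
        rw [if_neg hiV, if_pos rfl]
  have h4 : ∏ b : Fin n, (θ * (if b ∈ S.erase i then (0 : ℝ) else 1) + (1 - θ) * (if b = i then 0 else 1)) =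
      θ * (1 - θ) ^ (S.card - 1) := by
    have h5 : ∀ b : Fin n, (θ * (if b ∈ S.erase i then (0 : ℝ) else 1) + (1 - θ) * (if b = i then 0 else 1)) =
        (if b = i then θ else 1) * (if b ∈ S.erase i then (1 - θ) else 1) := by
      intro b
      by_cases hbi : b = i
      · subst hbi
        rw [if_neg (Finset.notMem_erase b S), if_pos rfl, if_pos rfl, if_neg (Finset.notMem_erase b S)]
        ring
      · rw [if_neg hbi, if_neg hbi]
        split_ifs <;> ring
    rw [Finset.prod_congr rfl (fun b _ => h5 b), Finset.prod_mul_distrib, Finset.prod_ite_eq', if_pos (Finset.mem_univ i),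
      Finset.prod_ite_mem, Finset.univ_inter, Finset.prod_const, Finset.card_erase_of_mem hi]
  rw [h4] at h2
  have h6 : (1 : ℝ) / 2 ≤ (1 - θ) ^ (S.card - 1) := by
    have h7 := one_add_mul_le_pow (a := -θ) (by linarith) (S.card - 1)
    have h8 : ((S.card - 1 : ℕ) : ℝ) ≤ D := by exact_mod_cast (by omega : S.card - 1 ≤ D)
    have h9 : ((S.card - 1 : ℕ) : ℝ) * θ ≤ D * θ := mul_le_mul_of_nonneg_right h8 h0.le
    rw [← sub_eq_add_neg] at h7
    linarith
  calc θ / 2 = θ * (1 / 2) := by ring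
    _ ≤ θ * (1 - θ) ^ (S.card - 1) := mul_le_mul_of_nonneg_left h6 h0.le
    _ = ∑ V : Finset (Fin n), b5b_mu θ V * (∏ b : Fin n, if b ∈ V then (if b ∈ S.erase i then (0 : ℝ) else 1) else
      (if b = i then 0 else 1)) := h2.symm
    _ ≤ _ := by
      apply Finset.sum_le_sum
      intro V _
      exact mul_le_mul_of_nonneg_left (h3 V) (b5b_pos h0 hθ1 V).le

/-- two hits -/
theorem b5b_two {n D : ℕ} {θ : ℝ} (h0 : 0 < θ) (hθ1 : θ < 1) (S : Finset (Fin n)) (hSD : S.card ≤ D) :
    ∑ V : Finset (Fin n), b5b_mu θ V * (if 2 ≤ (S ∩ V).card then 1 else 0) ≤ D ^ 2 * θ ^ 2 / 2 := by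
  have h1 : ∀ V : Finset (Fin n), (if 2 ≤ (S ∩ V).card then (1 : ℝ) else 0) ≤
      (1 / 2) * ∑ x ∈ S.offDiag, (∏ b : Fin n, if b ∈ V then (1 : ℝ) else (if b = x.1 ∨ b = x.2 then 0 else 1)) := by
    intro V
    have h2 : ∀ x : Fin n × Fin n, (∏ b : Fin n, if b ∈ V then (1 : ℝ) else (if b = x.1 ∨ b = x.2 then 0 else 1)) =
        if x.1 ∈ V ∧ x.2 ∈ V then 1 else 0 := by
      intro x
      by_cases hx : x.1 ∈ V ∧ x.2 ∈ V
      · rw [if_pos hx]
        apply Finset.prod_eq_one
        intro b _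
        by_cases hb : b ∈ V
        · rw [if_pos hb]
        · rw [if_neg hb, if_neg]
          rintro (h | h)
          · exact hb (h ▸ hx.1)
          · exact hb (h ▸ hx.2)
      · rw [if_neg hx]
        rw [not_and_or] at hx
        rcases hx with hx | hx
        · apply Finset.prod_eq_zero (Finset.mem_univ x.1)
          rw [if_neg hx, if_pos (Or.inl rfl)]
        · apply Finset.prod_eq_zero (Finset.mem_univ x.2)
          rw [if_neg hx, if_pos (Or.inr rfl)]
    have h3 : ∑ x ∈ S.offDiag, (∏ b : Fin n, if b ∈ V then (1 : ℝ) else (if b = x.1 ∨ b = x.2 then 0 else 1)) =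
        ((S ∩ V).offDiag.card : ℝ) := by
      rw [Finset.sum_congr rfl (fun x _ => h2 x), ← Finset.sum_filter, Finset.sum_const, nsmul_eq_mul, mul_one]
      congr 2
      ext x
      rw [Finset.mem_filter, Finset.mem_offDiag, Finset.mem_offDiag, Finset.mem_inter, Finset.mem_inter]
      tauto
    rw [h3, Finset.offDiag_card]
    split_ifs with hc
    · have h4 : 2 ≤ (S ∩ V).card * (S ∩ V).card - (S ∩ V).card := by
        have h5 : 2 * (S ∩ V).card ≤ (S ∩ V).card * (S ∩ V).card := Nat.mul_le_mul_right _ hc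
        omega
      have h5 : (2 : ℝ) ≤ (((S ∩ V).card * (S ∩ V).card - (S ∩ V).card : ℕ) : ℝ) := by exact_mod_cast h4
      linarith
    · positivity
  have h2 : ∀ x ∈ S.offDiag, ∑ V : Finset (Fin n), b5b_mu θ V *
      (∏ b : Fin n, if b ∈ V then (1 : ℝ) else (if b = x.1 ∨ b = x.2 then 0 else 1)) = θ ^ 2 := by
    intro x hx
    rw [Finset.mem_offDiag] at hx
    rw [b5b_exp θ (fun _ => 1) (fun b => if b = x.1 ∨ b = x.2 then 0 else 1)]
    have h5 : ∀ b : Fin n, (θ * 1 + (1 - θ) * (if b = x.1 ∨ b = x.2 then (0 : ℝ) else 1)) =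
        (if b = x.1 then θ else 1) * (if b = x.2 then θ else 1) := by
      intro b
      by_cases hb1 : b = x.1
      · have hb2 : ¬ b = x.2 := fun h => hx.2.2 (hb1.symm.trans h)
        rw [if_pos (Or.inl hb1), if_pos hb1, if_neg hb2]
        ring
      · by_cases hb2 : b = x.2
        · rw [if_pos (Or.inr hb2), if_neg hb1, if_pos hb2]
          ring
        · rw [if_neg (not_or.2 ⟨hb1, hb2⟩), if_neg hb1, if_neg hb2]
          ring
    rw [Finset.prod_congr rfl (fun b _ => h5 b), Finset.prod_mul_distrib, Finset.prod_ite_eq', Finset.prod_ite_eq',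
      if_pos (Finset.mem_univ _), if_pos (Finset.mem_univ _)]
    ring
  calc ∑ V : Finset (Fin n), b5b_mu θ V * (if 2 ≤ (S ∩ V).card then 1 else 0) ≤
        ∑ V : Finset (Fin n), b5b_mu θ V * ((1 / 2) * ∑ x ∈ S.offDiag,
          (∏ b : Fin n, if b ∈ V then (1 : ℝ) else (if b = x.1 ∨ b = x.2 then 0 else 1))) := by
        apply Finset.sum_le_sum
        intro V _
        exact mul_le_mul_of_nonneg_left (h1 V) (b5b_pos h0 hθ1 V).le
    _ = (1 / 2) * ∑ x ∈ S.offDiag, ∑ V : Finset (Fin n), b5b_mu θ V *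
          (∏ b : Fin n, if b ∈ V then (1 : ℝ) else (if b = x.1 ∨ b = x.2 then 0 else 1)) := by
        rw [Finset.sum_comm, Finset.mul_sum]
        apply Finset.sum_congr rfl
        intro V _
        rw [Finset.mul_sum, Finset.mul_sum, Finset.mul_sum]
        apply Finset.sum_congr rfl
        intro x _
        ring
    _ = (1 / 2) * ((S.offDiag.card : ℝ) * θ ^ 2) := by
        rw [Finset.sum_congr rfl h2, Finset.sum_const, nsmul_eq_mul]
    _ ≤ (1 / 2) * ((D : ℝ) ^ 2 * θ ^ 2) := by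
        have h6 : (S.offDiag.card : ℝ) ≤ (D : ℝ) ^ 2 := by
          rw [Finset.offDiag_card]
          have h7 : S.card * S.card - S.card ≤ D ^ 2 := by
            calc S.card * S.card - S.card ≤ S.card * S.card := Nat.sub_le _ _
              _ ≤ D * D := Nat.mul_le_mul hSD hSD
              _ = D ^ 2 := by ring
          exact_mod_cast h7
        have h7 : (S.offDiag.card : ℝ) * θ ^ 2 ≤ (D : ℝ) ^ 2 * θ ^ 2 := mul_le_mul_of_nonneg_right h6 (by positivity)
        linarith
    _ = D ^ 2 * θ ^ 2 / 2 := by ring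

theorem good_set {n D : ℕ} (hD : 0 < D) {θ v : ℝ} (hθ : 0 < θ) (hθD : 2 * D * θ ≤ 1) (hv : 0 < v)
    (w : Finset (Fin n) → ℝ) (h0 : ∀ S, 0 ≤ w S) (hw : ∀ S, D < S.card → w S = 0)
    (h1 : ∑ S, w S ≤ 1) (hwv : v ≤ ∑ S, if S = ∅ then 0 else w S) :
    ∃ V : Finset (Fin n),
      θ * v / 4 ≤ ∑ S, (if (S ∩ V).card = 1 then w S else 0) ∧
      ∑ S, (if 2 ≤ (S ∩ V).card then w S else 0) ≤
        2 * D ^ 2 * θ / v * ∑ S, (if (S ∩ V).card = 1 then w S else 0) := by
  have hD1 : (1 : ℝ) ≤ D := by exact_mod_cast hD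
  have hθ1 : θ < 1 := by nlinarith
  set c : ℝ := v / (2 * D ^ 2 * θ) with hc
  have hc0 : 0 < c := by positivity
  set L : Finset (Fin n) → ℝ := fun V => ∑ S, (if (S ∩ V).card = 1 then w S else 0) with hL
  set R : Finset (Fin n) → ℝ := fun V => ∑ S, (if 2 ≤ (S ∩ V).card then w S else 0) with hR
  have hL' : ∑ V : Finset (Fin n), b5b_mu θ V * L V =
      ∑ S, w S * ∑ V : Finset (Fin n), b5b_mu θ V * (if (S ∩ V).card = 1 then 1 else 0) := by
    simp only [hL, Finset.mul_sum]
    rw [Finset.sum_comm]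
    apply Finset.sum_congr rfl
    intro S _
    apply Finset.sum_congr rfl
    intro V _
    split_ifs <;> ring
  have hR' : ∑ V : Finset (Fin n), b5b_mu θ V * R V =
      ∑ S, w S * ∑ V : Finset (Fin n), b5b_mu θ V * (if 2 ≤ (S ∩ V).card then 1 else 0) := by
    simp only [hR, Finset.mul_sum]
    rw [Finset.sum_comm]
    apply Finset.sum_congr rfl
    intro S _
    apply Finset.sum_congr rfl
    intro V _
    split_ifs <;> ring
  have hLge : θ * v / 2 ≤ ∑ V : Finset (Fin n), b5b_mu θ V * L V := by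
    rw [hL']
    calc θ * v / 2 = θ / 2 * v := by ring
      _ ≤ θ / 2 * ∑ S, (if S = ∅ then 0 else w S) := mul_le_mul_of_nonneg_left hwv (by positivity)
      _ = ∑ S, (if S = ∅ then 0 else w S) * (θ / 2) := by rw [Finset.mul_sum]; exact Finset.sum_congr rfl (fun S _ => by ring)
      _ ≤ _ := by
        apply Finset.sum_le_sum
        intro S _
        have hnn : 0 ≤ ∑ V : Finset (Fin n), b5b_mu θ V * (if (S ∩ V).card = 1 then (1 : ℝ) else 0) := by
          apply Finset.sum_nonneg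
          intro V _
          apply mul_nonneg (b5b_pos hθ hθ1 V).le
          split_ifs <;> norm_num
        by_cases hS : S = ∅
        · rw [if_pos hS, zero_mul]
          exact mul_nonneg (h0 S) hnn
        · rw [if_neg hS]
          by_cases hSD : S.card ≤ D
          · exact mul_le_mul_of_nonneg_left
              (b5b_hit hθ hθD S (Finset.nonempty_iff_ne_empty.2 hS) hSD hD) (h0 S)
          · rw [hw S (not_le.1 hSD), zero_mul, zero_mul]
  have hRle : ∑ V : Finset (Fin n), b5b_mu θ V * R V ≤ D ^ 2 * θ ^ 2 / 2 := by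
    rw [hR']
    calc ∑ S, w S * ∑ V : Finset (Fin n), b5b_mu θ V * (if 2 ≤ (S ∩ V).card then 1 else 0) ≤
          ∑ S, w S * (D ^ 2 * θ ^ 2 / 2) := by
          apply Finset.sum_le_sum
          intro S _
          by_cases hSD : S.card ≤ D
          · exact mul_le_mul_of_nonneg_left (b5b_two hθ hθ1 S hSD) (h0 S)
          · rw [hw S (not_le.1 hSD), zero_mul, zero_mul]
      _ = (∑ S, w S) * (D ^ 2 * θ ^ 2 / 2) := by rw [Finset.sum_mul]
      _ ≤ 1 * (D ^ 2 * θ ^ 2 / 2) := mul_le_mul_of_nonneg_right h1 (by positivity)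
      _ = _ := one_mul _
  have hsum : ∑ V : Finset (Fin n), b5b_mu θ V * (θ * v / 4) ≤ ∑ V : Finset (Fin n), b5b_mu θ V * (L V - c * R V) := by
    have e1 : ∑ V : Finset (Fin n), b5b_mu θ V * (θ * v / 4) = θ * v / 4 := by
      rw [← Finset.sum_mul, b5b_one, one_mul]
    have e2 : ∑ V : Finset (Fin n), b5b_mu θ V * (L V - c * R V) =
        ∑ V : Finset (Fin n), b5b_mu θ V * L V - c * ∑ V : Finset (Fin n), b5b_mu θ V * R V := by
      rw [Finset.mul_sum, ← Finset.sum_sub_distrib]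
      apply Finset.sum_congr rfl
      intro V _
      ring
    have e3 : c * (D ^ 2 * θ ^ 2 / 2) = θ * v / 4 := by
      rw [hc]
      field_simp
      ring
    have e4 : c * ∑ V : Finset (Fin n), b5b_mu θ V * R V ≤ θ * v / 4 := by
      rw [← e3]
      exact mul_le_mul_of_nonneg_left hRle hc0.le
    rw [e1, e2]
    linarith
  obtain ⟨V, -, hV⟩ := Finset.exists_le_of_sum_le Finset.univ_nonempty hsum
  have hV' : θ * v / 4 ≤ L V - c * R V := le_of_mul_le_mul_left hV (b5b_pos hθ hθ1 V)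
  have hRnn : 0 ≤ R V := by
    apply Finset.sum_nonneg
    intro S _
    split_ifs
    · exact h0 S
    · exact le_rfl
  have hcR : 0 ≤ c * R V := mul_nonneg hc0.le hRnn
  refine ⟨V, ?_, ?_⟩
  · show θ * v / 4 ≤ L V
    linarith
  · show R V ≤ 2 * D ^ 2 * θ / v * L V
    have hθv : 0 ≤ θ * v / 4 := by positivity
    have e5 : c * R V ≤ L V := by linarith
    have e6 : 2 * D ^ 2 * θ / v * (c * R V) = R V := by
      rw [hc]
      field_simp
    rw [← e6]
    exact mul_le_mul_of_nonneg_left e5 (by positivity)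

end Pool.Agent.MP_ca1109_lc.Hyb
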