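import Pool.Agent.MP_ca1109_lc.Hyb.B5a
import Pool.Agent.MP_ca1109_lc.Hyb.B5b
import Pool.Agent.MP_ca1109_lc.Hyb.B2

/-!
# Almost linear parts of polynomials
-/

namespace Pool.Agent.MP_ca1109_lc.Hyb

open Pool.Agent.MP_ca1109_lc.Mpg Finset

/- PROOF NOTES [HYB-B5c].  `w S = wc p S ^ 2` (zero for `d + 1 < S.card`, `wc_zero`; `∑ w = avg p²` by `walsh_expand` and `avg_sq_walsh`; `wc p ∅ = avg p`); `good_set` with `D = d + 1` gives `V`.
`p0 = ∑ S with S ∩ V = ∅`, `r = ∑ S with 2 ≤ |S ∩ V|`, `c i = ∑ S with S ∩ V = {i}, wc p S * ch (S.erase i)` (all as `∑ S, coefficient * ch S` with suitable coefficients, e.g. for `c i`: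
`T ↦ if T ∩ V = ∅ ∧ i ∈ V then wc p (insert i T) else 0` for `i ∈ V`, so that `c i ∈ lowDeg d` and `Indep V (c i)`).
`∑ i ∈ V, sg (x i) * c i x = ∑ S with |S ∩ V| = 1, wc p S * ch S x`.  `∑ i ∈ V, avg (c i ²) = ∑ S with |S ∩ V| = 1, w S`, `avg r² = ∑ S with 2 ≤ |S ∩ V|, w S`,
`avg (c i ²) ≤ ∑ S ∋ i, w S = infl i p`, `infl j ℓ = ∑ S ∋ j with |S ∩ V| = 1, w S ≤ infl j p` (`infl_walsh`, `avg_sq_walsh`). -/

theorem b5c_single {n : ℕ} {V S : Finset (Fin n)} (a : ℝ) :
    ∑ i ∈ V, (if S ∩ V = {i} then a else 0) = if (S ∩ V).card = 1 then a else 0 := by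
  classical
  by_cases h : (S ∩ V).card = 1
  · obtain ⟨k, hk⟩ := Finset.card_eq_one.1 h
    have hkV : k ∈ V := by
      have : k ∈ S ∩ V := by rw [hk]; exact Finset.mem_singleton_self k
      exact (Finset.mem_inter.1 this).2
    rw [if_pos h, Finset.sum_eq_single_of_mem k hkV]
    · rw [if_pos hk]
    · intro b _ hb
      rw [if_neg]
      intro h2
      rw [hk] at h2
      exact hb (Finset.singleton_injective h2).symm
  · rw [if_neg h]
    refine Finset.sum_eq_zero fun b _ => ?_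
    rw [if_neg]
    intro h2
    exact h (by rw [h2, Finset.card_singleton])

theorem b5c_insert {n : ℕ} {V : Finset (Fin n)} {i : Fin n} (hi : i ∈ V)
    (F : Finset (Fin n) → ℝ) :
    ∑ T : Finset (Fin n), (if T ∩ V = ∅ ∧ i ∈ V then F (insert i T) else 0) =
      ∑ S : Finset (Fin n), if S ∩ V = {i} then F S else 0 := by
  classical
  rw [← Finset.sum_filter, ← Finset.sum_filter]
  refine Finset.sum_bij' (fun T _ => insert i T) (fun S _ => S.erase i) ?_ ?_ ?_ ?_ ?_
  · intro T hT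
    rw [Finset.mem_filter] at hT ⊢
    refine ⟨Finset.mem_univ _, ?_⟩
    rw [Finset.insert_inter_of_mem hi, hT.2.1]
    rfl
  · intro S hS
    rw [Finset.mem_filter] at hS ⊢
    refine ⟨Finset.mem_univ _, ?_, hi⟩
    rw [Finset.erase_inter, hS.2]
    simp
  · intro T hT
    rw [Finset.mem_filter] at hT
    have : i ∉ T := by
      intro h
      have h2 : i ∈ T ∩ V := Finset.mem_inter.2 ⟨h, hi⟩
      rw [hT.2.1] at h2
      exact absurd h2 (Finset.notMem_empty i)
    exact Finset.erase_insert this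
  · intro S hS
    rw [Finset.mem_filter] at hS
    have : i ∈ S ∩ V := by rw [hS.2]; exact Finset.mem_singleton_self i
    exact Finset.insert_erase (Finset.mem_inter.1 this).1
  · intro T _
    rfl

theorem b5c_ch {n : ℕ} {V S : Finset (Fin n)} (h : S ∩ V = ∅) {x y : Fin n → Bool}
    (hxy : ∀ i, i ∉ V → x i = y i) : ch S x = ch S y := by
  unfold ch
  refine Finset.prod_congr rfl fun i hi => ?_
  rw [hxy i]
  intro hV
  have h2 : i ∈ S ∩ V := Finset.mem_inter.2 ⟨hi, hV⟩
  rw [h] at h2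
  exact absurd h2 (Finset.notMem_empty i)

theorem b5c_sum {n : ℕ} (V : Finset (Fin n)) (a : Finset (Fin n) → ℝ) (x : Fin n → Bool) :
    ∑ i ∈ V, sg (x i) * (∑ T : Finset (Fin n),
      (if T ∩ V = ∅ ∧ i ∈ V then a (insert i T) else 0) * ch T x) =
      ∑ S : Finset (Fin n), (if (S ∩ V).card = 1 then a S else 0) * ch S x := by
  classical
  have h1 : ∀ i ∈ V, sg (x i) * (∑ T : Finset (Fin n),
      (if T ∩ V = ∅ ∧ i ∈ V then a (insert i T) else 0) * ch T x) =
      ∑ S : Finset (Fin n), if S ∩ V = {i} then a S * ch S x else 0 := by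
    intro i hi
    rw [← b5c_insert hi (fun S => a S * ch S x), Finset.mul_sum]
    refine Finset.sum_congr rfl fun T _ => ?_
    by_cases hT : T ∩ V = ∅ ∧ i ∈ V
    · rw [if_pos hT, if_pos hT]
      have hiT : i ∉ T := by
        intro h
        have h2 : i ∈ T ∩ V := Finset.mem_inter.2 ⟨h, hi⟩
        rw [hT.1] at h2
        exact absurd h2 (Finset.notMem_empty i)
      have h3 : ch (insert i T) x = sg (x i) * ch T x := by
        unfold ch
        rw [Finset.prod_insert hiT]
      rw [h3]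
      ring
    · rw [if_neg hT, if_neg hT]
      ring
  rw [Finset.sum_congr rfl h1, Finset.sum_comm]
  refine Finset.sum_congr rfl fun S _ => ?_
  rw [b5c_single]
  by_cases h : (S ∩ V).card = 1
  · rw [if_pos h, if_pos h]
  · rw [if_neg h, if_neg h, zero_mul]

theorem split (d : ℕ) {v θ : ℝ} (hv : 0 < v) (hθ : 0 < θ) (hθd : 2 * ((d : ℝ) + 1) * θ ≤ 1) {n : ℕ}
    {p : (Fin n → Bool) → ℝ} (hp : p ∈ lowDeg (Fin n) Bool ℝ (d + 1))
    (h1 : avg (fun x => p x ^ 2) ≤ 1) (hvar : v ≤ avg (fun x => p x ^ 2) - avg p ^ 2) :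
    ∃ (V : Finset (Fin n)) (p0 r : (Fin n → Bool) → ℝ) (c : Fin n → (Fin n → Bool) → ℝ),
      (∀ x, p x = p0 x + ∑ i ∈ V, sg (x i) * c i x + r x) ∧ Indep V p0 ∧ (∀ i, Indep V (c i)) ∧
      (∀ i, c i ∈ lowDeg (Fin n) Bool ℝ d) ∧ (∀ i, avg (fun x => c i x ^ 2) ≤ infl i p) ∧
      (∀ j, infl j (fun x => ∑ i ∈ V, sg (x i) * c i x) ≤ infl j p) ∧
      θ * v / 4 ≤ ∑ i ∈ V, avg (fun x => c i x ^ 2) ∧
      avg (fun x => r x ^ 2) ≤
        2 * ((d : ℝ) + 1) ^ 2 * θ / v * ∑ i ∈ V, avg (fun x => c i x ^ 2) := by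
  classical
  have hpe : p = fun x => ∑ S, wc p S * ch S x := funext (walsh_expand p)
  have hsq : avg (fun x => p x ^ 2) = ∑ S, wc p S ^ 2 := by
    conv_lhs => rw [hpe]
    exact avg_sq_walsh _
  have havg : avg p = wc p ∅ := by
    conv_lhs => rw [hpe]
    exact avg_walsh _
  have hinf : ∀ j, infl j p = ∑ S, if j ∈ S then wc p S ^ 2 else 0 := by
    intro j
    conv_lhs => rw [hpe]
    exact infl_walsh _ j
  obtain ⟨V, hV1, hV2⟩ := good_set (n := n) (D := d + 1) (θ := θ) (v := v) (Nat.succ_pos d) hθ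
    (by push_cast; exact hθd) hv (fun S => wc p S ^ 2) (fun S => sq_nonneg _)
    (fun S hS => by
      rw [wc_zero hp hS]; ring)
    (by rw [← hsq]; exact h1)
    (by
      have e1 : ∑ S : Finset (Fin n), (if S = ∅ then 0 else wc p S ^ 2) =
          ∑ S : Finset (Fin n), (wc p S ^ 2 - if S = ∅ then wc p S ^ 2 else 0) := by
        refine Finset.sum_congr rfl fun S _ => ?_
        by_cases h : S = ∅
        · rw [if_pos h, if_pos h]; ring
        · rw [if_neg h, if_neg h]; ring
      rw [e1, Finset.sum_sub_distrib, Finset.sum_ite_eq' Finset.univ ∅, if_pos (Finset.mem_univ _),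
        ← hsq, ← havg]
      exact hvar)
  have hc2 : ∀ i ∈ V, avg (fun x => (∑ T : Finset (Fin n),
      (if T ∩ V = ∅ ∧ i ∈ V then wc p (insert i T) else 0) * ch T x) ^ 2) =
      ∑ S : Finset (Fin n), if S ∩ V = {i} then wc p S ^ 2 else 0 := by
    intro i hi
    rw [avg_sq_walsh, ← b5c_insert hi (fun S => wc p S ^ 2)]
    refine Finset.sum_congr rfl fun T _ => ?_
    by_cases hT : T ∩ V = ∅ ∧ i ∈ V
    · rw [if_pos hT, if_pos hT]
    · rw [if_neg hT, if_neg hT]; ring
  have hcs : ∑ i ∈ V, avg (fun x => (∑ T : Finset (Fin n),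
      (if T ∩ V = ∅ ∧ i ∈ V then wc p (insert i T) else 0) * ch T x) ^ 2) =
      ∑ S : Finset (Fin n), if (S ∩ V).card = 1 then wc p S ^ 2 else 0 := by
    rw [Finset.sum_congr rfl hc2, Finset.sum_comm]
    exact Finset.sum_congr rfl fun S _ => b5c_single _
  refine ⟨V, fun x => ∑ S : Finset (Fin n), (if S ∩ V = ∅ then wc p S else 0) * ch S x,
    fun x => ∑ S : Finset (Fin n), (if 2 ≤ (S ∩ V).card then wc p S else 0) * ch S x,
    fun i x => ∑ T : Finset (Fin n),
      (if T ∩ V = ∅ ∧ i ∈ V then wc p (insert i T) else 0) * ch T x, ?_, ?_, ?_, ?_, ?_, ?_, ?_, ?_⟩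
  · intro x
    rw [b5c_sum V (wc p) x, ← Finset.sum_add_distrib, ← Finset.sum_add_distrib]
    rw [walsh_expand p x]
    refine Finset.sum_congr rfl fun S _ => ?_
    by_cases h0 : S ∩ V = ∅
    · have e0 : (S ∩ V).card = 0 := by rw [h0, Finset.card_empty]
      rw [if_pos h0, if_neg (by omega), if_neg (by omega)]
      ring
    · have e0 : (S ∩ V).card ≠ 0 := fun h => h0 (Finset.card_eq_zero.1 h)
      by_cases h1' : (S ∩ V).card = 1
      · rw [if_neg h0, if_pos h1', if_neg (by omega)]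
        ring
      · rw [if_neg h0, if_neg h1', if_pos (by omega)]
        ring
  · intro x y hxy
    refine Finset.sum_congr rfl fun S _ => ?_
    by_cases h0 : S ∩ V = ∅
    · rw [b5c_ch h0 hxy]
    · rw [if_neg h0, zero_mul, zero_mul]
  · intro i x y hxy
    refine Finset.sum_congr rfl fun S _ => ?_
    by_cases h0 : S ∩ V = ∅ ∧ i ∈ V
    · rw [b5c_ch h0.1 hxy]
    · rw [if_neg h0, zero_mul, zero_mul]
  · intro i
    refine walsh_mem fun T hT => ?_
    by_cases h0 : T ∩ V = ∅ ∧ i ∈ V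
    · rw [if_pos h0]
      have hiT : i ∉ T := by
        intro h
        have h2 : i ∈ T ∩ V := Finset.mem_inter.2 ⟨h, h0.2⟩
        rw [h0.1] at h2
        exact absurd h2 (Finset.notMem_empty i)
      exact wc_zero hp (by rw [Finset.card_insert_of_notMem hiT]; omega)
    · rw [if_neg h0]
  · intro i
    by_cases hi : i ∈ V
    · rw [hc2 i hi, hinf i]
      refine Finset.sum_le_sum fun S _ => ?_
      by_cases hS : S ∩ V = {i}
      · have hiS : i ∈ S := by
          have : i ∈ S ∩ V := by rw [hS]; exact Finset.mem_singleton_self i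
          exact (Finset.mem_inter.1 this).1
        rw [if_pos hS, if_pos hiS]
      · rw [if_neg hS]
        split_ifs
        · exact sq_nonneg _
        · exact le_rfl
    · have e1 : (fun x : Fin n → Bool => (∑ T : Finset (Fin n),
          (if T ∩ V = ∅ ∧ i ∈ V then wc p (insert i T) else 0) * ch T x) ^ 2) = fun _ => 0 := by
        funext x
        rw [Finset.sum_eq_zero]
        · ring
        · intro T _
          rw [if_neg (fun h => hi h.2), zero_mul]
      rw [e1, avg_const]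
      exact avg_nonneg fun x => sq_nonneg _
  · intro j
    have e1 : (fun x : Fin n → Bool => ∑ i ∈ V, sg (x i) * (∑ T : Finset (Fin n),
        (if T ∩ V = ∅ ∧ i ∈ V then wc p (insert i T) else 0) * ch T x)) =
        fun x => ∑ S : Finset (Fin n), (if (S ∩ V).card = 1 then wc p S else 0) * ch S x :=
      funext fun x => b5c_sum V (wc p) x
    rw [e1, infl_walsh, hinf j]
    refine Finset.sum_le_sum fun S _ => ?_
    by_cases hS : j ∈ S
    · rw [if_pos hS, if_pos hS]
      split_ifs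
      · exact le_rfl
      · have := sq_nonneg (wc p S)
        simpa using this
    · rw [if_neg hS, if_neg hS]
  · rw [hcs]
    exact hV1
  · rw [hcs, avg_sq_walsh]
    have e1 : ∑ S : Finset (Fin n), (if 2 ≤ (S ∩ V).card then wc p S else 0) ^ 2 =
        ∑ S : Finset (Fin n), (if 2 ≤ (S ∩ V).card then wc p S ^ 2 else 0) := by
      refine Finset.sum_congr rfl fun S _ => ?_
      split_ifs
      · rfl
      · ring
    rw [e1]
    push_cast at hV2
    exact hV2

end Pool.Agent.MP_ca1109_lc.Hyb
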