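import Pool.Agent.MP_ca1109_lc.Hyb.B0
import Pool.Agent.MP_ca1109_lc.Hyb.B1b
import Pool.Agent.MP_ca1109_lc.Hyb.B2a

/-!
# Small values of sums of squares
-/

namespace Pool.Agent.MP_ca1109_lc.Hyb

open Pool.Agent.MP_ca1109_lc.Mpg Finset

/- PROOF NOTES [HYB-B6].  `ℓ x = ∑ i ∈ V, sg (x i) * c i x`, `L2 = ∑ i ∈ V, avg (c i ²)`, `G x = ∑ i ∈ V, c i x ^ 2`, `c₀ = 1 / (4 · 9 ^ (d + 1))`.
`sign_sq`: for `c` with `Indep V`: for fixed `x` the average over `ξ` of `(∑ i ∈ V, sg (ξ i) * c i x) ^ 2` is `G x` (`avg_ξ sg (ξ i) sg (ξ j) = if i = j then 1 else 0`).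
`avg ℓ² = L2`, because `avg ℓ² = avg_ξ avg_x (fx V ξ ℓ)²` (`avg_fx`) and `fx V ξ ℓ x = ∑ i ∈ V, sg (ξ i) * c i x =: ℓ_ξ x` (`Indep V (c i)`), exchange the averages.
`ℓ ∈ lowDeg (d + 1)` (product of a function of one bit and of `c i`: `lowDeg_mul`), `ℓ_ξ ∈ lowDeg d` (`smul_mem`, sums).
Good `ξ`: (1) `N ξ := avg (ℓ_ξ ²) ≥ L2 / 2`: probability `≥ c₀` by `pz` (`avg N = L2`, `avg N² ≤ 9 ^ (d+1) L2²` by `sq_fx`).
 (2) `∑ j, infl j ℓ_ξ ^ 2 ≤ (τ₁ L2 / 2) ^ 2`, where `(s₁, τ₁)` comes from `hAC` for the error `ε₁ = ε c₀ / 4`: the average over `ξ` is `≤ 9 ^ (d+1) ∑ j, (infl j ℓ)² ≤ 9 ^ (d+1) τ L2 (d + 1) L2`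
 (`infl_fx_sq`, the hypothesis `infl j ℓ ≤ τ L2`, `sum_infl_le`); Markov: probability of failure `≤ c₀ / 2` if `τ = c₀ τ₁² / (8 · 9 ^ (d+1) (d + 1))`.
 So `pr (ξ good) ≥ c₀ / 2`, and for good `ξ` the function `q = ℓ_ξ / √(N ξ)` satisfies `avg q² = 1`, `infl j q ≤ (τ₁ L2 / 2) / (L2 / 2) = τ₁`: by `hAC` `pr_x (|q x| ≤ s₁) ≤ ε₁`.
For `x` with `G x < g² L2`: by `sign_sq` and Markov `pr_ξ (ℓ_ξ x ² ≥ (4 / c₀) G x) ≤ c₀ / 4` (if `G x = 0` then `ℓ_ξ x = 0`), so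
 `pr_ξ (ξ good ∧ ℓ_ξ x ² ≤ (4 / c₀) g² L2) ≥ c₀ / 4`.  Hence `(c₀ / 4) pr_x (G x < g² L2) ≤ avg_x pr_ξ (..) = avg_ξ pr_x (..) ≤ sup_{ξ good} pr_x (ℓ_ξ x ² ≤ (4 / c₀) g² L2) ≤ ε₁`
 if `(4 / c₀) g² L2 ≤ s₁² L2 / 2 ≤ s₁² N ξ`, i.e. `g² = c₀ s₁² / 8`. -/

theorem sign_sq {n : ℕ} (V : Finset (Fin n)) (a : Fin n → ℝ) :
    avg (fun ξ : Fin n → Bool => (∑ i ∈ V, sg (ξ i) * a i) ^ 2) = ∑ i ∈ V, a i ^ 2 := by
  have hsg : ∀ b : Bool, sg b * sg b = 1 := by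
    intro b
    cases b <;> simp [sg]
  have hsn : ∀ b : Bool, sg (!b) = - sg b := by
    intro b
    cases b <;> simp [sg]
  have key : ∀ i j : Fin n, avg (fun ξ : Fin n → Bool => sg (ξ i) * sg (ξ j)) = if i = j then 1 else 0 := by
    intro i j
    by_cases hij : i = j
    · subst hij
      rw [if_pos rfl]
      simp only [hsg]
      exact avg_const 1
    · rw [if_neg hij]
      have hinv : Function.Involutive (fun x : Fin n → Bool => Function.update x i (!x i)) := by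
        intro x
        simp
      have h1 := avg_equiv hinv.toPerm (fun ξ : Fin n → Bool => sg (ξ i) * sg (ξ j))
      have h2 : (fun a : Fin n → Bool => (fun ξ : Fin n → Bool => sg (ξ i) * sg (ξ j))
          (Function.Involutive.toPerm _ hinv a)) =
          fun ξ : Fin n → Bool => (-1) * (sg (ξ i) * sg (ξ j)) := by
        funext ξ
        change sg (Function.update ξ i (!ξ i) i) * sg (Function.update ξ i (!ξ i) j) = _
        rw [Function.update_self, Function.update_of_ne (fun h => hij h.symm), hsn]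
        ring
      rw [h2, avg_mul_left] at h1
      linarith
  have h1 : ∀ ξ : Fin n → Bool, (∑ i ∈ V, sg (ξ i) * a i) ^ 2 =
      ∑ i ∈ V, ∑ j ∈ V, a i * a j * (sg (ξ i) * sg (ξ j)) := by
    intro ξ
    rw [sq, Finset.sum_mul_sum]
    refine Finset.sum_congr rfl (fun i _ => Finset.sum_congr rfl (fun j _ => ?_))
    ring
  simp only [h1]
  rw [avg_sum]
  refine Finset.sum_congr rfl (fun i hi => ?_)
  rw [avg_sum]
  simp only [avg_mul_left, key]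
  simp only [mul_ite, mul_one, mul_zero]
  rw [Finset.sum_ite_eq, if_pos hi]
  ring

theorem b6_lin {n : ℕ} (V : Finset (Fin n)) (c : Fin n → (Fin n → Bool) → ℝ) (hc : ∀ i, Indep V (c i))
    (ξ x : Fin n → Bool) :
    fx V ξ (fun x => ∑ i ∈ V, sg (x i) * c i x) x = ∑ i ∈ V, sg (ξ i) * c i x := by
  unfold fx
  refine Finset.sum_congr rfl (fun i hi => ?_)
  change sg (if i ∈ V then ξ i else x i) * c i (fun i => if i ∈ V then ξ i else x i) = _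
  rw [if_pos hi]
  congr 1
  exact hc i _ _ (fun j hj => by rw [if_neg hj])

theorem b6_mem {n d : ℕ} (V : Finset (Fin n)) (c : Fin n → (Fin n → Bool) → ℝ)
    (hc : ∀ i, c i ∈ lowDeg (Fin n) Bool ℝ d) :
    (fun x => ∑ i ∈ V, sg (x i) * c i x) ∈ lowDeg (Fin n) Bool ℝ (d + 1) := by
  have h1 : (fun x : Fin n → Bool => ∑ i ∈ V, sg (x i) * c i x) =
      ∑ i ∈ V, (fun x : Fin n → Bool => sg (x i) * c i x) := by
    funext x
    rw [Finset.sum_apply]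
  rw [h1]
  refine AddSubgroup.sum_mem _ (fun i _ => ?_)
  have h2 : (fun x : Fin n → Bool => sg (x i)) ∈ lowDeg (Fin n) Bool ℝ 1 := by
    refine junta_mem {i} (by simp) (fun x y h => ?_)
    rw [h i (by simp)]
  exact lowDeg_mono (by omega) (lowDeg_mul h2 (hc i))

theorem b6_mem' {n d : ℕ} (V : Finset (Fin n)) (c : Fin n → (Fin n → Bool) → ℝ)
    (hc : ∀ i, c i ∈ lowDeg (Fin n) Bool ℝ d) (ξ : Fin n → Bool) :
    (fun x => ∑ i ∈ V, sg (ξ i) * c i x) ∈ lowDeg (Fin n) Bool ℝ d := by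
  have h1 : (fun x : Fin n → Bool => ∑ i ∈ V, sg (ξ i) * c i x) =
      ∑ i ∈ V, (fun x : Fin n → Bool => sg (ξ i) * c i x) := by
    funext x
    rw [Finset.sum_apply]
  rw [h1]
  exact AddSubgroup.sum_mem _ (fun i _ => smul_mem (hc i) _)

theorem b6_infl_smul {n : ℕ} (j : Fin n) (f : (Fin n → Bool) → ℝ) (c : ℝ) :
    infl j (fun x => c * f x) = c ^ 2 * infl j f := by
  unfold infl
  rw [← avg_mul_left]
  congr 1
  funext x
  unfold der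
  ring

/-- anticoncentration without normalisation -/
theorem b6_core {d : ℕ} {ε₁ s₁ τ₁ : ℝ} (hs : 0 < s₁)
    (h : ∀ (n : ℕ) (p : (Fin n → Bool) → ℝ), p ∈ lowDeg (Fin n) Bool ℝ d →
      avg (fun x => p x ^ 2) = 1 → (∀ j, infl j p ≤ τ₁) → pr (fun x => |p x| ≤ s₁) ≤ ε₁)
    {n : ℕ} {q : (Fin n → Bool) → ℝ} (hq : q ∈ lowDeg (Fin n) Bool ℝ d)
    (hN : 0 < avg (fun x => q x ^ 2)) (hi : ∀ j, infl j q ≤ τ₁ * avg (fun x => q x ^ 2)) :
    pr (fun x => q x ^ 2 ≤ s₁ ^ 2 * avg (fun x => q x ^ 2)) ≤ ε₁ := by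
  set N := avg (fun x => q x ^ 2) with hNdef
  have hr : 0 < √N := Real.sqrt_pos.2 hN
  have hr2 : √N ^ 2 = N := Real.sq_sqrt hN.le
  have h1 : avg (fun x => (1 / √N * q x) ^ 2) = 1 := by
    have h2 : (fun x => (1 / √N * q x) ^ 2) = fun x => (1 / N) * q x ^ 2 := by
      funext x
      rw [mul_pow, div_pow, one_pow, hr2]
    rw [h2, avg_mul_left, ← hNdef]
    field_simp
  have h3 := h n (fun x => 1 / √N * q x) (smul_mem hq _) h1 (fun j => by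
    rw [b6_infl_smul, div_pow, one_pow, hr2, div_mul_eq_mul_div, one_mul, div_le_iff₀ hN]
    exact hi j)
  refine le_trans (pr_mono (fun x hx => ?_)) h3
  rw [abs_mul, abs_of_pos (by positivity : (0 : ℝ) < 1 / √N), div_mul_eq_mul_div, one_mul, div_le_iff₀ hr]
  refine abs_le_of_sq_le_sq ?_ (by positivity)
  rw [mul_pow, hr2]
  exact hx

theorem b6_pr_and {X : Type*} [Fintype X] (P Q : X → Prop) : pr P ≤ pr (fun x => P x ∧ ¬ Q x) + pr Q := by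
  refine le_trans (pr_mono (fun x hx => ?_)) (pr_or (fun x => P x ∧ ¬ Q x) Q)
  by_cases h : Q x
  · exact Or.inr h
  · exact Or.inl ⟨hx, h⟩

theorem b6_pr_false {X : Type*} [Fintype X] {P : X → Prop} (h : ∀ x, ¬ P x) : pr P ≤ 0 := by
  unfold pr avg
  simp [h]

theorem direction {d : ℕ} (hAC : AC d) {ε : ℝ} (hε : 0 < ε) :
    ∃ g > 0, ∃ τ > 0, ∀ (n : ℕ) (V : Finset (Fin n)) (c : Fin n → (Fin n → Bool) → ℝ),
      (∀ i, c i ∈ lowDeg (Fin n) Bool ℝ d) → (∀ i, Indep V (c i)) →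
      0 < ∑ i ∈ V, avg (fun x => c i x ^ 2) →
      (∀ j, infl j (fun x => ∑ i ∈ V, sg (x i) * c i x) ≤
        τ * ∑ i ∈ V, avg (fun x => c i x ^ 2)) →
      pr (fun x => ∑ i ∈ V, c i x ^ 2 < g ^ 2 * ∑ i ∈ V, avg (fun x => c i x ^ 2)) ≤ ε := by
  classical
  set K : ℝ := 9 ^ (d + 1) with hK
  have hK1 : 1 ≤ K := one_le_pow₀ (by norm_num)
  have hK0 : 0 < K := by positivity
  set c₀ : ℝ := 1 / (4 * K) with hc₀
  have hc0 : 0 < c₀ := by positivity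
  have hc1 : c₀ ≤ 1 := by
    rw [hc₀, div_le_one (by positivity)]
    linarith
  obtain ⟨s₁, hs₁, τ₁, hτ₁, hac⟩ := hAC (ε * c₀ / 4) (by positivity)
  set D : ℝ := (d : ℝ) + 1 with hD
  have hD0 : 0 < D := by positivity
  refine ⟨c₀ * s₁ / 3, by positivity, c₀ * τ₁ ^ 2 / (8 * K * D), by positivity, ?_⟩
  intro n V c hcm hci hL hinfl
  set L2 : ℝ := ∑ i ∈ V, avg (fun x => c i x ^ 2) with hL2
  set ℓ : (Fin n → Bool) → ℝ := fun x => ∑ i ∈ V, sg (x i) * c i x with hℓ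
  have hℓm : ℓ ∈ lowDeg (Fin n) Bool ℝ (d + 1) := b6_mem V c hcm
  have hfx : ∀ ξ x : Fin n → Bool, fx V ξ ℓ x = ∑ i ∈ V, sg (ξ i) * c i x := fun ξ x => b6_lin V c hci ξ x
  have hfxm : ∀ ξ : Fin n → Bool, fx V ξ ℓ ∈ lowDeg (Fin n) Bool ℝ d := by
    intro ξ
    have : fx V ξ ℓ = fun x => ∑ i ∈ V, sg (ξ i) * c i x := funext (hfx ξ)
    rw [this]
    exact b6_mem' V c hcm ξ
  -- second moments
  set N : (Fin n → Bool) → ℝ := fun ξ => avg (fun x => fx V ξ ℓ x ^ 2) with hN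
  have hN0 : ∀ ξ, 0 ≤ N ξ := fun ξ => avg_nonneg (fun x => by positivity)
  have hNavg : avg N = L2 := by
    rw [hN, Agp.k2_avg_comm (fun (ξ x : Fin n → Bool) => fx V ξ ℓ x ^ 2)]
    simp only [hfx, sign_sq]
    rw [avg_sum]
  have hℓ2 : avg (fun x => ℓ x ^ 2) = L2 := by
    rw [← hNavg]
    exact (avg_fx V (fun x => ℓ x ^ 2)).symm
  have hN2 : avg (fun ξ => N ξ ^ 2) ≤ K * avg N ^ 2 := by
    rw [hNavg, ← hℓ2]
    exact sq_fx hℓm V
  have hpz := pz hN0 hK1 hN2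
  rw [hNavg] at hpz
  -- influences
  set Q : (Fin n → Bool) → ℝ := fun ξ => ∑ j, infl j (fx V ξ ℓ) ^ 2 with hQ
  have hQ0 : ∀ ξ, 0 ≤ Q ξ := fun ξ => Finset.sum_nonneg (fun j _ => by positivity)
  have hinf0 : ∀ (j : Fin n) (f : (Fin n → Bool) → ℝ), 0 ≤ infl j f := fun j f =>
    avg_nonneg (fun x => by positivity)
  have hQavg : avg Q ≤ K * (c₀ * τ₁ ^ 2 / (8 * K * D) * L2) * (D * L2) := by
    rw [hQ, avg_sum]
    calc ∑ j, avg (fun ξ => infl j (fx V ξ ℓ) ^ 2) ≤ ∑ j, K * infl j ℓ ^ 2 :=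
          Finset.sum_le_sum (fun j _ => infl_fx_sq hℓm V j)
      _ ≤ ∑ j, K * (c₀ * τ₁ ^ 2 / (8 * K * D) * L2) * infl j ℓ := by
          refine Finset.sum_le_sum (fun j _ => ?_)
          rw [sq, ← mul_assoc]
          refine mul_le_mul_of_nonneg_right ?_ (hinf0 j ℓ)
          exact mul_le_mul_of_nonneg_left (hinfl j) hK0.le
      _ = K * (c₀ * τ₁ ^ 2 / (8 * K * D) * L2) * ∑ j, infl j ℓ := (Finset.mul_sum _ _ _).symm
      _ ≤ K * (c₀ * τ₁ ^ 2 / (8 * K * D) * L2) * (D * L2) := by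
          refine mul_le_mul_of_nonneg_left ?_ (by positivity)
          have := sum_infl_le hℓm
          rw [hℓ2] at this
          push_cast at this
          exact this
  set a : ℝ := (τ₁ * L2 / 2) ^ 2 with ha
  have ha0 : 0 < a := by positivity
  have hmk : pr (fun ξ => a ≤ Q ξ) ≤ c₀ / 2 := by
    refine (pr_markov hQ0 ha0).trans ?_
    rw [div_le_iff₀ ha0]
    refine hQavg.trans (le_of_eq ?_)
    rw [ha]
    field_simp
    ring
  have hgood : c₀ / 2 ≤ pr (fun ξ => L2 / 2 ≤ N ξ ∧ ¬ a ≤ Q ξ) := by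
    have h1 := b6_pr_and (fun ξ => L2 / 2 ≤ N ξ) (fun ξ => a ≤ Q ξ)
    linarith
  set T : ℝ := 4 / c₀ * ((c₀ * s₁ / 3) ^ 2 * L2) with hT
  have hT0 : 0 < T := by positivity
  -- good ξ
  have hgx : ∀ ξ, pr (fun x => (L2 / 2 ≤ N ξ ∧ ¬ a ≤ Q ξ) ∧ ¬ T ≤ fx V ξ ℓ x ^ 2) ≤ ε * c₀ / 4 := by
    intro ξ
    by_cases hg : L2 / 2 ≤ N ξ ∧ ¬ a ≤ Q ξ
    · have hNp : 0 < N ξ := lt_of_lt_of_le (by positivity) hg.1
      have h1 : ∀ j, infl j (fx V ξ ℓ) ≤ τ₁ * N ξ := by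
        intro j
        have h2 : infl j (fx V ξ ℓ) ^ 2 ≤ Q ξ :=
          Finset.single_le_sum (f := fun j => infl j (fx V ξ ℓ) ^ 2) (fun j _ => by positivity) (Finset.mem_univ j)
        have h3 : infl j (fx V ξ ℓ) ^ 2 ≤ (τ₁ * L2 / 2) ^ 2 := by
          have := not_le.1 hg.2
          linarith
        have h4 : infl j (fx V ξ ℓ) ≤ τ₁ * L2 / 2 :=
          le_of_abs_le (abs_le_of_sq_le_sq h3 (by positivity))
        calc infl j (fx V ξ ℓ) ≤ τ₁ * (L2 / 2) := by linarith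
          _ ≤ τ₁ * N ξ := mul_le_mul_of_nonneg_left hg.1 hτ₁.le
      have h2 := b6_core hs₁ hac (hfxm ξ) hNp h1
      refine le_trans (pr_mono (fun x hx => ?_)) h2
      have h3 : T ≤ s₁ ^ 2 * N ξ := by
        calc T = 4 * c₀ * s₁ ^ 2 * L2 / 9 := by
              rw [hT]
              field_simp
              norm_num
          _ ≤ s₁ ^ 2 * (L2 / 2) := by
              have h5 : 0 ≤ s₁ ^ 2 * L2 := by positivity
              nlinarith [mul_le_mul_of_nonneg_right hc1 h5]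
          _ ≤ s₁ ^ 2 * N ξ := mul_le_mul_of_nonneg_left hg.1 (by positivity)
      have h4 := not_le.1 hx.2
      exact h4.le.trans h3
    · exact (b6_pr_false (fun x h => hg h.1)).trans (by positivity)
  -- bad x
  have hbx : ∀ x : Fin n → Bool, (∑ i ∈ V, c i x ^ 2 < (c₀ * s₁ / 3) ^ 2 * L2) →
      c₀ / 4 ≤ pr (fun ξ => (L2 / 2 ≤ N ξ ∧ ¬ a ≤ Q ξ) ∧ ¬ T ≤ fx V ξ ℓ x ^ 2) := by
    intro x hx
    have h1 := b6_pr_and (fun ξ => L2 / 2 ≤ N ξ ∧ ¬ a ≤ Q ξ) (fun ξ => T ≤ fx V ξ ℓ x ^ 2)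
    have h2 : pr (fun ξ => T ≤ fx V ξ ℓ x ^ 2) ≤ c₀ / 4 := by
      refine (pr_markov (fun ξ => by positivity) hT0).trans ?_
      simp only [hfx]
      rw [sign_sq, div_le_iff₀ hT0]
      refine hx.le.trans (le_of_eq ?_)
      rw [hT]
      field_simp
    linarith
  -- exchange
  have hex : avg (fun x => pr (fun ξ => (L2 / 2 ≤ N ξ ∧ ¬ a ≤ Q ξ) ∧ ¬ T ≤ fx V ξ ℓ x ^ 2)) ≤ ε * c₀ / 4 := by
    unfold pr at hgx ⊢
    rw [Agp.k2_avg_comm]
    exact Agp.avg_le hgx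
  have hfin : c₀ / 4 * pr (fun x => ∑ i ∈ V, c i x ^ 2 < (c₀ * s₁ / 3) ^ 2 * L2) ≤ ε * c₀ / 4 := by
    refine le_trans ?_ hex
    conv_lhs => rw [pr, ← avg_mul_left]
    refine avg_mono (fun x => ?_)
    by_cases hx : ∑ i ∈ V, c i x ^ 2 < (c₀ * s₁ / 3) ^ 2 * L2
    · rw [if_pos hx, mul_one]
      exact hbx x hx
    · rw [if_neg hx, mul_zero]
      exact pr_nonneg _
  have h1 : c₀ / 4 * pr (fun x => ∑ i ∈ V, c i x ^ 2 < (c₀ * s₁ / 3) ^ 2 * L2) ≤ c₀ / 4 * ε := by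
    linarith
  exact le_of_mul_le_mul_left h1 (by positivity)

end Pool.Agent.MP_ca1109_lc.Hyb
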