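import Pool.Agent.MP_ca1109_lc.Hyb.B4b
import Pool.Agent.MP_ca1109_lc.Hyb.B5c
import Pool.Agent.MP_ca1109_lc.Hyb.B6

/-!
# Anticoncentration of polynomials with small influences
-/

namespace Pool.Agent.MP_ca1109_lc.Hyb

open Pool.Agent.MP_ca1109_lc.Mpg Finset

/- PROOF NOTES [HYB-B7].  `ac_zero`: `p` is constant, `p² = 1`, so `|p x| = 1`: `s = 1/2` and `pr = 0`.
`ac_succ`.  Given `ε` (w.l.o.g. `ε ≤ 1`), `v = ε / 16`.  Case 1: `avg p² - (avg p)² < v`: `(avg p)² > 1 - v ≥ 3/4`, so `|p x| ≤ 1/4` implies `(p x - avg p)² ≥ 1/4`; Markov for `(p - avg p)²`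
 (mean `< v`): probability `≤ 4 v ≤ ε`.
Case 2.  `direction hAC` with `ε / 4` gives `g, τ₁`; `lo` with `ε / 4` gives `L₀`.  Choose `θ > 0` with `2 (d + 2) θ ≤ 1`, `2 (d+1)² √θ / v ≤ ε / 4`, `2 L₀ θ^{1/4} ≤ g`, `θ ≤ 1`.  Use the numbers
 `ρ = θ^{1/4}` i.e. choose `ρ > 0` first and put `θ = ρ ^ 4`.  `split` gives `V, p0, r, c`; `L2 = ∑ i ∈ V, avg (c i ²) ≥ θ v / 4`, `Λ = √L2`.
 (1) `pr (|r| > ρ Λ) ≤ avg r² / (ρ² L2) ≤ 2 (d+1)² ρ² / v ≤ ε / 4`.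
 (2) `pr (∃ i ∈ V, |c i x| > ρ Λ) ≤ ∑ i ∈ V, avg (c i ⁴) / (ρ Λ)⁴ ≤ 9 ^ d ∑ (avg c i ²)² / (ρ⁴ L2²) ≤ 9 ^ d τ L2 / (ρ⁴ L2²) ≤ 9 ^ d τ · 4 / (ρ⁴ θ v) ≤ ε / 4` (`hyper`, `avg c i ² ≤ infl i p ≤ τ`) for small `τ`.
 (3) `pr (∑ i ∈ V, c i x ² < g² L2) ≤ ε / 4` (`direction`; `infl j ℓ ≤ infl j p ≤ τ ≤ τ₁ θ v / 4 ≤ τ₁ L2` for small `τ`).
 (4) For the other `x`: condition on the bits outside `V`: by `avg_fx` (with the complement: the average over `x` is the average over `x` of the average over `z` of the values at `z` on `V`, `x` off `V`)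
  `pr` of `[not (2), not (3), |p0 + ∑ i ∈ V, sg (x i) c i x| ≤ 2 ρ Λ]` is `≤ ε / 4`: for fixed `x` outside `V` the numbers `a i = c i x` (`i ∈ V`, `0` otherwise) and `p0 x` do not depend on the bits in `V`;
  `lo` with `T = 1 / (2 ρ Λ)`: `T |a i| ≤ 1/2`, `T² ∑ a i² ≥ g² L2 / (4 ρ² L2) = (g / (2 ρ))² ≥ L₀²`.
 `|p x| ≤ s := ρ √(θ v / 4) ≤ ρ Λ` implies (1) or `|p - r| ≤ 2 ρ Λ`.  Total `≤ ε`. -/

theorem ac_zero : AC 0 := by
  intro ε hε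
  refine ⟨1 / 2, by norm_num, 1, one_pos, ?_⟩
  intro n p hp h1 _
  refine (b6_pr_false (fun x hx => ?_)).trans hε.le
  have hc : (fun y => p y ^ 2) = fun _ => p x ^ 2 := funext (fun y => by rw [lowDeg_zero hp y x])
  rw [hc, avg_const] at h1
  have h2 : |p x| = 1 := by
    have h3 : |p x| ^ 2 = 1 := by rw [sq_abs]; exact h1
    exact (pow_eq_one_iff_of_nonneg (abs_nonneg _) two_ne_zero).1 h3
  rw [h2] at hx
  norm_num at hx

theorem b7_cond {n : ℕ} (V : Finset (Fin n)) (P : (Fin n → Bool) → Prop) (ε : ℝ)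
    (h : ∀ τ : Fin n → Bool, pr (fun z : Fin n → Bool => P (fun i => if i ∈ Vᶜ then τ i else z i)) ≤ ε) : pr P ≤ ε := by
  unfold pr at h ⊢
  rw [← avg_fx Vᶜ]
  exact Agp.avg_le h

/-- small variance -/
theorem b7_case1 {n : ℕ} {p : (Fin n → Bool) → ℝ} {v s : ℝ} (hv : v ≤ 1 / 16) (hs : s ≤ 1 / 4)
    (h1 : avg (fun x => p x ^ 2) = 1) (hvar : avg (fun x => p x ^ 2) - avg p ^ 2 < v) :
    pr (fun x => |p x| ≤ s) ≤ 4 * v := by
  set m := avg p with hm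
  have h2 : avg (fun x => (p x - m) ^ 2) = avg (fun x => p x ^ 2) - m ^ 2 := by
    have h3 : (fun x => (p x - m) ^ 2) = fun x => (p x ^ 2 - (2 * m) * p x) + m ^ 2 := by
      funext x
      ring
    rw [h3, avg_add, avg_sub, avg_mul_left, avg_const, ← hm]
    ring
  have h4 : pr (fun x => |p x| ≤ s) ≤ pr (fun x => 1 / 4 ≤ (p x - m) ^ 2) := by
    refine pr_mono (fun x hx => ?_)
    by_contra hlt
    rw [not_le] at hlt
    have h5 : |p x - m| < 1 / 2 := by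
      refine abs_lt_of_sq_lt_sq ?_ (by norm_num)
      linarith
    have h6 : |m| < 3 / 4 := by
      have h7 : |m| ≤ |p x| + |p x - m| := by
        have := abs_sub (p x) (p x - m)
        rwa [sub_sub_cancel] at this
      linarith
    have h8 : m ^ 2 < 9 / 16 := by
      have h9 := sq_lt_sq' (by linarith [abs_nonneg m]) h6
      rw [sq_abs] at h9
      linarith
    linarith
  refine h4.trans ((pr_markov (fun x => sq_nonneg _) (by norm_num)).trans ?_)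
  rw [h2, div_le_iff₀ (by norm_num)]
  linarith

/-- the conditional Littlewood-Offord bound -/
theorem b7_lo {n : ℕ} {V : Finset (Fin n)} {p0 : (Fin n → Bool) → ℝ} {c : Fin n → (Fin n → Bool) → ℝ}
    (hp0 : Indep V p0) (hc : ∀ i, Indep V (c i)) {ρ Λ g L₀ ε : ℝ} (hρ : 0 < ρ) (hΛ : 0 < Λ) (hL₀ : 0 < L₀) (hε : 0 ≤ ε)
    (hg : 2 * L₀ * ρ ≤ g)
    (hlo : ∀ (a : Fin n → ℝ) (c T : ℝ), 0 < T → (∀ i, T * |a i| ≤ 1) →
      L₀ ^ 2 ≤ T ^ 2 * ∑ i, a i ^ 2 →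
        pr (fun z : Fin n → Bool => |c + ∑ i, a i * sg (z i)| ≤ 1 / T) ≤ ε) :
    pr (fun x => (¬ ∃ i ∈ V, (ρ * Λ) ^ 2 < c i x ^ 2) ∧ ¬ (∑ i ∈ V, c i x ^ 2 < g ^ 2 * Λ ^ 2) ∧
      |p0 x + ∑ i ∈ V, sg (x i) * c i x| ≤ 2 * ρ * Λ) ≤ ε := by
  classical
  refine b7_cond V _ ε (fun τ => ?_)
  have hcm : ∀ (i : Fin n) (z : Fin n → Bool), c i (fun i => if i ∈ Vᶜ then τ i else z i) = c i τ := by
    intro i z
    refine hc i _ _ (fun j hj => ?_)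
    rw [if_pos (by rw [Finset.mem_compl]; exact hj)]
  have hpm : ∀ z : Fin n → Bool, p0 (fun i => if i ∈ Vᶜ then τ i else z i) = p0 τ := by
    intro z
    refine hp0 _ _ (fun j hj => ?_)
    rw [if_pos (by rw [Finset.mem_compl]; exact hj)]
  simp only [hcm, hpm]
  by_cases h : (¬ ∃ i ∈ V, (ρ * Λ) ^ 2 < c i τ ^ 2) ∧ ¬ (∑ i ∈ V, c i τ ^ 2 < g ^ 2 * Λ ^ 2)
  · set T : ℝ := 1 / (2 * ρ * Λ) with hT
    have hT0 : 0 < T := by positivity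
    have h1 := hlo (fun i => if i ∈ V then c i τ else 0) (p0 τ) T hT0 ?_ ?_
    · refine le_trans (pr_mono (fun z hz => ?_)) h1
      have h2 : ∑ i, (if i ∈ V then c i τ else 0) * sg (z i) =
          ∑ i ∈ V, sg (if i ∈ Vᶜ then τ i else z i) * c i τ := by
        simp only [ite_mul, zero_mul]
        rw [Finset.sum_ite_mem, Finset.univ_inter]
        refine Finset.sum_congr rfl (fun i hi => ?_)
        rw [if_neg (by rw [Finset.mem_compl]; exact fun h => h hi)]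
        ring
      rw [h2, hT, one_div_one_div]
      exact hz.2.2
    · intro i
      by_cases hi : i ∈ V
      · simp only [if_pos hi]
        have h2 : c i τ ^ 2 ≤ (ρ * Λ) ^ 2 := not_lt.1 (fun h3 => h.1 ⟨i, hi, h3⟩)
        have h3 : |c i τ| ≤ ρ * Λ := abs_le_of_sq_le_sq h2 (by positivity)
        calc T * |c i τ| ≤ T * (ρ * Λ) := mul_le_mul_of_nonneg_left h3 hT0.le
          _ = 1 / 2 := by rw [hT]; field_simp
          _ ≤ 1 := by norm_num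
      · simp only [if_neg hi, abs_zero, mul_zero]
        norm_num
    · have h2 : ∑ i, (fun i => if i ∈ V then c i τ else 0) i ^ 2 = ∑ i ∈ V, c i τ ^ 2 := by
        simp only [ite_pow]
        rw [zero_pow two_ne_zero, Finset.sum_ite_mem, Finset.univ_inter]
      rw [h2]
      have h3 := not_lt.1 h.2
      have h4 : L₀ ^ 2 ≤ T ^ 2 * (g ^ 2 * Λ ^ 2) := by
        have h5 : L₀ ≤ T * (g * Λ) := by
          rw [hT, div_mul_eq_mul_div, one_mul, le_div_iff₀ (by positivity)]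
          nlinarith
        calc L₀ ^ 2 ≤ (T * (g * Λ)) ^ 2 := pow_le_pow_left₀ hL₀.le h5 2
          _ = T ^ 2 * (g ^ 2 * Λ ^ 2) := by ring
      exact h4.trans (mul_le_mul_of_nonneg_left h3 (by positivity))
  · exact (b6_pr_false (fun z hz => h ⟨hz.1, hz.2.1⟩)).trans hε

theorem ac_succ {d : ℕ} (h : AC d) : AC (d + 1) := by
  intro ε₀ hε₀
  set ε : ℝ := min ε₀ 1 with hεdef
  have hε : 0 < ε := lt_min hε₀ one_pos
  have hε1 : ε ≤ 1 := min_le_right _ _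
  have hεε : ε ≤ ε₀ := min_le_left _ _
  set v : ℝ := ε / 16 with hv
  have hv0 : 0 < v := by positivity
  have hv1 : v ≤ 1 / 16 := by rw [hv]; linarith
  obtain ⟨g, hg0, τ₁, hτ₁, hdir⟩ := direction h (show 0 < ε / 4 by positivity)
  obtain ⟨L₀, hL₀, hlo⟩ := lo (ε / 4) (by positivity)
  set D : ℝ := (d : ℝ) + 1 with hD
  have hD1 : 1 ≤ D := by
    have : (0 : ℝ) ≤ d := Nat.cast_nonneg d
    rw [hD]; linarith
  have hD0 : 0 < D := by linarith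
  set ρ : ℝ := min (g / (2 * L₀)) (ε * v / (8 * D ^ 2)) with hρdef
  have hρ : 0 < ρ := lt_min (by positivity) (by positivity)
  have hρ1 : ρ ≤ g / (2 * L₀) := min_le_left _ _
  have hρ2 : ρ ≤ ε * v / (8 * D ^ 2) := min_le_right _ _
  have hρ3 : ρ * (8 * D ^ 2) ≤ ε * v := (le_div_iff₀ (by positivity)).1 hρ2
  have hDD : D ≤ D ^ 2 := by nlinarith
  have hρle1 : ρ ≤ 1 := by
    have h1 : ε * v ≤ 1 := by nlinarith
    nlinarith
  have hgρ : 2 * L₀ * ρ ≤ g := by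
    have := (le_div_iff₀ (by positivity)).1 hρ1
    linarith
  set θ : ℝ := ρ ^ 4 with hθ
  have hθ0 : 0 < θ := by positivity
  have hθρ : θ ≤ ρ := by
    calc θ = ρ ^ 4 := hθ
      _ ≤ ρ ^ 1 := pow_le_pow_of_le_one hρ.le hρle1 (by norm_num)
      _ = ρ := pow_one ρ
  have hρ22 : ρ ^ 2 ≤ ρ := by
    calc ρ ^ 2 ≤ ρ ^ 1 := pow_le_pow_of_le_one hρ.le hρle1 (by norm_num)
      _ = ρ := pow_one ρ
  have hθd : 2 * ((d : ℝ) + 1) * θ ≤ 1 := by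
    rw [← hD]
    have h1 : ρ * (8 * D ^ 2) ≤ 1 := by nlinarith
    have h2 : ρ * D ≤ ρ * D ^ 2 := mul_le_mul_of_nonneg_left hDD hρ.le
    have h3 : D * θ ≤ D * ρ := mul_le_mul_of_nonneg_left hθρ hD0.le
    nlinarith
  set κ : ℝ := √(θ * v / 4) with hκ
  have hκ0 : 0 < κ := Real.sqrt_pos.2 (by positivity)
  refine ⟨min (1 / 4) (ρ * κ), lt_min (by norm_num) (by positivity),
    min (τ₁ * (θ * v / 4)) (ε * ρ ^ 4 * (θ * v) / (16 * 9 ^ d)), lt_min (by positivity) (by positivity), ?_⟩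
  intro n p hp h1 hinf
  refine le_trans ?_ hεε
  by_cases hvar : avg (fun x => p x ^ 2) - avg p ^ 2 < v
  · refine (b7_case1 hv1 (min_le_left _ _) h1 hvar).trans ?_
    rw [hv]; linarith
  rw [not_lt] at hvar
  obtain ⟨V, p0, r, c, hdec, hp0, hci, hcm, hcinf, hℓinf, hL2, hr⟩ := split d hv0 hθ0 hθd hp h1.le hvar
  set L2 : ℝ := ∑ i ∈ V, avg (fun x => c i x ^ 2) with hL2def
  have hθv : 0 < θ * v / 4 := by positivity
  have hL2p : 0 < L2 := lt_of_lt_of_le hθv hL2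
  set Λ : ℝ := √L2 with hΛ
  have hΛ0 : 0 < Λ := Real.sqrt_pos.2 hL2p
  have hΛ2 : Λ ^ 2 = L2 := Real.sq_sqrt hL2p.le
  have hκΛ : κ ≤ Λ := Real.sqrt_le_sqrt hL2
  have hinf1 : ∀ j, infl j p ≤ τ₁ * (θ * v / 4) := fun j => (hinf j).trans (min_le_left _ _)
  have hinf2 : ∀ j, infl j p ≤ ε * ρ ^ 4 * (θ * v) / (16 * 9 ^ d) := fun j => (hinf j).trans (min_le_right _ _)
  -- the four events
  have hE1 : pr (fun x => (ρ * Λ) ^ 2 ≤ r x ^ 2) ≤ ε / 4 := by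
    refine (pr_markov (fun x => sq_nonneg _) (by positivity)).trans ?_
    rw [div_le_iff₀ (by positivity), mul_pow, hΛ2]
    refine hr.trans ?_
    rw [← hD]
    have h2 : 2 * D ^ 2 * θ / v ≤ ε / 4 * ρ ^ 2 := by
      rw [div_le_iff₀ hv0]
      have h3 : 8 * D ^ 2 * ρ ^ 2 ≤ ε * v := by
        have : D ^ 2 * ρ ^ 2 ≤ D ^ 2 * ρ := mul_le_mul_of_nonneg_left hρ22 (by positivity)
        nlinarith
      have h4 : θ = ρ ^ 2 * ρ ^ 2 := by rw [hθ]; ring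
      have h5 : 0 ≤ ρ ^ 2 := by positivity
      rw [h4]
      nlinarith [mul_le_mul_of_nonneg_left h3 h5]
    calc 2 * D ^ 2 * θ / v * L2 ≤ ε / 4 * ρ ^ 2 * L2 := mul_le_mul_of_nonneg_right h2 hL2p.le
      _ = ε / 4 * (ρ ^ 2 * L2) := by ring
  have hE2 : pr (fun x => ∃ i ∈ V, (ρ * Λ) ^ 2 < c i x ^ 2) ≤ ε / 4 := by
    have h2 : pr (fun x => ∃ i ∈ V, (ρ * Λ) ^ 2 < c i x ^ 2) ≤
        pr (fun x => ((ρ * Λ) ^ 2) ^ 2 ≤ ∑ i ∈ V, c i x ^ 4) := by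
      refine pr_mono (fun x hx => ?_)
      obtain ⟨i, hi, hx⟩ := hx
      calc ((ρ * Λ) ^ 2) ^ 2 ≤ (c i x ^ 2) ^ 2 := pow_le_pow_left₀ (by positivity) hx.le 2
        _ = c i x ^ 4 := by ring
        _ ≤ ∑ i ∈ V, c i x ^ 4 :=
          Finset.single_le_sum (f := fun i => c i x ^ 4) (fun j _ => by positivity) hi
    refine h2.trans ((pr_markov (fun x => Finset.sum_nonneg (fun i _ => by positivity)) (by positivity)).trans ?_)
    rw [div_le_iff₀ (by positivity), avg_sum]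
    have h3 : ∀ i ∈ V, avg (fun x => c i x ^ 4) ≤
        9 ^ d * (ε * ρ ^ 4 * (θ * v) / (16 * 9 ^ d)) * avg (fun x => c i x ^ 2) := by
      intro i _
      refine (hyper (hcm i)).trans ?_
      rw [sq (avg (fun x => c i x ^ 2)), ← mul_assoc]
      refine mul_le_mul_of_nonneg_right ?_ (avg_nonneg (fun x => by positivity))
      exact mul_le_mul_of_nonneg_left ((hcinf i).trans (hinf2 i)) (by positivity)
    refine (Finset.sum_le_sum h3).trans ?_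
    rw [← Finset.mul_sum, ← hL2def]
    have h4 : (9 : ℝ) ^ d * (ε * ρ ^ 4 * (θ * v) / (16 * 9 ^ d)) = ε / 4 * ρ ^ 4 * (θ * v / 4) := by
      have h9 : (9 : ℝ) ^ d ≠ 0 := by positivity
      field_simp
      norm_num
    rw [h4]
    calc ε / 4 * ρ ^ 4 * (θ * v / 4) * L2 ≤ ε / 4 * ρ ^ 4 * L2 * L2 :=
          mul_le_mul_of_nonneg_right (mul_le_mul_of_nonneg_left hL2 (by positivity)) hL2p.le
      _ = ε / 4 * ((ρ * Λ) ^ 2) ^ 2 := by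
          rw [mul_pow ρ Λ, hΛ2]
          ring
  have hE3 : pr (fun x => ∑ i ∈ V, c i x ^ 2 < g ^ 2 * Λ ^ 2) ≤ ε / 4 := by
    rw [hΛ2]
    refine hdir n V c hcm hci hL2p (fun j => ?_)
    refine (hℓinf j).trans ((hinf1 j).trans ?_)
    exact mul_le_mul_of_nonneg_left hL2 hτ₁.le
  have hE4 := b7_lo (V := V) (p0 := p0) (c := c) hp0 hci hρ hΛ0 hL₀ (show (0 : ℝ) ≤ ε / 4 by positivity) hgρ
    (fun a c T => hlo n a c T)
  have hcov : ∀ x, |p x| ≤ min (1 / 4) (ρ * κ) →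
      (((ρ * Λ) ^ 2 ≤ r x ^ 2 ∨ ∃ i ∈ V, (ρ * Λ) ^ 2 < c i x ^ 2) ∨ ∑ i ∈ V, c i x ^ 2 < g ^ 2 * Λ ^ 2) ∨
      ((¬ ∃ i ∈ V, (ρ * Λ) ^ 2 < c i x ^ 2) ∧ ¬ (∑ i ∈ V, c i x ^ 2 < g ^ 2 * Λ ^ 2) ∧
      |p0 x + ∑ i ∈ V, sg (x i) * c i x| ≤ 2 * ρ * Λ) := by
    intro x hx
    by_cases e1 : (ρ * Λ) ^ 2 ≤ r x ^ 2
    · exact Or.inl (Or.inl (Or.inl e1))
    by_cases e2 : ∃ i ∈ V, (ρ * Λ) ^ 2 < c i x ^ 2
    · exact Or.inl (Or.inl (Or.inr e2))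
    by_cases e3 : ∑ i ∈ V, c i x ^ 2 < g ^ 2 * Λ ^ 2
    · exact Or.inl (Or.inr e3)
    refine Or.inr ⟨e2, e3, ?_⟩
    have h2 : |r x| < ρ * Λ := abs_lt_of_sq_lt_sq (not_le.1 e1) (by positivity)
    have h3 : |p x| ≤ ρ * Λ := hx.trans ((min_le_right _ _).trans (mul_le_mul_of_nonneg_left hκΛ hρ.le))
    have h4 : p0 x + ∑ i ∈ V, sg (x i) * c i x = p x - r x := by rw [hdec x]; ring
    rw [h4]
    have h5 := abs_sub (p x) (r x)
    linarith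
  have hU := pr_mono hcov
  have u1 := pr_or (fun x => ((ρ * Λ) ^ 2 ≤ r x ^ 2 ∨ ∃ i ∈ V, (ρ * Λ) ^ 2 < c i x ^ 2) ∨
    ∑ i ∈ V, c i x ^ 2 < g ^ 2 * Λ ^ 2) (fun x => (¬ ∃ i ∈ V, (ρ * Λ) ^ 2 < c i x ^ 2) ∧
    ¬ (∑ i ∈ V, c i x ^ 2 < g ^ 2 * Λ ^ 2) ∧ |p0 x + ∑ i ∈ V, sg (x i) * c i x| ≤ 2 * ρ * Λ)
  have u2 := pr_or (fun x => (ρ * Λ) ^ 2 ≤ r x ^ 2 ∨ ∃ i ∈ V, (ρ * Λ) ^ 2 < c i x ^ 2)
    (fun x => ∑ i ∈ V, c i x ^ 2 < g ^ 2 * Λ ^ 2)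
  have u3 := pr_or (fun x => (ρ * Λ) ^ 2 ≤ r x ^ 2) (fun x => ∃ i ∈ V, (ρ * Λ) ^ 2 < c i x ^ 2)
  linarith

theorem ac_all (d : ℕ) : AC d := by
  induction d with
  | zero => exact ac_zero
  | succ d ih => exact ac_succ ih

end Pool.Agent.MP_ca1109_lc.Hyb
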