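import Pool.Agent.MP_ca1109_lc.Hyb.B2

/-!
# Laws close to the uniform law
-/

namespace Pool.Agent.MP_ca1109_lc.Hyb

open Pool.Agent.MP_ca1109_lc.Mpg Finset

variable {n k d : ℕ}

/- PROOF NOTES [HYB-C1b].  `Close.mono`: `Indep A r → Indep A' r` for `A ⊆ A'`... (here: a function which does not depend on the bits in `A` does not depend on the bits in `A' ⊆ A`).  `close_uni`: `∑ z, (1 / card) r z = avg r`.
`Close.block`: apply the hypothesis to the function `z ↦ r (fun i => if i ∈ blk rr b then z i else x i)`, which is in `lowDeg` (`lowDeg_comp`) and does not depend on the bits in `A`; its uniform average is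
`avA (blk rr b) r x` by definition. -/

theorem Close.mono {A A' : Finset (Fin n)} (h : A' ⊆ A) {K : ℕ} {γ : ℝ} {v : (Fin n → Bool) → ℝ}
    (hv : Close A' K γ v) : Close A K γ v := by
  intro r hr hA
  refine hv r hr fun x y hxy => hA x y fun i hi => hxy i fun hi' => hi (h hi')

theorem close_uni (A : Finset (Fin n)) (K : ℕ) {γ : ℝ} (hγ : 0 ≤ γ) :
    Close A K γ (fun _ => 1 / (Fintype.card (Fin n → Bool) : ℝ)) := by
  intro r _ _
  have h1 : ∑ z, 1 / (Fintype.card (Fin n → Bool) : ℝ) * r z = avg r := by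
    unfold avg
    rw [← Finset.mul_sum]
    ring
  rw [h1, sub_self, abs_zero]
  exact mul_nonneg hγ (avg_nonneg fun x => abs_nonneg _)

theorem Close.block {A : Finset (Fin n)} {K : ℕ} {γ : ℝ} {v : (Fin n → Bool) → ℝ}
    (hv : Close A K γ v) {r : (Fin n → Bool) → ℝ} (hr : r ∈ lowDeg (Fin n) Bool ℝ K)
    (hA : Indep A r) (rr : Fin n → Fin k) (b : Fin k) (x : Fin n → Bool) :
    |∑ z, v z * r (fun i => if i ∈ blk rr b then z i else x i) - avA (blk rr b) r x| ≤
      γ * avA (blk rr b) (fun x => |r x|) x := by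
  have h1 : (fun z : Fin n → Bool => r (fun i => if i ∈ blk rr b then z i else x i)) ∈
      lowDeg (Fin n) Bool ℝ K := lowDeg_comp (fun i z => if i ∈ blk rr b then z else x i) hr
  have h2 : Indep A (fun z : Fin n → Bool => r (fun i => if i ∈ blk rr b then z i else x i)) := by
    intro z z' hz
    refine hA _ _ fun i hi => ?_
    by_cases hb : i ∈ blk rr b
    · rw [if_pos hb, if_pos hb, hz i hi]
    · rw [if_neg hb, if_neg hb]
  exact hv _ h1 h2

end Pool.Agent.MP_ca1109_lc.Hyb
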