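import Pool.Agent.MP_ca1109_lc.Hyb.B2

/-!
# Conditional laws
-/

namespace Pool.Agent.MP_ca1109_lc.Hyb

open Pool.Agent.MP_ca1109_lc.Mpg Finset

variable {n : ℕ}

/- PROOF NOTES [HYB-C2].  `I z = if ∀ i ∈ A, z i = τ i then 1 else 0`, a function of `A.card` bits, `I ∈ lowDeg A.card`; `avg I = 1 / 2 ^ A.card`.
`msA_close`: `msA A τ μ = ∑ z, μ z * I z`; `h` for `r = I` (`A.card ≤ D`).
`cnd_pm`: nonnegative, sum `1` (`msA > 0`).
`cnd_close`: for `r` with `Indep A r`, `r ∈ lowDeg K`: `I * r ∈ lowDeg (A.card + K)` (`lowDeg_mul`), `h`: `|∑ μ I r - avg (I r)| ≤ γ avg |I r|`, and `avg (I r) = avg r / 2 ^ A.card`,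
`avg |I r| = avg |r| / 2 ^ A.card` (independence: `r` does not depend on the bits in `A`; e.g. by `avg_fx`: `avg (I r) = avg_τ' avg (fx A τ' (I r))`, and `fx A τ' I = 1[τ' = τ on A]`).
With `m = msA`: `|∑ cnd r - avg r| = |(∑ μ I r) / m - avg r| ≤ |∑ μ I r - avg r / 2 ^ a| / m + |avg r| |1 / (2 ^ a m) - 1| ≤ 2 γ avg |r| / (2 ^ a m) ≤ 4 γ avg |r|`, as
`2 ^ a m ≥ 1 - γ ≥ 3/4`. -/

/-- the indicator function of `z = τ` on `A` -/
private def c2_I (A : Finset (Fin n)) (τ z : Fin n → Bool) : ℝ :=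
  if ∀ i ∈ A, z i = τ i then 1 else 0

private theorem c2_I_nonneg (A : Finset (Fin n)) (τ z : Fin n → Bool) : 0 ≤ c2_I A τ z := by
  unfold c2_I
  split_ifs
  · exact zero_le_one
  · exact le_rfl

private theorem c2_I_mem (A : Finset (Fin n)) (τ : Fin n → Bool) :
    c2_I A τ ∈ lowDeg (Fin n) Bool ℝ A.card := by
  apply junta_mem A le_rfl
  intro x y hxy
  unfold c2_I
  have h : (∀ i ∈ A, x i = τ i) ↔ ∀ i ∈ A, y i = τ i := by
    constructor
    · intro h i hi
      rw [← hxy i hi]
      exact h i hi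
    · intro h i hi
      rw [hxy i hi]
      exact h i hi
  by_cases hx : ∀ i ∈ A, x i = τ i
  · rw [if_pos hx, if_pos (h.1 hx)]
  · rw [if_neg hx, if_neg (fun hy => hx (h.2 hy))]

private theorem c2_avg_I (A : Finset (Fin n)) (τ : Fin n → Bool) :
    avg (c2_I A τ) = 1 / 2 ^ A.card := by
  classical
  have h1 : ∑ z, c2_I A τ z = ((2 : ℝ) ^ (n - A.card)) := by
    have h2 : ∀ z, c2_I A τ z = if z ∈ Fintype.piFinset
        (fun i => if i ∈ A then {τ i} else (Finset.univ : Finset Bool)) then (1 : ℝ) else 0 := by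
      intro z
      unfold c2_I
      have h3 : (∀ i ∈ A, z i = τ i) ↔ z ∈ Fintype.piFinset
          (fun i => if i ∈ A then {τ i} else (Finset.univ : Finset Bool)) := by
        rw [Fintype.mem_piFinset]
        constructor
        · intro h i
          by_cases hi : i ∈ A
          · rw [if_pos hi, Finset.mem_singleton]
            exact h i hi
          · rw [if_neg hi]
            exact Finset.mem_univ _
        · intro h i hi
          have := h i
          rw [if_pos hi, Finset.mem_singleton] at this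
          exact this
      by_cases h : ∀ i ∈ A, z i = τ i
      · rw [if_pos h, if_pos (h3.1 h)]
      · rw [if_neg h, if_neg (fun h' => h (h3.2 h'))]
    rw [Finset.sum_congr rfl fun z _ => h2 z, ← Finset.sum_filter, Finset.sum_const,
      Finset.filter_mem_eq_inter, Finset.univ_inter, Fintype.card_piFinset, nsmul_eq_mul, mul_one]
    have h4 : ∀ i : Fin n, (if i ∈ A then ({τ i} : Finset Bool) else Finset.univ).card =
        if i ∈ A then 1 else 2 := by
      intro i
      by_cases hi : i ∈ A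
      · rw [if_pos hi, if_pos hi, Finset.card_singleton]
      · rw [if_neg hi, if_neg hi, Finset.card_univ, Fintype.card_bool]
    rw [Finset.prod_congr rfl fun i _ => h4 i, Finset.prod_ite, Finset.prod_const_one, one_mul,
      Finset.prod_const]
    have h5 : (Finset.univ.filter fun i : Fin n => i ∉ A).card = n - A.card := by
      have h6 : (Finset.univ.filter fun i : Fin n => i ∉ A) = Aᶜ := by
        ext i
        simp
      rw [h6, Finset.card_compl, Fintype.card_fin]
    rw [h5]
    push_cast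
    rfl
  have hn : A.card ≤ n := by
    have := Finset.card_le_univ A
    rwa [Fintype.card_fin] at this
  unfold avg
  rw [h1, Fintype.card_fun, Fintype.card_bool, Fintype.card_fin]
  push_cast
  rw [div_eq_div_iff (by positivity) (by positivity), one_mul, ← pow_add,
    Nat.sub_add_cancel hn]

private theorem c2_avg_mul (A : Finset (Fin n)) (τ : Fin n → Bool) {r : (Fin n → Bool) → ℝ}
    (hr : Indep A r) : avg (fun z => c2_I A τ z * r z) = avg r / 2 ^ A.card := by
  have h1 : ∀ σ : Fin n → Bool, avg (fx A σ (fun z => c2_I A τ z * r z)) =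
      avg r * c2_I A τ σ := by
    intro σ
    have h2 : fx A σ (fun z => c2_I A τ z * r z) = fun z => c2_I A τ σ * r z := by
      funext z
      unfold fx
      have h3 : c2_I A τ (fun i => if i ∈ A then σ i else z i) = c2_I A τ σ := by
        unfold c2_I
        have h4 : (∀ i ∈ A, (if i ∈ A then σ i else z i) = τ i) ↔ ∀ i ∈ A, σ i = τ i := by
          constructor
          · intro h i hi
            have := h i hi
            rwa [if_pos hi] at this
          · intro h i hi
            rw [if_pos hi]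
            exact h i hi
        by_cases h : ∀ i ∈ A, σ i = τ i
        · rw [if_pos h, if_pos (h4.2 h)]
        · rw [if_neg h, if_neg (fun h' => h (h4.1 h'))]
      have h5 : r (fun i => if i ∈ A then σ i else z i) = r z :=
        hr _ _ fun i hi => if_neg hi
      show c2_I A τ (fun i => if i ∈ A then σ i else z i) *
        r (fun i => if i ∈ A then σ i else z i) = _
      rw [h3, h5]
    rw [h2, avg_mul_left, mul_comm]
  rw [← avg_fx A (fun z => c2_I A τ z * r z)]
  have h6 : (fun σ => avg (fx A σ (fun z => c2_I A τ z * r z))) =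
      fun σ => avg r * c2_I A τ σ := funext h1
  rw [h6, avg_mul_left, c2_avg_I]
  ring

private theorem c2_msA (A : Finset (Fin n)) (τ : Fin n → Bool) (μ : (Fin n → Bool) → ℝ) :
    msA A τ μ = ∑ z, μ z * c2_I A τ z := by
  unfold msA c2_I
  refine Finset.sum_congr rfl fun z _ => ?_
  by_cases h : ∀ i ∈ A, z i = τ i
  · rw [if_pos h, if_pos h, mul_one]
  · rw [if_neg h, if_neg h, mul_zero]

private theorem c2_abs_avg (r : (Fin n → Bool) → ℝ) : |avg r| ≤ avg (fun x => |r x|) := by
  rw [abs_le]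
  constructor
  · have h1 : -avg (fun x => |r x|) = avg (fun x => (-1) * |r x|) := by
      rw [avg_mul_left]
      ring
    rw [h1]
    apply avg_mono
    intro x
    have := neg_abs_le (r x)
    linarith
  · exact avg_mono fun x => le_abs_self _

theorem msA_close {μ : (Fin n → Bool) → ℝ} {D : ℕ} {γ : ℝ}
    (h : ∀ r ∈ lowDeg (Fin n) Bool ℝ D, |∑ z, μ z * r z - avg r| ≤ γ * avg (fun x => |r x|))
    {A : Finset (Fin n)} (hA : A.card ≤ D) (τ : Fin n → Bool) :
    |msA A τ μ - 1 / 2 ^ A.card| ≤ γ / 2 ^ A.card := by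
  have h1 := h (c2_I A τ) (lowDeg_mono hA (c2_I_mem A τ))
  have h2 : (fun x => |c2_I A τ x|) = c2_I A τ := by
    funext x
    exact abs_of_nonneg (c2_I_nonneg A τ x)
  rw [h2, c2_avg_I] at h1
  rw [c2_msA]
  calc _ ≤ γ * (1 / 2 ^ A.card) := h1
    _ = γ / 2 ^ A.card := by ring

theorem cnd_pm {μ : (Fin n → Bool) → ℝ} (h0 : ∀ z, 0 ≤ μ z) {A : Finset (Fin n)} {τ : Fin n → Bool}
    (hm : 0 < msA A τ μ) : (∀ z, 0 ≤ cnd A τ μ z) ∧ ∑ z, cnd A τ μ z = 1 := by
  constructor
  · intro z
    unfold cnd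
    split_ifs
    · exact div_nonneg (h0 z) hm.le
    · exact le_rfl
  · have h1 : ∑ z, cnd A τ μ z = msA A τ μ / msA A τ μ := by
      conv_rhs => arg 1; unfold msA
      rw [Finset.sum_div]
      refine Finset.sum_congr rfl fun z _ => ?_
      unfold cnd
      by_cases h : ∀ i ∈ A, z i = τ i
      · rw [if_pos h, if_pos h]
      · rw [if_neg h, if_neg h, zero_div]
    rw [h1, div_self hm.ne']

theorem cnd_close {μ : (Fin n → Bool) → ℝ} (h0 : ∀ z, 0 ≤ μ z) {D : ℕ} {γ : ℝ} (hγ : 0 ≤ γ)
    (hγ' : γ ≤ 1 / 4)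
    (h : ∀ r ∈ lowDeg (Fin n) Bool ℝ D, |∑ z, μ z * r z - avg r| ≤ γ * avg (fun x => |r x|))
    {A : Finset (Fin n)} {K : ℕ} (hA : A.card + K ≤ D) (τ : Fin n → Bool) :
    Close A K (4 * γ) (cnd A τ μ) := by
  intro r hr hind
  have hAD : A.card ≤ D := by omega
  have hms := msA_close h hAD τ
  have hp : (0 : ℝ) < 2 ^ A.card := by positivity
  set p : ℝ := 2 ^ A.card with hpd
  set m : ℝ := msA A τ μ with hmd
  have hmlow : (3 / 4) / p ≤ m := by
    have h1 := (abs_le.1 hms).1
    have h2 : γ / p ≤ (1 / 4) / p := div_le_div_of_nonneg_right hγ' hp.le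
    have h3 : (3 / 4) / p = 1 / p - (1 / 4) / p := by ring
    rw [h3]
    linarith
  have hm0 : 0 < m := lt_of_lt_of_le (by positivity) hmlow
  -- the numerator
  have hT := h (fun z => c2_I A τ z * r z) (lowDeg_mono hA (lowDeg_mul (c2_I_mem A τ) hr))
  have habs : (fun x => |c2_I A τ x * r x|) = fun x => c2_I A τ x * |r x| := by
    funext x
    rw [abs_mul, abs_of_nonneg (c2_I_nonneg A τ x)]
  have hind' : Indep A (fun x => |r x|) := fun x y hxy => by
    show |r x| = |r y|
    rw [hind x y hxy]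
  rw [habs, c2_avg_mul A τ hind, c2_avg_mul A τ hind', ← hpd] at hT
  have hsum : ∑ z, cnd A τ μ z * r z = (∑ z, μ z * (c2_I A τ z * r z)) / m := by
    rw [Finset.sum_div]
    refine Finset.sum_congr rfl fun z _ => ?_
    unfold cnd c2_I
    by_cases hz : ∀ i ∈ A, z i = τ i
    · rw [if_pos hz, if_pos hz]
      ring
    · rw [if_neg hz, if_neg hz]
      ring
  rw [hsum]
  set T : ℝ := ∑ z, μ z * (c2_I A τ z * r z) with hTd
  set R : ℝ := avg r with hRd
  set Q : ℝ := avg (fun x => |r x|) with hQd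
  have hRQ : |R| ≤ Q := c2_abs_avg r
  have hQ0 : 0 ≤ Q := (abs_nonneg _).trans hRQ
  have e1 : T / m - R = ((T - R / p) + R * (1 / p - m)) / m := by
    field_simp
    ring
  have e2 : |(T - R / p) + R * (1 / p - m)| ≤ 2 * (γ * Q / p) := by
    have h1 := abs_add_le (T - R / p) (R * (1 / p - m))
    have h2 : |R * (1 / p - m)| ≤ Q * (γ / p) := by
      rw [abs_mul, abs_sub_comm]
      exact mul_le_mul hRQ hms (abs_nonneg _) hQ0
    have h3 : γ * (Q / p) = γ * Q / p := by ring
    have h4 : Q * (γ / p) = γ * Q / p := by ring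
    rw [h3] at hT
    rw [h4] at h2
    linarith
  rw [e1, abs_div, abs_of_pos hm0, div_le_iff₀ hm0]
  calc |(T - R / p) + R * (1 / p - m)| ≤ 2 * (γ * Q / p) := e2
    _ ≤ 4 * γ * Q * ((3 / 4) / p) := by
        have h5 : 4 * γ * Q * ((3 / 4) / p) = 3 * (γ * Q / p) := by ring
        rw [h5]
        have h6 : 0 ≤ γ * Q / p := by positivity
        linarith
    _ ≤ 4 * γ * Q * m := mul_le_mul_of_nonneg_left hmlow (by positivity)

end Pool.Agent.MP_ca1109_lc.Hyb
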