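import Pool.Agent.MP_ca1109_lc.Hyb.A0
import Pool.Agent.MP_ca1109_lc.Hyb.B2b
import Pool.Agent.MP_ca1109_lc.Hyb.C1
import Pool.Agent.MP_ca1109_lc.Hyb.C1b

/-!
# Moments of polynomials for products of laws which are close to the uniform law
-/

namespace Pool.Agent.MP_ca1109_lc.Hyb

open Pool.Agent.MP_ca1109_lc.Mpg Finset

variable {n k d : ℕ}

/- PROOF NOTES [HYB-C3].  For a set `B` of blocks let `v_B b = v b` for `b ∉ B` and uniform for `b ∈ B`.  Claim: `rex v (r ∘ mx) ≤ (1 + γ) ^ B.card * rex v_B (r ∘ mx)` (`Finset.induction_on`); `B = univ` and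
`rex_mx_uni` give the theorem.  Step from `B` to `insert b B`: `rex_block` for `v_B` at `b`; by `mx_update` and `Close.block` (with `|r| = r`)
`∑ z, v b z * r (z on blk b, mx y off) ≤ (1 + γ) * avA (blk rr b) r (mx rr y)`, and `rex v_B (avA (blk rr b) r (mx rr y)) = rex v_{B ∪ b} (avA (blk rr b) r (mx rr y))` (`rex_congr_letter` of `A0`: the function does not depend on the letter `b`:
`mx_update` and `avA_indep`) `= rex v_{B ∪ b} (r (mx rr y))` (`rex_block` for `v_{B ∪ b}` at `b`, where the law of the letter `b` is uniform). -/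

/-- the law with uniform blocks in `B` -/
noncomputable def c3_v (v : Fin k → (Fin n → Bool) → ℝ) (B : Finset (Fin k)) :
    Fin k → (Fin n → Bool) → ℝ :=
  fun b a => if b ∈ B then 1 / (Fintype.card (Fin n → Bool) : ℝ) else v b a

theorem c3_pm {v : Fin k → (Fin n → Bool) → ℝ} (hv : IsPM v) (B : Finset (Fin k)) :
    IsPM (c3_v v B) where
  nonneg i a := by
    unfold c3_v
    split_ifs
    · positivity
    · exact hv.nonneg i a
  sum_one i := by
    unfold c3_v
    split_ifs
    · exact (isPM_uni (ι := Fin k) (Ω := Fin n → Bool)).sum_one i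
    · exact hv.sum_one i

theorem c3_step (rr : Fin n → Fin k) {v : Fin k → (Fin n → Bool) → ℝ} (hv : IsPM v) {γ : ℝ}
    {A : Finset (Fin n)} {K : ℕ} (hc : ∀ b, Close A K γ (v b))
    {r : (Fin n → Bool) → ℝ} (hr : r ∈ lowDeg (Fin n) Bool ℝ K) (hA : Indep A r)
    (h0 : ∀ x, 0 ≤ r x) {B : Finset (Fin k)} {b : Fin k} (hb : b ∉ B) :
    rex (c3_v v B) (fun y => r (mx rr y)) ≤
      (1 + γ) * rex (c3_v v (insert b B)) (fun y => r (mx rr y)) := by
  have h1 : rex (c3_v v B) (fun y => r (mx rr y)) ≤
      rex (c3_v v B) (fun y => (1 + γ) * avA (blk rr b) r (mx rr y)) := by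
    rw [rex_block (c3_pm hv B) b]
    refine rex_mono (c3_pm hv B) fun y => ?_
    have h2 := (hc b).block hr hA rr b (mx rr y)
    have h3 : (fun x => |r x|) = r := funext fun x => abs_of_nonneg (h0 x)
    rw [h3] at h2
    have h4 := (abs_le.1 h2).2
    have h5 : ∑ a, c3_v v B b a * r (mx rr (Function.update y b a)) =
        ∑ z, v b z * r (fun i => if i ∈ blk rr b then z i else mx rr y i) := by
      refine Finset.sum_congr rfl fun a _ => ?_
      rw [mx_update]
      congr 1
      unfold c3_v
      rw [if_neg hb]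
    rw [h5]
    linarith
  have h2 : rex (c3_v v B) (fun y => avA (blk rr b) r (mx rr y)) =
      rex (c3_v v (insert b B)) (fun y => avA (blk rr b) r (mx rr y)) := by
    refine rex_congr_letter (c3_pm hv B) (c3_pm hv (insert b B)) (b := b) ?_ ?_
    · intro b' hb'
      funext a
      unfold c3_v
      by_cases h : b' ∈ B
      · rw [if_pos h, if_pos (Finset.mem_insert_of_mem h)]
      · rw [if_neg h, if_neg]
        intro h'
        rcases Finset.mem_insert.1 h' with h'' | h''
        · exact hb' h''
        · exact h h''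
    · intro y a
      rw [mx_update]
      refine avA_indep (f := r) (blk rr b) _ _ fun i hi => ?_
      rw [if_neg hi]
  have h3 : rex (c3_v v (insert b B)) (fun y => r (mx rr y)) =
      rex (c3_v v (insert b B)) (fun y => avA (blk rr b) r (mx rr y)) := by
    rw [rex_block (c3_pm hv (insert b B)) b]
    congr 1
    funext y
    unfold avA avg
    rw [Finset.sum_div]
    refine Finset.sum_congr rfl fun a _ => ?_
    rw [mx_update]
    unfold c3_v
    rw [if_pos (Finset.mem_insert_self b B)]
    ring
  rw [rex_mul_left, h2] at h1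
  rw [h3]
  exact h1

theorem rex_poly_le (rr : Fin n → Fin k) {v : Fin k → (Fin n → Bool) → ℝ} (hv : IsPM v) {γ : ℝ}
    (hγ : 0 ≤ γ) {A : Finset (Fin n)} {K : ℕ} (hc : ∀ b, Close A K γ (v b))
    {r : (Fin n → Bool) → ℝ} (hr : r ∈ lowDeg (Fin n) Bool ℝ K) (hA : Indep A r)
    (h0 : ∀ x, 0 ≤ r x) : rex v (fun y => r (mx rr y)) ≤ (1 + γ) ^ k * avg r := by
  have key : ∀ B : Finset (Fin k), rex v (fun y => r (mx rr y)) ≤
      (1 + γ) ^ B.card * rex (c3_v v B) (fun y => r (mx rr y)) := by
    intro B
    induction B using Finset.induction_on with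
    | empty =>
      have h1 : c3_v v ∅ = v := by
        funext b a
        unfold c3_v
        rw [if_neg (Finset.notMem_empty b)]
      rw [h1, Finset.card_empty, pow_zero, one_mul]
    | insert b B hb ih =>
      rw [Finset.card_insert_of_notMem hb, pow_succ, mul_assoc]
      refine ih.trans (mul_le_mul_of_nonneg_left (c3_step rr hv hc hr hA h0 hb) ?_)
      positivity
  have h1 := key Finset.univ
  have h2 : c3_v v Finset.univ = uni (Fin k) (Fin n → Bool) := by
    funext b a
    unfold c3_v
    rw [if_pos (Finset.mem_univ b)]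
    rfl
  rw [h2, rex_mx_uni, Finset.card_univ, Fintype.card_fin] at h1
  exact h1

end Pool.Agent.MP_ca1109_lc.Hyb
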