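import Pool.Agent.MP_ca1109_lc.Hyb.Defs

/-!
# The function exp (i u)
-/

namespace Pool.Agent.MP_ca1109_lc.Hyb

open Pool.Agent.MP_ca1109_lc.Mpg Finset

/- PROOF NOTES [HYB-C4].  `ei u = Complex.exp (u * I)`.  `ei_lip`: e.g. `‖exp (i x) - 1‖ ≤ |x|` (`Real.norm_exp_I_mul_ofReal_sub_one_le` or `Complex.norm_exp_I_mul_ofReal_sub_one`), `ei u - ei v = ei v * (ei (u - v) - 1)`.
`ei_taylor`: `|D| ≤ 1`: `Complex.exp_bound` (or `Complex.norm_exp_sub_sum_le_norm_mul_exp`..) gives `≤ |D|³`; `|D| > 1`: `1 + 1 + |D| + D² / 2 ≤ 4 |D|³`. -/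

theorem ei_norm (u : ℝ) : ‖ei u‖ = 1 := by
  exact Complex.norm_exp_ofReal_mul_I u

theorem ei_add (u v : ℝ) : ei (u + v) = ei u * ei v := by
  unfold ei
  rw [← Complex.exp_add]
  congr 1
  push_cast
  ring

theorem ei_lip (u v : ℝ) : ‖ei u - ei v‖ ≤ |u - v| := by
  have h1 : ei u - ei v = ei v * (ei (u - v) - 1) := by
    rw [mul_sub, mul_one, ← ei_add, add_sub_cancel]
  rw [h1, norm_mul, ei_norm, one_mul]
  unfold ei
  rw [mul_comm]
  exact Real.norm_exp_I_mul_ofReal_sub_one_le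

theorem ei_taylor (D : ℝ) : ‖ei D - (1 + D * Complex.I - D ^ 2 / 2)‖ ≤ 4 * |D| ^ 3 := by
  have hsq : ((D : ℂ) * Complex.I) ^ 2 = -(D : ℂ) ^ 2 := by
    rw [mul_pow, Complex.I_sq]
    ring
  rcases le_or_gt |D| 1 with h | h
  · have hn : ‖(D : ℂ) * Complex.I‖ = |D| := by
      rw [norm_mul, Complex.norm_I, mul_one, Complex.norm_real, Real.norm_eq_abs]
    have h1 := Complex.exp_bound (x := (D : ℂ) * Complex.I) (by rw [hn]; exact h) (n := 3)
      (by norm_num)
    have h2 : ∑ m ∈ Finset.range 3, ((D : ℂ) * Complex.I) ^ m / (m.factorial : ℂ) =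
        1 + D * Complex.I - D ^ 2 / 2 := by
      rw [Finset.sum_range_succ, Finset.sum_range_succ, Finset.sum_range_one, hsq]
      simp only [Nat.factorial]
      push_cast
      ring
    rw [h2, hn] at h1
    refine h1.trans ?_
    have h3 : 0 ≤ |D| ^ 3 := by positivity
    simp only [Nat.factorial]
    push_cast
    norm_num
    linarith
  · have h1 : ‖ei D - (1 + D * Complex.I - D ^ 2 / 2)‖ ≤ 1 + (1 + |D| + |D| ^ 2 / 2) := by
      refine (norm_sub_le _ _).trans ?_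
      rw [ei_norm]
      have h2 : ‖(1 : ℂ) + D * Complex.I - D ^ 2 / 2‖ ≤ 1 + |D| + |D| ^ 2 / 2 := by
        refine (norm_sub_le _ _).trans ?_
        refine add_le_add ((norm_add_le _ _).trans ?_) ?_
        · rw [norm_one, norm_mul, Complex.norm_I, mul_one, Complex.norm_real, Real.norm_eq_abs]
        · rw [norm_div, norm_pow, Complex.norm_real, Real.norm_eq_abs, Complex.norm_ofNat]
      linarith
    refine h1.trans ?_
    have h3 : |D| ≤ |D| ^ 3 := by
      have : |D| ^ 1 ≤ |D| ^ 3 := pow_le_pow_right₀ h.le (by norm_num)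
      simpa using this
    have h4 : |D| ^ 2 ≤ |D| ^ 3 := pow_le_pow_right₀ h.le (by norm_num)
    have h5 : 1 ≤ |D| ^ 3 := one_le_pow₀ h.le
    linarith

end Pool.Agent.MP_ca1109_lc.Hyb
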