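import Pool.Agent.MP_ca1109_lc.Hyb.C3
import Pool.Agent.MP_ca1109_lc.Hyb.C4

/-!
# Lindeberg's method for exp (i q)
-/

namespace Pool.Agent.MP_ca1109_lc.Hyb

open Pool.Agent.MP_ca1109_lc.Mpg Finset

variable {n k d : ℕ}

/- PROOF NOTES [HYB-C4b].  `D_b = q - avA (blk rr b) q`, `a_b = avA (blk rr b) q`.  Let `v_s` (`s ≤ k`) be `w b` for `s ≤ b` and uniform for `b < s`; `v_0 = w`, `v_k` uniform (`ex_mx_uni`).  Telescoping: it is enough to bound
`‖ex v_s E - ex v_{s+1} E‖`, `E y = ei (q (mx rr y))`, for the block `b = s`.  By `ex_block` both are `ex v_s (fun y => ∑ z, ν z * ei (q (z on blk b, mx y off)))` with `ν = w b` resp. uniform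
(the inner function does not depend on the letter `b`: `ex_congr_letter` of `A0`).  For fixed `x = mx rr y`:
 `ei (q x') = ei (a_b x) * ei (D_b x')`, `x' = (z on blk b, x off)` (`a_b x' = a_b x`).  `ei D = 1 + i D - D² / 2 + R`, `|R| ≤ 4 |D|³ ≤ 2 (κ D² + D⁴ / κ)`.  With `Close.block` for `D_b` and `D_b²` (degree `≤ 4 d`,
 `Indep A`), and for `D_b²`, `D_b⁴` again (upper bounds `∑ w D² ≤ (1 + γ) avA D²` etc.), `avA = avA (blk rr b)`, at `x`:
 `‖difference‖ ≤ γ avA |D_b| + γ / 2 avA D_b² + 2 (2 + γ) (κ avA D_b² + avA D_b⁴ / κ) ≤ γ + (2 γ + 6 κ) avA D_b² + 6 avA D_b⁴ / κ` (`|D| ≤ (1 + D²) / 2`, `γ ≤ 1`).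
 Outer expectation: `rex_poly_le` for `v_s` and the nonnegative polynomials `avA D_b²`, `avA D_b⁴` (degree `≤ 4 d`, `Indep A`; `avA_mem`, `avA_indep'`, `close_uni`), `avA_avg`, `(1 + γ) ^ k ≤ 2`.
 (All memberships in degree `4 d`: `lowDeg_pow`, `lowDeg_mono`; for `d` itself `d ≤ 4 d`.) -/

theorem c4b_amgm {κ : ℝ} (hκ : 0 < κ) (D : ℝ) :
    4 * |D| ^ 3 ≤ 2 * (κ * D ^ 2 + D ^ 4 / κ) := by
  have h2 : D ^ 2 = |D| ^ 2 := (sq_abs D).symm
  have h4 : D ^ 4 = |D| ^ 4 := by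
    rw [show D ^ 4 = (D ^ 2) ^ 2 by ring, h2]
    ring
  rw [h2, h4]
  have h : κ * |D| ^ 2 + |D| ^ 4 / κ - 2 * |D| ^ 3 = |D| ^ 2 * (κ - |D|) ^ 2 / κ := by
    field_simp
    ring
  have h5 : 0 ≤ |D| ^ 2 * (κ - |D|) ^ 2 / κ := by positivity
  linarith

theorem c4b_point {Z : Type*} [Fintype Z] {w u D : Z → ℝ} (hw : ∀ z, 0 ≤ w z)
    (hu : ∀ z, 0 ≤ u z) (hw1 : ∑ z, w z = 1) (hu1 : ∑ z, u z = 1) {γ κ : ℝ} (hγ : 0 ≤ γ)
    (hγ1 : γ ≤ 1) (hκ : 0 < κ)
    (h1 : |∑ z, w z * D z - ∑ z, u z * D z| ≤ γ * ∑ z, u z * |D z|)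
    (h2 : |∑ z, w z * D z ^ 2 - ∑ z, u z * D z ^ 2| ≤ γ * ∑ z, u z * D z ^ 2)
    (h4 : |∑ z, w z * D z ^ 4 - ∑ z, u z * D z ^ 4| ≤ γ * ∑ z, u z * D z ^ 4) :
    ‖∑ z, ((w z : ℂ) - (u z : ℂ)) * ei (D z)‖ ≤
      γ + (2 * γ + 6 * κ) * (∑ z, u z * D z ^ 2) + 6 * (∑ z, u z * D z ^ 4) / κ := by
  set P := ∑ z, u z * D z ^ 2 with hP
  set Q := ∑ z, u z * D z ^ 4 with hQ
  set P' := ∑ z, w z * D z ^ 2 with hP'
  set Q' := ∑ z, w z * D z ^ 4 with hQ'
  have hP0 : 0 ≤ P := Finset.sum_nonneg fun z _ => mul_nonneg (hu z) (sq_nonneg _)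
  have hQ0 : 0 ≤ Q := Finset.sum_nonneg fun z _ => mul_nonneg (hu z) (by positivity)
  have e1 : ∑ z, ((w z : ℂ) - (u z : ℂ)) * ei (D z) =
      ∑ z, ((w z : ℂ) - (u z : ℂ)) * (1 + D z * Complex.I - D z ^ 2 / 2) +
      ∑ z, ((w z : ℂ) - (u z : ℂ)) * (ei (D z) - (1 + D z * Complex.I - D z ^ 2 / 2)) := by
    rw [← Finset.sum_add_distrib]
    refine Finset.sum_congr rfl fun z _ => ?_
    ring
  have hmain : ∑ z, ((w z : ℂ) - (u z : ℂ)) * (1 + D z * Complex.I - D z ^ 2 / 2) =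
      ((∑ z, w z * D z - ∑ z, u z * D z : ℝ) : ℂ) * Complex.I - ((P' - P : ℝ) : ℂ) / 2 := by
    have e2 : (∑ z, (w z : ℂ)) = 1 := by exact_mod_cast hw1
    have e3 : (∑ z, (u z : ℂ)) = 1 := by exact_mod_cast hu1
    have e4 : ∀ z, ((w z : ℂ) - (u z : ℂ)) * (1 + D z * Complex.I - D z ^ 2 / 2) =
        ((w z : ℂ) - u z) + ((w z : ℂ) * D z - u z * D z) * Complex.I -
          ((w z : ℂ) * D z ^ 2 - u z * D z ^ 2) / 2 := by
      intro z
      ring
    rw [Finset.sum_congr rfl fun z _ => e4 z, Finset.sum_sub_distrib, Finset.sum_add_distrib,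
      Finset.sum_sub_distrib, ← Finset.sum_mul, ← Finset.sum_div, Finset.sum_sub_distrib,
      Finset.sum_sub_distrib, e2, e3, hP, hP']
    push_cast
    ring
  have hM1 : ∑ z, u z * |D z| ≤ (1 + P) / 2 := by
    have h5 : ∑ z, u z * |D z| ≤ ∑ z, u z * ((1 + D z ^ 2) / 2) := by
      refine Finset.sum_le_sum fun z _ => mul_le_mul_of_nonneg_left ?_ (hu z)
      have h6 := sq_nonneg (|D z| - 1)
      have h7 := sq_abs (D z)
      nlinarith
    refine h5.trans (le_of_eq ?_)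
    have h6 : ∑ z, u z * ((1 + D z ^ 2) / 2) = (∑ z, u z + ∑ z, u z * D z ^ 2) / 2 := by
      rw [← Finset.sum_add_distrib, Finset.sum_div]
      refine Finset.sum_congr rfl fun z _ => ?_
      ring
    rw [h6, hu1]
  have hrest : ‖∑ z, ((w z : ℂ) - (u z : ℂ)) *
      (ei (D z) - (1 + D z * Complex.I - D z ^ 2 / 2))‖ ≤ 2 * (κ * (P' + P) + (Q' + Q) / κ) := by
    refine (norm_sum_le _ _).trans ?_
    have h5 : ∀ z ∈ (Finset.univ : Finset Z), ‖((w z : ℂ) - (u z : ℂ)) *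
        (ei (D z) - (1 + D z * Complex.I - D z ^ 2 / 2))‖ ≤
        2 * (κ * (w z * D z ^ 2 + u z * D z ^ 2) + (w z * D z ^ 4 + u z * D z ^ 4) / κ) := by
      intro z _
      rw [norm_mul]
      have h6 : ‖(w z : ℂ) - (u z : ℂ)‖ ≤ w z + u z := by
        rw [← Complex.ofReal_sub, Complex.norm_real, Real.norm_eq_abs, abs_le]
        constructor
        · linarith [hw z, hu z]
        · linarith [hw z, hu z]
      have h7 := (ei_taylor (D z)).trans (c4b_amgm hκ (D z))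
      calc ‖(w z : ℂ) - (u z : ℂ)‖ * ‖ei (D z) - (1 + D z * Complex.I - D z ^ 2 / 2)‖
          ≤ (w z + u z) * (2 * (κ * D z ^ 2 + D z ^ 4 / κ)) :=
            mul_le_mul h6 h7 (norm_nonneg _) (by linarith [hw z, hu z])
        _ = _ := by ring
    refine (Finset.sum_le_sum h5).trans (le_of_eq ?_)
    rw [← Finset.mul_sum, Finset.sum_add_distrib, ← Finset.mul_sum, ← Finset.sum_div,
      Finset.sum_add_distrib, Finset.sum_add_distrib]
  rw [e1, hmain]
  have hA : ‖((∑ z, w z * D z - ∑ z, u z * D z : ℝ) : ℂ) * Complex.I‖ ≤ γ * ((1 + P) / 2) := by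
    rw [norm_mul, Complex.norm_I, mul_one, Complex.norm_real, Real.norm_eq_abs]
    exact h1.trans (mul_le_mul_of_nonneg_left hM1 hγ)
  have hB : ‖((P' - P : ℝ) : ℂ) / 2‖ ≤ γ * P / 2 := by
    rw [norm_div, Complex.norm_real, Real.norm_eq_abs, Complex.norm_ofNat]
    exact div_le_div_of_nonneg_right h2 (by norm_num)
  have hP1 : P' ≤ (1 + γ) * P := by
    have := (abs_le.1 h2).2
    linarith
  have hQ1 : Q' ≤ (1 + γ) * Q := by
    have := (abs_le.1 h4).2
    linarith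
  have hP2 : κ * (P' + P) ≤ κ * (3 * P) := by
    apply mul_le_mul_of_nonneg_left _ hκ.le
    have : γ * P ≤ 1 * P := mul_le_mul_of_nonneg_right hγ1 hP0
    linarith
  have hQ2 : (Q' + Q) / κ ≤ 3 * Q / κ := by
    apply div_le_div_of_nonneg_right _ hκ.le
    have : γ * Q ≤ 1 * Q := mul_le_mul_of_nonneg_right hγ1 hQ0
    linarith
  have hfin : γ * ((1 + P) / 2) + γ * P / 2 + 2 * (κ * (3 * P) + 3 * Q / κ) ≤
      γ + (2 * γ + 6 * κ) * P + 6 * Q / κ := by
    have h5 : 0 ≤ γ * P := mul_nonneg hγ hP0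
    have h6 : 2 * (κ * (3 * P) + 3 * Q / κ) = 6 * κ * P + 6 * Q / κ := by ring
    rw [h6]
    nlinarith
  have hn := norm_add_le (((∑ z, w z * D z - ∑ z, u z * D z : ℝ) : ℂ) * Complex.I -
    ((P' - P : ℝ) : ℂ) / 2) (∑ z, ((w z : ℂ) - (u z : ℂ)) *
      (ei (D z) - (1 + D z * Complex.I - D z ^ 2 / 2)))
  have hn2 := norm_sub_le (((∑ z, w z * D z - ∑ z, u z * D z : ℝ) : ℂ) * Complex.I)
    (((P' - P : ℝ) : ℂ) / 2)
  linarith

theorem c4b_avg {n : ℕ} (f : (Fin n → Bool) → ℝ) :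
    ∑ z, 1 / (Fintype.card (Fin n → Bool) : ℝ) * f z = avg f := by
  rw [← Finset.mul_sum]
  unfold avg
  ring

theorem lindeberg (rr : Fin n → Fin k) {w : Fin k → (Fin n → Bool) → ℝ} (hw : IsPM w) {γ : ℝ}
    (hγ : 0 ≤ γ) (hγ1 : γ ≤ 1) (hk : (1 + γ) ^ k ≤ 2) {A : Finset (Fin n)}
    (hc : ∀ b, Close A (4 * d) γ (w b)) {q : (Fin n → Bool) → ℝ}
    (hq : q ∈ lowDeg (Fin n) Bool ℝ d) (hA : Indep A q) {κ : ℝ} (hκ : 0 < κ) :
    ‖ex w (fun y => ei (q (mx rr y))) - av (fun x => ei (q x))‖ ≤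
      ∑ b, (γ + (4 * γ + 12 * κ) * avg (fun x => (q x - avA (blk rr b) q x) ^ 2) +
        12 * avg (fun x => (q x - avA (blk rr b) q x) ^ 4) / κ) := by
  classical
  set u : (Fin n → Bool) → ℝ := fun _ => 1 / (Fintype.card (Fin n → Bool) : ℝ) with hu
  set E : (Fin k → Fin n → Bool) → ℂ := fun y => ei (q (mx rr y)) with hE
  set v : ℕ → Fin k → (Fin n → Bool) → ℝ := fun s b => if (b : ℕ) < s then u else w b with hv
  have huni : IsPM (uni (Fin k) (Fin n → Bool)) := isPM_uni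
  have hvPM : ∀ s, IsPM (v s) := by
    intro s
    refine ⟨?_, ?_⟩
    · intro b z
      by_cases hb : (b : ℕ) < s
      · simp only [hv, if_pos hb]
        exact huni.nonneg b z
      · simp only [hv, if_neg hb]
        exact hw.nonneg b z
    · intro b
      by_cases hb : (b : ℕ) < s
      · simp only [hv, if_pos hb]
        exact huni.sum_one b
      · simp only [hv, if_neg hb]
        exact hw.sum_one b
  have hvClose : ∀ s b, Close A (4 * d) γ (v s b) := by
    intro s b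
    by_cases hb : (b : ℕ) < s
    · simp only [hv, if_pos hb]
      exact close_uni A (4 * d) hγ
    · simp only [hv, if_neg hb]
      exact hc b
  have hv0 : v 0 = w := by
    funext b
    simp only [hv, Nat.not_lt_zero, if_false]
  have hvk : v k = uni (Fin k) (Fin n → Bool) := by
    funext b
    simp only [hv, if_pos b.2]
    rfl
  have hend : av (fun x => ei (q x)) = ex (v k) E := by
    rw [hvk]
    exact (ex_mx_uni rr (fun x => ei (q x))).symm
  have htel : ex w E - av (fun x => ei (q x)) =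
      ∑ s ∈ Finset.range k, (ex (v s) E - ex (v (s + 1)) E) := by
    rw [Finset.sum_range_sub' (fun s => ex (v s) E), hv0, hend]
  rw [htel]
  refine (norm_sum_le _ _).trans ?_
  rw [Finset.sum_range]
  refine Finset.sum_le_sum fun b _ => ?_
  -- one block
  set a : (Fin n → Bool) → ℝ := avA (blk rr b) q with ha
  set D : (Fin n → Bool) → ℝ := fun x => q x - a x with hD
  have ham : a ∈ lowDeg (Fin n) Bool ℝ d := avA_mem hq _
  have hDm : D ∈ lowDeg (Fin n) Bool ℝ d := AddSubgroup.sub_mem _ hq ham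
  have hD1 : D ∈ lowDeg (Fin n) Bool ℝ (4 * d) := lowDeg_mono (by omega) hDm
  have hD2 : (fun x => D x ^ 2) ∈ lowDeg (Fin n) Bool ℝ (4 * d) :=
    lowDeg_mono (by omega) (lowDeg_pow hDm 2)
  have hD4 : (fun x => D x ^ 4) ∈ lowDeg (Fin n) Bool ℝ (4 * d) := lowDeg_pow hDm 4
  have haA : Indep A a := avA_indep' hA
  have hDA : Indep A D := by
    intro x y hxy
    simp only [hD]
    rw [hA x y hxy, haA x y hxy]
  have hD2A : Indep A (fun x => D x ^ 2) := fun x y hxy => by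
    simp only []
    rw [hDA x y hxy]
  have hD4A : Indep A (fun x => D x ^ 4) := fun x y hxy => by
    simp only []
    rw [hDA x y hxy]
  set P : (Fin n → Bool) → ℝ := avA (blk rr b) (fun x => D x ^ 2) with hP
  set Q : (Fin n → Bool) → ℝ := avA (blk rr b) (fun x => D x ^ 4) with hQ
  -- both expectations over the letter `b`
  have hvb : v b b = w b := by simp only [hv, lt_irrefl, if_false]
  have hvb1 : v (b + 1) b = u := by
    simp only [hv, if_pos (Nat.lt_succ_self (b : ℕ))]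
  have hE1 : ex (v b) E = ex (v b) (fun y => ∑ z, (w b z : ℂ) * E (Function.update y b z)) := by
    rw [ex_block (hvPM b) b E, hvb]
  have hE2 : ex (v (b + 1)) E =
      ex (v b) (fun y => ∑ z, (u z : ℂ) * E (Function.update y b z)) := by
    rw [ex_block (hvPM (b + 1)) b E, hvb1]
    refine ex_congr_letter (hvPM _) (hvPM _) (b := b) ?_ ?_
    · intro b' hb'
      have hne : (b' : ℕ) ≠ b := fun h => hb' (Fin.ext h)
      by_cases h1 : (b' : ℕ) < b
      · simp only [hv, if_pos h1, if_pos (show (b' : ℕ) < b + 1 by omega)]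
      · simp only [hv, if_neg h1, if_neg (show ¬ (b' : ℕ) < b + 1 by omega)]
    · intro y c
      simp only [Function.update_idem]
  have hdiff : ex (v b) E - ex (v (b + 1)) E =
      ex (v b) (fun y => ∑ z, ((w b z : ℂ) - (u z : ℂ)) * E (Function.update y b z)) := by
    rw [hE1, hE2, ← ex_sub]
    congr 1
    funext y
    rw [← Finset.sum_sub_distrib]
    refine Finset.sum_congr rfl fun z _ => ?_
    ring
  rw [hdiff]
  have hpt : ∀ y, ‖∑ z, ((w b z : ℂ) - (u z : ℂ)) * E (Function.update y b z)‖ ≤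
      γ + (2 * γ + 6 * κ) * P (mx rr y) + 6 * Q (mx rr y) / κ := by
    intro y
    set x := mx rr y with hx
    set sx : (Fin n → Bool) → Fin n → Bool := fun z i => if i ∈ blk rr b then z i else x i with hsx
    have hEz : ∀ z, E (Function.update y b z) = ei (a x) * ei (D (sx z)) := by
      intro z
      simp only [hE]
      rw [mx_update, ← ei_add]
      congr 1
      have h1 : a x = a (sx z) := by
        apply avA_indep (blk rr b)
        intro i hi
        simp only [hsx, if_neg hi]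
      rw [h1]
      simp only [hD]
      change q (sx z) = _
      ring
    have h2 : ∑ z, ((w b z : ℂ) - (u z : ℂ)) * E (Function.update y b z) =
        ei (a x) * ∑ z, ((w b z : ℂ) - (u z : ℂ)) * ei (D (sx z)) := by
      rw [Finset.mul_sum]
      refine Finset.sum_congr rfl fun z _ => ?_
      rw [hEz z]
      ring
    rw [h2, norm_mul, ei_norm, one_mul]
    have hPx : ∑ z, u z * D (sx z) ^ 2 = P x := c4b_avg (fun z => D (sx z) ^ 2)
    have hQx : ∑ z, u z * D (sx z) ^ 4 = Q x := c4b_avg (fun z => D (sx z) ^ 4)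
    have hb1 := (hc b).block hD1 hDA rr b x
    have hb2 := (hc b).block hD2 hD2A rr b x
    have hb4 := (hc b).block hD4 hD4A rr b x
    have h3 := c4b_point (w := w b) (u := u) (D := fun z => D (sx z)) (hw.nonneg b)
      (fun z => huni.nonneg b z) (hw.sum_one b) (huni.sum_one b) hγ hγ1 hκ ?_ ?_ ?_
    · rw [hPx, hQx] at h3
      exact h3
    · have e1 : ∑ z, u z * D (sx z) = avA (blk rr b) D x := c4b_avg (fun z => D (sx z))
      have e2 : ∑ z, u z * |D (sx z)| = avA (blk rr b) (fun x => |D x|) x :=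
        c4b_avg (fun z => |D (sx z)|)
      rw [e1, e2]
      exact hb1
    · rw [hPx]
      have e2 : avA (blk rr b) (fun x => |D x ^ 2|) x = P x := by
        rw [hP]
        congr 1
        funext x
        exact abs_of_nonneg (sq_nonneg _)
      rw [e2] at hb2
      exact hb2
    · rw [hQx]
      have e2 : avA (blk rr b) (fun x => |D x ^ 4|) x = Q x := by
        rw [hQ]
        congr 1
        funext x
        exact abs_of_nonneg (by positivity)
      rw [e2] at hb4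
      exact hb4
  refine (norm_ex_le (hvPM b) hpt).trans ?_
  have hP0 : ∀ x, 0 ≤ P x := fun x => avg_nonneg fun z => sq_nonneg _
  have hQ0 : ∀ x, 0 ≤ Q x := fun x => avg_nonneg fun z => by positivity
  have hrP := rex_poly_le rr (hvPM b) hγ (hvClose b) (avA_mem hD2 (blk rr b)) (avA_indep' hD2A) hP0
  have hrQ := rex_poly_le rr (hvPM b) hγ (hvClose b) (avA_mem hD4 (blk rr b)) (avA_indep' hD4A) hQ0
  rw [avA_avg] at hrP hrQ
  have hsplit : rex (v b) (fun y => γ + (2 * γ + 6 * κ) * P (mx rr y) + 6 * Q (mx rr y) / κ) =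
      γ + (2 * γ + 6 * κ) * rex (v b) (fun y => P (mx rr y)) +
        6 / κ * rex (v b) (fun y => Q (mx rr y)) := by
    have e1 : (fun y => γ + (2 * γ + 6 * κ) * P (mx rr y) + 6 * Q (mx rr y) / κ) =
        fun y => (γ + (2 * γ + 6 * κ) * P (mx rr y)) + 6 / κ * Q (mx rr y) := by
      funext y
      ring
    rw [e1, rex_add, rex_add, rex_const (hvPM b), rex_mul_left, rex_mul_left]
  rw [hsplit]
  have h5 : rex (v b) (fun y => P (mx rr y)) ≤ 2 * avg (fun x => D x ^ 2) :=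
    hrP.trans (mul_le_mul_of_nonneg_right hk (avg_nonneg fun x => sq_nonneg _))
  have h6 : rex (v b) (fun y => Q (mx rr y)) ≤ 2 * avg (fun x => D x ^ 4) :=
    hrQ.trans (mul_le_mul_of_nonneg_right hk (avg_nonneg fun x => by positivity))
  have h7 : (2 * γ + 6 * κ) * rex (v b) (fun y => P (mx rr y)) ≤
      (2 * γ + 6 * κ) * (2 * avg (fun x => D x ^ 2)) :=
    mul_le_mul_of_nonneg_left h5 (by positivity)
  have h8 : 6 / κ * rex (v b) (fun y => Q (mx rr y)) ≤ 6 / κ * (2 * avg (fun x => D x ^ 4)) :=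
    mul_le_mul_of_nonneg_left h6 (by positivity)
  have h9 : 6 / κ * (2 * avg (fun x => D x ^ 4)) = 12 * avg (fun x => D x ^ 4) / κ := by ring
  rw [h9] at h8
  have h10 : (2 * γ + 6 * κ) * (2 * avg (fun x => D x ^ 2)) =
      (4 * γ + 12 * κ) * avg (fun x => D x ^ 2) := by ring
  rw [h10] at h7
  linarith

end Pool.Agent.MP_ca1109_lc.Hyb
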