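import Pool.Agent.MP_ca1109_lc.Hyb.C3
import Pool.Agent.MP_ca1109_lc.Hyb.C4

/-!
# The differences of exp (i q)
-/

namespace Pool.Agent.MP_ca1109_lc.Hyb

open Pool.Agent.MP_ca1109_lc.Mpg Finset

variable {n k d : ℕ}

/- PROOF NOTES [HYB-C5].  `E y = ei (q (mx rr y))`, `D_b = q - avA (blk rr b) q`.
`Db w b E y = ∑ z, w b z * (E y - E (update y b z))` (`∑ w b = 1`), `‖E y - E (update y b z)‖ ≤ |q (mx y) - q (mx (update y b z))| ≤ |D_b (mx y)| + |D_b (mx (update y b z))|` (`ei_lip`; the two strings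
agree off `blk rr b`, so `avA (blk rr b) q` has the same value, `avA_indep`).  Convexity: `‖Db‖² ≤ 2 D_b (mx y)² + 2 ∑ z, w b z * D_b (mx (update y b z))²`,
`‖Db‖⁴ ≤ 8 D_b⁴ + 8 ∑ z, w b z * D_b⁴(..)` (`(∑ w t)^p ≤ ∑ w t^p`: `inner_le_nnorm_mul_nnorm`/`Real.inner_le..`, or `Finset.inner_mul_le_norm_mul_norm`; e.g. `inner` Cauchy-Schwarz twice).
Expectation: `rex_block` turns the second term into `rex w (D_b (mx y) ^ p)`, so `≤ 4 rex w D_b²` resp. `16 rex w D_b⁴`, and `rex_poly_le` with `(1 + γ) ^ k ≤ 2` (degree `2 d`, `4 d`). -/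

theorem c5_lip (rr : Fin n → Fin k) {w : Fin k → (Fin n → Bool) → ℝ} (hw : IsPM w)
    (q : (Fin n → Bool) → ℝ) (b : Fin k) (y : Fin k → Fin n → Bool) :
    ‖Db w b (fun y => ei (q (mx rr y))) y‖ ≤ ∑ a, w b a *
      (|q (mx rr y) - avA (blk rr b) q (mx rr y)| +
        |q (mx rr (Function.update y b a)) -
          avA (blk rr b) q (mx rr (Function.update y b a))|) := by
  have h1 : Db w b (fun y => ei (q (mx rr y))) y = ∑ a, (w b a : ℂ) *
      (ei (q (mx rr y)) - ei (q (mx rr (Function.update y b a)))) := by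
    unfold Db
    have h2 : ∑ a, (w b a : ℂ) * ei (q (mx rr y)) = ei (q (mx rr y)) := by
      rw [← Finset.sum_mul, ← Complex.ofReal_sum, hw.sum_one b, Complex.ofReal_one, one_mul]
    have h3 : ∑ a, (w b a : ℂ) * (ei (q (mx rr y)) - ei (q (mx rr (Function.update y b a)))) =
        ∑ a, (w b a : ℂ) * ei (q (mx rr y)) -
          ∑ a, (w b a : ℂ) * ei (q (mx rr (Function.update y b a))) := by
      rw [← Finset.sum_sub_distrib]
      exact Finset.sum_congr rfl fun a _ => mul_sub _ _ _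
    rw [h3, h2]
  rw [h1]
  refine (norm_sum_le _ _).trans (Finset.sum_le_sum fun a _ => ?_)
  rw [norm_mul, Complex.norm_real, Real.norm_of_nonneg (hw.nonneg b a)]
  refine mul_le_mul_of_nonneg_left ?_ (hw.nonneg b a)
  have h4 : avA (blk rr b) q (mx rr (Function.update y b a)) = avA (blk rr b) q (mx rr y) := by
    refine avA_indep (f := q) (blk rr b) _ _ fun i hi => ?_
    rw [mx_update]
    exact if_neg hi
  rw [h4]
  calc ‖ei (q (mx rr y)) - ei (q (mx rr (Function.update y b a)))‖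
      ≤ |q (mx rr y) - q (mx rr (Function.update y b a))| := ei_lip _ _
    _ = |(q (mx rr y) - avA (blk rr b) q (mx rr y)) -
          (q (mx rr (Function.update y b a)) - avA (blk rr b) q (mx rr y))| := by
        congr 1
        ring
    _ ≤ _ := abs_sub _ _

theorem c5_main (p : ℕ) (hp : Even p) (hp4 : p ≤ 4) (rr : Fin n → Fin k)
    {w : Fin k → (Fin n → Bool) → ℝ} (hw : IsPM w) {γ : ℝ}
    (hγ : 0 ≤ γ) (hk : (1 + γ) ^ k ≤ 2) {A : Finset (Fin n)} (hc : ∀ b, Close A (4 * d) γ (w b))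
    {q : (Fin n → Bool) → ℝ} (hq : q ∈ lowDeg (Fin n) Bool ℝ d) (hA : Indep A q) (b : Fin k) :
    rex w (fun y => ‖Db w b (fun y => ei (q (mx rr y))) y‖ ^ p) ≤
      4 * 2 ^ (p - 1) * avg (fun x => (q x - avA (blk rr b) q x) ^ p) := by
  have hDl : (fun x => q x - avA (blk rr b) q x) ∈ lowDeg (Fin n) Bool ℝ d :=
    AddSubgroup.sub_mem _ hq (avA_mem hq _)
  have hrl : (fun x => (q x - avA (blk rr b) q x) ^ p) ∈ lowDeg (Fin n) Bool ℝ (4 * d) :=
    lowDeg_mono (Nat.mul_le_mul_right d hp4) (lowDeg_pow hDl p)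
  have hrI : Indep A (fun x => (q x - avA (blk rr b) q x) ^ p) := by
    intro x y hxy
    have h1 : q x = q y := hA x y hxy
    have h2 : avA (blk rr b) q x = avA (blk rr b) q y :=
      avA_indep' (A := blk rr b) hA x y hxy
    show (q x - avA (blk rr b) q x) ^ p = (q y - avA (blk rr b) q y) ^ p
    rw [h1, h2]
  have hr0 : ∀ x, 0 ≤ (q x - avA (blk rr b) q x) ^ p := fun x => hp.pow_nonneg _
  have hmain := rex_poly_le rr hw hγ hc hrl hrI hr0
  have hav : 0 ≤ avg (fun x => (q x - avA (blk rr b) q x) ^ p) := avg_nonneg hr0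
  have h2 : rex w (fun y => (q (mx rr y) - avA (blk rr b) q (mx rr y)) ^ p) ≤
      2 * avg (fun x => (q x - avA (blk rr b) q x) ^ p) :=
    hmain.trans (mul_le_mul_of_nonneg_right hk hav)
  have h3 := rex_block hw b (fun y => (q (mx rr y) - avA (blk rr b) q (mx rr y)) ^ p)
  have hpt : ∀ y, ‖Db w b (fun y => ei (q (mx rr y))) y‖ ^ p ≤
      2 ^ (p - 1) * (q (mx rr y) - avA (blk rr b) q (mx rr y)) ^ p +
        2 ^ (p - 1) * ∑ a, w b a * (q (mx rr (Function.update y b a)) -
          avA (blk rr b) q (mx rr (Function.update y b a))) ^ p := by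
    intro y
    calc ‖Db w b (fun y => ei (q (mx rr y))) y‖ ^ p
        ≤ (∑ a, w b a * (|q (mx rr y) - avA (blk rr b) q (mx rr y)| +
            |q (mx rr (Function.update y b a)) -
              avA (blk rr b) q (mx rr (Function.update y b a))|)) ^ p :=
          pow_le_pow_left₀ (norm_nonneg _) (c5_lip rr hw q b y) p
      _ ≤ ∑ a, w b a * (|q (mx rr y) - avA (blk rr b) q (mx rr y)| +
            |q (mx rr (Function.update y b a)) -
              avA (blk rr b) q (mx rr (Function.update y b a))|) ^ p :=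
          Real.pow_arith_mean_le_arith_mean_pow Finset.univ _ _
            (fun a _ => hw.nonneg b a) (hw.sum_one b)
            (fun a _ => add_nonneg (abs_nonneg _) (abs_nonneg _)) p
      _ ≤ ∑ a, w b a * (2 ^ (p - 1) * ((q (mx rr y) - avA (blk rr b) q (mx rr y)) ^ p +
            (q (mx rr (Function.update y b a)) -
              avA (blk rr b) q (mx rr (Function.update y b a))) ^ p)) := by
          refine Finset.sum_le_sum fun a _ => mul_le_mul_of_nonneg_left ?_ (hw.nonneg b a)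
          have h5 := add_pow_le (abs_nonneg (q (mx rr y) - avA (blk rr b) q (mx rr y)))
            (abs_nonneg (q (mx rr (Function.update y b a)) -
              avA (blk rr b) q (mx rr (Function.update y b a)))) p
          rwa [hp.pow_abs, hp.pow_abs] at h5
      _ = _ := by
          have h6 : ∀ a, w b a * (2 ^ (p - 1) * ((q (mx rr y) - avA (blk rr b) q (mx rr y)) ^ p +
            (q (mx rr (Function.update y b a)) -
              avA (blk rr b) q (mx rr (Function.update y b a))) ^ p)) =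
              w b a * (2 ^ (p - 1) * (q (mx rr y) - avA (blk rr b) q (mx rr y)) ^ p) +
              2 ^ (p - 1) * (w b a * (q (mx rr (Function.update y b a)) -
              avA (blk rr b) q (mx rr (Function.update y b a))) ^ p) := fun a => by ring
          rw [Finset.sum_congr rfl fun a _ => h6 a, Finset.sum_add_distrib, ← Finset.sum_mul,
            hw.sum_one b, one_mul, ← Finset.mul_sum]
  calc rex w (fun y => ‖Db w b (fun y => ei (q (mx rr y))) y‖ ^ p)
      ≤ rex w (fun y => 2 ^ (p - 1) * (q (mx rr y) - avA (blk rr b) q (mx rr y)) ^ p +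
        2 ^ (p - 1) * ∑ a, w b a * (q (mx rr (Function.update y b a)) -
          avA (blk rr b) q (mx rr (Function.update y b a))) ^ p) := rex_mono hw hpt
    _ = 2 ^ (p - 1) * rex w (fun y => (q (mx rr y) - avA (blk rr b) q (mx rr y)) ^ p) +
        2 ^ (p - 1) * rex w (fun y => (q (mx rr y) - avA (blk rr b) q (mx rr y)) ^ p) := by
        rw [rex_add w (fun y => 2 ^ (p - 1) * (q (mx rr y) - avA (blk rr b) q (mx rr y)) ^ p)
          (fun y => 2 ^ (p - 1) * ∑ a, w b a * (q (mx rr (Function.update y b a)) -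
          avA (blk rr b) q (mx rr (Function.update y b a))) ^ p), rex_mul_left, rex_mul_left]
        congr 2
        exact h3.symm
    _ ≤ 2 ^ (p - 1) * (2 * avg (fun x => (q x - avA (blk rr b) q x) ^ p)) +
        2 ^ (p - 1) * (2 * avg (fun x => (q x - avA (blk rr b) q x) ^ p)) :=
        add_le_add (mul_le_mul_of_nonneg_left h2 (by positivity))
          (mul_le_mul_of_nonneg_left h2 (by positivity))
    _ = _ := by ring

theorem incr_sq (rr : Fin n → Fin k) {w : Fin k → (Fin n → Bool) → ℝ} (hw : IsPM w) {γ : ℝ}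
    (hγ : 0 ≤ γ) (hk : (1 + γ) ^ k ≤ 2) {A : Finset (Fin n)} (hc : ∀ b, Close A (4 * d) γ (w b))
    {q : (Fin n → Bool) → ℝ} (hq : q ∈ lowDeg (Fin n) Bool ℝ d) (hA : Indep A q) (b : Fin k) :
    rex w (fun y => ‖Db w b (fun y => ei (q (mx rr y))) y‖ ^ 2) ≤
      8 * avg (fun x => (q x - avA (blk rr b) q x) ^ 2) := by
  have h := c5_main 2 (by decide) (by norm_num) rr hw hγ hk hc hq hA b
  norm_num at h
  exact h

theorem incr_four (rr : Fin n → Fin k) {w : Fin k → (Fin n → Bool) → ℝ} (hw : IsPM w) {γ : ℝ}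
    (hγ : 0 ≤ γ) (hk : (1 + γ) ^ k ≤ 2) {A : Finset (Fin n)} (hc : ∀ b, Close A (4 * d) γ (w b))
    {q : (Fin n → Bool) → ℝ} (hq : q ∈ lowDeg (Fin n) Bool ℝ d) (hA : Indep A q) (b : Fin k) :
    rex w (fun y => ‖Db w b (fun y => ei (q (mx rr y))) y‖ ^ 4) ≤
      32 * avg (fun x => (q x - avA (blk rr b) q x) ^ 4) := by
  have h := c5_main 4 (by decide) (by norm_num) rr hw hγ hk hc hq hA b
  norm_num at h
  exact h

end Pool.Agent.MP_ca1109_lc.Hyb
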