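import Pool.Agent.MP_ca1109_lc.Hyb.A6
import Pool.Agent.MP_ca1109_lc.Hyb.B1b
import Pool.Agent.MP_ca1109_lc.Hyb.C4b
import Pool.Agent.MP_ca1109_lc.Hyb.C5

/-!
# Products of exp (i q) and a phase
-/

namespace Pool.Agent.MP_ca1109_lc.Hyb

open Pool.Agent.MP_ca1109_lc.Mpg Finset

/- PROOF NOTES [HYB-C6].  `D_b = q - avA (blk rr b) q`.  `∑ b, avg D_b² ≤ ∑ b, ∑ i ∈ blk rr b, infl i q = ∑ i, infl i q ≤ d C` (`dev_le`, `sum_infl_le`, `Finset.sum_fiberwise`).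
`C₁ = max C 0`.  `τ₀` from `decouple m d (8 d C₁) (ε / 3)`.  `κ > 0` with `12 κ d C₁ ≤ ε / 9`; `τ = min (τ₀ / 32) (κ ε / 108)` (so `12 τ / κ ≤ ε / 9`); `γ₀ ≤ 1/2` with `γ₀ (1 + 4 d C₁) ≤ ε / 9`.
With `γ = γ₀ / k`: `(1 + γ) ^ k ≤ exp γ₀ ≤ 2` (`k = 0`: trivial), `k γ ≤ γ₀`.
`f x = ph m (Q x)`, `f ∘ mx ∈ phases` (`lowDeg_mx`), `G y = ei (q (mx rr y))`.
 (1) `‖ex w (G f) - ex w G * ex w f‖ ≤ ε / 3`: `decouple` with `incr_sq`, `incr_four`.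
 (2) `‖av (G f) - av G * av f‖ ≤ ε / 3`: the same for the uniform product measure (`ex_mx_uni`, `close_uni` with `γ = 0`).
 (3) `‖ex w G - av G‖ ≤ ε / 3`: `lindeberg` with `γ = γ₀ / k`: `k γ + (4 γ + 12 κ) d C₁ + 12 τ / κ`.
 Then `ex w (G f) - av (G f) = [ex w (G f) - ex w G ex w f] + (ex w G - av G) ex w f + av G (ex w f - av f) + [av G av f - av (G f)]`, `‖ex w f‖ ≤ 1`, `‖av G‖ ≤ 1`. -/

theorem c6_pow {k : ℕ} {γ₀ : ℝ} (h0 : 0 ≤ γ₀) (h1 : γ₀ ≤ 1 / 2) : (1 + γ₀ / k) ^ k ≤ 2 := by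
  have h2 : (1 + γ₀ / k) ^ k ≤ Real.exp γ₀ := by
    rcases Nat.eq_zero_or_pos k with hk | hk
    · subst hk
      rw [pow_zero]
      exact Real.one_le_exp h0
    · have hk0 : (0 : ℝ) < k := by exact_mod_cast hk
      have h3 : 1 + γ₀ / k ≤ Real.exp (γ₀ / k) := by
        have := Real.add_one_le_exp (γ₀ / k)
        linarith
      have h4 : (1 + γ₀ / k) ^ k ≤ Real.exp (γ₀ / k) ^ k :=
        pow_le_pow_left₀ (by positivity) h3 k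
      rw [← Real.exp_nat_mul, mul_div_cancel₀ _ hk0.ne'] at h4
      exact h4
  have h3 : Real.exp γ₀ ≤ Real.exp (1 / 2) := Real.exp_le_exp.2 h1
  have h4 : Real.exp (1 / 2) * Real.exp (1 / 2) = Real.exp 1 := by
    rw [← Real.exp_add]
    norm_num
  have h5 := Real.exp_one_lt_d9
  have h6 := Real.exp_pos (1 / 2)
  nlinarith

theorem c6_sum {n k d : ℕ} (rr : Fin n → Fin k) {C : ℝ} {q : (Fin n → Bool) → ℝ}
    (hq : q ∈ lowDeg (Fin n) Bool ℝ d) (hC : avg (fun x => q x ^ 2) ≤ C) :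
    ∑ b, avg (fun x => (q x - avA (blk rr b) q x) ^ 2) ≤ d * C := by
  calc ∑ b, avg (fun x => (q x - avA (blk rr b) q x) ^ 2)
      ≤ ∑ b, ∑ j ∈ blk rr b, infl j q := Finset.sum_le_sum fun b _ => dev_le (blk rr b) q
    _ = ∑ j, infl j q := Finset.sum_fiberwise Finset.univ rr (fun j => infl j q)
    _ ≤ d * avg (fun x => q x ^ 2) := sum_infl_le hq
    _ ≤ d * C := mul_le_mul_of_nonneg_left hC (Nat.cast_nonneg d)

theorem exp_fool (m : ℕ) [NeZero m] (d : ℕ) (C : ℝ) {ε : ℝ} (hε : 0 < ε) :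
    ∃ τ > 0, ∃ γ₀ > 0, γ₀ ≤ 1 / 2 ∧ ∀ (n k : ℕ) (rr : Fin n → Fin k) (A : Finset (Fin n))
      (w : Fin k → (Fin n → Bool) → ℝ), IsPM w → (∀ b, Close A (4 * d) (γ₀ / k) (w b)) →
      ∀ q ∈ lowDeg (Fin n) Bool ℝ d, Indep A q → avg (fun x => q x ^ 2) ≤ C →
      ∑ b, avg (fun x => (q x - avA (blk rr b) q x) ^ 4) ≤ τ →
      ∀ f ∈ phCls m Bool d n,
        ‖ex w (fun y => ei (q (mx rr y)) * f (mx rr y)) - av (fun x => ei (q x) * f x)‖ ≤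
          ε + ‖ex w (fun y => f (mx rr y)) - av f‖ := by
  obtain ⟨C₁, hC₁⟩ : ∃ C₁, C₁ = max C 0 := ⟨_, rfl⟩
  have hC0 : 0 ≤ C₁ := by rw [hC₁]; exact le_max_right _ _
  have hCC : C ≤ C₁ := by rw [hC₁]; exact le_max_left _ _
  obtain ⟨E, hE⟩ : ∃ E, E = (d : ℝ) * C₁ := ⟨_, rfl⟩
  have hE0 : 0 ≤ E := by rw [hE]; positivity
  obtain ⟨τ₀, hτ₀, hdec⟩ := decouple m d (8 * E) (ε / 3) (by positivity)
  obtain ⟨κ, hκ⟩ : ∃ κ, κ = ε / (108 * (E + 1)) := ⟨_, rfl⟩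
  have hκ0 : 0 < κ := by rw [hκ]; positivity
  have hκE : 12 * κ * E ≤ ε / 9 := by
    have h1 : κ * (108 * (E + 1)) = ε := by
      rw [hκ]
      field_simp
    nlinarith
  obtain ⟨τ, hτ⟩ : ∃ τ, τ = min (τ₀ / 32) (κ * ε / 108) := ⟨_, rfl⟩
  have hτ0 : 0 < τ := by rw [hτ]; exact lt_min (by positivity) (by positivity)
  have hτ1 : 32 * τ ≤ τ₀ := by
    have : τ ≤ τ₀ / 32 := by rw [hτ]; exact min_le_left _ _
    linarith
  have hτ2 : 12 * τ / κ ≤ ε / 9 := by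
    have : τ ≤ κ * ε / 108 := by rw [hτ]; exact min_le_right _ _
    rw [div_le_iff₀ hκ0]
    linarith
  obtain ⟨γ₀, hγ⟩ : ∃ γ₀, γ₀ = min (1 / 2) (ε / (9 * (1 + 4 * E))) := ⟨_, rfl⟩
  have hγ0 : 0 < γ₀ := by rw [hγ]; exact lt_min (by norm_num) (by positivity)
  have hγ1 : γ₀ ≤ 1 / 2 := by rw [hγ]; exact min_le_left _ _
  have hγ2 : γ₀ * (1 + 4 * E) ≤ ε / 9 := by
    have h1 : γ₀ ≤ ε / (9 * (1 + 4 * E)) := by rw [hγ]; exact min_le_right _ _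
    have h2 : 0 < 9 * (1 + 4 * E) := by positivity
    rw [le_div_iff₀ h2] at h1
    linarith
  refine ⟨τ, hτ0, γ₀, hγ0, hγ1, ?_⟩
  intro n k rr A w hw hc q hq hA hqC hq4 f hf
  obtain ⟨Q, hQ, rfl⟩ := hf
  have hγk0 : 0 ≤ γ₀ / k := by positivity
  have hγk1 : γ₀ / k ≤ γ₀ := by
    rcases Nat.eq_zero_or_pos k with hk | hk
    · subst hk
      simp only [Nat.cast_zero, div_zero]
      exact hγ0.le
    · exact div_le_self hγ0.le (by exact_mod_cast hk)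
  have hγk2 : (k : ℝ) * (γ₀ / k) ≤ γ₀ := by
    rcases Nat.eq_zero_or_pos k with hk | hk
    · subst hk
      simp only [Nat.cast_zero, zero_mul]
      exact hγ0.le
    · have hk0 : (0 : ℝ) < k := by exact_mod_cast hk
      rw [mul_div_cancel₀ _ hk0.ne']
  have hpow : (1 + γ₀ / k) ^ k ≤ 2 := c6_pow hγ0.le hγ1
  have hS2 : ∑ b, avg (fun x => (q x - avA (blk rr b) q x) ^ 2) ≤ E := by
    rw [hE]
    exact c6_sum rr hq (hqC.trans hCC)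
  have key : ∀ (v : Fin k → (Fin n → Bool) → ℝ), IsPM v → ∀ γ : ℝ, 0 ≤ γ → (1 + γ) ^ k ≤ 2 →
      (∀ b, Close A (4 * d) γ (v b)) →
      ‖ex v (fun y => ei (q (mx rr y)) * ph m (Q (mx rr y))) -
        ex v (fun y => ei (q (mx rr y))) * ex v (fun y => ph m (Q (mx rr y)))‖ ≤ ε / 3 := by
    intro v hv γ hg0 hgk hcl
    refine hdec k (Fin n → Bool) v hv (fun y => ei (q (mx rr y))) ?_ ?_
      (fun y => Q (mx rr y)) (lowDeg_mx rr hQ)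
    · calc ∑ b, rex v (fun x => ‖Db v b (fun y => ei (q (mx rr y))) x‖ ^ 2)
          ≤ ∑ b, 8 * avg (fun x => (q x - avA (blk rr b) q x) ^ 2) :=
            Finset.sum_le_sum fun b _ => incr_sq rr hv hg0 hgk hcl hq hA b
        _ = 8 * ∑ b, avg (fun x => (q x - avA (blk rr b) q x) ^ 2) := by
            rw [Finset.mul_sum]
        _ ≤ 8 * E := by linarith
    · calc ∑ b, rex v (fun x => ‖Db v b (fun y => ei (q (mx rr y))) x‖ ^ 4)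
          ≤ ∑ b, 32 * avg (fun x => (q x - avA (blk rr b) q x) ^ 4) :=
            Finset.sum_le_sum fun b _ => incr_four rr hv hg0 hgk hcl hq hA b
        _ = 32 * ∑ b, avg (fun x => (q x - avA (blk rr b) q x) ^ 4) := by
            rw [Finset.mul_sum]
        _ ≤ τ₀ := by linarith
  have k1 := key w hw (γ₀ / k) hγk0 hpow hc
  have k2 := key (uni (Fin k) (Fin n → Bool)) isPM_uni 0 le_rfl (by norm_num)
    (fun b => close_uni A (4 * d) le_rfl)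
  rw [ex_mx_uni rr (fun x => ei (q x) * ph m (Q x)), ex_mx_uni rr (fun x => ei (q x)),
    ex_mx_uni rr (fun x => ph m (Q x))] at k2
  have k3 := lindeberg rr hw hγk0 (by linarith) hpow hc hq hA hκ0
  have k3' : ∑ b, (γ₀ / k + (4 * (γ₀ / k) + 12 * κ) *
      avg (fun x => (q x - avA (blk rr b) q x) ^ 2) +
        12 * avg (fun x => (q x - avA (blk rr b) q x) ^ 4) / κ) ≤ ε / 3 := by
    rw [Finset.sum_add_distrib, Finset.sum_add_distrib, Finset.sum_const, Finset.card_univ,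
      Fintype.card_fin, nsmul_eq_mul, ← Finset.mul_sum, ← Finset.sum_div, ← Finset.mul_sum]
    have e1 : (4 * (γ₀ / k) + 12 * κ) * ∑ b, avg (fun x => (q x - avA (blk rr b) q x) ^ 2) ≤
        (4 * γ₀ + 12 * κ) * E := by
      apply mul_le_mul _ hS2 _ (by positivity)
      · linarith
      · exact Finset.sum_nonneg fun b _ => avg_nonneg fun x => sq_nonneg _
    have e2 : (12 * ∑ b, avg (fun x => (q x - avA (blk rr b) q x) ^ 4)) / κ ≤ 12 * τ / κ := by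
      apply div_le_div_of_nonneg_right _ hκ0.le
      linarith
    have e3 : (4 * γ₀ + 12 * κ) * E = 4 * γ₀ * E + 12 * κ * E := by ring
    have e4 : γ₀ * (1 + 4 * E) = γ₀ + 4 * γ₀ * E := by ring
    linarith
  have n1 : ‖ex w (fun y => ph m (Q (mx rr y)))‖ ≤ 1 := by
    have h1 : ‖ex w (fun y => ph m (Q (mx rr y)))‖ ≤ rex w (fun _ => 1) :=
      norm_ex_le hw fun y => le_of_eq (Agp.tw_norm (d := d) ⟨Q, hQ, rfl⟩ (mx rr y))
    rwa [rex_const hw] at h1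
  have n2 : ‖av (fun x : Fin n → Bool => ei (q x))‖ ≤ 1 := by
    refine (Agp.norm_av_le _).trans ?_
    have h1 : (fun x : Fin n → Bool => ‖ei (q x)‖) = fun _ => 1 := by
      funext x
      exact ei_norm _
    rw [h1, avg_const]
  obtain ⟨a1, ha1⟩ : ∃ z, z = ex w (fun y => ei (q (mx rr y)) * ph m (Q (mx rr y))) := ⟨_, rfl⟩
  obtain ⟨a2, ha2⟩ : ∃ z, z = ex w (fun y => ei (q (mx rr y))) := ⟨_, rfl⟩
  obtain ⟨a3, ha3⟩ : ∃ z, z = ex w (fun y => ph m (Q (mx rr y))) := ⟨_, rfl⟩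
  obtain ⟨b1, hb1⟩ : ∃ z, z = av (fun x : Fin n → Bool => ei (q x) * ph m (Q x)) := ⟨_, rfl⟩
  obtain ⟨b2, hb2⟩ : ∃ z, z = av (fun x : Fin n → Bool => ei (q x)) := ⟨_, rfl⟩
  obtain ⟨b3, hb3⟩ : ∃ z, z = av (fun x : Fin n → Bool => ph m (Q x)) := ⟨_, rfl⟩
  have k3'' := k3.trans k3'
  rw [← ha1, ← ha2, ← ha3] at k1
  rw [← hb1, ← hb2, ← hb3] at k2
  rw [← ha2, ← hb2] at k3''
  rw [← ha3] at n1
  rw [← hb2] at n2
  change ‖ex w (fun y => ei (q (mx rr y)) * ph m (Q (mx rr y))) -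
    av (fun x : Fin n → Bool => ei (q x) * ph m (Q x))‖ ≤
      ε + ‖ex w (fun y => ph m (Q (mx rr y))) - av (fun x : Fin n → Bool => ph m (Q x))‖
  rw [← ha1, ← ha3, ← hb1, ← hb3]
  have hsplit : a1 - b1 = (a1 - a2 * a3) + (a2 - b2) * a3 + b2 * (a3 - b3) - (b1 - b2 * b3) := by
    ring
  have f1 : ‖(a2 - b2) * a3‖ ≤ ε / 3 := by
    rw [norm_mul]
    calc ‖a2 - b2‖ * ‖a3‖ ≤ ε / 3 * 1 :=
          mul_le_mul k3'' n1 (norm_nonneg _) (by positivity)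
      _ = ε / 3 := mul_one _
  have f2 : ‖b2 * (a3 - b3)‖ ≤ ‖a3 - b3‖ := by
    rw [norm_mul]
    calc ‖b2‖ * ‖a3 - b3‖ ≤ 1 * ‖a3 - b3‖ :=
          mul_le_mul_of_nonneg_right n2 (norm_nonneg _)
      _ = ‖a3 - b3‖ := one_mul _
  calc ‖a1 - b1‖ = ‖(a1 - a2 * a3) + (a2 - b2) * a3 + b2 * (a3 - b3) - (b1 - b2 * b3)‖ := by
        rw [← hsplit]
    _ ≤ ‖(a1 - a2 * a3) + (a2 - b2) * a3 + b2 * (a3 - b3)‖ + ‖b1 - b2 * b3‖ := norm_sub_le _ _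
    _ ≤ ‖(a1 - a2 * a3) + (a2 - b2) * a3‖ + ‖b2 * (a3 - b3)‖ + ‖b1 - b2 * b3‖ := by
        have := norm_add_le ((a1 - a2 * a3) + (a2 - b2) * a3) (b2 * (a3 - b3))
        linarith
    _ ≤ ‖a1 - a2 * a3‖ + ‖(a2 - b2) * a3‖ + ‖b2 * (a3 - b3)‖ + ‖b1 - b2 * b3‖ := by
        have := norm_add_le (a1 - a2 * a3) ((a2 - b2) * a3)
        linarith
    _ ≤ ε + ‖a3 - b3‖ := by linarith

end Pool.Agent.MP_ca1109_lc.Hyb
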