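import Pool.Agent.MP_ca1109_lc.Hyb.Defs

/-!
# Density of trigonometric polynomials
-/

namespace Pool.Agent.MP_ca1109_lc.Hyb

open Finset

/- PROOF NOTES [HYB-C7].  `f` descends to a continuous function on `AddCircle T` (`Function.Periodic.lift`, continuity: `continuous_coinduced_dom` / `QuotientAddGroup.continuous_..`, quotient map); `span_fourier_closure_eq_top`
(density of `Submodule.span ℂ (Set.range fourier)` in `C(AddCircle T, ℂ)`) gives `g` in the span with `‖f - g‖ ≤ ε`; elements of the span are finite linear combinations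
(`Finsupp.mem_span_range_iff_exists_finsupp`), `fourier_coe_apply : fourier n (x : AddCircle T) = exp (2 π i n x / T)`, so `θ = 2 π n / T`; index the finite support by `Fin N`
(`Finset.equivFin`). -/

/-- Finite sums of exponentials. -/
noncomputable def tp {N : ℕ} (c : Fin N → ℂ) (θ : Fin N → ℝ) (u : ℝ) : ℂ := ∑ j, c j * ei (θ j * u)

theorem trig_dense {f : ℝ → ℝ} (hf : Continuous f) {T : ℝ} (hT : 0 < T)
    (hper : Function.Periodic f T) {ε : ℝ} (hε : 0 < ε) :
    ∃ (N : ℕ) (c : Fin N → ℂ) (θ : Fin N → ℝ), ∀ u, ‖(f u : ℂ) - tp c θ u‖ ≤ ε := by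
  classical
  have hfact : Fact (0 < T) := ⟨hT⟩
  have hper' : Function.Periodic (fun u => (f u : ℂ)) T := fun u => by
    show ((f (u + T) : ℝ) : ℂ) = f u
    rw [hper u]
  have hcont : Continuous (hper'.lift : AddCircle T → ℂ) := by
    apply Continuous.quotient_lift
    exact Complex.continuous_ofReal.comp hf
  let F : C(AddCircle T, ℂ) := ⟨hper'.lift, hcont⟩
  have hF : F ∈ (Submodule.span ℂ (Set.range (@fourier T))).topologicalClosure := by
    rw [span_fourier_closure_eq_top]
    exact Submodule.mem_top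
  rw [← SetLike.mem_coe, Submodule.topologicalClosure_coe, Metric.mem_closure_iff] at hF
  obtain ⟨g, hg, hgF⟩ := hF ε hε
  rw [SetLike.mem_coe, Finsupp.mem_span_range_iff_exists_finsupp] at hg
  obtain ⟨a, ha⟩ := hg
  let e := a.support.equivFin
  refine ⟨a.support.card, fun j => a (e.symm j), fun j => 2 * Real.pi * ((e.symm j : ℤ) : ℝ) / T, ?_⟩
  intro u
  have h1 : F (u : AddCircle T) = (f u : ℂ) := rfl
  have h2 : g (u : AddCircle T) = tp (fun j => a (e.symm j))
      (fun j => 2 * Real.pi * ((e.symm j : ℤ) : ℝ) / T) u := by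
    rw [← ha, Finsupp.sum, ContinuousMap.sum_apply]
    unfold tp
    rw [← Equiv.sum_comp e.symm.symm (fun j => _), ← Finset.sum_coe_sort]
    refine Finset.sum_congr rfl (fun i _ => ?_)
    rw [ContinuousMap.smul_apply, fourier_coe_apply, smul_eq_mul, Equiv.symm_symm]
    beta_reduce
    rw [Equiv.symm_apply_apply]
    congr 1
    unfold ei
    congr 1
    push_cast
    ring
  rw [← h1, ← h2, ← dist_eq_norm]
  exact (ContinuousMap.dist_apply_le_dist _).trans hgF.le

end Pool.Agent.MP_ca1109_lc.Hyb
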