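import Pool.Agent.MP_ca1109_lc.Hyb.C7

/-!
# Trigonometric approximation of steps and bumps
-/

namespace Pool.Agent.MP_ca1109_lc.Hyb

open Finset

/- PROOF NOTES [HYB-C7b].  `step_approx`: apply `trig_dense` to `f u = max 0 (min 1 (1/2 + L / (2 s) * sin (π u / (2 L))))` (period `4 L`, values in `[0,1]`).  For `s ≤ u ≤ L`: `sin (π u / (2 L)) ≥ u / L ≥ s / L`
(`Real.mul_le_sin`: `2 / π * x ≤ sin x` for `0 ≤ x ≤ π / 2`), so `f u = 1`; for `- L ≤ u ≤ - s`: `f u = 0` (oddness).
`bump_approx`: `f u = max 0 (min 1 ((2 s / L - |sin (π u / (2 L))|) / ((2 - π / 2) * s / L)))`: for `|u| ≤ s`: `|sin| ≤ π s / (2 L)` (`Real.abs_sin_le_abs`..), so `f u = 1` (`π < 4`); for `2 s ≤ |u| ≤ L`: `|sin| ≥ 2 s / L`, `f u = 0`. -/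

theorem c7b_sin {L u : ℝ} (hL : 0 < L) (h0 : 0 ≤ u) (h1 : u ≤ L) :
    u / L ≤ Real.sin (Real.pi * u / (2 * L)) := by
  have hp := Real.pi_pos
  have h2 : 0 ≤ Real.pi * u / (2 * L) := by positivity
  have h3 : Real.pi * u / (2 * L) ≤ Real.pi / 2 := by
    rw [div_le_div_iff₀ (by positivity) (by positivity)]
    nlinarith
  have h4 := Real.mul_le_sin h2 h3
  have h5 : 2 / Real.pi * (Real.pi * u / (2 * L)) = u / L := by field_simp
  rwa [h5] at h4

theorem c7b_neg {L u : ℝ} :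
    Real.sin (Real.pi * (-u) / (2 * L)) = -Real.sin (Real.pi * u / (2 * L)) := by
  rw [← Real.sin_neg]
  congr 1
  ring

theorem c7b_per {L : ℝ} (hL : 0 < L) (u : ℝ) :
    Real.sin (Real.pi * (u + 4 * L) / (2 * L)) = Real.sin (Real.pi * u / (2 * L)) := by
  rw [← Real.sin_add_two_pi (Real.pi * u / (2 * L))]
  congr 1
  field_simp
  ring

theorem c7b_abs {L u : ℝ} (hL : 0 < L) (h1 : |u| ≤ L) :
    |u| / L ≤ |Real.sin (Real.pi * u / (2 * L))| := by
  rcases le_total 0 u with h | h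
  · rw [abs_of_nonneg h] at h1 ⊢
    exact (c7b_sin hL h h1).trans (le_abs_self _)
  · rw [abs_of_nonpos h] at h1 ⊢
    have := c7b_sin hL (neg_nonneg.2 h) h1
    rw [c7b_neg] at this
    exact this.trans (neg_le_abs _)

theorem step_approx {s L ε : ℝ} (hs : 0 < s) (hL : s < L) (hε : 0 < ε) :
    ∃ (N : ℕ) (c : Fin N → ℂ) (θ : Fin N → ℝ), ∀ u : ℝ, ‖tp c θ u‖ ≤ 1 + ε ∧
      (s ≤ |u| → |u| ≤ L → ‖tp c θ u - (if 0 < u then 1 else 0)‖ ≤ ε) := by
  have hL0 : 0 < L := hs.trans hL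
  set f : ℝ → ℝ := fun u => max 0 (min 1 (1 / 2 + L / (2 * s) * Real.sin (Real.pi * u / (2 * L))))
    with hf
  have hfc : Continuous f := by
    rw [hf]
    fun_prop
  have hfp : Function.Periodic f (4 * L) := by
    intro u
    simp only [hf]
    rw [c7b_per hL0]
  have hf0 : ∀ u, 0 ≤ f u := fun u => le_max_left _ _
  have hf1 : ∀ u, f u ≤ 1 := fun u => max_le zero_le_one (min_le_left _ _)
  obtain ⟨N, c, θ, h⟩ := trig_dense hfc (by positivity : (0 : ℝ) < 4 * L) hfp hε
  refine ⟨N, c, θ, fun u => ⟨?_, fun h1 h2 => ?_⟩⟩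
  · have h3 : ‖tp c θ u‖ ≤ ‖(f u : ℂ)‖ + ‖(f u : ℂ) - tp c θ u‖ := by
      have : tp c θ u = (f u : ℂ) - ((f u : ℂ) - tp c θ u) := by ring
      calc ‖tp c θ u‖ = ‖(f u : ℂ) - ((f u : ℂ) - tp c θ u)‖ := by rw [← this]
        _ ≤ _ := norm_sub_le _ _
    have h4 : ‖(f u : ℂ)‖ ≤ 1 := by
      rw [Complex.norm_real, Real.norm_eq_abs, abs_of_nonneg (hf0 u)]
      exact hf1 u
    linarith [h u]
  · have h3 : (f u : ℂ) = if 0 < u then 1 else 0 := by
      rcases lt_or_ge 0 u with hu | hu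
      · rw [if_pos hu]
        rw [abs_of_pos hu] at h1 h2
        have h4 := c7b_sin hL0 hu.le h2
        have h5 : s / L ≤ Real.sin (Real.pi * u / (2 * L)) :=
          (div_le_div_of_nonneg_right h1 hL0.le).trans h4
        have h6 : 1 / 2 ≤ L / (2 * s) * Real.sin (Real.pi * u / (2 * L)) := by
          calc (1 : ℝ) / 2 = L / (2 * s) * (s / L) := by field_simp
            _ ≤ _ := mul_le_mul_of_nonneg_left h5 (by positivity)
        have h7 : f u = 1 := by
          simp only [hf]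
          rw [min_eq_left (by linarith), max_eq_right zero_le_one]
        rw [h7]
        simp
      · rw [if_neg (not_lt.2 hu)]
        rw [abs_of_nonpos hu] at h1 h2
        have h4 := c7b_sin hL0 (neg_nonneg.2 hu) h2
        rw [c7b_neg] at h4
        have h5 : s / L ≤ -Real.sin (Real.pi * u / (2 * L)) :=
          (div_le_div_of_nonneg_right h1 hL0.le).trans h4
        have h6 : 1 / 2 ≤ L / (2 * s) * -Real.sin (Real.pi * u / (2 * L)) := by
          calc (1 : ℝ) / 2 = L / (2 * s) * (s / L) := by field_simp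
            _ ≤ _ := mul_le_mul_of_nonneg_left h5 (by positivity)
        have h7 : f u = 0 := by
          simp only [hf]
          refine max_eq_left ((min_le_right _ _).trans ?_)
          linarith
        rw [h7]
        simp
    rw [← h3, norm_sub_rev]
    exact h u

theorem bump_approx {s L ε : ℝ} (hs : 0 < s) (hL : 2 * s < L) (hε : 0 < ε) :
    ∃ (N : ℕ) (c : Fin N → ℂ) (θ : Fin N → ℝ), ∀ u : ℝ, -ε ≤ (tp c θ u).re ∧
      (tp c θ u).re ≤ 1 + ε ∧ (|u| ≤ s → 1 - ε ≤ (tp c θ u).re) ∧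
      (2 * s ≤ |u| → |u| ≤ L → (tp c θ u).re ≤ ε) := by
  have hL0 : 0 < L := by linarith
  have hpi : Real.pi < 4 := Real.pi_lt_four
  have hd : 0 < (2 - Real.pi / 2) * s / L := by
    have : 0 < 2 - Real.pi / 2 := by linarith
    positivity
  set f : ℝ → ℝ := fun u => max 0 (min 1 ((2 * s / L - |Real.sin (Real.pi * u / (2 * L))|) /
    ((2 - Real.pi / 2) * s / L))) with hf
  have hfc : Continuous f := by
    rw [hf]
    fun_prop
  have hfp : Function.Periodic f (4 * L) := by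
    intro u
    simp only [hf]
    rw [c7b_per hL0]
  have hf0 : ∀ u, 0 ≤ f u := fun u => le_max_left _ _
  have hf1 : ∀ u, f u ≤ 1 := fun u => max_le zero_le_one (min_le_left _ _)
  obtain ⟨N, c, θ, h⟩ := trig_dense hfc (by positivity : (0 : ℝ) < 4 * L) hfp hε
  refine ⟨N, c, θ, fun u => ?_⟩
  have hre : |f u - (tp c θ u).re| ≤ ε := by
    have h1 := Complex.abs_re_le_norm ((f u : ℂ) - tp c θ u)
    rw [Complex.sub_re, Complex.ofReal_re] at h1
    exact h1.trans (h u)
  rw [abs_le] at hre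
  refine ⟨by linarith [hf0 u], by linarith [hf1 u], fun h1 => ?_, fun h1 h2 => ?_⟩
  · have h3 : |Real.sin (Real.pi * u / (2 * L))| ≤ Real.pi * s / (2 * L) := by
      refine Real.abs_sin_le_abs.trans ?_
      rw [abs_div, abs_mul, abs_of_pos Real.pi_pos, abs_of_pos (by positivity : 0 < 2 * L)]
      gcongr
    have h4 : (2 - Real.pi / 2) * s / L = 2 * s / L - Real.pi * s / (2 * L) := by
      field_simp
    have h5 : f u = 1 := by
      simp only [hf]
      rw [min_eq_left, max_eq_right zero_le_one]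
      rw [le_div_iff₀ hd]
      linarith
    linarith
  · have h3 := c7b_abs hL0 h2
    have h4 : 2 * s / L ≤ |u| / L := div_le_div_of_nonneg_right h1 hL0.le
    have h5 : f u = 0 := by
      simp only [hf]
      refine max_eq_left ((min_le_right _ _).trans ?_)
      exact div_nonpos_of_nonpos_of_nonneg (by linarith) hd.le
    linarith

end Pool.Agent.MP_ca1109_lc.Hyb
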