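import Pool.Agent.MP_ca1109_lc.Hyb.B2
import Pool.Agent.MP_ca1109_lc.Hyb.C6
import Pool.Agent.MP_ca1109_lc.Hyb.C7

/-!
# Products of trigonometric polynomials of real polynomials
-/

namespace Pool.Agent.MP_ca1109_lc.Hyb

open Pool.Agent.MP_ca1109_lc.Mpg Finset

/- PROOF NOTES [HYB-C8].  `∏ i, tp c θ (q i) = ∑ j : Fin r → Fin N, (∏ i, c (j i)) * ei (∑ i, θ (j i) * q i)` (`Finset.prod_univ_sum`, `Fintype.piFinset_univ`, `ei_add`).
Let `Θ ≥ |θ j|`, `c₁ ≥ ‖c j‖`, `c₁, Θ ≥ 1`.  `exp_fool m d (r² Θ²) (ε / (2 (N c₁) ^ r + 1))` gives `τ₀, γ₀`; `τ = τ₀ / (r⁴ Θ⁴ + 1)`, `δ₀ = ε / (2 (N c₁) ^ r + 1)`.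
For `q = ∑ i, θ (j i) * q i`: degree `d`, `Indep A`; `avg q² ≤ r ∑ θ² avg (q i)² ≤ r² Θ²` (`Finset.inner_mul_le_norm_mul_norm`/`sq_sum_le_card_mul_sum_sq`);
`q - avA B q = ∑ θ (j i) (q i - avA B (q i))`, `(∑ over r terms)⁴ ≤ r³ ∑ ( )⁴` (`inner` twice, or `Finset.sum_..pow_le`: `pow_arith_mean_le_arith_mean_pow`): `≤ r⁴ Θ⁴ τ ≤ τ₀`.
Sum over the `N ^ r` multi-indices. -/

theorem c8_ei_sum {J : Type*} (s : Finset J) (v : J → ℝ) :
    ei (∑ i ∈ s, v i) = ∏ i ∈ s, ei (v i) := by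
  classical
  induction s using Finset.induction_on with
  | empty => simp [ei]
  | insert a s ha ih => rw [Finset.sum_insert ha, Finset.prod_insert ha, ei_add, ih]

theorem c8_expand {r N : ℕ} (c : Fin N → ℂ) (θ : Fin N → ℝ) (u : Fin r → ℝ) :
    ∏ i, tp c θ (u i) =
      ∑ J : Fin r → Fin N, (∏ i, c (J i)) * ei (∑ i, θ (J i) * u i) := by
  unfold tp
  rw [Finset.prod_univ_sum, Fintype.piFinset_univ]
  refine Finset.sum_congr rfl fun J _ => ?_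
  rw [c8_ei_sum, Finset.prod_mul_distrib]

theorem c8_av_mul_left {A : Type*} [Fintype A] (c : ℂ) (f : A → ℂ) :
    av (fun a => c * f a) = c * av f := by
  unfold av
  rw [← Finset.mul_sum, mul_div_assoc]

theorem c8_avA_sum {n r : ℕ} (B : Finset (Fin n)) (t : Fin r → ℝ)
    (q : Fin r → (Fin n → Bool) → ℝ) (x : Fin n → Bool) :
    avA B (fun x => ∑ i, t i * q i x) x = ∑ i, t i * avA B (q i) x := by
  unfold avA
  rw [avg_sum]
  exact Finset.sum_congr rfl fun i _ => avg_mul_left _ _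

theorem c8_sq {r : ℕ} (t v : Fin r → ℝ) {Θ : ℝ} (ht : ∀ i, |t i| ≤ Θ) :
    (∑ i, t i * v i) ^ 2 ≤ ∑ i, r * Θ ^ 2 * v i ^ 2 := by
  have h1 := sq_sum_le_card_mul_sum_sq (s := (univ : Finset (Fin r))) (f := fun i => t i * v i)
  rw [card_univ, Fintype.card_fin] at h1
  refine h1.trans ?_
  rw [Finset.mul_sum]
  refine Finset.sum_le_sum fun i _ => ?_
  have h2 : t i ^ 2 ≤ Θ ^ 2 := sq_le_sq' (abs_le.1 (ht i)).1 (abs_le.1 (ht i)).2
  rw [mul_pow, ← mul_assoc]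
  gcongr

theorem c8_four {r : ℕ} (t v : Fin r → ℝ) {Θ : ℝ} (ht : ∀ i, |t i| ≤ Θ) :
    (∑ i, t i * v i) ^ 4 ≤ ∑ i, r ^ 3 * Θ ^ 4 * v i ^ 4 := by
  have h0 := c8_sq t v ht
  have h1 := sq_sum_le_card_mul_sum_sq (s := (univ : Finset (Fin r)))
    (f := fun i => r * Θ ^ 2 * v i ^ 2)
  rw [card_univ, Fintype.card_fin] at h1
  calc (∑ i, t i * v i) ^ 4 = ((∑ i, t i * v i) ^ 2) ^ 2 := by ring
    _ ≤ (∑ i, r * Θ ^ 2 * v i ^ 2) ^ 2 := pow_le_pow_left₀ (sq_nonneg _) h0 2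
    _ ≤ r * ∑ i, (r * Θ ^ 2 * v i ^ 2) ^ 2 := h1
    _ = ∑ i, r ^ 3 * Θ ^ 4 * v i ^ 4 := by
      rw [Finset.mul_sum]
      exact Finset.sum_congr rfl fun i _ => by ring

theorem c8_avg_two {n r : ℕ} (t : Fin r → ℝ) (q : Fin r → (Fin n → Bool) → ℝ) {Θ : ℝ}
    (ht : ∀ i, |t i| ≤ Θ) (h : ∀ i, avg (fun x => q i x ^ 2) ≤ 1) :
    avg (fun x => (∑ i, t i * q i x) ^ 2) ≤ (r : ℝ) ^ 2 * Θ ^ 2 := by
  calc avg (fun x => (∑ i, t i * q i x) ^ 2)
      ≤ avg (fun x => ∑ i, r * Θ ^ 2 * q i x ^ 2) := avg_mono fun x => c8_sq t _ ht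
    _ = ∑ i, r * Θ ^ 2 * avg (fun x => q i x ^ 2) := by
      rw [avg_sum]
      exact Finset.sum_congr rfl fun i _ => avg_mul_left _ _
    _ ≤ ∑ _i : Fin r, r * Θ ^ 2 * 1 := by
      refine Finset.sum_le_sum fun i _ => ?_
      exact mul_le_mul_of_nonneg_left (h i) (by positivity)
    _ = (r : ℝ) ^ 2 * Θ ^ 2 := by
      rw [Finset.sum_const, card_univ, Fintype.card_fin, nsmul_eq_mul]
      ring

theorem c8_avg_four {n k r : ℕ} (rr : Fin n → Fin k) (t : Fin r → ℝ)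
    (q : Fin r → (Fin n → Bool) → ℝ) {Θ τ : ℝ} (ht : ∀ i, |t i| ≤ Θ)
    (h : ∀ i, ∑ b, avg (fun x => (q i x - avA (blk rr b) (q i) x) ^ 4) ≤ τ) :
    ∑ b, avg (fun x => ((∑ i, t i * q i x) -
      avA (blk rr b) (fun x => ∑ i, t i * q i x) x) ^ 4) ≤ (r : ℝ) ^ 4 * Θ ^ 4 * τ := by
  calc ∑ b, avg (fun x => ((∑ i, t i * q i x) -
        avA (blk rr b) (fun x => ∑ i, t i * q i x) x) ^ 4)
      ≤ ∑ b, ∑ i, (r : ℝ) ^ 3 * Θ ^ 4 *
          avg (fun x => (q i x - avA (blk rr b) (q i) x) ^ 4) := by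
        refine Finset.sum_le_sum fun b _ => ?_
        calc avg (fun x => ((∑ i, t i * q i x) -
              avA (blk rr b) (fun x => ∑ i, t i * q i x) x) ^ 4)
            ≤ avg (fun x => ∑ i, (r : ℝ) ^ 3 * Θ ^ 4 *
                (q i x - avA (blk rr b) (q i) x) ^ 4) := by
              refine avg_mono fun x => ?_
              rw [c8_avA_sum, ← Finset.sum_sub_distrib]
              have h1 : ∀ i, t i * q i x - t i * avA (blk rr b) (q i) x =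
                  t i * (q i x - avA (blk rr b) (q i) x) := fun i => by ring
              simp only [h1]
              exact c8_four t _ ht
          _ = _ := by
              rw [avg_sum]
              exact Finset.sum_congr rfl fun i _ => avg_mul_left _ _
    _ = ∑ i, (r : ℝ) ^ 3 * Θ ^ 4 *
          ∑ b, avg (fun x => (q i x - avA (blk rr b) (q i) x) ^ 4) := by
        rw [Finset.sum_comm]
        exact Finset.sum_congr rfl fun i _ => by rw [Finset.mul_sum]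
    _ ≤ ∑ _i : Fin r, (r : ℝ) ^ 3 * Θ ^ 4 * τ := by
        refine Finset.sum_le_sum fun i _ => ?_
        exact mul_le_mul_of_nonneg_left (h i) (by positivity)
    _ = _ := by
        rw [Finset.sum_const, card_univ, Fintype.card_fin, nsmul_eq_mul]
        ring

theorem c8_sum_mem {n d r : ℕ} (t : Fin r → ℝ) (q : Fin r → (Fin n → Bool) → ℝ)
    (h : ∀ i, q i ∈ lowDeg (Fin n) Bool ℝ d) :
    (fun x => ∑ i, t i * q i x) ∈ lowDeg (Fin n) Bool ℝ d := by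
  have h1 : (fun x => ∑ i, t i * q i x) = ∑ i, (fun x => t i * q i x) := by
    funext x
    rw [Finset.sum_apply]
  rw [h1]
  exact AddSubgroup.sum_mem _ fun i _ => smul_mem (h i) (t i)

theorem tp_fool (m : ℕ) [NeZero m] (d r : ℕ) {N : ℕ} (c : Fin N → ℂ) (θ : Fin N → ℝ) {ε : ℝ}
    (hε : 0 < ε) :
    ∃ τ > 0, ∃ γ₀ > 0, γ₀ ≤ 1 / 2 ∧ ∃ δ₀ > 0, ∀ (n k : ℕ) (rr : Fin n → Fin k)
      (A : Finset (Fin n)) (w : Fin k → (Fin n → Bool) → ℝ), IsPM w →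
      (∀ b, Close A (4 * d) (γ₀ / k) (w b)) →
      ∀ q : Fin r → (Fin n → Bool) → ℝ, (∀ i, q i ∈ lowDeg (Fin n) Bool ℝ d) →
      (∀ i, Indep A (q i)) → (∀ i, avg (fun x => q i x ^ 2) ≤ 1) →
      (∀ i, ∑ b, avg (fun x => (q i x - avA (blk rr b) (q i) x) ^ 4) ≤ τ) →
      ∀ f ∈ phCls m Bool d n, ‖ex w (fun y => f (mx rr y)) - av f‖ ≤ δ₀ →
        ‖ex w (fun y => (∏ i, tp c θ (q i (mx rr y))) * f (mx rr y)) -
          av (fun x => (∏ i, tp c θ (q i x)) * f x)‖ ≤ ε := by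
  obtain ⟨Θ, hΘ⟩ : ∃ Θ : ℝ, ∀ j, |θ j| ≤ Θ :=
    ⟨∑ j, |θ j|, fun j => Finset.single_le_sum (f := fun j => |θ j|) (fun i _ => abs_nonneg _)
      (mem_univ j)⟩
  obtain ⟨c₁, hc₁, hc₁0⟩ : ∃ c₁ : ℝ, (∀ j, ‖c j‖ ≤ c₁) ∧ 0 ≤ c₁ :=
    ⟨∑ j, ‖c j‖, fun j => Finset.single_le_sum (f := fun j => ‖c j‖) (fun i _ => norm_nonneg _)
      (mem_univ j), Finset.sum_nonneg fun j _ => norm_nonneg _⟩
  obtain ⟨M, hM⟩ : ∃ M : ℝ, M = ((N : ℝ) * c₁) ^ r := ⟨_, rfl⟩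
  have hM0 : 0 ≤ M := by
    rw [hM]
    positivity
  obtain ⟨ε', hε'⟩ : ∃ ε' : ℝ, ε' = ε / (2 * M + 1) := ⟨_, rfl⟩
  have hε'0 : 0 < ε' := by
    rw [hε']
    positivity
  obtain ⟨τ₀, hτ₀, γ₀, hγ₀, hγ₀', H⟩ := exp_fool m d ((r : ℝ) ^ 2 * Θ ^ 2) hε'0
  refine ⟨τ₀ / ((r : ℝ) ^ 4 * Θ ^ 4 + 1), by positivity, γ₀, hγ₀, hγ₀', ε', hε'0, ?_⟩
  intro n k rr A w hw hc q hq hqA hq2 hq4 f hf hfo
  have key : ∀ J : Fin r → Fin N,
      ‖ex w (fun y => ei (∑ i, θ (J i) * q i (mx rr y)) * f (mx rr y)) -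
        av (fun x => ei (∑ i, θ (J i) * q i x) * f x)‖ ≤ 2 * ε' := by
    intro J
    have h4 := c8_avg_four rr (fun i => θ (J i)) q (fun i => hΘ (J i)) hq4
    have h5 : (r : ℝ) ^ 4 * Θ ^ 4 * (τ₀ / ((r : ℝ) ^ 4 * Θ ^ 4 + 1)) ≤ τ₀ := by
      have h6 : 0 ≤ (r : ℝ) ^ 4 * Θ ^ 4 := by positivity
      rw [mul_div_assoc', div_le_iff₀ (by positivity)]
      nlinarith
    have h1 := H n k rr A w hw hc (fun x => ∑ i, θ (J i) * q i x)
      (c8_sum_mem (fun i => θ (J i)) q hq)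
      (fun x y hxy => Finset.sum_congr rfl fun i _ => by rw [hqA i x y hxy])
      (c8_avg_two (fun i => θ (J i)) q (fun i => hΘ (J i)) hq2) (h4.trans h5) f hf
    refine h1.trans ?_
    linarith
  have e1 : ex w (fun y => (∏ i, tp c θ (q i (mx rr y))) * f (mx rr y)) =
      ∑ J : Fin r → Fin N, (∏ i, c (J i)) *
        ex w (fun y => ei (∑ i, θ (J i) * q i (mx rr y)) * f (mx rr y)) := by
    have e2 : (fun y : Fin k → Fin n → Bool => (∏ i, tp c θ (q i (mx rr y))) * f (mx rr y)) =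
        fun y => ∑ J : Fin r → Fin N, (∏ i, c (J i)) *
          (ei (∑ i, θ (J i) * q i (mx rr y)) * f (mx rr y)) := by
      funext y
      rw [c8_expand, Finset.sum_mul]
      exact Finset.sum_congr rfl fun J _ => by ring
    rw [e2, ex_sum]
    exact Finset.sum_congr rfl fun J _ => ex_mul_left _ _ _
  have e3 : av (fun x => (∏ i, tp c θ (q i x)) * f x) =
      ∑ J : Fin r → Fin N, (∏ i, c (J i)) *
        av (fun x => ei (∑ i, θ (J i) * q i x) * f x) := by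
    have e2 : (fun x : Fin n → Bool => (∏ i, tp c θ (q i x)) * f x) =
        fun x => ∑ J : Fin r → Fin N, (∏ i, c (J i)) *
          (ei (∑ i, θ (J i) * q i x) * f x) := by
      funext y
      rw [c8_expand, Finset.sum_mul]
      exact Finset.sum_congr rfl fun J _ => by ring
    rw [e2, Agp.f1_av_sum]
    exact Finset.sum_congr rfl fun J _ => c8_av_mul_left _ _
  rw [e1, e3, ← Finset.sum_sub_distrib]
  have hcJ : ∀ J : Fin r → Fin N, ‖∏ i, c (J i)‖ ≤ c₁ ^ r := by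
    intro J
    rw [norm_prod]
    calc ∏ i, ‖c (J i)‖ ≤ ∏ _i : Fin r, c₁ :=
          Finset.prod_le_prod (fun i _ => norm_nonneg _) fun i _ => hc₁ _
      _ = c₁ ^ r := by rw [Finset.prod_const, card_univ, Fintype.card_fin]
  calc ‖∑ J : Fin r → Fin N, ((∏ i, c (J i)) *
          ex w (fun y => ei (∑ i, θ (J i) * q i (mx rr y)) * f (mx rr y)) -
          (∏ i, c (J i)) * av (fun x => ei (∑ i, θ (J i) * q i x) * f x))‖
      ≤ ∑ _J : Fin r → Fin N, c₁ ^ r * (2 * ε') := by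
        refine (norm_sum_le _ _).trans (Finset.sum_le_sum fun J _ => ?_)
        rw [← mul_sub, norm_mul]
        exact mul_le_mul (hcJ J) (key J) (norm_nonneg _) (by positivity)
    _ = 2 * M * ε' := by
        rw [Finset.sum_const, card_univ, Fintype.card_fun, Fintype.card_fin, Fintype.card_fin,
          nsmul_eq_mul, hM, mul_pow]
        push_cast
        ring
    _ ≤ ε := by
        rw [hε', mul_div_assoc', div_le_iff₀ (by positivity)]
        nlinarith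

end Pool.Agent.MP_ca1109_lc.Hyb
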