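import Pool.Agent.MP_ca1109_lc.Hyb.B7
import Pool.Agent.MP_ca1109_lc.Hyb.C7b
import Pool.Agent.MP_ca1109_lc.Hyb.C8

/-!
# Anticoncentration and tails for products of laws
-/

namespace Pool.Agent.MP_ca1109_lc.Hyb

open Pool.Agent.MP_ca1109_lc.Mpg Finset

/- PROOF NOTES [HYB-C8b].  `tail_uni`: `pr (L < |q x|) ≤ avg q² / L² ≤ 1 / L²` (`pr_markov`).  `tail_w`: `1[L < |q|] ≤ q² / L²`, `rex w (q² ∘ mx) ≤ (1 + γ₀ / k) ^ k avg q² ≤ 2` (`rex_poly_le` for `q²`, degree `2 d ≤ 4 d`).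
`anti_w`.  Given `ε`, `ε₁ = min (ε / 8) (1/8)`: `ac_all d` gives `s₀, η` with `pr (|q| ≤ s₀) ≤ ε₁`; `s = s₀ / 2`; choose `L > 2 s` with `1 / L² ≤ ε₁`; `bump_approx` (error `ε₁`) gives `P = tp c θ`; `tp_fool` with
`r = 1`, `f = 1` (in `phCls`: `tw_one`; `ex w 1 = 1 = av 1`) and error `ε₁`.  `1[|u| ≤ s] ≤ re P u + ε₁` for all `u`.  So
`rex w (1[|q| ≤ s]) ≤ re (ex w (P (q (mx y)))) + ε₁ ≤ re (av (P ∘ q)) + 2 ε₁`, and `re P u ≤ ε₁ + (1 + ε₁) (1[|u| < 2 s] + 1[L < |u|])`, so `≤ ε₁ + 2 (ε₁ + ε₁) + 2 ε₁ ≤ ε`. -/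

theorem c8b_pow {γ₀ : ℝ} (h0 : 0 ≤ γ₀) (h1 : γ₀ ≤ 1 / 2) (k : ℕ) : (1 + γ₀ / k) ^ k ≤ 2 := by
  rcases Nat.eq_zero_or_pos k with hk | hk
  · subst hk
    norm_num
  · have hk' : (0 : ℝ) < k := by exact_mod_cast hk
    have h2 : 1 + γ₀ / k ≤ Real.exp (γ₀ / k) := by
      linarith [Real.add_one_le_exp (γ₀ / k)]
    calc (1 + γ₀ / k) ^ k ≤ Real.exp (γ₀ / k) ^ k :=
          pow_le_pow_left₀ (by positivity) h2 k
      _ = Real.exp γ₀ := by
          rw [← Real.exp_nat_mul]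
          congr 1
          field_simp
      _ ≤ Real.exp (1 / 2) := Real.exp_le_exp.2 h1
      _ ≤ 2 := by
          have h3 : Real.exp (1 / 2) ^ 2 = Real.exp 1 := by
            rw [← Real.exp_nat_mul]
            norm_num
          have h4 := Real.exp_one_lt_d9
          have h5 : Real.exp (1 / 2) ^ 2 ≤ 2 ^ 2 := by
            rw [h3]
            linarith
          exact le_of_sq_le_sq h5 (by norm_num)

theorem c8b_ind {L u : ℝ} (hL : 0 < L) :
    (if L < |u| then (1 : ℝ) else 0) ≤ 1 / L ^ 2 * u ^ 2 := by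
  split_ifs with h
  · have h1 : L ^ 2 ≤ u ^ 2 := by
      rw [← sq_abs u]
      exact pow_le_pow_left₀ hL.le h.le 2
    rw [one_div, inv_mul_eq_div, le_div_iff₀ (by positivity)]
    linarith
  · positivity

theorem c8b_re_ex {n k : ℕ} (w : Fin k → (Fin n → Bool) → ℝ) (f : (Fin k → Fin n → Bool) → ℂ) :
    (ex w f).re = rex w (fun y => (f y).re) := by
  unfold ex rex
  rw [Complex.re_sum]
  exact Finset.sum_congr rfl fun x _ => Complex.re_ofReal_mul _ _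

theorem c8b_re_av {A : Type*} [Fintype A] (f : A → ℂ) : (av f).re = avg (fun x => (f x).re) := by
  unfold av avg
  rw [Complex.div_natCast_re, Complex.re_sum]

theorem c8b_pr {A : Type*} [Fintype A] (P : A → Prop) [DecidablePred P] :
    pr P = avg (fun x => if P x then (1 : ℝ) else 0) := by
  unfold pr
  congr 1
  funext x
  congr

theorem tail_w {n k d : ℕ} (rr : Fin n → Fin k) {w : Fin k → (Fin n → Bool) → ℝ} (hw : IsPM w)
    {γ₀ : ℝ} (h0 : 0 ≤ γ₀) (h1 : γ₀ ≤ 1 / 2) {A : Finset (Fin n)}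
    (hc : ∀ b, Close A (4 * d) (γ₀ / k) (w b)) {q : (Fin n → Bool) → ℝ}
    (hq : q ∈ lowDeg (Fin n) Bool ℝ d) (hA : Indep A q) (h2 : avg (fun x => q x ^ 2) ≤ 1) {L : ℝ}
    (hL : 0 < L) :
    rex w (fun y => if L < |q (mx rr y)| then (1 : ℝ) else 0) ≤ 2 / L ^ 2 := by
  have hq2 : (fun x => q x ^ 2) ∈ lowDeg (Fin n) Bool ℝ (4 * d) :=
    lowDeg_mono (by omega) (lowDeg_pow hq 2)
  have h3 := rex_poly_le rr hw (by positivity : 0 ≤ γ₀ / (k : ℝ)) hc hq2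
    (fun x y hxy => by simp only [hA x y hxy]) (fun x => sq_nonneg _)
  have h4 := c8b_pow h0 h1 k
  have h5 : 0 ≤ avg (fun x => q x ^ 2) := avg_nonneg fun x => sq_nonneg _
  calc rex w (fun y => if L < |q (mx rr y)| then (1 : ℝ) else 0)
      ≤ rex w (fun y => 1 / L ^ 2 * q (mx rr y) ^ 2) := rex_mono hw fun y => c8b_ind hL
    _ = 1 / L ^ 2 * rex w (fun y => q (mx rr y) ^ 2) := rex_mul_left _ _ _
    _ ≤ 1 / L ^ 2 * (2 * 1) := by
        refine mul_le_mul_of_nonneg_left (h3.trans ?_) (by positivity)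
        exact mul_le_mul h4 h2 h5 (by norm_num)
    _ = 2 / L ^ 2 := by ring

theorem anti_w (d : ℕ) {ε : ℝ} (hε : 0 < ε) :
    ∃ s > 0, ∃ η > 0, ∃ τ > 0, ∃ γ₀ > 0, γ₀ ≤ 1 / 2 ∧ ∀ (n k : ℕ) (rr : Fin n → Fin k)
      (A : Finset (Fin n)) (w : Fin k → (Fin n → Bool) → ℝ), IsPM w →
      (∀ b, Close A (4 * d) (γ₀ / k) (w b)) →
      ∀ q ∈ lowDeg (Fin n) Bool ℝ d, Indep A q → avg (fun x => q x ^ 2) = 1 →
      (∀ j, infl j q ≤ η) → ∑ b, avg (fun x => (q x - avA (blk rr b) q x) ^ 4) ≤ τ →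
        rex w (fun y => if |q (mx rr y)| ≤ s then (1 : ℝ) else 0) ≤ ε ∧
        pr (fun x => |q x| ≤ s) ≤ ε := by
  obtain ⟨ε₁, hε₁, he8, he1⟩ : ∃ ε₁ : ℝ, 0 < ε₁ ∧ 8 * ε₁ ≤ ε ∧ ε₁ ≤ 1 / 8 := by
    refine ⟨min (ε / 8) (1 / 8), lt_min (by positivity) (by norm_num), ?_, min_le_right _ _⟩
    linarith [min_le_left (ε / 8) (1 / 8 : ℝ)]
  obtain ⟨s₀, hs₀, η, hη, hAC⟩ := ac_all d ε₁ hε₁
  have hs : 0 < s₀ / 2 := by positivity
  obtain ⟨L, hL1, hL2, hL3⟩ : ∃ L : ℝ, 2 * (s₀ / 2) < L ∧ 0 < L ∧ 1 / L ^ 2 ≤ ε₁ := by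
    have h1 : 0 < 1 / ε₁ := by positivity
    refine ⟨2 * (s₀ / 2) + 1 + 1 / ε₁, by linarith, by linarith, ?_⟩
    have h2 : 1 ≤ 2 * (s₀ / 2) + 1 + 1 / ε₁ := by linarith
    have h3 : 1 / ε₁ ≤ (2 * (s₀ / 2) + 1 + 1 / ε₁) ^ 2 := by nlinarith
    rw [div_le_iff₀ hε₁] at h3
    rw [div_le_iff₀ (by positivity)]
    linarith
  obtain ⟨N, c, θ, hP⟩ := bump_approx hs hL1 hε₁
  obtain ⟨τ, hτ, γ₀, hγ₀, hγ₀', δ₀, hδ₀, H⟩ := tp_fool 1 d 1 c θ hε₁
  refine ⟨s₀ / 2, hs, η, hη, τ, hτ, γ₀, hγ₀, hγ₀', ?_⟩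
  intro n k rr A w hw hc q hq hqA hq2 hinf hq4
  have hac : avg (fun x => if |q x| ≤ s₀ then (1 : ℝ) else 0) ≤ ε₁ := by
    have h1 := hAC n q hq hq2 hinf
    rwa [c8b_pr] at h1
  have htail : avg (fun x => if L < |q x| then (1 : ℝ) else 0) ≤ ε₁ := by
    calc avg (fun x => if L < |q x| then (1 : ℝ) else 0)
        ≤ avg (fun x => 1 / L ^ 2 * q x ^ 2) := avg_mono fun x => c8b_ind hL2
      _ = 1 / L ^ 2 * avg (fun x => q x ^ 2) := avg_mul_left _ _
      _ ≤ ε₁ := by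
        rw [hq2, mul_one]
        exact hL3
  have hav1 : av (fun _ : Fin n → Bool => (1 : ℂ)) = 1 := by
    unfold av
    rw [Finset.sum_const, card_univ, nsmul_eq_mul, mul_one, div_self]
    exact Nat.cast_ne_zero.2 Fintype.card_ne_zero
  have h1 := H n k rr A w hw hc (fun _ => q) (fun _ => hq) (fun _ => hqA) (fun _ => hq2.le)
    (fun _ => hq4) (fun _ => 1) Agp.tw_one (by
      rw [ex_const hw, hav1, sub_self, norm_zero]
      exact hδ₀.le)
  simp only [Finset.prod_const, card_univ, Fintype.card_fin, pow_one, mul_one] at h1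
  have h2 : (ex w (fun y => tp c θ (q (mx rr y)))).re ≤ (av (fun x => tp c θ (q x))).re + ε₁ := by
    have h3 := (le_abs_self _).trans ((Complex.abs_re_le_norm _).trans h1)
    rw [Complex.sub_re] at h3
    linarith
  rw [c8b_re_ex, c8b_re_av] at h2
  have h4 : avg (fun x => (tp c θ (q x)).re) ≤ ε₁ + (1 + ε₁) * (ε₁ + ε₁) := by
    calc avg (fun x => (tp c θ (q x)).re)
        ≤ avg (fun x => ε₁ + (1 + ε₁) * ((if |q x| ≤ s₀ then (1 : ℝ) else 0) +
            (if L < |q x| then (1 : ℝ) else 0))) := by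
          refine avg_mono fun x => ?_
          obtain ⟨_, p2, _, p4⟩ := hP (q x)
          by_cases g1 : |q x| ≤ s₀
          · rw [if_pos g1]
            split_ifs <;> nlinarith
          · rw [if_neg g1]
            by_cases g2 : L < |q x|
            · rw [if_pos g2]
              nlinarith
            · rw [if_neg g2]
              have := p4 (by linarith [not_le.1 g1]) (not_lt.1 g2)
              linarith
      _ = ε₁ + (1 + ε₁) * (avg (fun x => if |q x| ≤ s₀ then (1 : ℝ) else 0) +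
            avg (fun x => if L < |q x| then (1 : ℝ) else 0)) := by
          rw [avg_add, avg_const, avg_mul_left, avg_add]
      _ ≤ _ := by gcongr
  refine ⟨?_, ?_⟩
  · calc rex w (fun y => if |q (mx rr y)| ≤ s₀ / 2 then (1 : ℝ) else 0)
        ≤ rex w (fun y => (tp c θ (q (mx rr y))).re + ε₁) := by
          refine rex_mono hw fun y => ?_
          obtain ⟨p1, _, p3, _⟩ := hP (q (mx rr y))
          split_ifs with g
          · linarith [p3 g]
          · linarith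
      _ = rex w (fun y => (tp c θ (q (mx rr y))).re) + ε₁ := by
          rw [rex_add, rex_const hw]
      _ ≤ ε := by nlinarith
  · rw [c8b_pr]
    refine (avg_mono fun x => ?_).trans (hac.trans (by linarith))
    by_cases g : |q x| ≤ s₀ / 2
    · rw [if_pos g, if_pos (by linarith)]
    · rw [if_neg g]
      split_ifs <;> norm_num

end Pool.Agent.MP_ca1109_lc.Hyb
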