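import Pool.Agent.MP_ca1109_lc.Hyb.C8b

/-!
# Products of threshold functions of good polynomials and a phase
-/

namespace Pool.Agent.MP_ca1109_lc.Hyb

open Pool.Agent.MP_ca1109_lc.Mpg Finset

/- PROOF NOTES [HYB-C9].  If some `p i` has `avg (p i)² = 0` then `p i = 0`, `thr p = 0` and both sides vanish.  Otherwise `q i = p i / √(avg (p i)²)`: `thr p = thr q` (as functions), `avg (q i)² = 1`,
`infl j (q i) ≤ η` (`Good`), the sum of the fourth powers is `≤ τ`, degree, `Indep A`.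
`ε₁ > 0` small (`ε₁ ≤ 1`, to be chosen such that the total below is `≤ ε`).  `anti_w d ε₁`: `s, η, τ₁, γ₁`; `L > s` with `2 / L² ≤ ε₁`; `step_approx` with `s, L, ε₁`: `P = tp c θ`; `tp_fool m d r c θ ε₁`: `τ₂, γ₂, δ₀`;
`τ = min τ₁ τ₂`, `γ₀ = min γ₁ γ₂` (`Close` is monotone in `γ`).
 Pointwise: `a_i = 1[0 < q i]`, `b_i = P (q i)`: `‖a_i‖ ≤ 1`, `‖b_i‖ ≤ 1 + ε₁ ≤ 2`, `‖a_i - b_i‖ ≤ ε₁ + 3 · 1[|q i| ≤ s] + 3 · 1[L < |q i|]` (`‖a - b‖ ≤ 3` always), and
 `‖∏ a_i - ∏ b_i‖ ≤ 2 ^ r ∑ i, ‖a_i - b_i‖` (induction on `r`, or `Finset.prod_sub_prod..`).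
 So `‖ex w (thr q f) - ex w (∏ b_i f)‖ ≤ 2 ^ r r (ε₁ + 3 ε₁ + 3 ε₁)` (`anti_w`, `tail_w`), the same for `av`; plus `tp_fool`: total `≤ 2 · 2 ^ r · 7 r ε₁ + ε₁`. -/

theorem c9_close_mono {n K : ℕ} {A : Finset (Fin n)} {γ γ' : ℝ} (h : γ ≤ γ')
    {v : (Fin n → Bool) → ℝ} (hc : Close A K γ v) : Close A K γ' v := by
  intro r hr hA
  refine (hc r hr hA).trans ?_
  exact mul_le_mul_of_nonneg_right h (avg_nonneg fun x => abs_nonneg _)

theorem c9_rex_sum {n k r : ℕ} (w : Fin k → (Fin n → Bool) → ℝ)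
    (F : Fin r → (Fin k → Fin n → Bool) → ℝ) :
    rex w (fun y => ∑ i, F i y) = ∑ i, rex w (F i) := by
  unfold rex
  rw [Finset.sum_comm]
  exact Finset.sum_congr rfl fun x _ => by rw [Finset.mul_sum]

theorem c9_av_sub {A : Type*} [Fintype A] (f g : A → ℂ) :
    av (fun x => f x - g x) = av f - av g := by
  unfold av
  rw [Finset.sum_sub_distrib, sub_div]

theorem c9_prod {J : Type*} (s : Finset J) (a b : J → ℂ) (ha : ∀ i, ‖a i‖ ≤ 1)
    (hb : ∀ i, ‖b i‖ ≤ 2) :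
    ‖∏ i ∈ s, a i - ∏ i ∈ s, b i‖ ≤ 2 ^ s.card * ∑ i ∈ s, ‖a i - b i‖ := by
  classical
  induction s using Finset.induction_on with
  | empty => simp
  | insert j s hj ih =>
    rw [Finset.prod_insert hj, Finset.prod_insert hj, Finset.sum_insert hj,
      Finset.card_insert_of_notMem hj]
    have h1 : ‖∏ i ∈ s, a i‖ ≤ 1 := by
      rw [norm_prod]
      exact Finset.prod_le_one (fun i _ => norm_nonneg _) fun i _ => ha i
    have h2 : a j * ∏ i ∈ s, a i - b j * ∏ i ∈ s, b i =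
        (a j - b j) * ∏ i ∈ s, a i + b j * (∏ i ∈ s, a i - ∏ i ∈ s, b i) := by ring
    have h3 : (1 : ℝ) ≤ 2 ^ (s.card + 1) := one_le_pow₀ (by norm_num)
    have h4 : 0 ≤ ∑ i ∈ s, ‖a i - b i‖ := Finset.sum_nonneg fun i _ => norm_nonneg _
    rw [h2]
    calc ‖(a j - b j) * ∏ i ∈ s, a i + b j * (∏ i ∈ s, a i - ∏ i ∈ s, b i)‖
        ≤ ‖a j - b j‖ * ‖∏ i ∈ s, a i‖ + ‖b j‖ * ‖∏ i ∈ s, a i - ∏ i ∈ s, b i‖ := by
          refine (norm_add_le _ _).trans ?_
          rw [norm_mul, norm_mul]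
      _ ≤ ‖a j - b j‖ * 1 + 2 * (2 ^ s.card * ∑ i ∈ s, ‖a i - b i‖) := by
          refine add_le_add ?_ ?_
          · exact mul_le_mul_of_nonneg_left h1 (norm_nonneg _)
          · exact mul_le_mul (hb j) ih (norm_nonneg _) (by norm_num)
      _ ≤ 2 ^ (s.card + 1) * ‖a j - b j‖ + 2 ^ (s.card + 1) * ∑ i ∈ s, ‖a i - b i‖ := by
          refine add_le_add ?_ (le_of_eq (by ring))
          rw [mul_comm]
          exact mul_le_mul_of_nonneg_right h3 (norm_nonneg _)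
      _ = _ := by ring

theorem c9_point {r N n : ℕ} {c : Fin N → ℂ} {θ : Fin N → ℝ} {s L ε₁ : ℝ} (h0 : 0 < ε₁)
    (h1 : ε₁ ≤ 1)
    (hP : ∀ u : ℝ, ‖tp c θ u‖ ≤ 1 + ε₁ ∧
      (s ≤ |u| → |u| ≤ L → ‖tp c θ u - (if 0 < u then 1 else 0)‖ ≤ ε₁))
    (q : Fin r → (Fin n → Bool) → ℝ) (x : Fin n → Bool) :
    ‖thr q x - ∏ i, tp c θ (q i x)‖ ≤ ∑ i, 2 ^ r * (ε₁ +
      (3 * (if |q i x| ≤ s then (1 : ℝ) else 0) + 3 * (if L < |q i x| then (1 : ℝ) else 0))) := by
  have ha : ∀ i : Fin r, ‖(if 0 < q i x then (1 : ℂ) else 0)‖ ≤ 1 := by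
    intro i
    split_ifs <;> simp
  have hb : ∀ i : Fin r, ‖tp c θ (q i x)‖ ≤ 2 := fun i => (hP (q i x)).1.trans (by linarith)
  have h2 := c9_prod (univ : Finset (Fin r)) (fun i => if 0 < q i x then (1 : ℂ) else 0)
    (fun i => tp c θ (q i x)) ha hb
  unfold thr
  refine h2.trans ?_
  rw [card_univ, Fintype.card_fin, Finset.mul_sum]
  refine Finset.sum_le_sum fun i _ => mul_le_mul_of_nonneg_left ?_ (by positivity)
  have h3 : ‖(if 0 < q i x then (1 : ℂ) else 0) - tp c θ (q i x)‖ ≤ 3 := by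
    refine (norm_sub_le _ _).trans ?_
    linarith [ha i, hb i]
  by_cases g1 : |q i x| ≤ s
  · rw [if_pos g1]
    have h4 : 0 ≤ 3 * (if L < |q i x| then (1 : ℝ) else 0) := by positivity
    linarith
  · rw [if_neg g1]
    by_cases g2 : L < |q i x|
    · rw [if_pos g2]
      linarith
    · rw [if_neg g2, norm_sub_rev]
      have := (hP (q i x)).2 (not_le.1 g1).le (not_lt.1 g2)
      linarith

theorem c9_core (m : ℕ) [NeZero m] (d r : ℕ) {ε : ℝ} (hε : 0 < ε) :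
    ∃ η > 0, ∃ τ > 0, ∃ γ₀ > 0, γ₀ ≤ 1 / 2 ∧ ∃ δ₀ > 0, ∀ (n k : ℕ) (rr : Fin n → Fin k)
      (A : Finset (Fin n)) (w : Fin k → (Fin n → Bool) → ℝ), IsPM w →
      (∀ b, Close A (4 * d) (γ₀ / k) (w b)) →
      ∀ q : Fin r → (Fin n → Bool) → ℝ, (∀ i, q i ∈ lowDeg (Fin n) Bool ℝ d) →
      (∀ i, Indep A (q i)) → (∀ i, avg (fun x => q i x ^ 2) = 1) → (∀ i j, infl j (q i) ≤ η) →
      (∀ i, ∑ b, avg (fun x => (q i x - avA (blk rr b) (q i) x) ^ 4) ≤ τ) →
      ∀ f ∈ phCls m Bool d n, ‖ex w (fun y => f (mx rr y)) - av f‖ ≤ δ₀ →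
        ‖ex w (fun y => thr q (mx rr y) * f (mx rr y)) - av (fun x => thr q x * f x)‖ ≤ ε := by
  obtain ⟨ε₁, hε₁, he1, he2⟩ : ∃ ε₁ : ℝ, 0 < ε₁ ∧ ε₁ ≤ 1 ∧
      (2 * (2 ^ r * (r * 7)) + 1) * ε₁ ≤ ε := by
    have h1 : (0 : ℝ) < 2 * (2 ^ r * (r * 7)) + 1 := by positivity
    refine ⟨min 1 (ε / (2 * (2 ^ r * (r * 7)) + 1)), lt_min one_pos (by positivity),
      min_le_left _ _, ?_⟩
    calc (2 * (2 ^ r * (r * 7)) + 1) * min 1 (ε / (2 * (2 ^ r * (r * 7)) + 1))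
        ≤ (2 * (2 ^ r * (r * 7)) + 1) * (ε / (2 * (2 ^ r * (r * 7)) + 1)) :=
          mul_le_mul_of_nonneg_left (min_le_right _ _) h1.le
      _ = ε := by field_simp
  obtain ⟨s, hs, η, hη, τ₁, hτ₁, γ₁, hγ₁, hγ₁', H1⟩ := anti_w d hε₁
  obtain ⟨L, hL1, hL2, hL3⟩ : ∃ L : ℝ, s < L ∧ 0 < L ∧ 2 / L ^ 2 ≤ ε₁ := by
    have h1 : 0 < 2 / ε₁ := by positivity
    refine ⟨s + 1 + 2 / ε₁, by linarith, by linarith, ?_⟩
    have h2 : 1 ≤ s + 1 + 2 / ε₁ := by linarith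
    have h3 : 2 / ε₁ ≤ (s + 1 + 2 / ε₁) ^ 2 := by nlinarith
    rw [div_le_iff₀ hε₁] at h3
    rw [div_le_iff₀ (by positivity)]
    linarith
  obtain ⟨N, c, θ, hP⟩ := step_approx hs hL1 hε₁
  obtain ⟨τ₂, hτ₂, γ₂, hγ₂, hγ₂', δ₀, hδ₀, H2⟩ := tp_fool m d r c θ hε₁
  refine ⟨η, hη, min τ₁ τ₂, lt_min hτ₁ hτ₂, min γ₁ γ₂, lt_min hγ₁ hγ₂,
    (min_le_left _ _).trans hγ₁', δ₀, hδ₀, ?_⟩
  intro n k rr A w hw hc q hq hqA hq2 hinf hq4 f hf hfo
  have hc1 : ∀ b, Close A (4 * d) (γ₁ / k) (w b) := fun b =>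
    c9_close_mono (div_le_div_of_nonneg_right (min_le_left _ _) (Nat.cast_nonneg k)) (hc b)
  have hc2 : ∀ b, Close A (4 * d) (γ₂ / k) (w b) := fun b =>
    c9_close_mono (div_le_div_of_nonneg_right (min_le_right _ _) (Nat.cast_nonneg k)) (hc b)
  have hanti : ∀ i, rex w (fun y => if |q i (mx rr y)| ≤ s then (1 : ℝ) else 0) ≤ ε₁ ∧
      avg (fun x => if |q i x| ≤ s then (1 : ℝ) else 0) ≤ ε₁ := by
    intro i
    obtain ⟨h1, h2⟩ := H1 n k rr A w hw hc1 (q i) (hq i) (hqA i) (hq2 i) (hinf i)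
      ((hq4 i).trans (min_le_left _ _))
    rw [c8b_pr] at h2
    exact ⟨h1, h2⟩
  have htail : ∀ i, rex w (fun y => if L < |q i (mx rr y)| then (1 : ℝ) else 0) ≤ ε₁ ∧
      avg (fun x => if L < |q i x| then (1 : ℝ) else 0) ≤ ε₁ := by
    intro i
    refine ⟨(tail_w rr hw hγ₁.le hγ₁' hc1 (hq i) (hqA i) (hq2 i).le hL2).trans hL3, ?_⟩
    calc avg (fun x => if L < |q i x| then (1 : ℝ) else 0)
        ≤ avg (fun x => 1 / L ^ 2 * q i x ^ 2) := avg_mono fun x => c8b_ind hL2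
      _ = 1 / L ^ 2 * avg (fun x => q i x ^ 2) := avg_mul_left _ _
      _ ≤ 2 / L ^ 2 := by
        rw [hq2 i, mul_one]
        exact div_le_div_of_nonneg_right (by norm_num) (by positivity)
      _ ≤ ε₁ := hL3
  have hnorm : ∀ x, ‖(thr q x - ∏ i, tp c θ (q i x)) * f x‖ ≤ ∑ i, 2 ^ r * (ε₁ +
      (3 * (if |q i x| ≤ s then (1 : ℝ) else 0) +
        3 * (if L < |q i x| then (1 : ℝ) else 0))) := by
    intro x
    rw [norm_mul, Agp.tw_norm hf, mul_one]
    exact c9_point hε₁ he1 hP q x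
  have hE : ∑ _i : Fin r, (2 : ℝ) ^ r * (ε₁ + (3 * ε₁ + 3 * ε₁)) = 2 ^ r * (r * 7) * ε₁ := by
    rw [Finset.sum_const, card_univ, Fintype.card_fin, nsmul_eq_mul]
    ring
  have b1 : ‖ex w (fun y => thr q (mx rr y) * f (mx rr y)) -
      ex w (fun y => (∏ i, tp c θ (q i (mx rr y))) * f (mx rr y))‖ ≤ 2 ^ r * (r * 7) * ε₁ := by
    rw [← ex_sub]
    refine (norm_ex_le hw (g := fun y => ∑ i, 2 ^ r * (ε₁ +
      (3 * (if |q i (mx rr y)| ≤ s then (1 : ℝ) else 0) +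
        3 * (if L < |q i (mx rr y)| then (1 : ℝ) else 0)))) fun y => ?_).trans ?_
    · rw [← sub_mul]
      exact hnorm (mx rr y)
    · rw [c9_rex_sum, ← hE]
      refine Finset.sum_le_sum fun i _ => ?_
      rw [rex_mul_left, rex_add, rex_const hw, rex_add, rex_mul_left, rex_mul_left]
      have h1 := (hanti i).1
      have h2 := (htail i).1
      gcongr
  have b2 : ‖av (fun x => thr q x * f x) -
      av (fun x => (∏ i, tp c θ (q i x)) * f x)‖ ≤ 2 ^ r * (r * 7) * ε₁ := by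
    rw [← c9_av_sub]
    refine (Agp.norm_av_le _).trans ?_
    calc avg (fun x => ‖thr q x * f x - (∏ i, tp c θ (q i x)) * f x‖)
        ≤ avg (fun x => ∑ i, 2 ^ r * (ε₁ +
            (3 * (if |q i x| ≤ s then (1 : ℝ) else 0) +
              3 * (if L < |q i x| then (1 : ℝ) else 0)))) := by
          refine avg_mono fun x => ?_
          rw [← sub_mul]
          exact hnorm x
      _ = ∑ i, 2 ^ r * (ε₁ +
            (3 * avg (fun x => if |q i x| ≤ s then (1 : ℝ) else 0) +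
              3 * avg (fun x => if L < |q i x| then (1 : ℝ) else 0))) := by
          rw [avg_sum]
          refine Finset.sum_congr rfl fun i _ => ?_
          rw [avg_mul_left, avg_add, avg_const, avg_add, avg_mul_left, avg_mul_left]
      _ ≤ _ := by
          rw [← hE]
          refine Finset.sum_le_sum fun i _ => ?_
          have h1 := (hanti i).2
          have h2 := (htail i).2
          gcongr
  have b3 := H2 n k rr A w hw hc2 q hq hqA (fun i => (hq2 i).le)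
    (fun i => (hq4 i).trans (min_le_right _ _)) f hf hfo
  calc ‖ex w (fun y => thr q (mx rr y) * f (mx rr y)) - av (fun x => thr q x * f x)‖
      = ‖(ex w (fun y => thr q (mx rr y) * f (mx rr y)) -
            ex w (fun y => (∏ i, tp c θ (q i (mx rr y))) * f (mx rr y))) +
          (ex w (fun y => (∏ i, tp c θ (q i (mx rr y))) * f (mx rr y)) -
            av (fun x => (∏ i, tp c θ (q i x)) * f x)) -
          (av (fun x => thr q x * f x) - av (fun x => (∏ i, tp c θ (q i x)) * f x))‖ := by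
        congr 1
        ring
    _ ≤ 2 ^ r * (r * 7) * ε₁ + ε₁ + 2 ^ r * (r * 7) * ε₁ := by
        refine (norm_sub_le _ _).trans (add_le_add ((norm_add_le _ _).trans (add_le_add b1 b3)) b2)
    _ = (2 * (2 ^ r * (r * 7)) + 1) * ε₁ := by ring
    _ ≤ ε := he2

theorem c9_avA_smul {n : ℕ} (B : Finset (Fin n)) (t : ℝ) (q : (Fin n → Bool) → ℝ)
    (x : Fin n → Bool) : avA B (fun x => t * q x) x = t * avA B q x := by
  unfold avA
  exact avg_mul_left _ _

theorem c9_infl_smul {n : ℕ} (j : Fin n) (t : ℝ) (q : (Fin n → Bool) → ℝ) :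
    infl j (fun x => t * q x) = t ^ 2 * infl j q := by
  unfold infl
  rw [← avg_mul_left]
  congr 1
  funext x
  unfold der
  ring

theorem leaf_one (m : ℕ) [NeZero m] (d r : ℕ) {ε : ℝ} (hε : 0 < ε) :
    ∃ η > 0, ∃ τ > 0, ∃ γ₀ > 0, γ₀ ≤ 1 / 2 ∧ ∃ δ₀ > 0, ∀ (n k : ℕ) (rr : Fin n → Fin k)
      (A : Finset (Fin n)) (w : Fin k → (Fin n → Bool) → ℝ), IsPM w →
      (∀ b, Close A (4 * d) (γ₀ / k) (w b)) →
      ∀ p : Fin r → (Fin n → Bool) → ℝ, (∀ i, p i ∈ lowDeg (Fin n) Bool ℝ d) →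
      (∀ i, Indep A (p i)) → (∀ i, Good η (p i)) →
      (∀ i, ∑ b, avg (fun x => (p i x - avA (blk rr b) (p i) x) ^ 4) ≤
        τ * avg (fun x => p i x ^ 2) ^ 2) →
      ∀ f ∈ phCls m Bool d n, ‖ex w (fun y => f (mx rr y)) - av f‖ ≤ δ₀ →
        ‖ex w (fun y => thr p (mx rr y) * f (mx rr y)) - av (fun x => thr p x * f x)‖ ≤ ε := by
  obtain ⟨η, hη, τ, hτ, γ₀, hγ₀, hγ₀', δ₀, hδ₀, H⟩ := c9_core m d r hε
  refine ⟨η, hη, τ, hτ, γ₀, hγ₀, hγ₀', δ₀, hδ₀, ?_⟩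
  intro n k rr A w hw hc p hp hpA hgood hp4 f hf hfo
  by_cases hz : ∃ i, avg (fun x => p i x ^ 2) = 0
  · obtain ⟨i, hi⟩ := hz
    have h1 : ∀ x, p i x = 0 := by
      have h2 : ∑ x, p i x ^ 2 = 0 := by
        unfold avg at hi
        rcases div_eq_zero_iff.1 hi with h | h
        · exact h
        · exact absurd h (Nat.cast_ne_zero.2 Fintype.card_ne_zero)
      intro x
      have h3 := (Finset.sum_eq_zero_iff_of_nonneg fun x _ => sq_nonneg (p i x)).1 h2 x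
        (mem_univ x)
      exact pow_eq_zero_iff (two_ne_zero) |>.1 h3
    have h2 : ∀ x, thr p x = 0 := by
      intro x
      unfold thr
      refine Finset.prod_eq_zero (mem_univ i) ?_
      rw [h1 x, if_neg (lt_irrefl _)]
    have h3 : av (fun x => thr p x * f x) = 0 := by
      simp only [h2, zero_mul]
      unfold av
      simp
    simp only [h2, zero_mul] at h3 ⊢
    rw [ex_const hw, h3, sub_zero, norm_zero]
    exact hε.le
  · have hpos : ∀ i, 0 < avg (fun x => p i x ^ 2) := by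
      intro i
      refine lt_of_le_of_ne (avg_nonneg fun x => sq_nonneg _) fun h => hz ⟨i, h.symm⟩
    obtain ⟨t, ht⟩ : ∃ t : Fin r → ℝ, ∀ i, 0 < t i ∧ t i ^ 2 * avg (fun x => p i x ^ 2) = 1 := by
      refine ⟨fun i => 1 / √(avg (fun x => p i x ^ 2)), fun i => ⟨?_, ?_⟩⟩
      · exact one_div_pos.2 (Real.sqrt_pos.2 (hpos i))
      · rw [div_pow, Real.sq_sqrt (hpos i).le, one_pow]
        exact one_div_mul_cancel (hpos i).ne'
    have hthr : ∀ x, thr (fun i x => t i * p i x) x = thr p x := by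
      intro x
      unfold thr
      refine Finset.prod_congr rfl fun i _ => ?_
      have : 0 < t i * p i x ↔ 0 < p i x := mul_pos_iff_of_pos_left (ht i).1
      simp only [this]
    have h1 := H n k rr A w hw hc (fun i x => t i * p i x) (fun i => smul_mem (hp i) (t i))
      (fun i x y hxy => by simp only [hpA i x y hxy])
      (fun i => by
        simp only [mul_pow]
        rw [avg_mul_left]
        exact (ht i).2)
      (fun i j => by
        rw [c9_infl_smul]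
        calc t i ^ 2 * infl j (p i) ≤ t i ^ 2 * (η * avg (fun x => p i x ^ 2)) :=
              mul_le_mul_of_nonneg_left (hgood i j) (sq_nonneg _)
          _ = η * (t i ^ 2 * avg (fun x => p i x ^ 2)) := by ring
          _ = η := by rw [(ht i).2, mul_one])
      (fun i => by
        have h2 : ∀ b, avg (fun x => (t i * p i x - avA (blk rr b) (fun x => t i * p i x) x) ^ 4) =
            t i ^ 4 * avg (fun x => (p i x - avA (blk rr b) (p i) x) ^ 4) := by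
          intro b
          rw [← avg_mul_left]
          congr 1
          funext x
          rw [c9_avA_smul]
          ring
        simp only [h2]
        rw [← Finset.mul_sum]
        calc t i ^ 4 * ∑ b, avg (fun x => (p i x - avA (blk rr b) (p i) x) ^ 4)
            ≤ t i ^ 4 * (τ * avg (fun x => p i x ^ 2) ^ 2) :=
              mul_le_mul_of_nonneg_left (hp4 i) (pow_nonneg (ht i).1.le 4)
          _ = τ * (t i ^ 2 * avg (fun x => p i x ^ 2)) ^ 2 := by ring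
          _ = τ := by rw [(ht i).2, one_pow, mul_one]) f hf hfo
    simp only [hthr] at h1
    exact h1

end Pool.Agent.MP_ca1109_lc.Hyb
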