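import Pool.Agent.MP_ca1109_lc.Hyb.B2

/-!
# Restrictions of product measures
-/

namespace Pool.Agent.MP_ca1109_lc.Hyb

open Pool.Agent.MP_ca1109_lc.Mpg Pool.Agent.MP_ca1109_lc.Agp Finset

variable {n : ℕ}

/- PROOF NOTES [HYB-D1].  `at_eq`: `at' A τ (mx rr y) = ∏ b, (if ∀ i ∈ A ∩ blk rr b, y b i = τ i then 1 else 0)` (every `i ∈ A` is in exactly one block, `mx rr y i = y (rr i) i`).
`cond_product`: `wt (fun _ => μ) y * at' .. = ∏ b, (if .. then μ (y b) else 0) = (∏ b, msA ..) * wt (fun b => cnd ..) y`, and where this is nonzero `F (mx rr y) = fx A τ F (mx rr y)`.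
`av_at`: `av (at' A τ * F) = av (fx A τ F) / 2 ^ A.card`: direct bijection as in `avg_fx` for `at' A τ * F` (`fx A τ' (at' A τ * F)` is `0` unless `τ' = τ` on `A`, where it is `fx A τ F`; the number of such `τ'` is `2 ^ (n - A.card)`;
`avg_fx` is for real functions: apply it to real and imaginary parts, or copy its proof). -/

theorem D1_card (A : Finset (Fin n)) (τ y : Fin n → Bool) :
    ((univ.filter fun x : Fin n → Bool => (fun i => if i ∈ A then τ i else x i) = y).card : ℂ) =
      2 ^ A.card * at' A τ y := by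
  classical
  unfold at'
  by_cases h : ∀ i ∈ A, y i = τ i
  · rw [if_pos h, mul_one]
    have h1 : (univ.filter fun x : Fin n → Bool => (fun i => if i ∈ A then τ i else x i) = y) =
        Fintype.piFinset (fun i => if i ∈ A then (univ : Finset Bool) else {y i}) := by
      ext x
      rw [mem_filter, Fintype.mem_piFinset]
      constructor
      · rintro ⟨-, hx⟩ i
        by_cases hi : i ∈ A
        · rw [if_pos hi]
          exact mem_univ _
        · rw [if_neg hi, mem_singleton]
          have := congrFun hx i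
          simpa only [if_neg hi] using this
      · intro hx
        refine ⟨mem_univ _, funext fun i => ?_⟩
        have := hx i
        by_cases hi : i ∈ A
        · simp only [if_pos hi]
          exact (h i hi).symm
        · rw [if_neg hi, mem_singleton] at this
          simp only [if_neg hi]
          exact this
    rw [h1, Fintype.card_piFinset]
    have h2 : ∀ i : Fin n, (if i ∈ A then (univ : Finset Bool) else {y i}).card =
        if i ∈ A then 2 else 1 := by
      intro i
      by_cases hi : i ∈ A
      · rw [if_pos hi, if_pos hi, card_univ, Fintype.card_bool]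
      · rw [if_neg hi, if_neg hi, card_singleton]
    rw [Finset.prod_congr rfl fun i _ => h2 i, Finset.prod_ite, Finset.prod_const,
      Finset.prod_const_one, mul_one, Finset.filter_mem_eq_inter, Finset.univ_inter]
    push_cast
    rfl
  · rw [if_neg h, mul_zero]
    have h1 : (univ.filter fun x : Fin n → Bool => (fun i => if i ∈ A then τ i else x i) = y) =
        ∅ := by
      rw [filter_eq_empty_iff]
      intro x _ hx
      apply h
      intro i hi
      have := congrFun hx i
      simp only [if_pos hi] at this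
      exact this.symm
    rw [h1, card_empty, Nat.cast_zero]

theorem at_norm (A : Finset (Fin n)) (τ x : Fin n → Bool) : ‖at' A τ x‖ ≤ 1 := by
  unfold at'
  split_ifs
  · rw [norm_one]
  · rw [norm_zero]
    exact zero_le_one

theorem cond_product {k : ℕ} (rr : Fin n → Fin k) {μ : (Fin n → Bool) → ℝ} (h0 : ∀ z, 0 ≤ μ z)
    (A : Finset (Fin n)) (τ : Fin n → Bool) (hm : ∀ b, 0 < msA (A ∩ blk rr b) τ μ)
    (F : (Fin n → Bool) → ℂ) :
    ex (fun _ => μ) (fun y => at' A τ (mx rr y) * F (mx rr y)) =
      ((∏ b, msA (A ∩ blk rr b) τ μ : ℝ) : ℂ) *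
        ex (fun b => cnd (A ∩ blk rr b) τ μ) (fun y => fx A τ F (mx rr y)) := by
  classical
  unfold ex
  rw [Finset.mul_sum]
  apply Finset.sum_congr rfl
  intro y _
  have hiff : (∀ i ∈ A, mx rr y i = τ i) ↔ ∀ b, ∀ i ∈ A ∩ blk rr b, y b i = τ i := by
    constructor
    · intro h b i hi
      obtain ⟨h1, h2⟩ := mem_inter.mp hi
      have h3 : rr i = b := by
        unfold blk at h2
        exact (mem_filter.mp h2).2
      have h4 := h i h1
      unfold mx at h4
      rwa [h3] at h4
    · intro h i hi
      exact h (rr i) i (mem_inter.mpr ⟨hi, by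
        unfold blk
        exact mem_filter.mpr ⟨mem_univ _, rfl⟩⟩)
  by_cases h : ∀ i ∈ A, mx rr y i = τ i
  · have h1 : at' A τ (mx rr y) = 1 := by
      unfold at'
      rw [if_pos h]
    have h2 : fx A τ F (mx rr y) = F (mx rr y) := by
      unfold fx
      congr 1
      funext i
      by_cases hi : i ∈ A
      · rw [if_pos hi, h i hi]
      · rw [if_neg hi]
    have h3 : Mpg.wt (fun _ => μ) y = (∏ b, msA (A ∩ blk rr b) τ μ) *
        Mpg.wt (fun b => cnd (A ∩ blk rr b) τ μ) y := by
      unfold Mpg.wt
      rw [← Finset.prod_mul_distrib]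
      apply Finset.prod_congr rfl
      intro b _
      have h5 : cnd (A ∩ blk rr b) τ μ (y b) = μ (y b) / msA (A ∩ blk rr b) τ μ := by
        unfold cnd
        rw [if_pos (hiff.mp h b)]
      have := (hm b).ne'
      change μ (y b) = msA (A ∩ blk rr b) τ μ * cnd (A ∩ blk rr b) τ μ (y b)
      rw [h5]
      field_simp
    change (Mpg.wt (fun _ => μ) y : ℂ) * (at' A τ (mx rr y) * F (mx rr y)) =
      ((∏ b, msA (A ∩ blk rr b) τ μ : ℝ) : ℂ) *
        ((Mpg.wt (fun b => cnd (A ∩ blk rr b) τ μ) y : ℂ) * fx A τ F (mx rr y))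
    rw [h1, h2, h3, one_mul]
    push_cast
    ring
  · have h1 : at' A τ (mx rr y) = 0 := by
      unfold at'
      rw [if_neg h]
    have h3 : Mpg.wt (fun b => cnd (A ∩ blk rr b) τ μ) y = 0 := by
      rw [hiff] at h
      push Not at h
      obtain ⟨b, i, hi, hne⟩ := h
      unfold Mpg.wt
      apply Finset.prod_eq_zero (mem_univ b)
      change cnd (A ∩ blk rr b) τ μ (y b) = 0
      unfold cnd
      rw [if_neg]
      intro h'
      exact hne (h' i hi)
    change (Mpg.wt (fun _ => μ) y : ℂ) * (at' A τ (mx rr y) * F (mx rr y)) =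
      ((∏ b, msA (A ∩ blk rr b) τ μ : ℝ) : ℂ) *
        ((Mpg.wt (fun b => cnd (A ∩ blk rr b) τ μ) y : ℂ) * fx A τ F (mx rr y))
    rw [h1, h3]
    simp

theorem av_at (A : Finset (Fin n)) (τ : Fin n → Bool) (F : (Fin n → Bool) → ℂ) :
    av (fun x => at' A τ x * F x) = av (fx A τ F) / 2 ^ A.card := by
  classical
  have h1 : ∑ x, fx A τ F x = 2 ^ A.card * ∑ x, at' A τ x * F x := by
    have h2 : ∀ x, fx A τ F x = F (fun i => if i ∈ A then τ i else x i) := fun x => rfl
    rw [Finset.sum_congr rfl fun x _ => h2 x,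
      ← Finset.sum_fiberwise univ (fun x : Fin n → Bool => (fun i => if i ∈ A then τ i else x i)),
      Finset.mul_sum]
    apply Finset.sum_congr rfl
    intro y _
    have h3 : ∀ x ∈ univ.filter (fun x : Fin n → Bool =>
        (fun i => if i ∈ A then τ i else x i) = y),
        F (fun i => if i ∈ A then τ i else x i) = F y := by
      intro x hx
      rw [(mem_filter.mp hx).2]
    rw [Finset.sum_congr rfl h3, Finset.sum_const, nsmul_eq_mul, D1_card]
    ring
  unfold av
  rw [h1]
  have h2 : (2 : ℂ) ^ A.card ≠ 0 := pow_ne_zero _ two_ne_zero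
  field_simp

end Pool.Agent.MP_ca1109_lc.Hyb
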