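import Pool.Agent.MP_ca1109_lc.Hyb.C2
import Pool.Agent.MP_ca1109_lc.Hyb.D1

/-!
# Conditional product measures of a source
-/

namespace Pool.Agent.MP_ca1109_lc.Hyb

open Pool.Agent.MP_ca1109_lc.Mpg Pool.Agent.MP_ca1109_lc.Agp Finset

variable {n : ℕ}

/- PROOF NOTES [HYB-D1a].  `delta_nonneg`: `0 ≤ ‖..‖ ≤ δ / 2 ^ 0` from `fool` with `A = ∅`, `Γ = ZMod 1`, `u = 1` (`tw_one`), `c = 0`.
`state_pos`: `msA_close` with `γ = δ / 2 ^ t ≤ 1/4` for `A ∩ blk` (`Finset.card_le_card inter_subset_left`).  `state_pm`: `cnd_pm`.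
`state_close`: `cnd_close` with `γ = δ / 2 ^ S.t` for `A ∩ blk`, then monotonicity: a function which does not depend on `A` does not depend on `A ∩ blk`.  (`((2 ^ S.t : ℕ) : ℝ) = 2 ^ S.t` by `push_cast`.)
`state_mass`: `S.OK.fool` for `Γ = ZMod 1`, `u = 1`, `c = 0`: `fam u c = 1`; with `cond_product` and `av_at` for `F = 1`: `|∏ b, msA - 1 / 2 ^ A.card| ≤ δ / 2 ^ A.card`.  (`ex (cnd) 1 = 1`: `ex_const`, `state_pm`.)
`state_phase`: `fool` for `fam u 0` with `Γ = ZMod 1`, `u χ = f`: `fam u 0 = f`; `cond_product`, `av_at`: `‖Z ex w f' - av f' / 2 ^ a‖ ≤ δ / 2 ^ a` with `|2 ^ a Z - 1| ≤ δ`, so `‖ex w f' - av f'‖ ≤ 2 δ ≤ 4 δ`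
(`‖ex w f'‖ ≤ 1`). -/

theorem d1a_fam (f : (Fin n → Bool) → ℂ) :
    fam (Γ := ZMod 1) (fun _ => f) (fun _ => 0) = f := by
  funext x
  have h1 : fam (Γ := ZMod 1) (fun _ => f) (fun _ => 0) x =
      f x * fam (Γ := ZMod 1) (fun _ _ => 1) (fun _ => 0) x := by
    unfold fam
    rw [← mul_div_assoc, Finset.mul_sum]
    simp only [one_mul]
  rw [h1, zero_fam, if_pos (Subsingleton.elim _ _), mul_one]

theorem d1a_fool {S : Src n} {m : ℕ} [NeZero m] {d D : ℕ} {δ : ℝ} (hS : S.OK m d D δ)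
    {A : Finset (Fin n)} (hA : A.card ≤ D) (τ : Fin n → Bool) (q : ℕ)
    {f : (Fin n → Bool) → ℂ} (hf : f ∈ phCls m Bool d n) :
    ‖ex (fun _ => S.μ) (fun y => at' A τ (mx (S.rr q) y) * f (mx (S.rr q) y)) -
      av (fun x => at' A τ x * f x)‖ ≤ δ / 2 ^ A.card := by
  have h := hS.fool q A τ hA (ZMod 1) (fun _ => f) (fun _ => 0) (fun _ => hf) (fun _ _ => rfl)
  rw [d1a_fam] at h
  exact h

theorem Src.OK.delta_nonneg {S : Src n} {m : ℕ} [NeZero m] {d D : ℕ} {δ : ℝ}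
    (hS : S.OK m d D δ) : 0 ≤ δ := by
  have h := d1a_fool hS (A := ∅) (by simp) (fun _ => false) 0 tw_one
  rw [Finset.card_empty, pow_zero, div_one] at h
  exact (norm_nonneg _).trans h

theorem d1a_gamma {δ : ℝ} (h0 : 0 ≤ δ) (hδ : δ ≤ 1 / 4) (t : ℕ) : 0 ≤ δ / 2 ^ t ∧ δ / 2 ^ t ≤ 1 / 4 :=
  ⟨by positivity, (div_le_self h0 (one_le_pow₀ (by norm_num))).trans hδ⟩

theorem state_pos {S : Src n} {m : ℕ} [NeZero m] {d D : ℕ} {δ : ℝ} (hS : S.OK m d D δ)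
    (hδ : δ ≤ 1 / 4) {A : Finset (Fin n)} (hA : A.card ≤ D) (τ : Fin n → Bool) (q : ℕ)
    (b : Fin (2 ^ S.t)) : 0 < msA (A ∩ blk (S.rr q) b) τ S.μ := by
  obtain ⟨-, h1⟩ := d1a_gamma hS.delta_nonneg hδ S.t
  have h2 := msA_close hS.close
    (A := A ∩ blk (S.rr q) b) ((Finset.card_le_card Finset.inter_subset_left).trans hA) τ
  have h3 := (abs_le.1 h2).1
  have h4 : (0 : ℝ) < 1 / 2 ^ (A ∩ blk (S.rr q) b).card := by positivity
  have h5 : δ / 2 ^ S.t / 2 ^ (A ∩ blk (S.rr q) b).card =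
      δ / 2 ^ S.t * (1 / 2 ^ (A ∩ blk (S.rr q) b).card) := by ring
  rw [h5] at h3
  nlinarith

theorem state_pm {S : Src n} {m : ℕ} [NeZero m] {d D : ℕ} {δ : ℝ} (hS : S.OK m d D δ)
    (hδ : δ ≤ 1 / 4) {A : Finset (Fin n)} (hA : A.card ≤ D) (τ : Fin n → Bool) (q : ℕ) :
    IsPM (fun b => cnd (A ∩ blk (S.rr q) b) τ S.μ) where
  nonneg b := (cnd_pm hS.nonneg (state_pos hS hδ hA τ q b)).1
  sum_one b := (cnd_pm hS.nonneg (state_pos hS hδ hA τ q b)).2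

theorem state_close {S : Src n} {m : ℕ} [NeZero m] {d D : ℕ} {δ : ℝ} (hS : S.OK m d D δ)
    (hδ : δ ≤ 1 / 4) {A : Finset (Fin n)} {K : ℕ} (hA : A.card + K ≤ D) (τ : Fin n → Bool) (q : ℕ)
    (b : Fin (2 ^ S.t)) :
    Close A K (4 * δ / (2 ^ S.t : ℕ)) (cnd (A ∩ blk (S.rr q) b) τ S.μ) := by
  obtain ⟨h1, h2⟩ := d1a_gamma hS.delta_nonneg hδ S.t
  have h3 := cnd_close hS.nonneg h1 h2 hS.close (A := A ∩ blk (S.rr q) b) (K := K)
    ((Nat.add_le_add_right (Finset.card_le_card Finset.inter_subset_left) K).trans hA) τ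
  have h4 : 4 * (δ / 2 ^ S.t) = 4 * δ / (2 ^ S.t : ℕ) := by
    push_cast
    ring
  rw [h4] at h3
  intro r hr hA'
  exact h3 r hr fun x y hxy => hA' x y fun i hi => hxy i fun h => hi (Finset.mem_inter.1 h).1

theorem state_mass {S : Src n} {m : ℕ} [NeZero m] {d D : ℕ} {δ : ℝ} (hS : S.OK m d D δ)
    (hδ : δ ≤ 1 / 4) {A : Finset (Fin n)} (hA : A.card ≤ D) (τ : Fin n → Bool) (q : ℕ) :
    |2 ^ A.card * ∏ b, msA (A ∩ blk (S.rr q) b) τ S.μ - 1| ≤ δ := by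
  have h1 := d1a_fool hS hA τ q (f := fun _ => 1) tw_one
  rw [cond_product (S.rr q) hS.nonneg A τ (fun b => state_pos hS hδ hA τ q b) (fun _ => 1),
    av_at] at h1
  have h2 : (fun y : Fin (2 ^ S.t) → Fin n → Bool =>
      fx A τ (fun _ : Fin n → Bool => (1 : ℂ)) (mx (S.rr q) y)) = fun _ => 1 := rfl
  have h3 : av (fx A τ (fun _ : Fin n → Bool => (1 : ℂ))) = 1 := by
    unfold av fx
    rw [Finset.sum_const, Finset.card_univ, nsmul_eq_mul, mul_one]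
    exact div_self (Nat.cast_ne_zero.2 Fintype.card_ne_zero)
  rw [h2, ex_const (state_pm hS hδ hA τ q), h3, mul_one] at h1
  generalize (∏ b, msA (A ∩ blk (S.rr q) b) τ S.μ) = Z at h1 ⊢
  have h4 : ((Z : ℂ) - 1 / 2 ^ A.card) = (((Z - 1 / 2 ^ A.card : ℝ)) : ℂ) := by push_cast; rfl
  rw [h4, Complex.norm_real, Real.norm_eq_abs] at h1
  have h5 : (2 : ℝ) ^ A.card * Z - 1 = 2 ^ A.card * (Z - 1 / 2 ^ A.card) := by
    field_simp
  rw [h5, abs_mul, abs_of_pos (by positivity : (0 : ℝ) < 2 ^ A.card)]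
  have h6 := mul_le_mul_of_nonneg_left h1 (by positivity : (0 : ℝ) ≤ 2 ^ A.card)
  have h7 : (2 : ℝ) ^ A.card * (δ / 2 ^ A.card) = δ := by field_simp
  rw [h7] at h6
  exact h6

theorem state_phase {S : Src n} {m : ℕ} [NeZero m] {d D : ℕ} {δ : ℝ} (hS : S.OK m d D δ)
    (hδ : δ ≤ 1 / 4) {A : Finset (Fin n)} (hA : A.card ≤ D) (τ : Fin n → Bool) (q : ℕ)
    {f : (Fin n → Bool) → ℂ} (hf : f ∈ phCls m Bool d n) :
    ‖ex (fun b => cnd (A ∩ blk (S.rr q) b) τ S.μ) (fun y => fx A τ f (mx (S.rr q) y)) -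
      av (fx A τ f)‖ ≤ 4 * δ := by
  have h0 := hS.delta_nonneg
  have hm := state_mass hS hδ hA τ q
  have h1 := d1a_fool hS hA τ q hf
  rw [cond_product (S.rr q) hS.nonneg A τ (fun b => state_pos hS hδ hA τ q b) f, av_at] at h1
  have h2 : ‖ex (fun b => cnd (A ∩ blk (S.rr q) b) τ S.μ) (fun y => fx A τ f (mx (S.rr q) y))‖ ≤ 1 := by
    have h3 := norm_ex_le (state_pm hS hδ hA τ q)
      (f := fun y => fx A τ f (mx (S.rr q) y)) (g := fun _ => 1) (fun y => (tw_norm hf _).le)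
    rwa [rex_const (state_pm hS hδ hA τ q)] at h3
  generalize ex (fun b => cnd (A ∩ blk (S.rr q) b) τ S.μ) (fun y => fx A τ f (mx (S.rr q) y)) = E
    at h1 h2 ⊢
  generalize av (fx A τ f) = V at h1 ⊢
  generalize (∏ b, msA (A ∩ blk (S.rr q) b) τ S.μ) = Z at h1 hm
  have hc : (0 : ℝ) < 2 ^ A.card := by positivity
  have h3 : ‖(2 : ℂ) ^ A.card * Z * E - V‖ ≤ δ := by
    have h4 : (2 : ℂ) ^ A.card * Z * E - V = ((2 ^ A.card : ℝ) : ℂ) * (Z * E - V / 2 ^ A.card) := by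
      push_cast
      field_simp
    rw [h4, norm_mul, Complex.norm_real, Real.norm_eq_abs, abs_of_pos hc]
    have h6 := mul_le_mul_of_nonneg_left h1 hc.le
    have h7 : (2 : ℝ) ^ A.card * (δ / 2 ^ A.card) = δ := by field_simp
    rw [h7] at h6
    exact h6
  have h5 : ‖(2 : ℂ) ^ A.card * Z * E - E‖ ≤ δ := by
    have h4 : (2 : ℂ) ^ A.card * Z * E - E = ((2 ^ A.card * Z - 1 : ℝ) : ℂ) * E := by
      push_cast
      ring
    rw [h4, norm_mul, Complex.norm_real, Real.norm_eq_abs]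
    calc |2 ^ A.card * Z - 1| * ‖E‖ ≤ δ * 1 := mul_le_mul hm h2 (norm_nonneg _) h0
      _ = δ := mul_one δ
  have h6 : E - V = ((2 : ℂ) ^ A.card * Z * E - V) - ((2 : ℂ) ^ A.card * Z * E - E) := by ring
  rw [h6]
  refine (norm_sub_le _ _).trans ?_
  linarith

end Pool.Agent.MP_ca1109_lc.Hyb
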