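import Pool.Agent.MP_ca1109_lc.Hyb.B1b
import Pool.Agent.MP_ca1109_lc.Hyb.B2b

/-!
# Influences of random blocks
-/

namespace Pool.Agent.MP_ca1109_lc.Hyb

open Pool.Agent.MP_ca1109_lc.Mpg Pool.Agent.MP_ca1109_lc.Agp Finset

/- PROOF NOTES [HYB-D1b].  For fixed `q`: `avg (p - avA (blk b) p)⁴ ≤ 9 ^ d (avg (p - avA (blk b) p)²)² ≤ 9 ^ d (∑ i ∈ blk b, infl i p)²` (`hyper` for `p - avA p`, degree `d`; `dev_le`), and
`∑ b, (∑ i ∈ blk b, a i)² = ∑ i, ∑ j, if rr i = rr j then a i * a j else 0` (`a i = infl i p ≥ 0`).  Average over `q` by `S.OK.hash`: `≤ 9 ^ d (∑ a i² + δ (∑ a i)²)`; `a i ≤ η s`, `∑ a i ≤ d s`, `s = avg p²`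
(`Good`, `sum_infl_le`): `≤ 9 ^ d (η d + δ d²) s²`. -/

theorem d1b_blocks {n K : ℕ} (rr : Fin n → Fin K) (a : Fin n → ℝ) :
    ∑ b, (∑ i ∈ blk rr b, a i) ^ 2 = ∑ i, ∑ j, if rr i = rr j then a i * a j else 0 := by
  have h1 : ∀ b, (∑ i ∈ blk rr b, a i) ^ 2 =
      ∑ i, ∑ j, (if rr i = b then a i else 0) * (if rr j = b then a j else 0) := by
    intro b
    have h2 : ∑ i ∈ blk rr b, a i = ∑ i, if rr i = b then a i else 0 := by
      unfold blk
      rw [Finset.sum_filter]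
    rw [h2, sq, Finset.sum_mul_sum]
  rw [Finset.sum_congr rfl fun b _ => h1 b, Finset.sum_comm]
  refine Finset.sum_congr rfl fun i _ => ?_
  rw [Finset.sum_comm]
  refine Finset.sum_congr rfl fun j _ => ?_
  rw [Finset.sum_eq_single (rr i)]
  · rw [if_pos rfl]
    by_cases h : rr i = rr j
    · rw [if_pos h.symm, if_pos h]
    · rw [if_neg (fun h' => h h'.symm), if_neg h, mul_zero]
  · intro b _ hb
    rw [if_neg (fun h => hb h.symm), zero_mul]
  · intro h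
    exact absurd (mem_univ _) h

theorem hash_influence {n : ℕ} {S : Src n} {m : ℕ} [NeZero m] {d D : ℕ} {δ η : ℝ}
    (hS : S.OK m d D δ) (hδ : 0 ≤ δ) (hη : 0 ≤ η) {p : (Fin n → Bool) → ℝ}
    (hp : p ∈ lowDeg (Fin n) Bool ℝ d) (hg : Good η p) :
    nr S.h (fun q => ∑ b, avg (fun x => (p x - avA (blk (S.rr q) b) p x) ^ 4)) ≤
      9 ^ d * (η * d + δ * d ^ 2) * avg (fun x => p x ^ 2) ^ 2 := by
  classical
  obtain ⟨s, hs⟩ : ∃ s, s = avg (fun x => p x ^ 2) := ⟨_, rfl⟩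
  have hs0 : 0 ≤ s := by rw [hs]; exact avg_nonneg fun x => sq_nonneg _
  have ha0 : ∀ i, 0 ≤ infl i p := fun i => avg_nonneg fun x => sq_nonneg _
  have h1 : ∀ q < S.h, ∑ b, avg (fun x => (p x - avA (blk (S.rr q) b) p x) ^ 4) ≤
      9 ^ d * ∑ i, ∑ j, if S.rr q i = S.rr q j then infl i p * infl j p else 0 := by
    intro q _
    rw [← d1b_blocks, Finset.mul_sum]
    refine Finset.sum_le_sum fun b _ => ?_
    have h2 : (fun x => p x - avA (blk (S.rr q) b) p x) ∈ lowDeg (Fin n) Bool ℝ d :=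
      AddSubgroup.sub_mem _ hp (avA_mem hp _)
    refine (hyper h2).trans (mul_le_mul_of_nonneg_left ?_ (by positivity))
    exact pow_le_pow_left₀ (avg_nonneg fun x => sq_nonneg _) (dev_le _ p) 2
  refine (nr_mono h1).trans ?_
  rw [nr_mul_left, ← hs, mul_assoc]
  refine mul_le_mul_of_nonneg_left ?_ (by positivity)
  refine (hS.hash (fun i => infl i p) ha0).trans ?_
  have h3 : ∑ i, infl i p ≤ d * s := by rw [hs]; exact sum_infl_le hp
  have h4 : ∑ i, infl i p ^ 2 ≤ η * s * (d * s) := by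
    calc ∑ i, infl i p ^ 2 ≤ ∑ i, η * s * infl i p := by
          refine Finset.sum_le_sum fun i _ => ?_
          rw [sq]
          refine mul_le_mul_of_nonneg_right ?_ (ha0 i)
          rw [hs]
          exact hg i
      _ = η * s * ∑ i, infl i p := by rw [Finset.mul_sum]
      _ ≤ η * s * (d * s) := mul_le_mul_of_nonneg_left h3 (mul_nonneg hη hs0)
  have h5 : (∑ i, infl i p) ^ 2 ≤ (d * s) ^ 2 :=
    pow_le_pow_left₀ (Finset.sum_nonneg fun i _ => ha0 i) h3 2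
  have h6 : δ * (∑ i, infl i p) ^ 2 ≤ δ * (d * s) ^ 2 := mul_le_mul_of_nonneg_left h5 hδ
  calc ∑ i, infl i p ^ 2 + δ * (∑ i, infl i p) ^ 2 ≤ η * s * (d * s) + δ * (d * s) ^ 2 :=
        add_le_add h4 h6
    _ = (η * d + δ * d ^ 2) * s ^ 2 := by ring

end Pool.Agent.MP_ca1109_lc.Hyb
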