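import Pool.Agent.MP_ca1109_lc.Hyb.B2
import Pool.Agent.MP_ca1109_lc.Hyb.D1

/-!
# Rules for the errors
-/

namespace Pool.Agent.MP_ca1109_lc.Hyb

open Pool.Agent.MP_ca1109_lc.Mpg Pool.Agent.MP_ca1109_lc.Agp Finset

variable {n : ℕ}

/- PROOF NOTES [HYB-D2].  `err_congr`: `at' A τ x * F x` only depends on `F x` for `x = τ` on `A`, where `F x = fx A τ F x`.
`err_sum`: triangle inequality (`ex_sum`, `ex_mul_left`, `f1_av_sum`, `nr_mono`, `nr_sum`, `nr_mul_left`).
`err_sub`: for every `x`: `at' A τ x = 2 ^ (A' ∖ A).card * (average over τ' of at' (A ∪ A') (glue τ τ') x)`: the average over `τ'` of the indicator that `τ'` agrees with `x` on `A' ∖ A` is `2 ^ {-(A' ∖ A).card}` (e.g. `av_at` with the roles of the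
two strings exchanged); `(A ∪ A').card = A.card + (A' ∖ A).card`; triangle inequality, exchange `nr` and `avg` (`avg_nr`). -/

/-- the difference of the average over the source and the average -/
private noncomputable def d2_L (S : Src n) (q : ℕ) (G : (Fin n → Bool) → ℂ) : ℂ :=
  ex (fun _ => S.μ) (fun y => G (mx (S.rr q) y)) - av G

private theorem d2_err (S : Src n) (A : Finset (Fin n)) (τ : Fin n → Bool)
    (F : (Fin n → Bool) → ℂ) :
    err S A τ F = nr S.h (fun q => 2 ^ A.card * ‖d2_L S q (fun x => at' A τ x * F x)‖) := rfl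

private theorem d2_L_sum {J : Type*} (S : Src n) (q : ℕ) (s : Finset J) (a : J → ℂ)
    (G : J → (Fin n → Bool) → ℂ) :
    d2_L S q (fun x => ∑ j ∈ s, a j * G j x) = ∑ j ∈ s, a j * d2_L S q (G j) := by
  unfold d2_L
  have h1 : ex (fun _ => S.μ) (fun y => ∑ j ∈ s, a j * G j (mx (S.rr q) y)) =
      ∑ j ∈ s, a j * ex (fun _ => S.μ) (fun y => G j (mx (S.rr q) y)) := by
    rw [ex_sum (fun _ => S.μ) s (fun j y => a j * G j (mx (S.rr q) y))]
    exact Finset.sum_congr rfl fun j _ => ex_mul_left _ _ _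
  have h2 : av (fun x => ∑ j ∈ s, a j * G j x) = ∑ j ∈ s, a j * av (G j) := by
    unfold av
    rw [Finset.sum_comm, Finset.sum_div]
    refine Finset.sum_congr rfl fun j _ => ?_
    rw [← Finset.mul_sum, mul_div_assoc]
  rw [h1, h2, ← Finset.sum_sub_distrib]
  exact Finset.sum_congr rfl fun j _ => by ring

private theorem d2_L_norm {J : Type*} (S : Src n) (q : ℕ) (s : Finset J) (a : J → ℂ)
    (G : J → (Fin n → Bool) → ℂ) :
    ‖d2_L S q (fun x => ∑ j ∈ s, a j * G j x)‖ ≤ ∑ j ∈ s, ‖a j‖ * ‖d2_L S q (G j)‖ := by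
  rw [d2_L_sum]
  refine (norm_sum_le _ _).trans (le_of_eq ?_)
  exact Finset.sum_congr rfl fun j _ => norm_mul _ _

private theorem d2_fx_one (B : Finset (Fin n)) (x : Fin n → Bool) :
    av (fun τ' : Fin n → Bool => at' B x τ') = 1 / 2 ^ B.card := by
  have h := av_at B x (fun _ => (1 : ℂ))
  have h1 : (fun τ' : Fin n → Bool => at' B x τ' * (1 : ℂ)) = fun τ' => at' B x τ' := by
    funext τ'
    rw [mul_one]
  have h2 : av (fx B x (fun _ => (1 : ℂ))) = 1 := by
    have h3 : fx B x (fun _ => (1 : ℂ)) = fun _ => (1 : ℂ) := rfl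
    rw [h3]
    unfold av
    rw [Finset.sum_const, nsmul_eq_mul, mul_one, Finset.card_univ]
    apply div_self
    exact_mod_cast Fintype.card_ne_zero
  rw [h1, h2] at h
  exact h

private theorem d2_at_glue (A A' : Finset (Fin n)) (τ τ' x : Fin n → Bool) :
    at' (A ∪ A') (fun i => if i ∈ A then τ i else τ' i) x =
      at' A τ x * at' (A' \ A) x τ' := by
  unfold at'
  have h1 : (∀ i ∈ A ∪ A', x i = if i ∈ A then τ i else τ' i) ↔
      (∀ i ∈ A, x i = τ i) ∧ ∀ i ∈ A' \ A, τ' i = x i := by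
    constructor
    · intro h
      constructor
      · intro i hi
        have := h i (Finset.mem_union_left _ hi)
        rwa [if_pos hi] at this
      · intro i hi
        rw [Finset.mem_sdiff] at hi
        have := h i (Finset.mem_union_right _ hi.1)
        rw [if_neg hi.2] at this
        exact this.symm
    · rintro ⟨h2, h3⟩ i hi
      by_cases hA : i ∈ A
      · rw [if_pos hA]
        exact h2 i hA
      · rw [if_neg hA]
        rcases Finset.mem_union.1 hi with h4 | h4
        · exact absurd h4 hA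
        · exact (h3 i (Finset.mem_sdiff.2 ⟨h4, hA⟩)).symm
  by_cases h2 : ∀ i ∈ A, x i = τ i
  · by_cases h3 : ∀ i ∈ A' \ A, τ' i = x i
    · rw [if_pos (h1.2 ⟨h2, h3⟩), if_pos h2, if_pos h3, mul_one]
    · rw [if_neg (fun h => h3 (h1.1 h).2), if_neg h3, mul_zero]
  · rw [if_neg (fun h => h2 (h1.1 h).1), if_neg h2, zero_mul]

private theorem d2_card (A A' : Finset (Fin n)) : (A ∪ A').card = A.card + (A' \ A).card := by
  rw [← Finset.card_union_of_disjoint Finset.disjoint_sdiff, Finset.union_sdiff_self_eq_union]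

theorem err_nonneg (S : Src n) (A : Finset (Fin n)) (τ : Fin n → Bool) (F : (Fin n → Bool) → ℂ) :
    0 ≤ err S A τ F := by
  rw [d2_err]
  exact nr_nonneg fun q _ => by positivity

theorem err_congr (S : Src n) {A : Finset (Fin n)} {τ : Fin n → Bool} {F F' : (Fin n → Bool) → ℂ}
    (h : fx A τ F = fx A τ F') : err S A τ F = err S A τ F' := by
  have h1 : (fun x => at' A τ x * F x) = fun x => at' A τ x * F' x := by
    funext x
    by_cases hx : ∀ i ∈ A, x i = τ i
    · have h2 : (fun i => if i ∈ A then τ i else x i) = x := by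
        funext i
        by_cases hi : i ∈ A
        · rw [if_pos hi, hx i hi]
        · rw [if_neg hi]
      have h3 := congrFun h x
      unfold fx at h3
      rw [h2] at h3
      rw [h3]
    · have h4 : at' A τ x = 0 := if_neg hx
      rw [h4, zero_mul, zero_mul]
  rw [d2_err, d2_err, h1]

theorem err_sum {J : Type*} (S : Src n) (A : Finset (Fin n)) (τ : Fin n → Bool) (s : Finset J)
    (a : J → ℂ) (F : J → (Fin n → Bool) → ℂ) :
    err S A τ (fun x => ∑ j ∈ s, a j * F j x) ≤ ∑ j ∈ s, ‖a j‖ * err S A τ (F j) := by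
  have h1 : (fun x => at' A τ x * ∑ j ∈ s, a j * F j x) =
      fun x => ∑ j ∈ s, a j * (at' A τ x * F j x) := by
    funext x
    rw [Finset.mul_sum]
    exact Finset.sum_congr rfl fun j _ => by ring
  rw [d2_err, h1]
  calc nr S.h (fun q => 2 ^ A.card *
        ‖d2_L S q (fun x => ∑ j ∈ s, a j * (at' A τ x * F j x))‖)
      ≤ nr S.h (fun q => ∑ j ∈ s, ‖a j‖ *
        (2 ^ A.card * ‖d2_L S q (fun x => at' A τ x * F j x)‖)) := by
        refine nr_mono fun q _ => ?_
        have h2 := d2_L_norm S q s a (fun j x => at' A τ x * F j x)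
        calc (2 : ℝ) ^ A.card * ‖d2_L S q (fun x => ∑ j ∈ s, a j * (at' A τ x * F j x))‖
            ≤ 2 ^ A.card * ∑ j ∈ s, ‖a j‖ * ‖d2_L S q (fun x => at' A τ x * F j x)‖ :=
              mul_le_mul_of_nonneg_left h2 (by positivity)
          _ = _ := by
              rw [Finset.mul_sum]
              exact Finset.sum_congr rfl fun j _ => by ring
    _ = ∑ j ∈ s, ‖a j‖ * err S A τ (F j) := by
        rw [nr_sum]
        refine Finset.sum_congr rfl fun j _ => ?_
        rw [nr_mul_left, d2_err]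

theorem err_sub (S : Src n) (A A' : Finset (Fin n)) (τ : Fin n → Bool) (F : (Fin n → Bool) → ℂ) :
    err S A τ F ≤ avg (fun τ' : Fin n → Bool =>
      err S (A ∪ A') (fun i => if i ∈ A then τ i else τ' i) F) := by
  have hcard : (Fintype.card (Fin n → Bool) : ℂ) ≠ 0 := by
    exact_mod_cast Fintype.card_ne_zero
  have hcardr : (0 : ℝ) < Fintype.card (Fin n → Bool) := by
    exact_mod_cast Fintype.card_pos
  set b : ℕ := (A' \ A).card with hb
  set N : ℕ := Fintype.card (Fin n → Bool) with hN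
  -- the function as a combination
  have h1 : (fun x => at' A τ x * F x) = fun x => ∑ τ' : Fin n → Bool,
      ((2 : ℂ) ^ b / (N : ℂ)) * (at' (A ∪ A') (fun i => if i ∈ A then τ i else τ' i) x * F x) := by
    funext x
    have h2 : ∀ τ' : Fin n → Bool, ((2 : ℂ) ^ b / (N : ℂ)) *
        (at' (A ∪ A') (fun i => if i ∈ A then τ i else τ' i) x * F x) =
        (at' A τ x * F x * (2 : ℂ) ^ b) * (at' (A' \ A) x τ' / (N : ℂ)) := by
      intro τ'
      rw [d2_at_glue]
      ring
    rw [Finset.sum_congr rfl fun τ' _ => h2 τ', ← Finset.mul_sum, ← Finset.sum_div]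
    have h3 : (∑ τ' : Fin n → Bool, at' (A' \ A) x τ') / (N : ℂ) = 1 / 2 ^ b := d2_fx_one _ _
    rw [h3]
    field_simp
  have hpow : (2 : ℝ) ^ (A ∪ A').card = 2 ^ A.card * 2 ^ b := by
    rw [d2_card, pow_add]
  have hnorm : ‖(2 : ℂ) ^ b / (N : ℂ)‖ = 2 ^ b / (N : ℝ) := by
    rw [norm_div, norm_pow, Complex.norm_ofNat, Complex.norm_natCast]
  calc err S A τ F = nr S.h (fun q => 2 ^ A.card * ‖d2_L S q (fun x => at' A τ x * F x)‖) :=
        d2_err S A τ F
    _ ≤ nr S.h (fun q => avg (fun τ' : Fin n → Bool => 2 ^ (A ∪ A').card *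
        ‖d2_L S q (fun x =>
          at' (A ∪ A') (fun i => if i ∈ A then τ i else τ' i) x * F x)‖)) := by
        refine nr_mono fun q _ => ?_
        rw [h1]
        have h4 := d2_L_norm S q (Finset.univ : Finset (Fin n → Bool))
          (fun _ => (2 : ℂ) ^ b / (N : ℂ))
          (fun τ' x => at' (A ∪ A') (fun i => if i ∈ A then τ i else τ' i) x * F x)
        refine (mul_le_mul_of_nonneg_left h4 (by positivity)).trans (le_of_eq ?_)
        unfold avg
        rw [Finset.mul_sum, Finset.sum_div]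
        refine Finset.sum_congr rfl fun τ' _ => ?_
        rw [hnorm, hpow]
        ring
    _ = avg (fun τ' : Fin n → Bool =>
        err S (A ∪ A') (fun i => if i ∈ A then τ i else τ' i) F) := by
        rw [← avg_nr]
        rfl

theorem fx_fx {α : Type*} (A A' : Finset (Fin n)) (τ τ' : Fin n → Bool)
    (F : (Fin n → Bool) → α) :
    fx (A ∪ A') (fun i => if i ∈ A then τ i else τ' i) F = fx A' τ' (fx A τ F) := by
  funext x
  unfold fx
  congr 1
  funext i
  show (if i ∈ A ∪ A' then (if i ∈ A then τ i else τ' i) else x i) =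
    if i ∈ A then τ i else (if i ∈ A' then τ' i else x i)
  by_cases hA : i ∈ A
  · rw [if_pos (Finset.mem_union_left _ hA), if_pos hA, if_pos hA]
  · by_cases hA' : i ∈ A'
    · rw [if_pos (Finset.mem_union_right _ hA'), if_neg hA, if_neg hA, if_pos hA']
    · rw [if_neg (fun h => (Finset.mem_union.1 h).elim hA hA'), if_neg hA, if_neg hA']

end Pool.Agent.MP_ca1109_lc.Hyb
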