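import Pool.Agent.MP_ca1109_lc.Hyb.D1a

/-!
# Bounds for the errors
-/

namespace Pool.Agent.MP_ca1109_lc.Hyb

open Pool.Agent.MP_ca1109_lc.Mpg Pool.Agent.MP_ca1109_lc.Agp Finset

variable {n : ℕ}

/- PROOF NOTES [HYB-D2b].  `err_triv`: `‖ex (at' F)‖ ≤ rex (at') = ‖ex at'‖` (nonnegative) `≤ (1 + δ) / 2 ^ A.card` by `fool` with `fam = 1` (`Γ = ZMod 1`, `u = 1`: `tw_one`, `c = 0`; `av_at`), `‖av (at' F)‖ ≤ 1 / 2 ^ A.card`.
`err_pos`: `fam u c x = t x ≥ 0` real; `‖at' I g‖ ≤ at' * t` pointwise (where `x = τ` on `A`: `g x = fam u c x`), so `‖ex (at' I g)‖ ≤ ‖ex (at' fam u c)‖ ≤ ‖av (at' fam u c)‖ + δ / 2 ^ a` (`fool`), and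
`‖av (at' I g)‖ ≤ ‖av (at' fam u c)‖ = ‖av (fam u c)‖ / 2 ^ a` (`av_at` for `g`: `fx A τ g = fam u c`; note `at' * fam u c` and `at' * g` agree).  So `err ≤ 2 ‖av (fam u c)‖ + δ`. -/

/-- The indicator function of the restriction. -/
theorem d2b_at (A : Finset (Fin n)) (τ x : Fin n → Bool) :
    at' A τ x = ((if ∀ i ∈ A, x i = τ i then (1 : ℝ) else 0 : ℝ) : ℂ) := by
  unfold at'
  split_ifs <;> simp

theorem d2b_ind_nonneg (A : Finset (Fin n)) (τ x : Fin n → Bool) :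
    (0 : ℝ) ≤ (if ∀ i ∈ A, x i = τ i then (1 : ℝ) else 0) := by
  split_ifs <;> norm_num

theorem d2b_av_ofReal {X : Type*} [Fintype X] (s : X → ℝ) :
    av (fun x => (s x : ℂ)) = ((avg s : ℝ) : ℂ) := by
  unfold av avg
  push_cast
  rfl

theorem d2b_pm {S : Src n} {m : ℕ} [NeZero m] {d D : ℕ} {δ : ℝ} (hS : S.OK m d D δ) :
    IsPM (fun _ : Fin (2 ^ S.t) => S.μ) :=
  ⟨fun _ a => hS.nonneg a, fun _ => hS.sum_one⟩

theorem d2b_fam_one (x : Fin n → Bool) :
    fam (Γ := PUnit) (fun _ _ => 1) (fun _ => 0) x = 1 := by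
  unfold fam
  have h1 : ∀ χ : AddChar PUnit ℂ, (1 : ℂ) * χ (pol (fun _ => 0) x) = 1 := by
    intro χ
    have h2 : (pol (fun _ => (0 : PUnit)) x : PUnit) = 0 := Subsingleton.elim _ _
    rw [h2, AddChar.map_zero_eq_one, one_mul]
  rw [Finset.sum_congr rfl fun χ _ => h1 χ, Finset.sum_const, Finset.card_univ, AddChar.card_eq]
  simp

theorem d2b_ex_at {S : Src n} {m : ℕ} [NeZero m] {d D : ℕ} {δ : ℝ} (hS : S.OK m d D δ)
    {A : Finset (Fin n)} (hA : A.card ≤ D) (τ : Fin n → Bool) (q : ℕ) :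
    ‖ex (fun _ => S.μ) (fun y => at' A τ (mx (S.rr q) y))‖ ≤ (1 + δ) / 2 ^ A.card := by
  have h1 := hS.fool q A τ hA PUnit (fun _ _ => 1) (fun _ => 0) (fun _ => tw_one)
    (fun _ _ => rfl)
  simp only [d2b_fam_one, mul_one] at h1
  have h2 : av (fun x => at' A τ x) = 1 / 2 ^ A.card := by
    have h3 := av_at A τ (fun _ => 1)
    simp only [mul_one] at h3
    rw [h3]
    have h4 : av (fx A τ (fun _ => (1 : ℂ))) = 1 := by
      have h5 : (fx A τ (fun _ => (1 : ℂ))) =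
          fun x => (((fun _ => 1 : (Fin n → Bool) → ℝ) x : ℝ) : ℂ) := by
        funext x
        simp [fx]
      rw [h5, d2b_av_ofReal, avg_const]
      norm_num
    rw [h4]
  rw [h2] at h1
  have h6 : ‖(1 / 2 ^ A.card : ℂ)‖ = 1 / 2 ^ A.card := by
    rw [norm_div, norm_pow, norm_one, Complex.norm_ofNat]
  have h7 := norm_sub_norm_le (ex (fun _ => S.μ) (fun y => at' A τ (mx (S.rr q) y)))
    (1 / 2 ^ A.card : ℂ)
  rw [h6] at h7
  rw [add_div]
  linarith

theorem d2b_norm_at (A : Finset (Fin n)) (τ x : Fin n → Bool) :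
    ‖at' A τ x‖ = (if ∀ i ∈ A, x i = τ i then (1 : ℝ) else 0) := by
  rw [d2b_at, Complex.norm_real, Real.norm_of_nonneg (d2b_ind_nonneg A τ x)]

theorem err_triv {S : Src n} {m : ℕ} [NeZero m] {d D : ℕ} {δ : ℝ} (hS : S.OK m d D δ)
    (hδ : δ ≤ 1) {A : Finset (Fin n)} (hA : A.card ≤ D) (τ : Fin n → Bool)
    {F : (Fin n → Bool) → ℂ} (hF : ∀ x, ‖F x‖ ≤ 1) : err S A τ F ≤ 3 := by
  unfold err
  refine nr_le hS.h_pos fun q _ => ?_
  have hpm := d2b_pm hS
  have h2 : (0 : ℝ) < 2 ^ A.card := by positivity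
  have h3 : ‖ex (fun _ => S.μ) (fun y => at' A τ (mx (S.rr q) y) * F (mx (S.rr q) y))‖ ≤
      (1 + δ) / 2 ^ A.card := by
    refine le_trans ?_ (d2b_ex_at hS hA τ q)
    have h4 : ‖ex (fun _ => S.μ) (fun y => at' A τ (mx (S.rr q) y))‖ =
        rex (fun _ => S.μ) (fun y => if ∀ i ∈ A, mx (S.rr q) y i = τ i then (1 : ℝ) else 0) := by
      have h5 : (fun y : Fin (2 ^ S.t) → Fin n → Bool => at' A τ (mx (S.rr q) y)) = fun y =>
          ((if ∀ i ∈ A, mx (S.rr q) y i = τ i then (1 : ℝ) else 0 : ℝ) : ℂ) := by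
        funext y
        exact d2b_at A τ _
      rw [h5, ex_ofReal, Complex.norm_real, Real.norm_of_nonneg]
      exact rex_nonneg hpm fun y => d2b_ind_nonneg A τ _
    rw [h4]
    refine norm_ex_le hpm fun y => ?_
    rw [norm_mul, d2b_norm_at]
    exact mul_le_of_le_one_right (d2b_ind_nonneg A τ _) (hF _)
  have h6 : ‖av (fun x => at' A τ x * F x)‖ ≤ 1 / 2 ^ A.card := by
    rw [av_at, norm_div, norm_pow, Complex.norm_ofNat]
    refine div_le_div_of_nonneg_right ?_ h2.le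
    exact (norm_av_le _).trans (avg_le fun x => hF _)
  have h7 := norm_sub_le
    (ex (fun _ => S.μ) (fun y => at' A τ (mx (S.rr q) y) * F (mx (S.rr q) y)))
    (av (fun x => at' A τ x * F x))
  calc 2 ^ A.card * ‖ex (fun _ => S.μ) (fun y => at' A τ (mx (S.rr q) y) * F (mx (S.rr q) y)) -
        av (fun x => at' A τ x * F x)‖
      ≤ 2 ^ A.card * ((1 + δ) / 2 ^ A.card + 1 / 2 ^ A.card) :=
        mul_le_mul_of_nonneg_left (by linarith) h2.le
    _ = 2 + δ := by field_simp; ring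
    _ ≤ 3 := by linarith

theorem err_pos {S : Src n} {m : ℕ} [NeZero m] {d D : ℕ} {δ : ℝ} (hS : S.OK m d D δ)
    {A : Finset (Fin n)} (hA : A.card ≤ D) (τ : Fin n → Bool)
    {Γ : Type} [AddCommGroup Γ] [Fintype Γ] {u : AddChar Γ ℂ → (Fin n → Bool) → ℂ}
    {c : Finset (Fin n) → Γ} (hu : ∀ χ, u χ ∈ phCls m Bool d n) (hc : Deg d c)
    (hpos : ∀ x, ∃ t : ℝ, 0 ≤ t ∧ fam u c x = t) {I g : (Fin n → Bool) → ℂ}
    (hI : ∀ x, ‖I x‖ ≤ 1) (hg : fx A τ g = fam u c) :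
    err S A τ (fun x => I x * g x) ≤ 2 * ‖av (fam u c)‖ + δ := by
  unfold err
  refine nr_le hS.h_pos fun q _ => ?_
  have hpm := d2b_pm hS
  choose t ht0 ht using hpos
  have h2 : (0 : ℝ) < 2 ^ A.card := by positivity
  have hpt : ∀ x, at' A τ x * fam u c x = at' A τ x * g x := by
    intro x
    by_cases hx : ∀ i ∈ A, x i = τ i
    · have h1 : fam u c x = g x := by
        rw [← hg]
        unfold fx
        congr 1
        funext i
        by_cases hi : i ∈ A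
        · rw [if_pos hi, hx i hi]
        · rw [if_neg hi]
      rw [h1]
    · have h1 : at' A τ x = 0 := by
        unfold at'
        exact if_neg hx
      rw [h1, zero_mul, zero_mul]
  have hreal : ∀ x, at' A τ x * fam u c x =
      (((if ∀ i ∈ A, x i = τ i then (1 : ℝ) else 0) * t x : ℝ) : ℂ) := by
    intro x
    rw [Complex.ofReal_mul, ← d2b_at, ht x]
  have hnn : ∀ x, 0 ≤ (if ∀ i ∈ A, x i = τ i then (1 : ℝ) else 0) * t x := fun x =>
    mul_nonneg (d2b_ind_nonneg A τ x) (ht0 x)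
  have hnorm : ∀ x, ‖at' A τ x * (I x * g x)‖ ≤
      (if ∀ i ∈ A, x i = τ i then (1 : ℝ) else 0) * t x := by
    intro x
    have h1 : at' A τ x * (I x * g x) = I x * (at' A τ x * fam u c x) := by
      rw [hpt x]
      ring
    rw [h1, norm_mul, hreal x, Complex.norm_real, Real.norm_of_nonneg (hnn x)]
    exact mul_le_of_le_one_left (hnn x) (hI x)
  have hav : ‖av (fun x => at' A τ x * fam u c x)‖ = ‖av (fam u c)‖ / 2 ^ A.card := by
    have h1 : (fun x => at' A τ x * fam u c x) = fun x => at' A τ x * g x := by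
      funext x
      exact hpt x
    rw [h1, av_at, hg, norm_div, norm_pow, Complex.norm_ofNat]
  have hav2 : ‖av (fun x => at' A τ x * (I x * g x))‖ ≤ ‖av (fam u c)‖ / 2 ^ A.card := by
    rw [← hav]
    refine (norm_av_le _).trans ((avg_mono hnorm).trans (le_of_eq ?_))
    have h1 : (fun x => at' A τ x * fam u c x) = fun x =>
        (((if ∀ i ∈ A, x i = τ i then (1 : ℝ) else 0) * t x : ℝ) : ℂ) := by
      funext x
      exact hreal x
    rw [h1, d2b_av_ofReal, Complex.norm_real, Real.norm_of_nonneg (avg_nonneg hnn)]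
  have hex : ‖ex (fun _ => S.μ) (fun y => at' A τ (mx (S.rr q) y) *
      (I (mx (S.rr q) y) * g (mx (S.rr q) y)))‖ ≤
      ‖ex (fun _ => S.μ) (fun y => at' A τ (mx (S.rr q) y) * fam u c (mx (S.rr q) y))‖ := by
    have h1 : (fun y : Fin (2 ^ S.t) → Fin n → Bool =>
        at' A τ (mx (S.rr q) y) * fam u c (mx (S.rr q) y)) = fun y =>
        (((if ∀ i ∈ A, mx (S.rr q) y i = τ i then (1 : ℝ) else 0) * t (mx (S.rr q) y) : ℝ) : ℂ) := by
      funext y
      exact hreal _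
    rw [h1, ex_ofReal, Complex.norm_real,
      Real.norm_of_nonneg (rex_nonneg hpm fun y => hnn (mx (S.rr q) y))]
    exact norm_ex_le hpm fun y => hnorm _
  have hfool := hS.fool q A τ hA Γ u c hu hc
  have h8 := norm_sub_norm_le
    (ex (fun _ => S.μ) (fun y => at' A τ (mx (S.rr q) y) * fam u c (mx (S.rr q) y)))
    (av (fun x => at' A τ x * fam u c x))
  rw [hav] at h8
  have h7 := norm_sub_le
    (ex (fun _ => S.μ) (fun y => at' A τ (mx (S.rr q) y) *
      (I (mx (S.rr q) y) * g (mx (S.rr q) y))))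
    (av (fun x => at' A τ x * (I x * g x)))
  calc 2 ^ A.card * ‖ex (fun _ => S.μ) (fun y => at' A τ (mx (S.rr q) y) *
          (I (mx (S.rr q) y) * g (mx (S.rr q) y))) - av (fun x => at' A τ x * (I x * g x))‖
      ≤ 2 ^ A.card * (‖av (fam u c)‖ / 2 ^ A.card + δ / 2 ^ A.card +
          ‖av (fam u c)‖ / 2 ^ A.card) :=
        mul_le_mul_of_nonneg_left (by linarith) h2.le
    _ = 2 * ‖av (fam u c)‖ + δ := by field_simp; ring

end Pool.Agent.MP_ca1109_lc.Hyb
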