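import Pool.Agent.MP_ca1109_lc.Hyb.C9
import Pool.Agent.MP_ca1109_lc.Hyb.D1b
import Pool.Agent.MP_ca1109_lc.Hyb.D2
import Pool.Agent.MP_ca1109_lc.Hyb.D2b

/-!
# Restrictions where all polynomials are good
-/

namespace Pool.Agent.MP_ca1109_lc.Hyb

open Pool.Agent.MP_ca1109_lc.Mpg Pool.Agent.MP_ca1109_lc.Agp Finset

/- PROOF NOTES [HYB-D3].  `leaf_one m d r (ε / 4)`: `η₁, τ, γ₀, δ₁`.  `F x = thr p x * f x`, `F' = fx A τ F = thr p' * f'`, `p' i = fx A τ (p i)`, `f' = fx A τ f ∈ phCls` (`tw_fix`).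
For every `q` put `w b = cnd (A ∩ blk) τ μ`, `Z = ∏ b, msA ..`: `cond_product` and `av_at`:
`2 ^ a ‖ex (at' F) - av (at' F)‖ = ‖2 ^ a Z ex w F' - av F'‖ ≤ (1 + δ) ‖ex w F' - av F'‖ + δ` (`state_mass`, `‖F'‖ ≤ 1`).
If `∑ b, avg (p' i - avA p' i)⁴ ≤ τ (avg p' i²)²` for all `i`, then `‖ex w F' - av F'‖ ≤ ε / 4` (`leaf_one`; `state_close` with `K = 4 d` and `4 δ ≤ γ₀`, `state_phase` with `4 δ ≤ δ₁`, `state_pm`); otherwise it is
`≤ 2`.  So it is always `≤ ε / 4 + ∑ i, 2 X_i`, `X_i = ∑ b, avg (..)⁴ / (τ (avg p' i²)²)` if `avg p' i² ≠ 0`; if `avg p' i² = 0` the condition for `i` holds automatically (`p' i = 0`), put `X_i = 0`.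
`hash_influence` for `p' i` (`fx_mem`): `nr X_i ≤ 9 ^ d (η d + δ d²) / τ`.  Total: `err ≤ 2 (ε / 4 + 2 r 9 ^ d (η d + δ d²) / τ) + δ ≤ ε` for `η ≤ η₁` and `δ ≤ δ₀` small. -/

theorem d3_thr {n r : ℕ} (p : Fin r → (Fin n → Bool) → ℝ) (x : Fin n → Bool) :
    ‖thr p x‖ ≤ 1 := by
  unfold thr
  rw [norm_prod]
  refine Finset.prod_le_one (fun i _ => norm_nonneg _) fun i _ => ?_
  split_ifs
  · rw [norm_one]
  · rw [norm_zero]
    exact zero_le_one

theorem d3_close {n : ℕ} {A : Finset (Fin n)} {K : ℕ} {γ γ' : ℝ} {v : (Fin n → Bool) → ℝ}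
    (h : Close A K γ v) (hγ : γ ≤ γ') : Close A K γ' v := fun r hr hA =>
  (h r hr hA).trans (mul_le_mul_of_nonneg_right hγ (avg_nonneg fun _ => abs_nonneg _))

theorem d3_good {n : ℕ} {η η' : ℝ} {f : (Fin n → Bool) → ℝ} (h : Good η f) (hη : η ≤ η') :
    Good η' f := fun j => (h j).trans (mul_le_mul_of_nonneg_right hη
      (avg_nonneg fun _ => sq_nonneg _))

theorem d3_zero {n : ℕ} {f : (Fin n → Bool) → ℝ} (h : avg (fun x => f x ^ 2) = 0)
    (x : Fin n → Bool) : f x = 0 := by
  unfold avg at h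
  have hc : (Fintype.card (Fin n → Bool) : ℝ) ≠ 0 := by
    have : 0 < Fintype.card (Fin n → Bool) := Fintype.card_pos
    positivity
  have h2 : ∑ x, f x ^ 2 = 0 := by
    rcases div_eq_zero_iff.1 h with h | h
    · exact h
    · exact absurd h hc
  have h3 := (Finset.sum_eq_zero_iff_of_nonneg (fun x _ => sq_nonneg (f x))).1 h2 x
    (Finset.mem_univ x)
  exact pow_eq_zero_iff (two_ne_zero) |>.1 h3

theorem leaf_state (m : ℕ) [NeZero m] (d r : ℕ) {ε : ℝ} (hε : 0 < ε) :
    ∃ δ₀ > 0, ∃ η > 0, PtfAt m d r r ε (4 * d) δ₀ η := by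
  classical
  obtain ⟨η₁, hη₁, T, hT, γ₀, hγ₀, -, δ₁, hδ₁, H⟩ := leaf_one m d r (ε := ε / 4) (by positivity)
  refine ⟨min (min (1 / 4) (δ₁ / 4)) (min (min (γ₀ / 4) (ε / 4))
    (ε * T / (8 * (r + 1) * 9 ^ d * (d ^ 2 + 1)))), by positivity,
    min η₁ (ε * T / (8 * (r + 1) * 9 ^ d * (d + 1))), by positivity, ?_⟩
  intro n S D δ hδ hS A τ hA p hp hg f hf
  have hδa : δ ≤ 1 / 4 := hδ.trans ((min_le_left _ _).trans (min_le_left _ _))
  have hδb : δ ≤ δ₁ / 4 := hδ.trans ((min_le_left _ _).trans (min_le_right _ _))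
  have hδc : δ ≤ γ₀ / 4 :=
    hδ.trans ((min_le_right _ _).trans ((min_le_left _ _).trans (min_le_left _ _)))
  have hδd : δ ≤ ε / 4 :=
    hδ.trans ((min_le_right _ _).trans ((min_le_left _ _).trans (min_le_right _ _)))
  have hδe : δ ≤ ε * T / (8 * (r + 1) * 9 ^ d * (d ^ 2 + 1)) :=
    hδ.trans ((min_le_right _ _).trans (min_le_right _ _))
  have hδ0 : 0 ≤ δ := hS.delta_nonneg
  have hAD : A.card ≤ D := by omega
  set η : ℝ := min η₁ (ε * T / (8 * (r + 1) * 9 ^ d * (d + 1))) with hη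
  have hη0 : 0 ≤ η := by positivity
  have hηa : η ≤ η₁ := min_le_left _ _
  have hηb : η ≤ ε * T / (8 * (r + 1) * 9 ^ d * (d + 1)) := min_le_right _ _
  -- the restricted functions
  have hp' : ∀ i, fx A τ (p i) ∈ lowDeg (Fin n) Bool ℝ d := fun i => fx_mem (hp i) A τ
  have hg' : ∀ i, Good η (fx A τ (p i)) := fun i => hg i i.2
  have hf' : fx A τ f ∈ phCls m Bool d n := tw_fix hf A τ
  set X : Fin r → ℕ → ℝ := fun i q =>
    if avg (fun x => fx A τ (p i) x ^ 2) = 0 then 0 else
      (∑ b, avg (fun x => (fx A τ (p i) x - avA (blk (S.rr q) b) (fx A τ (p i)) x) ^ 4)) /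
        (T * avg (fun x => fx A τ (p i) x ^ 2) ^ 2) with hX
  have hX0 : ∀ i q, 0 ≤ X i q := by
    intro i q
    rw [hX]
    simp only []
    split_ifs with h
    · exact le_rfl
    · refine div_nonneg (Finset.sum_nonneg fun b _ => avg_nonneg fun x => ?_) ?_
      · positivity
      · exact mul_nonneg hT.le (sq_nonneg _)
  -- the bound for one hash function
  have hq : ∀ q, 2 ^ A.card *
      ‖ex (fun _ => S.μ) (fun y => at' A τ (mx (S.rr q) y) * (thr p (mx (S.rr q) y) *
        f (mx (S.rr q) y))) - av (fun x => at' A τ x * (thr p x * f x))‖ ≤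
      δ + (ε / 4 + ∑ i, 2 * X i q) := by
    intro q
    have hpos := state_pos hS hδa hAD τ q
    have hpm := state_pm hS hδa hAD τ q
    have hmass := state_mass hS hδa hAD τ q
    set Z : ℝ := ∏ b, msA (A ∩ blk (S.rr q) b) τ S.μ with hZ
    set w : Fin (2 ^ S.t) → (Fin n → Bool) → ℝ :=
      fun b => cnd (A ∩ blk (S.rr q) b) τ S.μ with hw
    have h1 := cond_product (S.rr q) hS.nonneg A τ hpos (fun x => thr p x * f x)
    have h2 := av_at A τ (fun x => thr p x * f x)
    rw [h1, h2]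
    set E : ℂ := ex w (fun y => fx A τ (fun x => thr p x * f x) (mx (S.rr q) y)) with hE
    set V : ℂ := av (fx A τ (fun x => thr p x * f x)) with hV
    have hEn : ‖E‖ ≤ 1 := by
      have h3 := norm_ex_le hpm (f := fun y => fx A τ (fun x => thr p x * f x) (mx (S.rr q) y))
        (g := fun _ => 1) (by
          intro y
          change ‖thr p _ * f _‖ ≤ 1
          rw [norm_mul, tw_norm hf, mul_one]
          exact d3_thr p _)
      rw [rex_const hpm] at h3
      exact h3
    have h4 : ‖E - V‖ ≤ ε / 4 + ∑ i, 2 * X i q := by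
      by_cases hcond : ∀ i, ∑ b, avg (fun x => (fx A τ (p i) x -
          avA (blk (S.rr q) b) (fx A τ (p i)) x) ^ 4) ≤
          T * avg (fun x => fx A τ (p i) x ^ 2) ^ 2
      · have h5 := H n (2 ^ S.t) (S.rr q) A w hpm
          (fun b => d3_close (state_close hS hδa hA τ q b) (by
            refine div_le_div_of_nonneg_right (by linarith) (Nat.cast_nonneg _)))
          (fun i => fx A τ (p i)) hp' (fun i => fx_indep A τ (p i))
          (fun i => d3_good (hg' i) hηa) hcond (fx A τ f) hf'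
          ((state_phase hS hδa hAD τ q hf).trans (by linarith))
        refine h5.trans ?_
        have h6 : 0 ≤ ∑ i, 2 * X i q := Finset.sum_nonneg fun i _ => by
          have := hX0 i q
          linarith
        linarith
      · push Not at hcond
        obtain ⟨i, hi⟩ := hcond
        have h5 : ‖E - V‖ ≤ 2 := by
          have h6 : ‖V‖ ≤ 1 := by
            refine (norm_av_le _).trans (avg_le fun x => ?_)
            change ‖thr p _ * f _‖ ≤ 1
            rw [norm_mul, tw_norm hf, mul_one]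
            exact d3_thr p _
          calc ‖E - V‖ ≤ ‖E‖ + ‖V‖ := norm_sub_le _ _
            _ ≤ 1 + 1 := add_le_add hEn h6
            _ = 2 := by norm_num
        have h7 : 1 ≤ X i q := by
          have h8 : avg (fun x => fx A τ (p i) x ^ 2) ≠ 0 := by
            intro h8
            have h9 := d3_zero h8
            have h10 : ∀ b x, avA (blk (S.rr q) b) (fx A τ (p i)) x = 0 := by
              intro b x
              unfold avA
              simp only [h9]
              exact avg_const 0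
            simp only [h9, h10, sub_zero] at hi
            norm_num at hi
            unfold avg at hi
            simp at hi
          rw [hX]
          simp only []
          rw [if_neg h8, one_le_div]
          · exact hi.le
          · have h9 : 0 < avg (fun x => fx A τ (p i) x ^ 2) ^ 2 := by positivity
            exact mul_pos hT h9
        have h8 : 2 * X i q ≤ ∑ i, 2 * X i q :=
          Finset.single_le_sum (f := fun i => 2 * X i q) (fun j _ => by
            have := hX0 j q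
            linarith) (Finset.mem_univ i)
        linarith
    have h5 : (2 : ℝ) ^ A.card * ‖(Z : ℂ) * E - V / 2 ^ A.card‖ =
        ‖((2 ^ A.card * Z - 1 : ℝ) : ℂ) * E + (E - V)‖ := by
      have h7 : (2 : ℂ) ^ A.card ≠ 0 := pow_ne_zero _ two_ne_zero
      have h8 : ((2 ^ A.card * Z - 1 : ℝ) : ℂ) * E + (E - V) =
          2 ^ A.card * ((Z : ℂ) * E - V / 2 ^ A.card) := by
        push_cast
        field_simp
        ring
      rw [h8, norm_mul, norm_pow, Complex.norm_ofNat]
    rw [h5]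
    refine (norm_add_le _ _).trans (add_le_add ?_ h4)
    rw [norm_mul, Complex.norm_real, Real.norm_eq_abs]
    calc |2 ^ A.card * Z - 1| * ‖E‖ ≤ δ * 1 :=
          mul_le_mul hmass hEn (norm_nonneg _) hδ0
      _ = δ := mul_one δ
  -- the average over the hash functions
  have hXa : ∀ i, nr S.h (X i) ≤ 9 ^ d * (η * d + δ * d ^ 2) / T := by
    intro i
    have h1 := hash_influence hS hδ0 hη0 (hp' i) (hg' i)
    by_cases h0 : avg (fun x => fx A τ (p i) x ^ 2) = 0
    · have h2 : X i = fun _ => 0 := by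
        funext q
        rw [hX]
        simp only []
        rw [if_pos h0]
      rw [h2, nr_const hS.h_pos]
      positivity
    · have h2 : X i = fun q => (1 / (T * avg (fun x => fx A τ (p i) x ^ 2) ^ 2)) *
          ∑ b, avg (fun x => (fx A τ (p i) x - avA (blk (S.rr q) b) (fx A τ (p i)) x) ^ 4) := by
        funext q
        rw [hX]
        simp only []
        rw [if_neg h0, div_eq_mul_one_div, mul_comm]
      have h3 : 0 < avg (fun x => fx A τ (p i) x ^ 2) ^ 2 := by positivity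
      rw [h2, nr_mul_left]
      refine (mul_le_mul_of_nonneg_left h1 (by positivity)).trans (le_of_eq ?_)
      field_simp
  have herr : err S A τ (fun x => thr p x * f x) ≤
      δ + (ε / 4 + ∑ i : Fin r, 2 * (9 ^ d * (η * d + δ * d ^ 2) / T)) := by
    unfold err
    refine (nr_mono fun q _ => hq q).trans ?_
    rw [nr_add, nr_const hS.h_pos, nr_add, nr_const hS.h_pos, nr_sum]
    refine add_le_add le_rfl (add_le_add le_rfl (Finset.sum_le_sum fun i _ => ?_))
    rw [nr_mul_left]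
    exact mul_le_mul_of_nonneg_left (hXa i) (by norm_num)
  refine herr.trans ?_
  rw [Finset.sum_const, Finset.card_univ, Fintype.card_fin, nsmul_eq_mul]
  have h9 : (0 : ℝ) < 9 ^ d := by positivity
  have hr : (0 : ℝ) ≤ r := Nat.cast_nonneg _
  have hd : (0 : ℝ) ≤ d := Nat.cast_nonneg _
  have e1 : (r : ℝ) * (2 * (9 ^ d * (η * d) / T)) ≤ ε / 4 := by
    have h10 : η * (8 * (r + 1) * 9 ^ d * (d + 1)) ≤ ε * T := by
      rwa [le_div_iff₀ (by positivity)] at hηb
    rw [mul_div_assoc', mul_div_assoc', div_le_div_iff₀ hT (by norm_num)]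
    have h11 : (r : ℝ) * d ≤ (r + 1) * (d + 1) := by nlinarith
    have h12 : 0 ≤ η * 9 ^ d := by positivity
    nlinarith [mul_le_mul_of_nonneg_left h11 h12]
  have e2 : (r : ℝ) * (2 * (9 ^ d * (δ * d ^ 2) / T)) ≤ ε / 4 := by
    have h10 : δ * (8 * (r + 1) * 9 ^ d * (d ^ 2 + 1)) ≤ ε * T := by
      rwa [le_div_iff₀ (by positivity)] at hδe
    rw [mul_div_assoc', mul_div_assoc', div_le_div_iff₀ hT (by norm_num)]
    have h11 : (r : ℝ) * d ^ 2 ≤ (r + 1) * (d ^ 2 + 1) := by nlinarith [sq_nonneg (d : ℝ)]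
    have h12 : 0 ≤ δ * 9 ^ d := by positivity
    nlinarith [mul_le_mul_of_nonneg_left h11 h12]
  have e3 : (r : ℝ) * (2 * (9 ^ d * (η * d + δ * d ^ 2) / T)) =
      (r : ℝ) * (2 * (9 ^ d * (η * d) / T)) + (r : ℝ) * (2 * (9 ^ d * (δ * d ^ 2) / T)) := by
    ring
  rw [e3]
  linarith

end Pool.Agent.MP_ca1109_lc.Hyb
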