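import Pool.Agent.MP_ca1109_lc.Hyb.B3
import Pool.Agent.MP_ca1109_lc.Hyb.B3b
import Pool.Agent.MP_ca1109_lc.Hyb.D2
import Pool.Agent.MP_ca1109_lc.Hyb.D2b

/-!
# One round of restrictions
-/

namespace Pool.Agent.MP_ca1109_lc.Hyb

open Pool.Agent.MP_ca1109_lc.Mpg Pool.Agent.MP_ca1109_lc.Agp Finset

/- PROOF NOTES [HYB-D3b].  `c = 1 / (8 · 9 ^ d)`.
`K` from `round d η₁`; `η₃` from `robust d K` with the quality `min η₁ η₂` and the failure probability `ε' / (6 (r + 1))`; `D₃ = K + max D₁ D₂`, `δ₃ = min (min δ₁ δ₂) 1`.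
Given `S, A, τ, p, f` with `A.card + D₃ ≤ D` and `p_i` good (`η₃`) at `(A, τ)` for `i < s`.  `round` for `fx A τ (p s)` gives `A'` (`A'.card ≤ K`).  `err_sub`: `err S A τ F ≤ avg_τ' err S (A ∪ A') (glue τ τ') F`,
`fx (A ∪ A') (glue) (p i) = fx A' τ' (fx A τ (p i))` (`fx_fx`).
For `τ'`: `bad`: some `i < s` with `¬ Good (min η₁ η₂) (fx A' τ' (fx A τ (p i)))`: probability `≤ ε' / 6` (`robust`, `pr_exists`).
 not bad and `Good η₁ (fx A' τ' (fx A τ (p s)))`: `err ≤ ε` by `h1` (all `i < s + 1` are good; `Good` is monotone in `η`: `avg p² ≥ 0`).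
 not bad: `err ≤ B` by `h2`.   always `err ≤ 3` (`err_triv`, `‖thr p x * f x‖ ≤ 1`).
With `π = pr (not bad ∧ good) ≥ c - ε' / 6`: `avg ≤ 3 ε' / 6 + ε π + B (1 - π) = 3 ε' / 6 + B - (B - ε) π ≤ c ε + (1 - c) B + ε' / 2 + (B - ε) ε' / 6 ≤ c ε + (1 - c) B + ε'` (`B ≤ 3`).
(Pointwise: `err ≤ 3 · 1[bad] + ε · 1[good'] + B · (1 - 1[good'])`, with `good'` = not bad and good.)
The case `s = r` does not occur (`hs : s < r`). -/

theorem d3b_thr {n r : ℕ} (p : Fin r → (Fin n → Bool) → ℝ) (x : Fin n → Bool) :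
    ‖thr p x‖ ≤ 1 := by
  unfold thr
  rw [norm_prod]
  refine Finset.prod_le_one (fun i _ => norm_nonneg _) fun i _ => ?_
  split_ifs
  · rw [norm_one]
  · rw [norm_zero]
    exact zero_le_one

theorem d3b_pr {X : Type*} [Fintype X] (P : X → Prop) [DecidablePred P] :
    avg (fun a => if P a then (1 : ℝ) else 0) = pr P := by
  unfold pr
  refine congrArg avg (funext fun a => ?_)
  by_cases h : P a
  · rw [if_pos h, if_pos h]
  · rw [if_neg h, if_neg h]

theorem d3b_good {n : ℕ} {η η' : ℝ} {f : (Fin n → Bool) → ℝ} (h : Good η f) (hη : η ≤ η') :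
    Good η' f := fun j => (h j).trans (mul_le_mul_of_nonneg_right hη
      (avg_nonneg fun _ => sq_nonneg _))

theorem ptf_round {m : ℕ} [NeZero m] {d r s : ℕ} (hs : s < r) {ε B : ℝ} (hεB : ε ≤ B) (hε : 0 ≤ ε)
    (hB : B ≤ 3) {D₁ D₂ : ℕ} {δ₁ δ₂ η₁ η₂ : ℝ} (hδ₁ : 0 < δ₁) (hδ₂ : 0 < δ₂) (hη₁ : 0 < η₁)
    (hη₂ : 0 < η₂) (h1 : PtfAt m d r (s + 1) ε D₁ δ₁ η₁) (h2 : PtfAt m d r s B D₂ δ₂ η₂) {ε' : ℝ}
    (hε' : 0 < ε') :
    ∃ D₃ : ℕ, ∃ δ₃ > 0, ∃ η₃ > 0,
      PtfAt m d r s (1 / (8 * 9 ^ d) * ε + (1 - 1 / (8 * 9 ^ d)) * B + ε') D₃ δ₃ η₃ := by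
  classical
  obtain ⟨K, hK⟩ := round d hη₁
  obtain ⟨η₃, hη₃, hrob⟩ := robust d K (η := min η₁ η₂) (ε := ε' / (6 * (r + 1)))
    (lt_min hη₁ hη₂) (by positivity)
  refine ⟨K + max D₁ D₂, min (min δ₁ δ₂) 1, by positivity, η₃, hη₃, ?_⟩
  intro n S D δ hδ hS A τ hA p hp hg f hf
  have hδa : δ ≤ δ₁ := hδ.trans ((min_le_left _ _).trans (min_le_left _ _))
  have hδb : δ ≤ δ₂ := hδ.trans ((min_le_left _ _).trans (min_le_right _ _))
  have hδc : δ ≤ 1 := hδ.trans (min_le_right _ _)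
  obtain ⟨A', hA', hpr⟩ := hK n (fx A τ (p ⟨s, hs⟩)) (fx_mem (hp _) A τ)
  have hcard : (A ∪ A').card ≤ A.card + A'.card := Finset.card_union_le _ _
  have hD1 : D₁ ≤ max D₁ D₂ := le_max_left _ _
  have hD2 : D₂ ≤ max D₁ D₂ := le_max_right _ _
  set bad : (Fin n → Bool) → Prop := fun τ' => ∃ i : Fin r, (i : ℕ) < s ∧
    ¬ Good (min η₁ η₂) (fx A' τ' (fx A τ (p i))) with hbad
  set good' : (Fin n → Bool) → Prop := fun τ' => ¬ bad τ' ∧
    Good η₁ (fx A' τ' (fx A τ (p ⟨s, hs⟩))) with hgood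
  have hB0 : 0 ≤ B := hε.trans hεB
  -- the probability of a bad restriction
  have hprbad : pr bad ≤ ε' / 6 := by
    have h3 : pr bad ≤ ∑ i : Fin r, pr (fun τ' => (i : ℕ) < s ∧
        ¬ Good (min η₁ η₂) (fx A' τ' (fx A τ (p i)))) := pr_exists _
    have h4 : ∀ i ∈ (univ : Finset (Fin r)), pr (fun τ' => (i : ℕ) < s ∧
        ¬ Good (min η₁ η₂) (fx A' τ' (fx A τ (p i)))) ≤ ε' / (6 * (r + 1)) := by
      intro i _
      by_cases hi : (i : ℕ) < s
      · exact (pr_mono fun τ' h => h.2).trans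
          (hrob n _ (fx_mem (hp i) A τ) (hg i hi) A' hA')
      · have h5 : pr (fun τ' : Fin n → Bool => (i : ℕ) < s ∧
            ¬ Good (min η₁ η₂) (fx A' τ' (fx A τ (p i)))) = 0 := by
          rw [← d3b_pr]
          have h6 : (fun a : Fin n → Bool => if (i : ℕ) < s ∧
              ¬ Good (min η₁ η₂) (fx A' a (fx A τ (p i))) then (1 : ℝ) else 0) = fun _ => 0 :=
            funext fun a => if_neg fun h => hi h.1
          rw [h6, avg_const]
        rw [h5]
        positivity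
    refine h3.trans ((Finset.sum_le_sum h4).trans ?_)
    rw [Finset.sum_const, Finset.card_univ, Fintype.card_fin, nsmul_eq_mul]
    have h7 : (0 : ℝ) < r + 1 := by positivity
    rw [mul_div_assoc', div_le_div_iff₀ (by positivity) (by norm_num)]
    nlinarith
  have hpi : 1 / (8 * 9 ^ d) - ε' / 6 ≤ pr good' := by
    have h3 : pr (fun τ' => Good η₁ (fx A' τ' (fx A τ (p ⟨s, hs⟩)))) ≤ pr good' + pr bad := by
      refine (pr_mono fun τ' h => ?_).trans (pr_or good' bad)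
      by_cases hb : bad τ'
      · exact Or.inr hb
      · exact Or.inl ⟨hb, h⟩
    linarith
  -- the pointwise bound
  have hpt : ∀ τ' : Fin n → Bool, err S (A ∪ A') (fun i => if i ∈ A then τ i else τ' i)
      (fun x => thr p x * f x) ≤ 3 * (if bad τ' then 1 else 0) +
        (B - (B - ε) * (if good' τ' then 1 else 0)) := by
    intro τ'
    by_cases hb : bad τ'
    · have hng : ¬ good' τ' := fun h => h.1 hb
      rw [if_pos hb, if_neg hng]
      have h3 := err_triv hS hδc (by omega : (A ∪ A').card ≤ D)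
        (fun i => if i ∈ A then τ i else τ' i) (F := fun x => thr p x * f x) (by
          intro x
          rw [norm_mul, tw_norm hf, mul_one]
          exact d3b_thr p x)
      linarith
    · rw [if_neg hb]
      have hgi : ∀ i : Fin r, (i : ℕ) < s → Good (min η₁ η₂)
          (fx (A ∪ A') (fun i => if i ∈ A then τ i else τ' i) (p i)) := by
        intro i hi
        rw [fx_fx]
        by_contra h
        exact hb ⟨i, hi, h⟩
      by_cases hgd : good' τ'
      · rw [if_pos hgd]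
        have h3 := h1 n S D δ hδa hS (A ∪ A') (fun i => if i ∈ A then τ i else τ' i) (by omega) p
          hp (by
            intro i hi
            rcases Nat.lt_succ_iff_lt_or_eq.1 hi with h | h
            · exact d3b_good (hgi i h) (min_le_left _ _)
            · have h4 : i = ⟨s, hs⟩ := Fin.ext h
              rw [h4, fx_fx]
              exact hgd.2) f hf
        linarith
      · rw [if_neg hgd]
        have h3 := h2 n S D δ hδb hS (A ∪ A') (fun i => if i ∈ A then τ i else τ' i) (by omega) p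
          hp (fun i hi => d3b_good (hgi i hi) (min_le_right _ _)) f hf
        linarith
  refine (err_sub S A A' τ _).trans ((avg_mono hpt).trans ?_)
  have h5 : avg (fun τ' : Fin n → Bool => 3 * (if bad τ' then (1 : ℝ) else 0) +
      (B - (B - ε) * (if good' τ' then 1 else 0))) = 3 * pr bad + (B - (B - ε) * pr good') := by
    rw [avg_add, avg_mul_left, avg_sub, avg_mul_left, avg_const]
    rw [d3b_pr, d3b_pr]
  rw [h5]
  have h6 : (B - ε) * (1 / (8 * 9 ^ d) - ε' / 6) ≤ (B - ε) * pr good' :=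
    mul_le_mul_of_nonneg_left hpi (by linarith)
  have h7 : (B - ε) * (ε' / 6) ≤ 3 * (ε' / 6) :=
    mul_le_mul_of_nonneg_right (by linarith) (by positivity)
  nlinarith

end Pool.Agent.MP_ca1109_lc.Hyb
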