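import Pool.Agent.MP_ca1109_lc.Hyb.D3
import Pool.Agent.MP_ca1109_lc.Hyb.D3b

/-!
# All products of threshold functions and a phase
-/

namespace Pool.Agent.MP_ca1109_lc.Hyb

open Pool.Agent.MP_ca1109_lc.Mpg Pool.Agent.MP_ca1109_lc.Agp Finset

/- PROOF NOTES [HYB-D3c].  `PtfAt` is monotone: larger `ε`, larger `D'`, smaller `δ₀`, smaller `η` (`Good` is monotone in `η`).
`ptf_down`: fix `ε > 0`, `ε ≤ 3` w.l.o.g., `c = 1 / (8 · 9 ^ d)`.  `h (ε / 3)` gives `PtfAt (s + 1) (ε / 3) D₁ δ₁ η₁`.  Claim for every `R`: `PtfAt s (min 3 (2 ε / 3 + 3 (1 - c) ^ R)) D δ η` for suitable parameters: `R = 0`: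
`err_triv` (`err ≤ 3`, needs `δ ≤ 1`).  Step: `ptf_round` with `B = min 3 (..)`, `ε' = c ε / 3`: `c ε / 3 + (1 - c) B + c ε / 3 ≤ 2 c ε / 3 + (1 - c) (2 ε / 3 + 3 (1 - c) ^ R) = 2 ε / 3 + 3 (1 - c) ^ (R + 1)`, and it is `≤ 3` too
(`B ≤ 3`, `2 c ε / 3 ≤ 3 c`) - or use `err_triv` again.  Take `R` with `3 (1 - c) ^ R ≤ ε / 3`.
`ptf_all`: induction on `r - s`: `s = r` is `leaf_state`; then `s = 0` in the end. -/

theorem d3c_good {n : ℕ} {η η' : ℝ} {f : (Fin n → Bool) → ℝ} (h : Good η' f) (hη : η' ≤ η) :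
    Good η f := fun j =>
  (h j).trans (mul_le_mul_of_nonneg_right hη (avg_nonneg fun _ => sq_nonneg _))

theorem d3c_thr {n r : ℕ} (p : Fin r → (Fin n → Bool) → ℝ) (x : Fin n → Bool) :
    ‖thr p x‖ ≤ 1 := by
  unfold thr
  rw [norm_prod]
  refine Finset.prod_le_one (fun i _ => norm_nonneg _) fun i _ => ?_
  split_ifs
  · rw [norm_one]
  · rw [norm_zero]
    exact zero_le_one

theorem d3c_three {m : ℕ} [NeZero m] {d r s : ℕ} : PtfAt m d r s 3 0 1 1 := by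
  intro n S D δ hδ hS A τ hA p _ _ f hf
  refine err_triv hS hδ (by omega) τ fun x => ?_
  rw [norm_mul, tw_norm hf x, mul_one]
  exact d3c_thr p x

theorem PtfAt.mono {m : ℕ} [NeZero m] {d r s : ℕ} {ε ε' : ℝ} {D D' : ℕ} {δ δ' η η' : ℝ}
    (h : PtfAt m d r s ε D δ η) (hε : ε ≤ ε') (hD : D ≤ D') (hδ : δ' ≤ δ) (hη : η' ≤ η) :
    PtfAt m d r s ε' D' δ' η' := by
  intro n S D₀ δ₀ hδ₀ hS A τ hA p hp hg f hf
  exact (h n S D₀ δ₀ (hδ₀.trans hδ) hS A τ (by omega) p hp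
    (fun i hi => d3c_good (hg i hi) hη) f hf).trans hε

theorem ptf_down {m : ℕ} [NeZero m] {d r s : ℕ} (hs : s < r)
    (h : ∀ ε > 0, ∃ D' : ℕ, ∃ δ₀ > 0, ∃ η > 0, PtfAt m d r (s + 1) ε D' δ₀ η) :
    ∀ ε > 0, ∃ D' : ℕ, ∃ δ₀ > 0, ∃ η > 0, PtfAt m d r s ε D' δ₀ η := by
  -- small errors are enough
  have main : ∀ ε > 0, ε ≤ 3 → ∃ D' : ℕ, ∃ δ₀ > 0, ∃ η > 0, PtfAt m d r s ε D' δ₀ η := by
    intro ε hε hε3
    obtain ⟨D₁, δ₁, hδ₁, η₁, hη₁, h1⟩ := h (ε / 3) (by positivity)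
    set c : ℝ := 1 / (8 * 9 ^ d) with hc
    have hc0 : 0 < c := by positivity
    have hc1 : c < 1 := by
      rw [hc, div_lt_one (by positivity)]
      have : (1 : ℝ) ≤ 9 ^ d := one_le_pow₀ (by norm_num)
      linarith
    have claim : ∀ R : ℕ, ∃ D' : ℕ, ∃ δ₀ > 0, ∃ η > 0,
        PtfAt m d r s (min 3 (2 * ε / 3 + 3 * (1 - c) ^ R)) D' δ₀ η := by
      intro R
      induction R with
      | zero =>
        refine ⟨0, 1, one_pos, 1, one_pos, ?_⟩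
        refine d3c_three.mono ?_ le_rfl le_rfl le_rfl
        rw [pow_zero]
        apply le_min le_rfl
        linarith
      | succ R ih =>
        obtain ⟨D₂, δ₂, hδ₂, η₂, hη₂, h2⟩ := ih
        have hpow : 0 ≤ (1 - c) ^ R := pow_nonneg (by linarith) R
        have hB3 : min 3 (2 * ε / 3 + 3 * (1 - c) ^ R) ≤ 3 := min_le_left _ _
        have hB' : min 3 (2 * ε / 3 + 3 * (1 - c) ^ R) ≤ 2 * ε / 3 + 3 * (1 - c) ^ R :=
          min_le_right _ _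
        have hεB : ε / 3 ≤ min 3 (2 * ε / 3 + 3 * (1 - c) ^ R) := by
          apply le_min
          · linarith
          · linarith
        obtain ⟨D₃, δ₃, hδ₃, η₃, hη₃, h3⟩ := ptf_round hs hεB (by positivity) hB3 hδ₁ hδ₂ hη₁
          hη₂ h1 h2 (ε' := c * ε / 3) (by positivity)
        refine ⟨D₃, δ₃, hδ₃, η₃, hη₃, h3.mono ?_ le_rfl le_rfl le_rfl⟩
        rw [← hc]
        have e1 : (1 - c) * min 3 (2 * ε / 3 + 3 * (1 - c) ^ R) ≤ (1 - c) * 3 :=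
          mul_le_mul_of_nonneg_left hB3 (by linarith)
        have e2 : (1 - c) * min 3 (2 * ε / 3 + 3 * (1 - c) ^ R) ≤
            (1 - c) * (2 * ε / 3 + 3 * (1 - c) ^ R) :=
          mul_le_mul_of_nonneg_left hB' (by linarith)
        apply le_min
        · nlinarith
        · have e3 : (1 - c) * (2 * ε / 3 + 3 * (1 - c) ^ R) =
              2 * ε / 3 - 2 * (c * ε) / 3 + 3 * (1 - c) ^ (R + 1) := by
            rw [pow_succ]
            ring
          rw [e3] at e2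
          have e4 : c * (ε / 3) = c * ε / 3 := by ring
          rw [e4]
          linarith
    obtain ⟨R, hR⟩ := exists_pow_lt_of_lt_one (show (0 : ℝ) < ε / 9 by positivity)
      (show 1 - c < 1 by linarith)
    obtain ⟨D', δ₀, hδ₀, η, hη, hP⟩ := claim R
    refine ⟨D', δ₀, hδ₀, η, hη, hP.mono ?_ le_rfl le_rfl le_rfl⟩
    refine (min_le_right _ _).trans ?_
    linarith
  intro ε hε
  obtain ⟨D', δ₀, hδ₀, η, hη, hP⟩ := main (min ε 3) (lt_min hε (by norm_num)) (min_le_right _ _)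
  exact ⟨D', δ₀, hδ₀, η, hη, hP.mono (min_le_left _ _) le_rfl le_rfl le_rfl⟩

theorem ptf_all (m : ℕ) [NeZero m] (d r : ℕ) {ε : ℝ} (hε : 0 < ε) :
    ∃ D' : ℕ, ∃ δ₀ > 0, ∃ η > 0, PtfAt m d r 0 ε D' δ₀ η := by
  have key : ∀ j ≤ r, ∀ ε > 0, ∃ D' : ℕ, ∃ δ₀ > 0, ∃ η > 0, PtfAt m d r (r - j) ε D' δ₀ η := by
    intro j
    induction j with
    | zero =>
      intro _ ε hε
      obtain ⟨δ₀, hδ₀, η, hη, hP⟩ := leaf_state m d r hε
      exact ⟨4 * d, δ₀, hδ₀, η, hη, hP⟩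
    | succ j ih =>
      intro hj
      apply ptf_down (by omega : r - (j + 1) < r)
      have e : r - (j + 1) + 1 = r - j := by omega
      rw [e]
      exact ih (by omega)
  have h := key r le_rfl ε hε
  rw [Nat.sub_self] at h
  exact h

end Pool.Agent.MP_ca1109_lc.Hyb
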