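import Pool.Agent.MP_ca1109_lc.Hyb.Defs

/-!
# Wide polynomials and smaller moduli
-/

namespace Pool.Agent.MP_ca1109_lc.Hyb

open Pool.Agent.MP_ca1109_lc.Mpg Pool.Agent.MP_ca1109_lc.Agp Finset

/- PROOF NOTES [HYB-D4].  `wide_small`: `sp_all m d j` (`Agp/T3`, the theorem is in the file list of the toolbox) gives generators with `SPok`; `wide_shift` (`Agp/F2`): `‖na M (fun q => fam u c (xor a (X q)))‖ ≤ ε` for every `a`; average over `a`: `av_na`, `av_shift`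
(the average over `a` of `fam u c (xor a (X q))` is `av (fam u c)` for every `q`), `norm_av_le`, `na_const`.
`Src.OK.mono`: `phCls m ⊆ phCls m'` for `m ∣ m'` (`ph_lift`, `lowDeg_hom`; see `Agp/B1` or `Agp/B2`: `tw_..`), `lowDeg_mono`, `δ ≤ δ'` (`avg |r| ≥ 0`). -/

theorem wide_small (m : ℕ) [NeZero m] (d j : ℕ) {ε : ℝ} (hε : 0 < ε) :
    ∃ N m₁ : ℕ, 0 < m₁ ∧ ∀ (n : ℕ) (Γ : Type) [AddCommGroup Γ] [Fintype Γ]
      (u : AddChar Γ ℂ → (Fin n → Bool) → ℂ) (c : Finset (Fin n) → Γ),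
      (∀ χ, u χ ∈ phCls m Bool d n) → Deg (j + 1) c → Wide N m₁ (j + 1) c →
        ‖av (fam u c)‖ ≤ ε := by
  obtain ⟨N, m', hm', E₂, G₂, -, H₂⟩ := sp_all m d j ε hε
  refine ⟨N, m', hm', fun n Γ _ _ u c hu hc hw => ?_⟩
  have hM₂ : 0 < 2 ^ E₂ n := by positivity
  have h3 : av (fam u c) = av (fun a : Fin n → Bool => na (2 ^ E₂ n) (fun q =>
      fam u c (fun i => xor (a i) (out G₂ n q i)))) := by
    rw [av_na]
    rw [na_congr fun q _ => av_shift (fam u c) (out G₂ n q), na_const hM₂]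
  rw [h3]
  exact (norm_av_le _).trans (avg_le fun a => wide_shift (H₂ n) hc hw hu a)

theorem d4_cls {m m' d n : ℕ} [NeZero m] [NeZero m'] (hm : m ∣ m') {u : (Fin n → Bool) → ℂ}
    (hu : u ∈ phCls m Bool d n) : u ∈ phCls m' Bool d n := by
  obtain ⟨φ, hφ⟩ := ph_lift hm
  obtain ⟨P, hP, rfl⟩ := hu
  refine ⟨fun x => φ (P x), lowDeg_hom φ hP, ?_⟩
  funext x
  exact (hφ _).symm

theorem Src.OK.mono {n : ℕ} {S : Src n} {m m' : ℕ} [NeZero m] [NeZero m'] {d D D' : ℕ} {δ δ' : ℝ}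
    (h : S.OK m' d D' δ') (hm : m ∣ m') (hD : D ≤ D') (hδ : δ' ≤ δ) : S.OK m d D δ where
  h_pos := h.h_pos
  nonneg := h.nonneg
  sum_one := h.sum_one
  hash a ha := (h.hash a ha).trans (by
    have : 0 ≤ (∑ i, a i) ^ 2 := sq_nonneg _
    nlinarith)
  fool q A τ hA Γ _ _ u c hu hc := (h.fool q A τ (hA.trans hD) Γ u c
    (fun χ => d4_cls hm (hu χ)) hc).trans (div_le_div_of_nonneg_right hδ (by positivity))
  close r hr := (h.close r (lowDeg_mono hD hr)).trans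
    (mul_le_mul_of_nonneg_right (div_le_div_of_nonneg_right hδ (by positivity))
      (avg_nonneg fun x => abs_nonneg _))

end Pool.Agent.MP_ca1109_lc.Hyb
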