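import Pool.Agent.MP_ca1109_lc.Hyb.D3c
import Pool.Agent.MP_ca1109_lc.Hyb.D4

/-!
# Equations over finite groups combined with threshold functions
-/

namespace Pool.Agent.MP_ca1109_lc.Hyb

open Pool.Agent.MP_ca1109_lc.Mpg Pool.Agent.MP_ca1109_lc.Agp Finset

/- PROOF NOTES [HYB-D4b].  By induction on `j` (for all `m`, `ε`).
 `j = 0`: `fam u c x = (∑ χ, χ (c ∅) * u χ x) / card Γ` (`pol_zero`).  `g = fam u c` on `x = τ`, so `err (thr p * g) = err (thr p * fam u c)` (`err_congr`; `fam u c` is `fx A τ g`, hence `Indep A` (`fx_indep`) and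
 `fx A τ (fam u c) = fam u c`) `≤ (∑ χ, err (thr p * u χ)) / card Γ ≤ ε` (`err_sum`; `‖χ (c ∅)‖ = 1`, `card (AddChar Γ ℂ) = card Γ`: `card_char`; `ptf_all`).  `m' = m`.
 `j + 1 ≤ d`: `wide_small m d j (ε / 4)`: `N, m₁`.  The induction hypothesis for the modulus `m * m₁` and `ε`: `m'`, `D'`, `δ₀`.  New parameters: `m'` (`m ∣ m * m₁ ∣ m'`), `D' + (j + 1) * N`, `min δ₀ (ε / 2)`.
  If `Wide N m₁ (j + 1) c`: `err_pos` (with `OK.mono` to the modulus `m`), `≤ 2 · ε / 4 + ε / 2`.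
  Otherwise `not_wide` (`Agp/F1`) gives `A'` with `A'.card ≤ (j + 1) * N` which meets all `S` with `S.card = j + 1`, `m₁ • c S ≠ 0`; for every `τ'` `low_part` gives `c', u'` (`Deg j c'`, modulus `m * m₁`) with
  `fam u c (x with A' → τ') = fam u' c'`.  `err_sub` and the induction hypothesis at `(A ∪ A', glue τ τ')`: `fx (A ∪ A') glue g = fx A' τ' (fx A τ g) = fx A' τ' (fam u c) = fam u' c'` (`fx_fx`); values in `[0, 1]` are inherited. -/

theorem d4b_idem {n : ℕ} {α : Type*} (A : Finset (Fin n)) (τ : Fin n → Bool)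
    (f : (Fin n → Bool) → α) : fx A τ (fx A τ f) = fx A τ f := by
  funext x
  unfold fx
  congr 1
  funext i
  by_cases h : i ∈ A
  · simp [h]
  · simp [h]

theorem d4b_thr {n r : ℕ} (p : Fin r → (Fin n → Bool) → ℝ) (x : Fin n → Bool) :
    ‖thr p x‖ ≤ 1 := by
  unfold thr
  rw [norm_prod]
  refine Finset.prod_le_one (fun i _ => norm_nonneg _) fun i _ => ?_
  split_ifs
  · rw [norm_one]
  · rw [norm_zero]
    exact zero_le_one

theorem grp (d r : ℕ) : ∀ j : ℕ, j ≤ d → ∀ (m : ℕ) [NeZero m], ∀ ε > 0,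
    ∃ (m' : ℕ) (_ : NeZero m') (D' : ℕ), ∃ δ₀ > 0, m ∣ m' ∧
      ∀ (n : ℕ) (S : Src n) (D : ℕ) (δ : ℝ), δ ≤ δ₀ → S.OK m' d D δ →
      ∀ (A : Finset (Fin n)) (τ : Fin n → Bool), A.card + D' ≤ D →
      ∀ p : Fin r → (Fin n → Bool) → ℝ, (∀ i, p i ∈ lowDeg (Fin n) Bool ℝ d) →
      ∀ (Γ : Type) [AddCommGroup Γ] [Fintype Γ] (u : AddChar Γ ℂ → (Fin n → Bool) → ℂ)
        (c : Finset (Fin n) → Γ), (∀ χ, u χ ∈ phCls m Bool d n) → Deg j c →
      (∀ x, ∃ t : ℝ, 0 ≤ t ∧ t ≤ 1 ∧ fam u c x = t) →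
      ∀ g : (Fin n → Bool) → ℂ, fx A τ g = fam u c →
        err S A τ (fun x => thr p x * g x) ≤ ε := by
  intro j
  induction j with
  | zero =>
    intro _ m _ ε hε
    obtain ⟨D', δ₀, hδ₀, η, hη, hP⟩ := ptf_all m d r hε
    refine ⟨m, inferInstance, D', δ₀, hδ₀, dvd_rfl, ?_⟩
    intro n S D δ hδ hS A τ hA p hp Γ _ _ u c hu hc hpos g hg
    have h1 : err S A τ (fun x => thr p x * g x) = err S A τ (fun x => thr p x * fam u c x) := by
      apply err_congr
      funext x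
      have h2 : fx A τ g x = fx A τ (fx A τ g) x := by rw [d4b_idem]
      change thr p _ * fx A τ g x = thr p _ * fx A τ (fam u c) x
      rw [h2, hg]
    have h2 : (fun x => thr p x * fam u c x) = fun x => ∑ χ : AddChar Γ ℂ,
        (χ (c ∅) / (Fintype.card Γ : ℂ)) * (thr p x * u χ x) := by
      funext x
      unfold fam
      simp only [pol_zero hc]
      rw [Finset.sum_div, Finset.mul_sum]
      refine Finset.sum_congr rfl fun χ _ => ?_
      ring
    rw [h1, h2]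
    refine (err_sum S A τ univ _ _).trans ?_
    have h3 : ∀ χ ∈ (univ : Finset (AddChar Γ ℂ)), ‖χ (c ∅) / (Fintype.card Γ : ℂ)‖ *
        err S A τ (fun x => thr p x * u χ x) ≤ (1 / (Fintype.card Γ : ℝ)) * ε := by
      intro χ _
      rw [norm_div, AddChar.norm_apply, Complex.norm_natCast]
      refine mul_le_mul_of_nonneg_left ?_ (by positivity)
      exact hP n S D δ hδ hS A τ hA p hp (fun i hi => absurd hi (Nat.not_lt_zero _)) _ (hu χ)
    refine (Finset.sum_le_sum h3).trans ?_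
    rw [Finset.sum_const, Finset.card_univ, card_char, nsmul_eq_mul]
    have h4 : (Fintype.card Γ : ℝ) ≠ 0 := by
      have : 0 < Fintype.card Γ := Fintype.card_pos
      positivity
    rw [← mul_assoc, mul_one_div_cancel h4, one_mul]
  | succ j ih =>
    intro hj m _ ε hε
    obtain ⟨N, m₁, hm₁, hw₁⟩ := wide_small m d j (ε := ε / 4) (by positivity)
    have : NeZero m₁ := ⟨hm₁.ne'⟩
    have : NeZero (m * m₁) := ⟨Nat.mul_ne_zero (NeZero.ne m) hm₁.ne'⟩
    obtain ⟨m', _, D', δ₀, hδ₀, hdvd, H⟩ := ih (by omega) (m * m₁) ε hε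
    have hdvd' : m ∣ m' := (Dvd.intro m₁ rfl).trans hdvd
    refine ⟨m', inferInstance, D' + (j + 1) * N, min δ₀ (ε / 2), by positivity, hdvd', ?_⟩
    intro n S D δ hδ hS A τ hA p hp Γ _ _ u c hu hc hpos g hg
    have hδ1 : δ ≤ δ₀ := hδ.trans (min_le_left _ _)
    have hδ2 : δ ≤ ε / 2 := hδ.trans (min_le_right _ _)
    by_cases hw : Wide N m₁ (j + 1) c
    · have hS' : S.OK m d D δ := hS.mono hdvd' le_rfl le_rfl
      have h1 := err_pos hS' (by omega : A.card ≤ D) τ hu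
        (fun U hU => hc U (lt_of_le_of_lt hj hU))
        (fun x => by
          obtain ⟨t, ht, -, hx⟩ := hpos x
          exact ⟨t, ht, hx⟩) (I := thr p) (g := g) (d4b_thr p) hg
      have h2 := hw₁ n Γ u c hu hc hw
      linarith
    · obtain ⟨A', hA', hAc⟩ := not_wide (by omega : 1 ≤ j + 1) hw
      refine (err_sub S A A' τ _).trans (avg_le fun τ' => ?_)
      obtain ⟨c', u', hc', hu', hf⟩ := low_part hj hc hAc hu τ'
      have hcard : (A ∪ A').card ≤ A.card + A'.card := Finset.card_union_le _ _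
      refine H n S D δ hδ1 hS (A ∪ A') _ (by omega) p hp Γ u' c' hu' hc' ?_ g ?_
      · intro x
        rw [← hf x]
        exact hpos _
      · rw [fx_fx, hg]
        funext x
        exact hf x

end Pool.Agent.MP_ca1109_lc.Hyb
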