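import Pool.Agent.MP_ca1109_lc.Hyb.D4b

/-!
# Sources fool all mixed tests
-/

namespace Pool.Agent.MP_ca1109_lc.Hyb

open Pool.Agent.MP_ca1109_lc.Mpg Pool.Agent.MP_ca1109_lc.Agp Finset

/- PROOF NOTES [HYB-D5].  Model: `Agp/T2.lean` (`group_error`, `t2_expand`).
`T x = true ↔ F (fun i => 0 < p i x) (fun i => P i x = 0)`.  Expansion for the `2 k` bits `b = (0 < p i x)_i, (P i x = 0)_i`:
`(ind (T x) : ℂ) = ∑ (U, U'), a (U, U') * (∏ i ∈ U, 1[0 < p i x]) * (∏ i ∈ U', 1[P i x = 0])`, `‖a‖ ≤ 2 ^ (2 k)` (`t2_expand` is private in `Agp/T2`: copy it; use `Fin k ⊕ Fin k` or `Fin (2 k)` for the bits, or apply it twice).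
`∏ i ∈ U, 1[0 < p i x] = thr p_U x` with `p_U i = if i ∈ U then p i else 1` (the constant `1 > 0`), degree `d`.
`∏ i ∈ U', 1[P i x = 0] = 1[P_U' x = 0]`, `P_U' x = fun i => if i ∈ U' then P i x else 0` in the product group (`prod_low`), `to_finite`: `= 1[pol c x = 0] = fam (fun _ _ => 1) c x` (`zero_fam`), `Deg d c`.
`grp d k d le_rfl 1 (ε / (16 ^ k + 1))` (modulus `1`, `u = 1` in `phCls 1` by `tw_one`) at `A = ∅` (`fx ∅ τ g = g`), `g = fam 1 c`: `err S ∅ τ (thr p_U * fam 1 c) ≤ ε / (16 ^ k + 1)`.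
`err S ∅ τ F = nr h (fun q => ‖ex (F ∘ mx) - av F‖)`.  The left side of the claim is `≤ nr h (fun q => ‖ex (ind T ∘ mx) - av (ind T)‖) = err S ∅ τ (ind T) ≤ ∑ ‖a‖ err ≤ 4 ^ k · 4 ^ k · ε / (16 ^ k + 1) ≤ ε`
(`ex_ofReal`, `prob T = avg (ind ∘ T)`: `prob_eq_avg`). -/

theorem d5_av {A : Type*} [Fintype A] (g : A → Bool) :
    ((prob g : ℝ) : ℂ) = av (fun a => ((ind (g a) : ℝ) : ℂ)) := by
  rw [prob_eq_avg]
  unfold avg av
  push_cast
  rfl

/-- The expansion of an arbitrary function of bits in products of bits. -/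
theorem d5_expand {J : Type} [Fintype J] [DecidableEq J] (F : (J → Bool) → Bool) :
    ∃ a : Finset J → ℂ, (∀ U, ‖a U‖ ≤ 2 ^ Fintype.card J) ∧ ∀ b : J → Bool,
      ((ind (F b) : ℝ) : ℂ) = ∑ U, a U * ∏ i ∈ U, ((ind (b i) : ℝ) : ℂ) := by
  refine ⟨fun U => ∑ c ∈ U.powerset, (-1 : ℂ) ^ (U \ c).card *
    ((ind (F fun i => decide (i ∈ c)) : ℝ) : ℂ), fun U => ?_, fun b => ?_⟩
  · refine (norm_sum_le _ _).trans ?_
    have h1 : ∀ c ∈ U.powerset, ‖(-1 : ℂ) ^ (U \ c).card *
        ((ind (F fun i => decide (i ∈ c)) : ℝ) : ℂ)‖ ≤ 1 := by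
      intro c _
      rw [norm_mul, norm_pow, norm_neg, norm_one, one_pow, one_mul, Complex.norm_real,
        Real.norm_of_nonneg (ind_nonneg _)]
      exact ind_le_one _
    refine (Finset.sum_le_sum h1).trans ?_
    rw [Finset.sum_const, Finset.card_powerset, nsmul_eq_mul, mul_one]
    push_cast
    refine pow_le_pow_right₀ (by norm_num) ?_
    exact Finset.card_le_univ U
  · set B : Finset J := univ.filter fun i => b i = true with hB
    have hprod : ∀ U : Finset J, (∏ i ∈ U, ((ind (b i) : ℝ) : ℂ)) = if U ⊆ B then 1 else 0 := by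
      intro U
      by_cases hU : U ⊆ B
      · rw [if_pos hU]
        refine Finset.prod_eq_one fun i hi => ?_
        have : b i = true := (Finset.mem_filter.1 (hU hi)).2
        rw [this]
        simp [ind]
      · rw [if_neg hU]
        obtain ⟨i, hi, hi'⟩ := Finset.not_subset.1 hU
        refine Finset.prod_eq_zero hi ?_
        have : b i = false := by
          rw [← Bool.not_eq_true]
          exact fun h => hi' (Finset.mem_filter.2 ⟨Finset.mem_univ _, h⟩)
        rw [this]
        simp [ind]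
    have hb : b = fun i => decide (i ∈ B) := by
      funext i
      rw [hB]
      cases h : b i <;> simp [h]
    simp only [hprod, mul_ite, mul_one, mul_zero]
    rw [← Finset.sum_filter]
    have e1 : (univ.filter fun U : Finset J => U ⊆ B) = B.powerset := by
      ext U
      simp
    rw [e1]
    -- swap the two sums
    have e2 : ∑ U ∈ B.powerset, ∑ c ∈ U.powerset, (-1 : ℂ) ^ (U \ c).card *
        ((ind (F fun i => decide (i ∈ c)) : ℝ) : ℂ) =
        ∑ c ∈ B.powerset, (∑ U ∈ (B \ c).powerset, (-1 : ℂ) ^ U.card) *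
          ((ind (F fun i => decide (i ∈ c)) : ℝ) : ℂ) := by
      rw [Finset.sum_comm' (s := B.powerset) (t := fun U => U.powerset) (t' := B.powerset)
        (s' := fun c => B.powerset.filter fun U => c ⊆ U)]
      · refine Finset.sum_congr rfl fun c hc => ?_
        rw [← Finset.sum_mul]
        congr 1
        rw [Finset.mem_powerset] at hc
        refine Finset.sum_bij (fun U _ => U \ c) ?_ ?_ ?_ ?_
        · intro U hU
          rw [Finset.mem_filter, Finset.mem_powerset] at hU
          rw [Finset.mem_powerset]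
          exact Finset.sdiff_subset_sdiff hU.1 (le_refl c)
        · intro U hU U' hU' h
          rw [Finset.mem_filter] at hU hU'
          rw [← Finset.sdiff_union_of_subset hU.2, ← Finset.sdiff_union_of_subset hU'.2, h]
        · intro V hV
          rw [Finset.mem_powerset] at hV
          refine ⟨V ∪ c, ?_, ?_⟩
          · rw [Finset.mem_filter, Finset.mem_powerset]
            exact ⟨Finset.union_subset (hV.trans Finset.sdiff_subset) hc,
              Finset.subset_union_right⟩
          · rw [Finset.union_sdiff_cancel_right]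
            rw [Finset.disjoint_left]
            intro i hi
            exact (Finset.mem_sdiff.1 (hV hi)).2
        · intro U _
          rfl
      · intro U c
        rw [Finset.mem_powerset, Finset.mem_powerset, Finset.mem_filter, Finset.mem_powerset,
          Finset.mem_powerset]
        constructor
        · rintro ⟨h1, h2⟩
          exact ⟨⟨h1, h2⟩, h2.trans h1⟩
        · rintro ⟨⟨h1, h2⟩, -⟩
          exact ⟨h1, h2⟩
    rw [e2]
    have e3 : ∀ c ∈ B.powerset, c ≠ B → (∑ U ∈ (B \ c).powerset, (-1 : ℂ) ^ U.card) *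
        ((ind (F fun i => decide (i ∈ c)) : ℝ) : ℂ) = 0 := by
      intro c hc hne
      have h1 : (∑ U ∈ (B \ c).powerset, (-1 : ℂ) ^ U.card) = 0 := by
        have h2 : ((∑ U ∈ (B \ c).powerset, (-1 : ℤ) ^ U.card : ℤ) : ℂ) = 0 := by
          rw [Finset.sum_powerset_neg_one_pow_card_of_nonempty]
          · simp
          · rw [Finset.sdiff_nonempty]
            exact fun h => hne (Finset.Subset.antisymm (Finset.mem_powerset.1 hc) h)
        push_cast at h2
        exact h2
      rw [h1, zero_mul]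
    rw [Finset.sum_eq_single_of_mem B (Finset.mem_powerset_self B) e3]
    rw [Finset.sdiff_self, Finset.powerset_empty, Finset.sum_singleton, Finset.card_empty,
      pow_zero, one_mul, ← hb]

theorem d5_nr_abs {M : ℕ} (F : ℕ → ℝ) : |nr M F| ≤ nr M (fun p => |F p|) := by
  rw [abs_le]
  constructor
  · have h : -nr M (fun p => |F p|) = nr M (fun p => (-1) * |F p|) := by
      rw [nr_mul_left]
      ring
    rw [h]
    exact nr_mono fun p _ => by
      have := neg_abs_le (F p)
      linarith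
  · exact nr_mono fun p _ => le_abs_self _

/-- The expansion of a mixed test. -/
theorem d5_mixed {n d k : ℕ} {T : (Fin n → Bool) → Bool} (hT : MixedTest d k n T) :
    ∃ (a : Finset (Fin k ⊕ Fin k) → ℂ) (p : Finset (Fin k ⊕ Fin k) → Fin k → (Fin n → Bool) → ℝ)
      (g : Finset (Fin k ⊕ Fin k) → (Fin n → Bool) → ℂ),
      (∀ U, ‖a U‖ ≤ 4 ^ k) ∧ (∀ U i, p U i ∈ lowDeg (Fin n) Bool ℝ d) ∧
      (∀ U, ∃ (Γ : Type) (_ : AddCommGroup Γ) (_ : Fintype Γ) (c : Finset (Fin n) → Γ),
        Deg d c ∧ (g U = fam (fun _ _ => 1) c) ∧ ∀ x, ∃ t : ℝ, 0 ≤ t ∧ t ≤ 1 ∧ g U x = t) ∧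
      ∀ x, ((ind (T x) : ℝ) : ℂ) = ∑ U, a U * (thr (p U) x * g U x) := by
  classical
  obtain ⟨p, Γ, instΓ, P, F, hp, hP, hTF⟩ := hT
  obtain ⟨a, ha, hF⟩ := d5_expand (J := Fin k ⊕ Fin k) (fun b =>
    decide (F (fun i => b (Sum.inl i) = true) (fun i => b (Sum.inr i) = true)))
  let PU : Finset (Fin k ⊕ Fin k) → (Fin n → Bool) → (∀ i, Γ i) := fun U x i =>
    if Sum.inr i ∈ U then P i x else 0
  let g : Finset (Fin k ⊕ Fin k) → (Fin n → Bool) → ℂ := fun U x => if PU U x = 0 then 1 else 0
  refine ⟨a, fun U i => if Sum.inl i ∈ U then p i else fun _ => 1, g, ?_, ?_, ?_, ?_⟩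
  · intro U
    refine (ha U).trans (le_of_eq ?_)
    rw [Fintype.card_sum, Fintype.card_fin, pow_add, ← mul_pow]
    norm_num
  · intro U i
    change (if Sum.inl i ∈ U then p i else fun _ => 1) ∈ lowDeg (Fin n) Bool ℝ d
    split_ifs
    · exact hp i
    · exact lowDeg_const 1
  · intro U
    have h1 : PU U ∈ lowDeg (Fin n) Bool (∀ i, Γ i) d := by
      refine prod_low (P := fun i x => if Sum.inr i ∈ U then P i x else 0) fun i => ?_
      by_cases h : Sum.inr i ∈ U
      · simp only [if_pos h]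
        exact hP i
      · simp only [if_neg h]
        exact lowDeg_const 0
    obtain ⟨Γ', i1, i2, c, hc, hz⟩ := to_finite h1
    refine ⟨Γ', i1, i2, c, hc, ?_, ?_⟩
    · funext x
      rw [zero_fam]
      change (if PU U x = 0 then (1 : ℂ) else 0) = _
      by_cases h : PU U x = 0
      · rw [if_pos h, if_pos ((hz x).1 h)]
      · rw [if_neg h, if_neg fun h' => h ((hz x).2 h')]
    · intro x
      change ∃ t : ℝ, 0 ≤ t ∧ t ≤ 1 ∧ (if PU U x = 0 then (1 : ℂ) else 0) = t
      split_ifs
      · exact ⟨1, zero_le_one, le_rfl, by norm_num⟩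
      · exact ⟨0, le_rfl, zero_le_one, by norm_num⟩
  · intro x
    have h1 := hF (Sum.elim (fun i => decide (0 < p i x)) (fun i => decide (P i x = 0)))
    have h2 : T x = decide (F (fun i => (Sum.elim (fun i => decide (0 < p i x))
        (fun i => decide (P i x = 0)) : Fin k ⊕ Fin k → Bool) (Sum.inl i) = true)
        (fun i => (Sum.elim (fun i => decide (0 < p i x))
        (fun i => decide (P i x = 0)) : Fin k ⊕ Fin k → Bool) (Sum.inr i) = true)) := by
      simp only [Sum.elim_inl, Sum.elim_inr, decide_eq_true_eq]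
      rw [Bool.eq_iff_iff, hTF x, decide_eq_true_eq]
    rw [h2]
    refine h1.trans ?_
    refine Finset.sum_congr rfl fun U _ => ?_
    congr 1
    have e1 : ∀ v : Fin k ⊕ Fin k → ℂ, ∏ j ∈ U, v j =
        (∏ i : Fin k, if Sum.inl i ∈ U then v (Sum.inl i) else 1) *
          ∏ i : Fin k, if Sum.inr i ∈ U then v (Sum.inr i) else 1 := by
      intro v
      rw [← Fintype.prod_sum_type (fun j => if j ∈ U then v j else 1)]
      rw [Finset.prod_ite_mem, Finset.univ_inter]
    rw [e1]
    congr 1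
    · unfold thr
      refine Finset.prod_congr rfl fun i _ => ?_
      by_cases h : Sum.inl i ∈ U
      · simp only [if_pos h, Sum.elim_inl]
        by_cases h3 : 0 < p i x
        · simp [h3, ind]
        · simp [h3, ind]
      · simp only [if_neg h]
        simp
    · change _ = if PU U x = 0 then (1 : ℂ) else 0
      by_cases h : PU U x = 0
      · rw [if_pos h]
        refine Finset.prod_eq_one fun i _ => ?_
        split_ifs with h3
        · have h4 : P i x = 0 := by
            have h5 := congrFun h i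
            change (if Sum.inr i ∈ U then P i x else 0) = 0 at h5
            rwa [if_pos h3] at h5
          simp [h4, ind]
        · rfl
      · rw [if_neg h]
        obtain ⟨i, hi⟩ := Function.ne_iff.1 h
        change (if Sum.inr i ∈ U then P i x else 0) ≠ 0 at hi
        have h3 : Sum.inr i ∈ U := by
          by_contra h3
          rw [if_neg h3] at hi
          exact hi rfl
        rw [if_pos h3] at hi
        refine Finset.prod_eq_zero (Finset.mem_univ i) ?_
        rw [if_pos h3]
        simp [hi, ind]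

theorem main_fool (d k : ℕ) {ε : ℝ} (hε : 0 < ε) :
    ∃ (m : ℕ) (_ : NeZero m) (D : ℕ), ∃ δ > 0, ∀ (n : ℕ) (S : Src n), S.OK m d D δ →
      ∀ T, MixedTest d k n T →
        |nr S.h (fun q => rex (fun _ => S.μ) (fun y => ind (T (mx (S.rr q) y)))) - prob T| ≤ ε := by
  obtain ⟨m, _, D, δ, hδ, -, H⟩ := grp d k d le_rfl 1 (ε / (16 ^ k + 1)) (by positivity)
  refine ⟨m, inferInstance, D, δ, hδ, ?_⟩
  intro n S hS T hT
  obtain ⟨a, p, g, ha, hp, hg, hx⟩ := d5_mixed hT
  have hsub : nr S.h (fun q => rex (fun _ => S.μ) (fun y => ind (T (mx (S.rr q) y)))) - prob T =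
      nr S.h (fun q => rex (fun _ => S.μ) (fun y => ind (T (mx (S.rr q) y))) - prob T) := by
    rw [nr_sub, nr_const hS.h_pos]
  rw [hsub]
  refine (d5_nr_abs _).trans ?_
  have h1 : nr S.h (fun q => |rex (fun _ => S.μ) (fun y => ind (T (mx (S.rr q) y))) - prob T|) =
      err S ∅ (fun _ => false) (fun x => ((ind (T x) : ℝ) : ℂ)) := by
    unfold err
    refine nr_congr fun q _ => ?_
    have h2 : ∀ x : Fin n → Bool, at' ∅ (fun _ => false) x = 1 := by
      intro x
      unfold at'
      simp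
    simp only [h2, one_mul, Finset.card_empty, pow_zero]
    rw [ex_ofReal, ← d5_av, ← Complex.ofReal_sub, Complex.norm_real, Real.norm_eq_abs]
  rw [h1]
  have h3 : (fun x => ((ind (T x) : ℝ) : ℂ)) = fun x => ∑ U, a U * (thr (p U) x * g U x) := by
    funext x
    exact hx x
  rw [h3]
  refine (err_sum S ∅ _ univ a _).trans ?_
  have h4 : ∀ U ∈ (univ : Finset (Finset (Fin k ⊕ Fin k))), ‖a U‖ *
      err S ∅ (fun _ => false) (fun x => thr (p U) x * g U x) ≤ 4 ^ k * (ε / (16 ^ k + 1)) := by
    intro U _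
    refine mul_le_mul (ha U) ?_ (err_nonneg _ _ _ _) (by positivity)
    obtain ⟨Γ, i1, i2, c, hc, hgc, hpos⟩ := hg U
    refine H n S D δ le_rfl hS ∅ _ (by simp) (p U) (hp U) Γ (fun _ _ => 1) c (fun _ => tw_one) hc
      ?_ (g U) ?_
    · intro x
      rw [← hgc]
      exact hpos x
    · rw [← hgc]
      funext x
      unfold fx
      simp
  refine (Finset.sum_le_sum h4).trans ?_
  rw [Finset.sum_const, Finset.card_univ, Fintype.card_finset, Fintype.card_sum, Fintype.card_fin,
    nsmul_eq_mul]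
  have h5 : ((2 ^ (k + k) : ℕ) : ℝ) = 4 ^ k := by
    push_cast
    rw [pow_add, ← mul_pow]
    norm_num
  rw [h5, ← mul_assoc, ← mul_pow]
  have h6 : (0 : ℝ) < 16 ^ k + 1 := by positivity
  norm_num
  rw [mul_div_assoc', div_le_iff₀ h6]
  nlinarith [pow_pos (by norm_num : (0 : ℝ) < 16) k]

end Pool.Agent.MP_ca1109_lc.Hyb
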