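import Pool.Agent.MP_ca1109_lc.Agp.T3

/-!
# Threshold functions and equations: definitions

* `MixedTest`: functions of the signs of `k` real polynomials and of the answers to `k` equations over
  arbitrary abelian groups.
* `StabAt m d ε η`: phases of degree `d` modulo `m` change by at most `ε` if the letters of a product
  measure get densities within `η` of `1`.
* `Db`, `En`, `low`, `dl`: differences, energies, colour classes, martingale differences on product
  spaces.
* `fx`, `der`, `infl`, `avA`, `Good`: restrictions, derivatives, influences, partial averages and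
  functions with small influences on the cube of bits; `AC`: anticoncentration.
* `mx rr y`: the string whose `i`-th bit is the `i`-th bit of `y (rr i)`; `Close`: laws of strings
  which are close to the uniform one for real polynomials of low degree.
* `Src`, `Src.OK`, `at'`, `err`: pseudorandom sources, their quality, restrictions and errors.
* `WithThr`, `ThrTest`: tests combined with threshold functions, functions of threshold functions.
-/

namespace Pool.Agent.MP_ca1109_lc.Hyb

open Pool.Agent.H66 Pool.Agent.MP_ca1109_lc.Mpg Pool.Agent.MP_ca1109_lc.Agp Finset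

/-! ## Tests -/

/-- The function `T` is a function of the signs of `k` real polynomials of degree at most `d` and of
the answers to `k` questions `P i x = 0`, where `P i` is a sum of functions of at most `d` bits with
values in some abelian group `Γ i`. -/
def MixedTest (d k n : ℕ) (T : (Fin n → Bool) → Bool) : Prop :=
  ∃ (p : Fin k → (Fin n → Bool) → ℝ) (Γ : Fin k → Type) (_ : ∀ i, AddCommGroup (Γ i))
    (P : ∀ i, (Fin n → Bool) → Γ i) (F : (Fin k → Prop) → (Fin k → Prop) → Prop),
    (∀ i, p i ∈ lowDeg (Fin n) Bool ℝ d) ∧ (∀ i, P i ∈ lowDeg (Fin n) Bool (Γ i) d) ∧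
    ∀ x, T x = true ↔ F (fun i => 0 < p i x) (fun i => P i x = 0)

/-! ## Product spaces -/

/-- Phases of degree `d` modulo `m` change by at most `ε` if the letters of a product measure get
densities within `η` of `1`. -/
def StabAt (m : ℕ) [NeZero m] (d : ℕ) (ε η : ℝ) : Prop :=
  ∀ (k : ℕ) (Ω : Type) [Fintype Ω] (P : (Fin k → Ω) → ZMod m), P ∈ lowDeg (Fin k) Ω (ZMod m) d →
    ∀ M g : Fin k → Ω → ℝ, IsPM M → (∀ b, ∑ a, M b a * g b a = 0) → (∀ b a, |g b a| ≤ η) →
      ‖ex (fun b a => M b a * (1 + g b a)) (fun x => ph m (P x)) -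
        ex M (fun x => ph m (P x))‖ ≤ ε

section prod

variable {k : ℕ} {Ω : Type} [Fintype Ω]

/-- `G` minus its average over the letter `b`. -/
noncomputable def Db (M : Fin k → Ω → ℝ) (b : Fin k) (G : (Fin k → Ω) → ℂ) (y : Fin k → Ω) : ℂ :=
  G y - ∑ a, (M b a : ℂ) * G (Function.update y b a)

/-- The energy of the average of `G` over the letters outside `W`. -/
noncomputable def En (M : Fin k → Ω → ℝ) (G : (Fin k → Ω) → ℂ) (W : Fin k → Bool) : ℝ :=
  rex M (fun x => ‖hV M G W x‖ ^ 2)

/-- The letters of colour smaller than `j`. -/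
def low {J : ℕ} (c : Fin k → Fin J) (j : ℕ) : Fin k → Bool := fun i => decide ((c i : ℕ) < j)

/-- The martingale difference of the letter `b`. -/
noncomputable def dl {J : ℕ} (M : Fin k → Ω → ℝ) (G : (Fin k → Ω) → ℂ) (c : Fin k → Fin J)
    (b : Fin k) (x : Fin k → Ω) : ℂ :=
  hV M G (Function.update (low c (c b)) b true) x - hV M G (low c (c b)) x

end prod

/-! ## Functions of bits -/

section bits

variable {n : ℕ}

/-- The bits in `A` are fixed to `τ`. -/
def fx {α : Type*} (A : Finset (Fin n)) (τ : Fin n → Bool) (f : (Fin n → Bool) → α) :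
    (Fin n → Bool) → α := fun x => f (fun i => if i ∈ A then τ i else x i)

/-- The derivative in the direction of the bit `j`. -/
noncomputable def der (j : Fin n) (f : (Fin n → Bool) → ℝ) : (Fin n → Bool) → ℝ :=
  fun x => (f (Function.update x j true) - f (Function.update x j false)) / 2

/-- The influence of the bit `j`. -/
noncomputable def infl (j : Fin n) (f : (Fin n → Bool) → ℝ) : ℝ := avg (fun x => der j f x ^ 2)

/-- The average over the bits in `A`. -/
noncomputable def avA (A : Finset (Fin n)) (f : (Fin n → Bool) → ℝ) : (Fin n → Bool) → ℝ :=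
  fun x => avg (fun u : Fin n → Bool => f (fun i => if i ∈ A then u i else x i))

/-- All influences are at most `η` times the square mean. -/
def Good (η : ℝ) (f : (Fin n → Bool) → ℝ) : Prop :=
  ∀ j, infl j f ≤ η * avg (fun x => f x ^ 2)

/-- `f` does not depend on the bits in `A`. -/
def Indep {α : Type*} (A : Finset (Fin n)) (f : (Fin n → Bool) → α) : Prop :=
  ∀ x y : Fin n → Bool, (∀ i, i ∉ A → x i = y i) → f x = f y

/-- The sign of a bit. -/
def sg (b : Bool) : ℝ := if b then 1 else -1

end bits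

open Classical in
/-- The probability of a property for the uniform distribution. -/
noncomputable def pr {A : Type*} [Fintype A] (p : A → Prop) : ℝ :=
  avg (fun a => if p a then (1 : ℝ) else 0)

/-- The Walsh function of a set. -/
noncomputable def ch {n : ℕ} (S : Finset (Fin n)) (x : Fin n → Bool) : ℝ := ∏ i ∈ S, sg (x i)

/-- The Walsh coefficient. -/
noncomputable def wc {n : ℕ} (p : (Fin n → Bool) → ℝ) (S : Finset (Fin n)) : ℝ :=
  avg (fun x => p x * ch S x)

/-- The function `exp (i u)`. -/
noncomputable def ei (u : ℝ) : ℂ := Complex.exp (u * Complex.I)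

/-- Anticoncentration of the real polynomials of degree `d` with small influences. -/
def AC (d : ℕ) : Prop :=
  ∀ ε > 0, ∃ s > 0, ∃ τ > 0, ∀ (n : ℕ) (p : (Fin n → Bool) → ℝ), p ∈ lowDeg (Fin n) Bool ℝ d →
    avg (fun x => p x ^ 2) = 1 → (∀ j, infl j p ≤ τ) →
      pr (fun x => |p x| ≤ s) ≤ ε

/-! ## Strings composed of blocks -/

section blocks

variable {n k : ℕ}

/-- The `i`-th bit is the `i`-th bit of the string `y (rr i)`. -/
def mx (rr : Fin n → Fin k) (y : Fin k → Fin n → Bool) : Fin n → Bool := fun i => y (rr i) i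

/-- The coordinates of the block `b`. -/
def blk (rr : Fin n → Fin k) (b : Fin k) : Finset (Fin n) := univ.filter fun i => rr i = b

/-- The law `v` of strings is close to the uniform law for real polynomials of degree at most `K`
which do not depend on the bits in `A`. -/
def Close (A : Finset (Fin n)) (K : ℕ) (γ : ℝ) (v : (Fin n → Bool) → ℝ) : Prop :=
  ∀ r ∈ lowDeg (Fin n) Bool ℝ K, Indep A r →
    |∑ z, v z * r z - avg r| ≤ γ * avg (fun x => |r x|)

/-- The restriction `x = τ` on `A`. -/
def at' (A : Finset (Fin n)) (τ x : Fin n → Bool) : ℂ := if ∀ i ∈ A, x i = τ i then 1 else 0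

/-- The probability of `z = τ` on `A`. -/
noncomputable def msA (A : Finset (Fin n)) (τ : Fin n → Bool) (μ : (Fin n → Bool) → ℝ) : ℝ :=
  ∑ z, if ∀ i ∈ A, z i = τ i then μ z else 0

/-- The conditional law for `z = τ` on `A`. -/
noncomputable def cnd (A : Finset (Fin n)) (τ : Fin n → Bool) (μ : (Fin n → Bool) → ℝ) :
    (Fin n → Bool) → ℝ := fun z => if ∀ i ∈ A, z i = τ i then μ z / msA A τ μ else 0

end blocks

/-! ## Sources -/

/-- A source: hash functions `rr q`, `q < h`, with `2 ^ t` values and a law `μ` of strings. -/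
structure Src (n : ℕ) where
  /-- the number of hash functions -/
  h : ℕ
  /-- the logarithm of the number of blocks -/
  t : ℕ
  /-- the hash functions -/
  rr : ℕ → Fin n → Fin (2 ^ t)
  /-- the law of the strings -/
  μ : (Fin n → Bool) → ℝ

/-- The quality of a source. -/
structure Src.OK {n : ℕ} (S : Src n) (m : ℕ) [NeZero m] (d D : ℕ) (δ : ℝ) : Prop where
  h_pos : 0 < S.h
  nonneg : ∀ z, 0 ≤ S.μ z
  sum_one : ∑ z, S.μ z = 1
  hash : ∀ a : Fin n → ℝ, (∀ i, 0 ≤ a i) →
    nr S.h (fun q => ∑ i, ∑ j, if S.rr q i = S.rr q j then a i * a j else 0) ≤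
      ∑ i, a i ^ 2 + δ * (∑ i, a i) ^ 2
  fool : ∀ (q : ℕ) (A : Finset (Fin n)) (τ : Fin n → Bool), A.card ≤ D →
    ∀ (Γ : Type) [AddCommGroup Γ] [Fintype Γ] (u : AddChar Γ ℂ → (Fin n → Bool) → ℂ)
      (c : Finset (Fin n) → Γ), (∀ χ, u χ ∈ phCls m Bool d n) → Deg d c →
      ‖ex (fun _ => S.μ) (fun y => at' A τ (mx (S.rr q) y) * fam u c (mx (S.rr q) y)) -
        av (fun x => at' A τ x * fam u c x)‖ ≤ δ / 2 ^ A.card
  close : ∀ r ∈ lowDeg (Fin n) Bool ℝ D,
    |∑ z, S.μ z * r z - avg r| ≤ δ / 2 ^ S.t * avg (fun x => |r x|)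

/-- The error of the source for `F` with the restriction `x = τ` on `A`, relative to the probability
of the restriction. -/
noncomputable def err {n : ℕ} (S : Src n) (A : Finset (Fin n)) (τ : Fin n → Bool)
    (F : (Fin n → Bool) → ℂ) : ℝ :=
  nr S.h (fun q => 2 ^ A.card *
    ‖ex (fun _ => S.μ) (fun y => at' A τ (mx (S.rr q) y) * F (mx (S.rr q) y)) -
      av (fun x => at' A τ x * F x)‖)

/-- The product of the indicator functions of `0 < p i`. -/
noncomputable def thr {n r : ℕ} (p : Fin r → (Fin n → Bool) → ℝ) (x : Fin n → Bool) : ℂ :=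
  ∏ i, if 0 < p i x then 1 else 0

/-- The bound `ε` for the errors of products of `r` threshold functions and a phase at all
restrictions where the first `s` polynomials are good. -/
def PtfAt (m : ℕ) [NeZero m] (d r s : ℕ) (ε : ℝ) (D' : ℕ) (δ₀ η : ℝ) : Prop :=
  ∀ (n : ℕ) (S : Src n) (D : ℕ) (δ : ℝ), δ ≤ δ₀ → S.OK m d D δ →
    ∀ (A : Finset (Fin n)) (τ : Fin n → Bool), A.card + D' ≤ D →
    ∀ p : Fin r → (Fin n → Bool) → ℝ, (∀ i, p i ∈ lowDeg (Fin n) Bool ℝ d) →
    (∀ i : Fin r, (i : ℕ) < s → Good η (fx A τ (p i))) →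
    ∀ f ∈ phCls m Bool d n, err S A τ (fun x => thr p x * f x) ≤ ε

/-- Walks: the sum modulo two of the outputs of `G` at the positions `0, …, L n` of a walk. -/
def walkG (v : ℕ) (L : ℕ → ℕ) (E : ℕ → ℕ) (G : ℕ → ℕ → ℕ → Bool) (n p i : ℕ) : Bool :=
  decide ((∑ l ∈ range (L n + 1),
    (if G n (pos (2 ^ E n) v l (p % (2 ^ E n * 2 ^ E n * 8 ^ (v * L n)) / 8 ^ (v * L n))
      (p % (2 ^ E n * 2 ^ E n * 8 ^ (v * L n)) % 8 ^ (v * L n)) % 2 ^ E n) i then 1 else 0)) % 2
      = 1)

/-- The function `T` is a function of the signs of `k` real polynomials of degree at most `d` and of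
the values of `k` tests in `𝒯 n`. -/
def WithThr (𝒯 : ∀ n : ℕ, ((Fin n → Bool) → Bool) → Prop) (d k n : ℕ)
    (T : (Fin n → Bool) → Bool) : Prop :=
  ∃ (p : Fin k → (Fin n → Bool) → ℝ) (U : Fin k → (Fin n → Bool) → Bool)
    (F : (Fin k → Prop) → (Fin k → Bool) → Prop),
    (∀ i, p i ∈ lowDeg (Fin n) Bool ℝ d) ∧ (∀ i, 𝒯 n (U i)) ∧
    ∀ x, T x = true ↔ F (fun i => 0 < p i x) (fun i => U i x)

/-- The function `T` is a function of the signs of `k` real polynomials of degree at most `d`. -/
def ThrTest (d k n : ℕ) (T : (Fin n → Bool) → Bool) : Prop :=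
  ∃ (p : Fin k → (Fin n → Bool) → ℝ) (F : (Fin k → Prop) → Prop),
    (∀ i, p i ∈ lowDeg (Fin n) Bool ℝ d) ∧ ∀ x, T x = true ↔ F (fun i => 0 < p i x)

end Pool.Agent.MP_ca1109_lc.Hyb
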