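import Pool.Agent.MP_ca1109_lc.Hyb.Defs

/-!
# Long walks: the bias decreases exponentially
-/

namespace Pool.Agent.MP_ca1109_lc.Hyb

open Pool.Agent.MP_ca1109_lc.Mpg Pool.Agent.MP_ca1109_lc.Agp Finset

/- PROOF NOTES [HYB-E1].  Compare `Agp/W1.lean` (`walk`) and `Mpg/D1.lean` (`wk_sum`, `wk_contract`).  `λ = (73 / 80) ^ v`.
`(𝒜 H) p = na (8 ^ v) (fun e => H (wk M v p e))`.  `H_0 = F`, `H_{l+1} p = F p * (𝒜 H_l) p`.  Then `na (8 ^ (v * κ)) (fun e => ∏ l ∈ range (κ + 1), F (pos M v l p e)) = H_κ p` for all `p` (induction on `κ`: first digit `e % 8 ^ v` of `e`,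
`na_mul`-type splitting `8 ^ (v (κ+1)) = 8 ^ (v κ) * 8 ^ v`, `pos` peels off the first step: `pos M v (l + 1) p e = pos M v l (wk M v p (e % 8 ^ v)) (e / 8 ^ v)`).
`𝒩 H = nr (M * M) (fun p => ‖H p‖ ^ 2)` (square norm).  Facts: `𝒩 (𝒜 H) ≤ 𝒩 H` (`norm_na_sq_le` and `wk_sum` for `‖H‖ ^ 2`), `𝒩 (𝒜 H) ≤ λ² 𝒩 H` if `na (M * M) H = 0` (`wk_contract`; `(73 / 10) ^ v / 8 ^ v = λ`),
`𝒩 (F * H) ≤ 𝒩 H`.  Put `a = na (M*M) H`, `g = 𝒜 H - a = 𝒜 (H - a)`, `√𝒩 g ≤ λ √𝒩 H` (`𝒩 (H - a) ≤ 𝒩 H`).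
`H_{l+2} = F * 𝒜 (F * 𝒜 H_l)`, `𝒜 (F * 𝒜 H) = a 𝒜 F + 𝒜 (F g)`, `√𝒩 (𝒜 F) ≤ |na F| + λ √𝒩 (F - na F) ≤ δ + λ`, `|a| ≤ √𝒩 H`, `√𝒩 (𝒜 (F g)) ≤ √𝒩 g ≤ λ √𝒩 H`.  So `√𝒩 H_{l+2} ≤ (δ + 2 λ) √𝒩 H_l` (Minkowski for `√𝒩`: work with
`EuclideanSpace`/`PiLp 2`, or prove the triangle inequality from Cauchy-Schwarz).  `‖na H_{2L}‖ ≤ √𝒩 H_{2L} ≤ (δ + 2 λ) ^ L √𝒩 F ≤ (δ + 2 λ) ^ L`.
(`wk_sum`, `wk_contract` are sums over `range (M * M)`, `range (8 ^ L)`.) -/

/-- one step of the walk -/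
private noncomputable def e1_A (M v : ℕ) (H : ℕ → ℂ) : ℕ → ℂ :=
  fun p => na (8 ^ v) (fun e => H (wk M v p e))

/-- the square norm -/
private noncomputable def e1_s (M : ℕ) (H : ℕ → ℂ) : ℝ := √(nr (M * M) (fun p => ‖H p‖ ^ 2))

private theorem e1_s_nonneg (M : ℕ) (H : ℕ → ℂ) : 0 ≤ e1_s M H := Real.sqrt_nonneg _

private theorem e1_nr_nonneg (M : ℕ) (H : ℕ → ℂ) : 0 ≤ nr (M * M) (fun p => ‖H p‖ ^ 2) :=
  nr_nonneg (fun _ _ => by positivity)

private theorem e1_s_sq (M : ℕ) (H : ℕ → ℂ) : e1_s M H ^ 2 = nr (M * M) (fun p => ‖H p‖ ^ 2) :=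
  Real.sq_sqrt (e1_nr_nonneg M H)

private theorem e1_s_eq (M : ℕ) (H : ℕ → ℂ) : e1_s M H =
    ‖(WithLp.toLp 2 (fun i : Fin (M * M) => H i) : EuclideanSpace ℂ (Fin (M * M)))‖ /
      √((M * M : ℕ) : ℝ) := by
  unfold e1_s nr
  rw [EuclideanSpace.norm_eq, Real.sqrt_div (Finset.sum_nonneg (fun _ _ => by positivity)),
    Finset.sum_range (fun p => ‖H p‖ ^ 2)]

private theorem e1_s_add (M : ℕ) (H G : ℕ → ℂ) :
    e1_s M (fun p => H p + G p) ≤ e1_s M H + e1_s M G := by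
  rw [e1_s_eq, e1_s_eq, e1_s_eq, ← add_div]
  apply div_le_div_of_nonneg_right _ (Real.sqrt_nonneg _)
  exact norm_add_le (WithLp.toLp 2 (fun i : Fin (M * M) => H i) : EuclideanSpace ℂ (Fin (M * M)))
    (WithLp.toLp 2 (fun i : Fin (M * M) => G i))

private theorem e1_s_mono (M : ℕ) {H G : ℕ → ℂ} {c : ℝ} (hc : 0 ≤ c)
    (h : nr (M * M) (fun p => ‖H p‖ ^ 2) ≤ c ^ 2 * nr (M * M) (fun p => ‖G p‖ ^ 2)) :
    e1_s M H ≤ c * e1_s M G := by
  unfold e1_s
  calc √(nr (M * M) (fun p => ‖H p‖ ^ 2)) ≤ √(c ^ 2 * nr (M * M) (fun p => ‖G p‖ ^ 2)) :=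
        Real.sqrt_le_sqrt h
    _ = c * √(nr (M * M) (fun p => ‖G p‖ ^ 2)) := by
        rw [Real.sqrt_mul (sq_nonneg c), Real.sqrt_sq hc]

private theorem e1_s_smul (M : ℕ) (c : ℂ) (H : ℕ → ℂ) :
    e1_s M (fun p => c * H p) ≤ ‖c‖ * e1_s M H := by
  apply e1_s_mono M (norm_nonneg c)
  rw [← nr_mul_left]
  apply le_of_eq
  apply nr_congr
  intro p _
  rw [norm_mul, mul_pow]

private theorem e1_s_mul (M : ℕ) {F : ℕ → ℂ} (hF : ∀ p, ‖F p‖ ≤ 1) (H : ℕ → ℂ) :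
    e1_s M (fun p => F p * H p) ≤ e1_s M H := by
  have h := e1_s_mono M (H := fun p => F p * H p) (G := H) (zero_le_one (α := ℝ)) (by
    rw [one_pow, one_mul]
    apply nr_mono
    intro p _
    rw [norm_mul]
    have h1 : ‖F p‖ * ‖H p‖ ≤ ‖H p‖ := mul_le_of_le_one_left (norm_nonneg _) (hF p)
    exact pow_le_pow_left₀ (by positivity) h1 2)
  rwa [one_mul] at h

private theorem e1_wk_sum_real (M L : ℕ) (f : ℕ → ℝ) :
    ∑ p ∈ range (M * M), ∑ e ∈ range (8 ^ L), f (wk M L p e) =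
      8 ^ L * ∑ p ∈ range (M * M), f p := by
  have h := wk_sum M L (fun p => (f p : ℂ))
  exact_mod_cast h

private theorem e1_A_sum (M v : ℕ) (f : ℕ → ℝ) :
    nr (M * M) (fun p => nr (8 ^ v) (fun e => f (wk M v p e))) = nr (M * M) f := by
  unfold nr
  rw [← Finset.sum_div, e1_wk_sum_real]
  have h8 : ((8 ^ v : ℕ) : ℝ) ≠ 0 := by positivity
  push_cast
  field_simp

private theorem e1_s_A (M v : ℕ) (H : ℕ → ℂ) : e1_s M (e1_A M v H) ≤ e1_s M H := by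
  have h := e1_s_mono M (H := e1_A M v H) (G := H) (zero_le_one (α := ℝ)) (by
    rw [one_pow, one_mul, ← e1_A_sum M v (fun p => ‖H p‖ ^ 2)]
    apply nr_mono
    intro p _
    exact norm_na_sq_le (by positivity) (fun e => H (wk M v p e)))
  rwa [one_mul] at h

private theorem e1_s_contract (M v : ℕ) (H : ℕ → ℂ) (h0 : ∑ p ∈ range (M * M), H p = 0) :
    e1_s M (e1_A M v H) ≤ (73 / 80 : ℝ) ^ v * e1_s M H := by
  apply e1_s_mono M (by positivity)
  have h := wk_contract M v H h0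
  unfold nr
  rw [mul_div_assoc']
  apply div_le_div_of_nonneg_right _ (Nat.cast_nonneg _)
  have h1 : ∑ p ∈ range (M * M), ‖e1_A M v H p‖ ^ 2 =
      (∑ p ∈ range (M * M), ‖∑ e ∈ range (8 ^ v), H (wk M v p e)‖ ^ 2) / ((8 : ℝ) ^ v) ^ 2 := by
    rw [Finset.sum_div]
    apply Finset.sum_congr rfl
    intro p _
    unfold e1_A na
    rw [norm_div, div_pow, Complex.norm_natCast]
    push_cast
    rfl
  rw [h1, div_le_iff₀ (by positivity)]
  refine h.trans (le_of_eq ?_)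
  have h2 : ((73 / 10 : ℝ) ^ v) ^ 2 = ((73 / 80 : ℝ) ^ v) ^ 2 * ((8 : ℝ) ^ v) ^ 2 := by
    rw [← mul_pow, ← mul_pow]
    norm_num
  rw [h2]
  ring

private theorem e1_na_le (M : ℕ) (hM : 0 < M) (H : ℕ → ℂ) : ‖na (M * M) H‖ ≤ e1_s M H := by
  have hMM : 0 < M * M := Nat.mul_pos hM hM
  exact Real.le_sqrt_of_sq_le (norm_na_sq_le hMM H)

private theorem e1_const (M : ℕ) (hM : 0 < M) (c : ℂ) : e1_s M (fun _ => c) = ‖c‖ := by
  have hMM : 0 < M * M := Nat.mul_pos hM hM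
  unfold e1_s
  rw [nr_const hMM, Real.sqrt_sq (norm_nonneg _)]

private theorem e1_var (M : ℕ) (hM : 0 < M) (H : ℕ → ℂ) :
    e1_s M (fun p => H p - na (M * M) H) ≤ e1_s M H := by
  have hMM : 0 < M * M := Nat.mul_pos hM hM
  set a := na (M * M) H with ha
  have h := e1_s_mono M (H := fun p => H p - a) (G := H) (zero_le_one (α := ℝ)) (by
    rw [one_pow, one_mul]
    have h1 : nr (M * M) (fun p => ‖H p - a‖ ^ 2) =
        nr (M * M) (fun p => ‖H p‖ ^ 2) - ‖a‖ ^ 2 := by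
      have h2 : (fun p => ‖H p - a‖ ^ 2) = fun p => ‖H p‖ ^ 2 + (‖a‖ ^ 2 -
          2 * (H p * (starRingEnd ℂ) a).re) := by
        funext p
        rw [← Complex.normSq_eq_norm_sq, ← Complex.normSq_eq_norm_sq, ← Complex.normSq_eq_norm_sq,
          Complex.normSq_sub]
        ring
      have h3 : nr (M * M) (fun p => (H p * (starRingEnd ℂ) a).re) = ‖a‖ ^ 2 := by
        have h4 : na (M * M) (fun p => H p * (starRingEnd ℂ) a) = a * (starRingEnd ℂ) a :=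
          na_mul_right _ _ _
        have h5 : (na (M * M) (fun p => H p * (starRingEnd ℂ) a)).re =
            nr (M * M) (fun p => (H p * (starRingEnd ℂ) a).re) := by
          unfold na nr
          rw [Complex.div_natCast_re, Complex.re_sum]
        rw [← h5, h4, Complex.mul_conj, Complex.ofReal_re, Complex.normSq_eq_norm_sq]
      rw [h2, nr_add, nr_sub, nr_mul_left, h3, nr_const hMM]
      ring
    rw [h1]
    have : 0 ≤ ‖a‖ ^ 2 := by positivity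
    linarith)
  rwa [one_mul] at h

private theorem e1_A_sub (M v : ℕ) (H : ℕ → ℂ) (a : ℂ) (p : ℕ) :
    e1_A M v (fun p => H p - a) p = e1_A M v H p - a := by
  unfold e1_A
  rw [na_sub, na_const (by positivity)]

private theorem e1_gap (M v : ℕ) (hM : 0 < M) (H : ℕ → ℂ) :
    e1_s M (fun p => e1_A M v H p - na (M * M) H) ≤ (73 / 80 : ℝ) ^ v * e1_s M H := by
  have hMM : 0 < M * M := Nat.mul_pos hM hM
  have h1 : (fun p => e1_A M v H p - na (M * M) H) =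
      e1_A M v (fun p => H p - na (M * M) H) := by
    funext p
    exact (e1_A_sub M v H _ p).symm
  rw [h1]
  refine (e1_s_contract M v _ ?_).trans
    (mul_le_mul_of_nonneg_left (e1_var M hM H) (by positivity))
  rw [Finset.sum_sub_distrib, Finset.sum_const, card_range, nsmul_eq_mul]
  unfold na
  have : ((M * M : ℕ) : ℂ) ≠ 0 := by exact_mod_cast hMM.ne'
  field_simp
  simp

/-- the iterated functions -/
private noncomputable def e1_H (M v : ℕ) (F : ℕ → ℂ) : ℕ → ℕ → ℂ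
  | 0 => F
  | l + 1 => fun p => F p * e1_A M v (e1_H M v F l) p

private theorem e1_H_eq (M v : ℕ) (F : ℕ → ℂ) (κ : ℕ) : ∀ p,
    na (8 ^ (v * κ)) (fun e => ∏ l ∈ range (κ + 1), F (pos M v l p e)) = e1_H M v F κ p := by
  induction κ with
  | zero =>
    intro p
    have h1 : (fun e => ∏ l ∈ range (0 + 1), F (pos M v l p e)) = fun _ => F p := by
      funext e
      rw [zero_add, prod_range_one]
      rfl
    rw [h1, na_const (by positivity)]
    rfl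
  | succ κ ih =>
    intro p
    have h1 : (fun e => ∏ l ∈ range (κ + 1 + 1), F (pos M v l p e)) = fun e =>
        (fun a b => F p * ∏ l ∈ range (κ + 1), F (pos M v l (wk M v p b) a))
          (e / 8 ^ v) (e % 8 ^ v) := by
      funext e
      rw [prod_range_succ', mul_comm]
      rfl
    rw [h1, mul_add, mul_one, pow_add, na_mul (8 ^ (v * κ)) (B := 8 ^ v) (by positivity)
      (fun a b => F p * ∏ l ∈ range (κ + 1), F (pos M v l (wk M v p b) a)), na_comm]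
    change _ = F p * na (8 ^ v) (fun e => e1_H M v F κ (wk M v p e))
    rw [← na_mul_left]
    apply na_congr
    intro b _
    rw [na_mul_left, ih]

private theorem e1_step (M v : ℕ) (hM : 0 < M) {F : ℕ → ℂ} (hF : ∀ p, ‖F p‖ ≤ 1) {δ : ℝ}
    (hδ : ‖na (M * M) F‖ ≤ δ) (H : ℕ → ℂ) :
    e1_s M (fun p => F p * e1_A M v (fun q => F q * e1_A M v H q) p) ≤
      (δ + 2 * (73 / 80 : ℝ) ^ v) * e1_s M H := by
  have hl : (0 : ℝ) ≤ (73 / 80 : ℝ) ^ v := by positivity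
  have hMM : 0 < M * M := Nat.mul_pos hM hM
  set a := na (M * M) H with ha
  set g : ℕ → ℂ := fun p => e1_A M v H p - a with hg
  have hsg : e1_s M g ≤ (73 / 80 : ℝ) ^ v * e1_s M H := e1_gap M v hM H
  have h1 : e1_A M v (fun q => F q * e1_A M v H q) =
      fun p => a * e1_A M v F p + e1_A M v (fun q => F q * g q) p := by
    funext p
    unfold e1_A
    rw [← na_mul_left, ← na_add]
    apply na_congr
    intro e _
    simp only [hg, e1_A]
    ring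
  have hsF : e1_s M F ≤ 1 := by
    unfold e1_s
    rw [Real.sqrt_le_one]
    apply nr_le hMM
    intro p _
    exact pow_le_one₀ (norm_nonneg _) (hF p)
  have h2 : e1_s M (e1_A M v F) ≤ δ + (73 / 80 : ℝ) ^ v := by
    have h3 := e1_s_add M (fun _ => na (M * M) F) (fun p => e1_A M v F p - na (M * M) F)
    have h4 : (fun p => na (M * M) F + (e1_A M v F p - na (M * M) F)) = e1_A M v F := by
      funext p
      ring
    rw [h4, e1_const M hM] at h3
    have h5 := e1_gap M v hM F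
    have h6 : (73 / 80 : ℝ) ^ v * e1_s M F ≤ (73 / 80 : ℝ) ^ v := mul_le_of_le_one_right hl hsF
    linarith
  refine (e1_s_mul M hF _).trans ?_
  rw [h1]
  refine (e1_s_add M _ _).trans ?_
  have h7 : e1_s M (fun p => a * e1_A M v F p) ≤ e1_s M H * (δ + (73 / 80 : ℝ) ^ v) := by
    refine (e1_s_smul M a _).trans ?_
    exact mul_le_mul (e1_na_le M hM H) h2 (e1_s_nonneg _ _) (e1_s_nonneg _ _)
  have h8 : e1_s M (fun p => e1_A M v (fun q => F q * g q) p) ≤ (73 / 80 : ℝ) ^ v * e1_s M H :=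
    (e1_s_A M v _).trans ((e1_s_mul M hF g).trans hsg)
  linarith

theorem walk_pow {M : ℕ} (hM : 0 < M) (v L : ℕ) {F : ℕ → ℂ} (hF : ∀ p, ‖F p‖ ≤ 1) {δ : ℝ}
    (hδ : ‖na (M * M) F‖ ≤ δ) :
    ‖na (M * M) (fun p => na (8 ^ (v * (2 * L))) (fun e =>
      ∏ l ∈ range (2 * L + 1), F (pos M v l p e)))‖ ≤ (δ + 2 * (73 / 80 : ℝ) ^ v) ^ L := by
  have hMM : 0 < M * M := Nat.mul_pos hM hM
  have hl : (0 : ℝ) ≤ (73 / 80 : ℝ) ^ v := by positivity
  have hδ0 : 0 ≤ δ := (norm_nonneg _).trans hδ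
  have h1 : (fun p => na (8 ^ (v * (2 * L))) (fun e =>
      ∏ l ∈ range (2 * L + 1), F (pos M v l p e))) = e1_H M v F (2 * L) := by
    funext p
    exact e1_H_eq M v F (2 * L) p
  rw [h1]
  refine (e1_na_le M hM _).trans ?_
  have hsF : e1_s M F ≤ 1 := by
    unfold e1_s
    rw [Real.sqrt_le_one]
    apply nr_le hMM
    intro p _
    exact pow_le_one₀ (norm_nonneg _) (hF p)
  induction L with
  | zero =>
    rw [pow_zero]
    exact hsF
  | succ L ih =>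
    have h2 : e1_H M v F (2 * (L + 1)) =
        fun p => F p * e1_A M v (fun q => F q * e1_A M v (e1_H M v F (2 * L)) q) p := rfl
    rw [h2, pow_succ, mul_comm ((δ + 2 * (73 / 80 : ℝ) ^ v) ^ L)]
    refine (e1_step M v hM hF hδ _).trans ?_
    apply mul_le_mul_of_nonneg_left _ (by positivity)
    apply ih
    funext p
    exact e1_H_eq M v F (2 * L) p

end Pool.Agent.MP_ca1109_lc.Hyb
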