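import Pool.Agent.MP_ca1109_lc.Hyb.Defs

/-!
# Generators for many or for complex threshold functions imply circuit lower bounds
-/

namespace Pool.Agent.MP_ca1109_lc.Hyb

open Pool.Agent.H66 Pool.Agent.MP_ca1109_lc.Mpg Pool.Agent.MP_ca1109_lc.Agp Finset

/- PROOF NOTES [HYB-F1].  `hard_of_junta` (`Agp/H3.lean`), models `groupTest_degree`, `groupTest_number`.
`thrTest_degree`: `p 0 x = if T x then 1 else 0` is in `lowDeg (Fin m) Bool ℝ g` (`junta_mem`; the set of the `i < g` has at most `g` elements), `F a = a 0`.
`thrTest_number`: `p i x = if x ⟨i, _⟩ then 1 else 0` (`0` if `i ≥ m`), one bit each; `T x` is determined by the bits `i < g`: `F a = ∃ x, T x = true ∧ ∀ i : Fin g, (a i ↔ (bit i of x is true))`. -/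

theorem thrTest_degree {m g : ℕ} (T : (Fin m → Bool) → Bool)
    (hT : DependsOn T ((univ.filter fun i : Fin m => (i : ℕ) < g : Finset (Fin m)) : Set (Fin m))) :
    ThrTest g 1 m T := by
  refine ⟨fun _ x => if T x then 1 else 0, fun a => a 0, fun _ => ?_, fun x => ?_⟩
  · refine junta_mem (univ.filter fun i : Fin m => (i : ℕ) < g) ?_ ?_
    · have h1 : (univ.filter fun i : Fin m => (i : ℕ) < g).card ≤ (range g).card := by
        refine Finset.card_le_card_of_injOn (fun i => (i : ℕ)) ?_ ?_
        · intro i hi
          simpa using hi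
        · intro i _ j _ hij
          exact Fin.ext hij
      simpa using h1
    · intro x y hxy
      show (if T x = true then (1 : ℝ) else 0) = if T y = true then 1 else 0
      rw [hT hxy]
  · cases hx : T x <;> simp [hx]

theorem thrTest_number {m g : ℕ} (T : (Fin m → Bool) → Bool)
    (hT : DependsOn T ((univ.filter fun i : Fin m => (i : ℕ) < g : Finset (Fin m)) : Set (Fin m))) :
    ThrTest 1 g m T := by
  classical
  let P : Fin g → (Fin m → Bool) → ℝ := fun i x =>
    if h : (i : ℕ) < m then (if x ⟨i, h⟩ then 1 else 0) else 0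
  refine ⟨P, fun b => ∃ y, T y = true ∧ ∀ i, (0 < P i y ↔ b i), fun i => ?_, fun x => ?_⟩
  · by_cases h : (i : ℕ) < m
    · refine junta_mem {⟨i, h⟩} (by simp) ?_
      intro x y hxy
      show P i x = P i y
      simp only [P, h, dif_pos]
      rw [hxy ⟨i, h⟩ (by simp)]
    · have : P i = fun _ => 0 := by
        funext x
        simp only [P, h, dif_neg, not_false_eq_true]
      rw [this]
      exact lowDeg_const 0
  · constructor
    · intro hx
      exact ⟨x, hx, fun i => Iff.rfl⟩
    · rintro ⟨y, hy, h⟩
      rw [← hy]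
      apply hT
      intro i hi
      simp only [Finset.coe_filter, Finset.mem_univ, true_and, Set.mem_setOf_eq] at hi
      have h1 := h ⟨i, hi⟩
      simp only [P, i.2, dif_pos] at h1
      revert h1
      cases x i <;> cases y i <;> simp

theorem hard_of_thr {g : ℕ → ℕ}
    (hg : Filter.Tendsto (fun m : ℕ => (g m : ℝ) / Real.logb 2 m) Filter.atTop Filter.atTop)
    {δ : ℝ} (hδ : δ < 1)
    (h : GenExists (fun m C => ThrTest (g m) 1 m C.eval) δ ∨
      GenExists (fun m C => ThrTest 1 (g m) m C.eval) δ) : HardLanguage := by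
  rcases h with h | h
  · exact hard_of_junta hg (fun m T hT => thrTest_degree T hT) hδ h
  · exact hard_of_junta hg (fun m T hT => thrTest_number T hT) hδ h

end Pool.Agent.MP_ca1109_lc.Hyb
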